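import Pool.Agent.Helper517.Smooth

/-!
Smooth Cayley polytopes over polygons have regular unimodular triangulations.
-/

namespace Pool.Agent.Helper517.Assemble

open Finset Pool.Agent.Helper517.Place Pool.Agent.Helper517.Conv Pool.Agent.Helper517.Frame
open Pool.Agent.Helper517.Smooth Pool.Agent.Helper517.Walk Pool.Agent.Helper517.Extract
open Pool.Agent.Helper517 Pool.Agent.Helper517.Step
open Pool.Agent.Helper489.RUT (ev)

variable {d k : ℕ}

/-- The points of given level and coordinates. -/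
def psi (v w w' : Fin d → ℤ) (U : Fin (k + 1) → (Fin d → ℤ)) (z : Pt (Fin (k + 1))) :
    Fin d → ℤ := v + U z.1 + z.2.1 • w + z.2.2 • w'

section frame

variable {L : Set (Fin d → ℤ)} {lam : Fin (k + 1) → (Fin d → ℤ) × ℤ} {j : Fin (k + 1)}
  {v w w' : Fin d → ℤ} {U : Fin (k + 1) → (Fin d → ℤ)} {X Y : Fin d → ℤ}

lemma psi_lam (hF : VFrame L lam j v w w' U X Y) (z : Pt (Fin (k + 1))) (l : Fin (k + 1)) :
    evZ (lam l) (psi v w w' U z) = if l = z.1 then 1 else 0 := by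
  rw [psi, evZ_add, evZ_add, hF.lamU, dotProduct_smul, dotProduct_smul, hF.lamw, hF.lamw']
  simp

lemma psi_X (hF : VFrame L lam j v w w' U X Y) (z : Pt (Fin (k + 1))) :
    X ⬝ᵥ (psi v w w' U z - v) = z.2.1 := by
  have : psi v w w' U z - v = U z.1 + z.2.1 • w + z.2.2 • w' := by rw [psi]; abel
  rw [this, dotProduct_add, dotProduct_add, dotProduct_smul, dotProduct_smul, hF.XU, hF.Xw, hF.Xw']
  simp

lemma psi_Y (hF : VFrame L lam j v w w' U X Y) (z : Pt (Fin (k + 1))) :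
    Y ⬝ᵥ (psi v w w' U z - v) = z.2.2 := by
  have : psi v w w' U z - v = U z.1 + z.2.1 • w + z.2.2 • w' := by rw [psi]; abel
  rw [this, dotProduct_add, dotProduct_add, dotProduct_smul, dotProduct_smul, hF.YU, hF.Yw, hF.Yw']
  simp

lemma repr_level (hF : VFrame L lam j v w w' U X Y) {x : Fin d → ℤ} {i : Fin (k + 1)}
    (hx : ∀ l, evZ (lam l) x = if l = i then 1 else 0) :
    x = v + U i + (X ⬝ᵥ (x - v)) • w + (Y ⬝ᵥ (x - v)) • w' := by
  have h := hF.repr x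
  have e : ∑ l, evZ (lam l) x • U l = U i := by
    rw [sum_eq_single i]
    · rw [hx, if_pos rfl, one_smul]
    · intro l _ hl
      rw [hx, if_neg hl, zero_smul]
    · intro h; exact absurd (mem_univ _) h
  rw [e] at h
  exact h

lemma psi_coord (hF : VFrame L lam j v w w' U X Y) {x : Fin d → ℤ} {i : Fin (k + 1)}
    (hx : ∀ l, evZ (lam l) x = if l = i then 1 else 0) :
    psi v w w' U (i, X ⬝ᵥ (x - v), Y ⬝ᵥ (x - v)) = x := (repr_level hF hx).symm

lemma lam_v (hF : VFrame L lam j v w w' U X Y) (l : Fin (k + 1)) :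
    evZ (lam l) v = if l = j then 1 else 0 := by
  have := hF.lamU j l
  rwa [hF.Uj, add_zero] at this

lemma affZ_pull (hF : VFrame L lam j v w w' U X Y) {l : Pt (Fin (k + 1)) → ℤ} (hl : AffZ l) :
    ∃ (a : Fin d → ℤ) (c : ℤ), ∀ z, l z = evZ (a, c) (psi v w w' U z) := by
  obtain ⟨α, β, γ, h⟩ := hl
  refine ⟨∑ i, α i • (lam i).1 + β • X + γ • Y,
    ∑ i, α i * (lam i).2 - β * (X ⬝ᵥ v) - γ * (Y ⬝ᵥ v), fun z => ?_⟩
  have e1 : ∑ i, α i * evZ (lam i) (psi v w w' U z) = α z.1 := by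
    rw [sum_eq_single z.1]
    · rw [psi_lam hF, if_pos rfl, mul_one]
    · intro i _ hi
      rw [psi_lam hF, if_neg hi, mul_zero]
    · intro h; exact absurd (mem_univ _) h
  have e2 := psi_X hF z
  have e3 := psi_Y hF z
  rw [dotProduct_sub] at e2 e3
  rw [h, ← e1, ← e2, ← e3]
  simp only [evZ, add_dotProduct, sum_dotProduct, smul_dotProduct, smul_eq_mul, mul_add,
    sum_add_distrib]
  ring

lemma affR_push (v w w' : Fin d → ℤ) (U : Fin (k + 1) → (Fin d → ℤ)) (φ : (Fin d → ℝ) × ℝ) :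
    AffR (fun z => ev φ (toR (psi v w w' U z))) := by
  refine ⟨fun i => ev φ (toR (v + U i)), ∑ i, φ.1 i * (w i : ℝ), ∑ i, φ.1 i * (w' i : ℝ),
    fun z => ?_⟩
  simp only [ev, psi, toR, Pi.add_apply, Pi.smul_apply, smul_eq_mul]
  push_cast
  simp only [mul_add, sum_add_distrib, sum_mul]
  have e1 : ∑ i, φ.1 i * ((z.2.1 : ℝ) * (w i : ℝ)) = ∑ i, φ.1 i * (w i : ℝ) * (z.2.1 : ℝ) :=
    sum_congr rfl (fun i _ => by ring)
  have e2 : ∑ i, φ.1 i * ((z.2.2 : ℝ) * (w' i : ℝ)) = ∑ i, φ.1 i * (w' i : ℝ) * (z.2.2 : ℝ) :=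
    sum_congr rfl (fun i _ => by ring)
  rw [e1, e2]
  ring

end frame

/-- The weak corner property. -/
theorem hc0 {L : Set (Fin d → ℤ)} {lam : Fin (k + 1) → (Fin d → ℤ) × ℤ}
    (hpos : ∀ x ∈ L, ∀ l, 0 ≤ evZ (lam l) x) (hsum : ∀ x ∈ L, ∑ l, evZ (lam l) x = 1)
    {j0 : Fin (k + 1)} {v0 w w' : Fin d → ℤ} {U : Fin (k + 1) → (Fin d → ℤ)} {X Y : Fin d → ℤ}
    (hF : VFrame L lam j0 v0 w w' U X Y)
    (hframe : ∀ v ∈ L, ∀ f : (Fin d → ℤ) × ℤ, (∀ x ∈ L, x ≠ v → evZ f v < evZ f x) →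
      ∃ (j : Fin (k + 1)) (w w' : Fin d → ℤ) (U : Fin (k + 1) → (Fin d → ℤ)) (X Y : Fin d → ℤ),
        VFrame L lam j v w w' U X Y) :
    HC0 {z : Pt (Fin (k + 1)) | psi v0 w w' U z ∈ L} := by
  classical
  rintro z ⟨hzL, f, hf, hfmin⟩
  set v := psi v0 w w' U z with hv
  have hzL' : v ∈ L := hzL
  obtain ⟨a, c, hac⟩ := affZ_pull hF hf
  have hexp : ∀ x ∈ L, x ≠ v → evZ (a, c) v < evZ (a, c) x := by
    intro x hx hne
    obtain ⟨i, hi⟩ := exists_level hpos hsum hx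
    have e := psi_coord hF hi
    have := hfmin (i, X ⬝ᵥ (x - v0), Y ⬝ᵥ (x - v0)) (by
      show psi v0 w w' U _ ∈ L
      rw [e]; exact hx) (by
      intro h
      apply hne
      rw [← e, h, hv])
    rw [hac, hac, e] at this
    exact this
  obtain ⟨j, wv, wv', Uv, Xv, Yv, hG⟩ := hframe v hzL' (a, c) hexp
  have hj : j = z.1 := by
    have h1 := lam_v hG j
    have h2 := psi_lam hF z j
    rw [← hv, h1, if_pos rfl] at h2
    by_contra hcon
    rw [if_neg hcon] at h2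
    exact one_ne_zero h2
  subst hj
  have hX0 : X ⬝ᵥ (v - v0) = z.2.1 := psi_X hF z
  have hY0 : Y ⬝ᵥ (v - v0) = z.2.2 := psi_Y hF z
  set W : ℤ × ℤ := (X ⬝ᵥ wv, Y ⬝ᵥ wv) with hW
  set W' : ℤ × ℤ := (X ⬝ᵥ wv', Y ⬝ᵥ wv') with hW'
  let cc : Fin (k + 1) → ℤ × ℤ := fun l => (X ⬝ᵥ (v + Uv l - v0), Y ⬝ᵥ (v + Uv l - v0))
  have hcl : ∀ l, psi v0 w w' U (l, cc l) = v + Uv l := fun l => psi_coord hF (hG.lamU l)
  have hcz : cc z.1 = z.2 := by
    simp only [cc]
    rw [hG.Uj, add_zero, hX0, hY0]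
  have hlw : ∀ l, evZ (lam l) (v + wv) = if l = z.1 then 1 else 0 := by
    intro l
    rw [evZ_add, hG.lamw, add_zero, lam_v hG]
  have hlw' : ∀ l, evZ (lam l) (v + wv') = if l = z.1 then 1 else 0 := by
    intro l
    rw [evZ_add, hG.lamw', add_zero, lam_v hG]
  have hpw : psi v0 w w' U (z.1, z.2 + W) = v + wv := by
    have := psi_coord hF hlw
    have e1 : X ⬝ᵥ (v + wv - v0) = z.2.1 + X ⬝ᵥ wv := by
      rw [← hX0, dotProduct_sub, dotProduct_add, dotProduct_sub]; ring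
    have e2 : Y ⬝ᵥ (v + wv - v0) = z.2.2 + Y ⬝ᵥ wv := by
      rw [← hY0, dotProduct_sub, dotProduct_add, dotProduct_sub]; ring
    rw [e1, e2] at this
    exact this
  have hpw' : psi v0 w w' U (z.1, z.2 + W') = v + wv' := by
    have := psi_coord hF hlw'
    have e1 : X ⬝ᵥ (v + wv' - v0) = z.2.1 + X ⬝ᵥ wv' := by
      rw [← hX0, dotProduct_sub, dotProduct_add, dotProduct_sub]; ring
    have e2 : Y ⬝ᵥ (v + wv' - v0) = z.2.2 + Y ⬝ᵥ wv' := by
      rw [← hY0, dotProduct_sub, dotProduct_add, dotProduct_sub]; ring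
    rw [e1, e2] at this
    exact this
  -- determinant
  have hwrep : w = (Xv ⬝ᵥ w) • wv + (Yv ⬝ᵥ w) • wv' := by
    have h1 : ∀ l, evZ (lam l) (v + w) = if l = z.1 then 1 else 0 := by
      intro l
      rw [evZ_add, hF.lamw, add_zero, lam_v hG]
    have h2 := repr_level hG h1
    rw [hG.Uj, add_zero, add_sub_cancel_left, add_assoc] at h2
    exact add_left_cancel h2
  have hwrep' : w' = (Xv ⬝ᵥ w') • wv + (Yv ⬝ᵥ w') • wv' := by
    have h1 : ∀ l, evZ (lam l) (v + w') = if l = z.1 then 1 else 0 := by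
      intro l
      rw [evZ_add, hF.lamw', add_zero, lam_v hG]
    have h2 := repr_level hG h1
    rw [hG.Uj, add_zero, add_sub_cancel_left, add_assoc] at h2
    exact add_left_cancel h2
  have q1 : (Xv ⬝ᵥ w) * (X ⬝ᵥ wv) + (Yv ⬝ᵥ w) * (X ⬝ᵥ wv') = 1 := by
    have := hF.Xw
    rw [hwrep, dotProduct_add, dotProduct_smul, dotProduct_smul, smul_eq_mul,
      smul_eq_mul] at this
    exact this
  have q2 : (Xv ⬝ᵥ w) * (Y ⬝ᵥ wv) + (Yv ⬝ᵥ w) * (Y ⬝ᵥ wv') = 0 := by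
    have := hF.Yw
    rw [hwrep, dotProduct_add, dotProduct_smul, dotProduct_smul, smul_eq_mul,
      smul_eq_mul] at this
    exact this
  have q3 : (Xv ⬝ᵥ w') * (X ⬝ᵥ wv) + (Yv ⬝ᵥ w') * (X ⬝ᵥ wv') = 0 := by
    have := hF.Xw'
    rw [hwrep', dotProduct_add, dotProduct_smul, dotProduct_smul, smul_eq_mul,
      smul_eq_mul] at this
    exact this
  have q4 : (Xv ⬝ᵥ w') * (Y ⬝ᵥ wv) + (Yv ⬝ᵥ w') * (Y ⬝ᵥ wv') = 1 := by
    have := hF.Yw'
    rw [hwrep', dotProduct_add, dotProduct_smul, dotProduct_smul, smul_eq_mul,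
      smul_eq_mul] at this
    exact this
  have hdet : dt W W' * ((Xv ⬝ᵥ w) * (Yv ⬝ᵥ w') - (Yv ⬝ᵥ w) * (Xv ⬝ᵥ w')) = 1 := by
    simp only [dt, hW, hW']
    linear_combination ((Xv ⬝ᵥ w') * (Y ⬝ᵥ wv) + (Yv ⬝ᵥ w') * (Y ⬝ᵥ wv')) * q1 + q4 -
      ((Xv ⬝ᵥ w) * (Y ⬝ᵥ wv) + (Yv ⬝ᵥ w) * (Y ⬝ᵥ wv')) * q3
  -- the cone
  have hcone : ∀ l x, (l, x) ∈ {z : Pt (Fin (k + 1)) | psi v0 w w' U z ∈ L} →
      ∃ α β : ℤ, 0 ≤ α ∧ 0 ≤ β ∧ x - cc l = α • W + β • W' := by
    intro l x hx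
    have hxL : psi v0 w w' U (l, x) ∈ L := hx
    set p := psi v0 w w' U (l, x) with hp
    have h1 : ∀ l', evZ (lam l') p = if l' = l then 1 else 0 := fun l' => psi_lam hF (l, x) l'
    have h2 := repr_level hG h1
    obtain ⟨h3, h4⟩ := hG.pos p hxL
    have h5 : X ⬝ᵥ (p - v0) = x.1 := psi_X hF (l, x)
    have h6 : Y ⬝ᵥ (p - v0) = x.2 := psi_Y hF (l, x)
    refine ⟨_, _, h3, h4, ?_⟩
    have h7 : p - v0 = (v + Uv l - v0) + ((Xv ⬝ᵥ (p - v)) • wv + (Yv ⬝ᵥ (p - v)) • wv') := by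
      calc p - v0 = (v + Uv l + (Xv ⬝ᵥ (p - v)) • wv + (Yv ⬝ᵥ (p - v)) • wv') - v0 := by
            rw [← h2]
        _ = _ := by abel
    rw [h7, dotProduct_add, dotProduct_add, dotProduct_smul, dotProduct_smul, smul_eq_mul,
      smul_eq_mul] at h5 h6
    refine Prod.ext ?_ ?_
    · simp only [cc, Prod.fst_sub, Prod.fst_add, Prod.smul_fst, smul_eq_mul, hW, hW']
      linarith
    · simp only [cc, Prod.snd_sub, Prod.snd_add, Prod.smul_snd, smul_eq_mul, hW, hW']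
      linarith
  have hmem : ∀ l, (l, cc l) ∈ {z : Pt (Fin (k + 1)) | psi v0 w w' U z ∈ L} := by
    intro l
    show psi v0 w w' U (l, cc l) ∈ L
    rw [hcl]
    exact hG.memU l
  have hmemw : (z.1, z.2 + W) ∈ {z : Pt (Fin (k + 1)) | psi v0 w w' U z ∈ L} := by
    show psi v0 w w' U _ ∈ L
    rw [hpw]; exact hG.memw
  have hmemw' : (z.1, z.2 + W') ∈ {z : Pt (Fin (k + 1)) | psi v0 w w' U z ∈ L} := by
    show psi v0 w w' U _ ∈ L
    rw [hpw']; exact hG.memw'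
  rcases Int.eq_one_or_neg_one_of_mul_eq_one' hdet with h | h
  · refine ⟨W, W', cc, h.1, hcz, hmem, hmemw, hmemw', ?_⟩
    intro l x hx
    obtain ⟨α, β, ha, hb, e⟩ := hcone l x hx
    rw [e, dt_add_right, dt_smul_right, dt_smul_right, dt_self, dt_add_left, dt_smul_left,
      dt_smul_left, dt_self, h.1]
    constructor <;> linarith
  · have h1 : dt W' W = 1 := by rw [dt_swap, h.1]; ring
    refine ⟨W', W, cc, h1, hcz, hmem, hmemw', hmemw, ?_⟩
    intro l x hx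
    obtain ⟨α, β, ha, hb, e⟩ := hcone l x hx
    rw [e, dt_add_right, dt_smul_right, dt_smul_right, dt_self, dt_add_left, dt_smul_left,
      dt_smul_left, dt_self, h1]
    constructor <;> linarith

lemma psi_injective {L : Set (Fin d → ℤ)} {lam : Fin (k + 1) → (Fin d → ℤ) × ℤ}
    {j : Fin (k + 1)} {v w w' : Fin d → ℤ} {U : Fin (k + 1) → (Fin d → ℤ)} {X Y : Fin d → ℤ}
    (hF : VFrame L lam j v w w' U X Y) : Function.Injective (psi v w w' U) := by
  intro z z' h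
  have h1 := psi_X hF z
  have h2 := psi_Y hF z
  have h3 := psi_lam hF z z.1
  rw [h] at h1 h2 h3
  rw [psi_X hF] at h1
  rw [psi_Y hF] at h2
  rw [psi_lam hF, if_pos rfl] at h3
  have h4 : z.1 = z'.1 := by
    by_contra hcon
    rw [if_neg hcon] at h3
    exact zero_ne_one h3
  exact Prod.ext h4 (Prod.ext h1.symm h2.symm)

/-- Affine images of convex hulls. -/
lemma affine_mem {A B C : Fin d → ℝ} {K : Set (Fin d → ℝ)} (hK : Convex ℝ K) {T : Set (ℝ × ℝ)}
    (hT : ∀ p ∈ T, C + p.1 • A + p.2 • B ∈ K) {p : ℝ × ℝ} (hp : p ∈ convexHull ℝ T) :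
    C + p.1 • A + p.2 • B ∈ K := by
  have hconv : Convex ℝ {p : ℝ × ℝ | C + p.1 • A + p.2 • B ∈ K} := by
    intro p hp q hq a b ha hb hab
    show C + (a • p + b • q).1 • A + (a • p + b • q).2 • B ∈ K
    have h1 := hK hp hq ha hb hab
    have h2 : a • (C + p.1 • A + p.2 • B) + b • (C + q.1 • A + q.2 • B) =
        C + (a • p + b • q).1 • A + (a • p + b • q).2 • B := by
      funext i
      simp only [Pi.add_apply, Pi.smul_apply, smul_eq_mul, Prod.fst_add, Prod.smul_fst,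
        Prod.snd_add, Prod.smul_snd]
      linear_combination (C i) * hab
    rwa [h2] at h1
  exact convexHull_min (s := T) hT hconv hp

/-- The case of two-dimensional fibres. -/
theorem main_two {k : ℕ} {P : Set (Fin (k + 2) → ℝ)} (S : Set (Fin (k + 2) → ℤ)) (hS : S.Finite)
    (hP : P = convexHull ℝ (toR '' S)) (hsm : ∀ v ∈ P.extremePoints ℝ, SmoothAt P v)
    (lam : Fin (k + 1) → (Fin (k + 2) → ℤ) × ℤ) (hpos : ∀ x ∈ P, ∀ j, 0 ≤ evR (lam j) x)
    (hsum : ∀ x ∈ P, ∑ j, evR (lam j) x = 1)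
    (hfib : ∀ j, ∃ x ∈ P, evR (lam j) x = 1)
    (htwo : ∀ v : Fin (k + 2) → ℤ, toR v ∈ P.extremePoints ℝ →
      ∀ u D : Fin (k + 2) → (Fin (k + 2) → ℤ), DualBasis u D → (∀ i, toR (v + u i) ∈ P) →
      (∀ x : Fin (k + 2) → ℤ, toR x ∈ P → ∀ i, 0 ≤ D i ⬝ᵥ (x - v)) →
      ∀ j, evZ (lam j) v = 1 →
      ∃ a b, a ≠ b ∧ (lam j).1 ⬝ᵥ u a = 0 ∧ (lam j).1 ⬝ᵥ u b = 0) :
    ∃ (K : Geometry.SimplicialComplex ℝ (Fin (k + 2) → ℝ)) (h : (Fin (k + 2) → ℝ) → ℝ),
      K.space = P ∧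
      (∀ σ : Finset (Fin (k + 2) → ℝ), σ ∈ K.faces ↔
        σ.Nonempty ∧ (∀ v ∈ σ, v ∈ P ∧ ∀ i, ∃ z : ℤ, v i = (z : ℝ)) ∧
        ∃ (a : Fin (k + 2) → ℝ) (c : ℝ), (∀ v ∈ σ, ∑ i, a i * v i + c = h v) ∧
          ∀ w, (w ∈ P ∧ ∀ i, ∃ z : ℤ, w i = (z : ℝ)) → w ∉ σ → ∑ i, a i * w i + c < h w) ∧
      ∀ σ ∈ K.facets, ∃ v : Fin (k + 2 + 1) → (Fin (k + 2) → ℤ), Function.Injective v ∧
        (∀ x, x ∈ σ ↔ ∃ j, x = fun i => (v j i : ℝ)) ∧
        |Matrix.det (Matrix.of fun (j : Fin (k + 2)) (i : Fin (k + 2)) =>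
          v j.succ i - v 0 i)| = 1 := by
  classical
  set L : Set (Fin (k + 2) → ℤ) := {x | toR x ∈ P} with hL
  have hSL : S ⊆ L := fun s hs => by
    show toR s ∈ P
    rw [hP]; exact subset_convexHull ℝ _ ⟨s, hs, rfl⟩
  have hLfin : L.Finite := by
    rw [hL, hP]; exact finite_lattice hS
  have hLpos : ∀ x ∈ L, ∀ l, 0 ≤ evZ (lam l) x := by
    intro x hx l
    have := hpos _ hx l
    rw [evR_toR] at this
    exact_mod_cast this
  have hLsum : ∀ x ∈ L, ∑ l, evZ (lam l) x = 1 := by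
    intro x hx
    have := hsum _ hx
    simp only [evR_toR] at this
    exact_mod_cast this
  have hle : ∀ j, ∀ x ∈ P, evR (lam j) x ≤ 1 := by
    intro j x hx
    rw [← hsum x hx]
    exact single_le_sum (f := fun j => evR (lam j) x) (fun l _ => hpos x hx l) (mem_univ j)
  have hne : ∀ l, ∃ x ∈ L, evZ (lam l) x = 1 := by
    intro l
    obtain ⟨s, hs, hs1⟩ := level_nonempty hP (hle l) (hfib l)
    exact ⟨s, hSL hs, hs1⟩
  have hPconv : Convex ℝ P := by rw [hP]; exact convex_convexHull ℝ _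
  -- frames at extreme points
  have hfr : ∀ v : Fin (k + 2) → ℤ, toR v ∈ P.extremePoints ℝ →
      ∃ (j : Fin (k + 1)) (w w' : Fin (k + 2) → ℤ) (U : Fin (k + 1) → (Fin (k + 2) → ℤ))
        (X Y : Fin (k + 2) → ℤ), VFrame L lam j v w w' U X Y := by
    intro v hv
    have hvL : v ∈ L := hv.1
    obtain ⟨u, D, hD, hu, hc1, hc2⟩ := basis_at (hsm _ hv)
    obtain ⟨j, hj⟩ := exists_level hLpos hLsum hvL
    have hj1 : evZ (lam j) v = 1 := by rw [hj, if_pos rfl]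
    obtain ⟨a, b, hab, ha, hb⟩ := htwo v hv u D hD hu hc1 j hj1
    obtain ⟨U, hU⟩ := exists_frame hLpos hLsum hne hvL hj1 hD hu hc1 hab ha hb
    exact ⟨j, u a, u b, U, D a, D b, hU⟩
  have hframe : ∀ v ∈ L, ∀ f : (Fin (k + 2) → ℤ) × ℤ, (∀ x ∈ L, x ≠ v → evZ f v < evZ f x) →
      ∃ (j : Fin (k + 1)) (w w' : Fin (k + 2) → ℤ) (U : Fin (k + 1) → (Fin (k + 2) → ℤ))
        (X Y : Fin (k + 2) → ℤ), VFrame L lam j v w w' U X Y :=
    fun v hv f hf => hfr v (extreme_of_exposed hP hSL hv f hf)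
  -- the base frame
  obtain ⟨v0, hv0⟩ : ∃ v : Fin (k + 2) → ℤ, toR v ∈ P.extremePoints ℝ := by
    have hcomp : IsCompact P := by rw [hP]; exact (hS.image _).isCompact_convexHull (𝕜 := ℝ)
    obtain ⟨x, hx, _⟩ := hne 0
    obtain ⟨y, hy⟩ := hcomp.extremePoints_nonempty ⟨_, hx⟩
    have h1 : y ∈ toR '' S := by
      rw [hP] at hy
      exact extremePoints_convexHull_subset hy
    obtain ⟨s, _, rfl⟩ := h1
    exact ⟨s, hy⟩
  obtain ⟨j0, w, w', U, X, Y, hF⟩ := hfr v0 hv0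
  set A : Set (Pt (Fin (k + 1))) := {z | psi v0 w w' U z ∈ L} with hA
  have hAfin : A.Finite := hLfin.preimage (psi_injective hF).injOn
  have hHC : HC A := hc_of_hc0 (hc0 hLpos hLsum hF hframe)
  have hpsi0 : psi v0 w w' U (j0, 0) = v0 := by
    simp [psi, hF.Uj]
  have hexp : Exp A (j0, 0) := by
    refine ⟨?_, fun z => dt (1, 0) z.2 + dt z.2 (0, 1) +
      (fun i => if i = j0 then (0 : ℤ) else 1) z.1, ?_, ?_⟩
    · show psi v0 w w' U (j0, 0) ∈ L
      rw [hpsi0]; exact hv0.1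
    · refine ⟨fun i => if i = j0 then (0 : ℤ) else 1, 1, 1, fun z => ?_⟩
      simp only [dt]
      ring
    · rintro ⟨l, x⟩ hx hne'
      have hxL : psi v0 w w' U (l, x) ∈ L := hx
      obtain ⟨h1, h2⟩ := hF.pos _ hxL
      rw [psi_X hF] at h1
      rw [psi_Y hF] at h2
      simp only [dt, Prod.fst_zero, Prod.snd_zero] at h1 h2 ⊢
      by_cases hl : l = j0
      · subst hl
        simp only [if_true]
        by_contra hcon
        apply hne'
        have e1 : x.1 = 0 := by omega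
        have e2 : x.2 = 0 := by omega
        exact Prod.ext rfl (Prod.ext e1 e2)
      · simp only [if_true, hl, if_false]
        omega
  obtain ⟨w1, w1', c1, hC1, _⟩ := hHC _ hexp
  obtain ⟨w2, w2', n, F, N, N', a, B, hdet, hT, hAmp, ⟨hE1, hE2⟩, hG, hB⟩ :=
    exists_config hAfin hHC ⟨w1, w1', c1, hC1⟩
  -- the new coordinates
  set W : Fin (k + 2) → ℤ := w2.1 • w + w2.2 • w' with hW
  set W' : Fin (k + 2) → ℤ := w2'.1 • w + w2'.2 • w' with hW'
  have hpsi2 : ∀ z : Pt (Fin (k + 1)), psi v0 w w' U (z.1, z.2.1 • w2 + z.2.2 • w2') =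
      psi v0 W W' U z := by
    intro z
    funext i
    simp only [psi, hW, hW', Pi.add_apply, Pi.smul_apply, smul_eq_mul, Prod.fst_add, Prod.smul_fst,
      Prod.snd_add, Prod.smul_snd]
    ring
  have hback : ∀ z : Pt (Fin (k + 1)), psi v0 w w' U z =
      psi v0 W W' U (z.1, dt z.2 w2', dt w2 z.2) := by
    intro z
    rw [← hpsi2]
    simp only
    rw [← expand hdet z.2]
  have hlevelpt : ∀ x ∈ L, ∃ z ∈ A, psi v0 w w' U z = x := by
    intro x hx
    obtain ⟨i, hi⟩ := exists_level hLpos hLsum hx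
    have e := psi_coord hF hi
    exact ⟨_, by show psi v0 w w' U _ ∈ L; rw [e]; exact hx, e⟩
  have htoR : ∀ z : Pt (Fin (k + 1)), toR (psi v0 W W' U z) =
      toR (v0 + U z.1) + (z.2.1 : ℝ) • toR W + (z.2.2 : ℝ) • toR W' := by
    intro z
    rw [psi, toR_add, toR_add, toR_smul, toR_smul]
  -- convex hulls of corners
  have hcorner : ∀ (K : Set (Fin (k + 2) → ℝ)), Convex ℝ K → ∀ l : Fin (k + 1),
      (∀ m, toR (psi v0 W W' U (l, F.ux (a l) m, F.uy (a l) m)) ∈ K) → ∀ x y : ℤ,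
      (∀ m, F.p m * x + F.q m * y ≤ a l m) → toR (psi v0 W W' U (l, x, y)) ∈ K := by
    intro K hK l hm x y hxy
    have h1 := Hull.hull hT (hAmp l) hxy
    rw [htoR]
    refine affine_mem (C := toR (v0 + U l)) (A := toR W) (B := toR W') hK ?_ h1
    rintro _ ⟨m, rfl⟩
    have := hm m
    rw [htoR] at this
    exact this
  have hBP : ∀ z ∈ B, toR (psi v0 W W' U z) ∈ P := by
    intro z hz
    refine hcorner P hPconv z.1 ?_ z.2.1 z.2.2 (hB.1 z hz)
    intro m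
    rw [← hpsi2]
    exact hE2 z.1 m
  have hPB : P = convexHull ℝ ((fun z => toR (psi v0 W W' U z)) '' (B : Set (Pt (Fin (k + 1))))) := by
    apply Set.Subset.antisymm
    · rw [hP]
      apply convexHull_min _ (convex_convexHull ℝ _)
      rintro _ ⟨s, hs, rfl⟩
      obtain ⟨z, hz, rfl⟩ := hlevelpt s (hSL hs)
      rw [hback]
      refine hcorner _ (convex_convexHull ℝ _) z.1 ?_ _ _ (hE1 z.1 z.2 hz)
      intro m
      exact subset_convexHull ℝ _ ⟨_, hB.2 z.1 m, rfl⟩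
    · apply convexHull_min _ hPconv
      rintro _ ⟨z, hz, rfl⟩
      exact hBP z hz
  refine exists_rut P (psi v0 W W' U) Set.univ ?_ (affR_push v0 W W' U) B
    (fun z _ => Set.mem_univ z) hG hPB ?_ ?_
  · intro l hl
    obtain ⟨α, β, γ, h⟩ := hl
    obtain ⟨a', c', hac⟩ := affZ_pull hF (l := fun z => α z.1 + β * dt z.2 w2' + γ * dt w2 z.2)
      ⟨α, β * w2'.2 - γ * w2.2, γ * w2.1 - β * w2'.1, fun z => by simp only [dt]; ring⟩
    refine ⟨a', c', fun z _ => ?_⟩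
    have h1 := hac (z.1, z.2.1 • w2 + z.2.2 • w2')
    rw [hpsi2] at h1
    simp only at h1
    rw [dt_add_left, dt_smul_left, dt_smul_left, dt_self, hdet, dt_add_right, dt_smul_right,
      dt_smul_right, dt_self, hdet] at h1
    rw [h]
    have h2 : evZ (a', c') (psi v0 W W' U z) = ∑ i, a' i * psi v0 W W' U z i + c' := rfl
    rw [← h2, ← h1]
    ring
  · intro x hx
    obtain ⟨z, _, hz⟩ := hlevelpt x hx
    exact ⟨_, Set.mem_univ _, (hback z).symm.trans hz⟩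
  · intro φ hφ
    have h0 : ∀ x ∈ P, ev φ x = 0 := by
      intro x hx
      rw [hPB] at hx
      have hconv : Convex ℝ {x | ev φ x = 0} := by
        intro x hx y hy s t _ _ hst
        have hx' : ev φ x = 0 := hx
        have hy' : ev φ y = 0 := hy
        show ev φ (s • x + t • y) = 0
        have : ev φ (s • x + t • y) = s * ev φ x + t * ev φ y := by
          simp only [ev, Pi.add_apply, Pi.smul_apply, smul_eq_mul, mul_add, sum_add_distrib]
          have e1 : ∀ (c : ℝ) (z : Fin (k + 2) → ℝ),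
              ∑ i, φ.1 i * (c * z i) = c * ∑ i, φ.1 i * z i := by
            intro c z
            rw [mul_sum]
            exact sum_congr rfl (fun i _ => by ring)
          rw [e1, e1]
          linear_combination (-φ.2) * hst
        rw [this, hx', hy']; ring
      refine convexHull_min ?_ hconv hx
      rintro _ ⟨z, hz, rfl⟩
      exact hφ z hz
    obtain ⟨u, D, hD, hu, _, _⟩ := basis_at (hsm _ hv0)
    have h1 : ∀ i, ∑ z, φ.1 z * (u i z : ℝ) = 0 := by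
      intro i
      have e1 := h0 _ (hu i)
      have e2 := h0 _ hv0.1
      simp only [ev, toR, Pi.add_apply] at e1 e2
      push_cast at e1
      simp only [mul_add, sum_add_distrib] at e1
      linarith
    have h2 : ∀ x : Fin (k + 2) → ℤ, ∑ z, φ.1 z * (x z : ℝ) = 0 := by
      intro x
      have e1 := hD.repr x
      have e2 : ∀ z, (x z : ℝ) = ∑ i, (D i ⬝ᵥ x : ℤ) * (u i z : ℝ) := by
        intro z
        have := congrFun e1 z
        rw [Finset.sum_apply] at this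
        simp only [Pi.smul_apply, smul_eq_mul] at this
        exact_mod_cast this
      calc ∑ z, φ.1 z * (x z : ℝ) = ∑ z, ∑ i, φ.1 z * ((D i ⬝ᵥ x : ℤ) * (u i z : ℝ)) := by
            refine sum_congr rfl (fun z _ => ?_)
            rw [e2, mul_sum]
        _ = ∑ i, ∑ z, φ.1 z * ((D i ⬝ᵥ x : ℤ) * (u i z : ℝ)) := sum_comm
        _ = ∑ i, ((D i ⬝ᵥ x : ℤ) : ℝ) * ∑ z, φ.1 z * (u i z : ℝ) := by
            refine sum_congr rfl (fun i _ => ?_)
            rw [mul_sum]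
            exact sum_congr rfl (fun z _ => by ring)
        _ = 0 := by simp [h1]
    have h3 : φ.1 = 0 := by
      funext i
      have := h2 (Pi.single i 1)
      simpa [Pi.single_apply] using this
    have h4 : φ.2 = 0 := by
      have e2 := h0 _ hv0.1
      simp only [ev, h3, Pi.zero_apply, zero_mul, sum_const_zero, zero_add] at e2
      exact e2
    exact Prod.ext h3 h4

end Pool.Agent.Helper517.Assemble
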