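import Pool.Agent.Helper517.Conv

/-!
From height functions with unimodular lower faces to regular unimodular triangulations.
-/

namespace Pool.Agent.Helper517.Conv

open Finset Geometry
open Pool.Agent.Helper489.RUT (ev Dual exists_complex ev_comb_one)

/-- The conclusion: a regular unimodular triangulation of `P`. -/
def RutData {d : ℕ} (P : Set (Fin d → ℝ)) (K : SimplicialComplex ℝ (Fin d → ℝ))
    (h : (Fin d → ℝ) → ℝ) : Prop :=
  K.space = P ∧
    (∀ σ : Finset (Fin d → ℝ), σ ∈ K.faces ↔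
      σ.Nonempty ∧ (∀ v ∈ σ, v ∈ P ∧ ∀ i, ∃ k : ℤ, v i = (k : ℝ)) ∧
      ∃ (a : Fin d → ℝ) (c : ℝ), (∀ v ∈ σ, ∑ i, a i * v i + c = h v) ∧
        ∀ w, (w ∈ P ∧ ∀ i, ∃ k : ℤ, w i = (k : ℝ)) → w ∉ σ → ∑ i, a i * w i + c < h w) ∧
    ∀ σ ∈ K.facets, ∃ v : Fin (d + 1) → (Fin d → ℤ), Function.Injective v ∧
      (∀ x, x ∈ σ ↔ ∃ j, x = fun i => (v j i : ℝ)) ∧
      |Matrix.det (Matrix.of fun (j : Fin d) (i : Fin d) => v j.succ i - v 0 i)| = 1

theorem exists_rut0 {d : ℕ} {κ : Type*} [DecidableEq κ] (P : Set (Fin d → ℝ))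
    (ψ : κ → (Fin d → ℤ)) (hψinj : Function.Injective ψ) (A : Finset κ) (ω : κ → ℝ)
    (hlow : ∀ σ : Finset κ, σ ⊆ A → σ.Nonempty → (∃ φ : (Fin d → ℝ) × ℝ,
      (∀ v ∈ σ, ev φ (toR (ψ v)) = ω v) ∧ ∀ w ∈ A, w ∉ σ → ev φ (toR (ψ w)) < ω w) →
      ∀ v ∈ σ, ∃ (a : Fin d → ℤ) (c : ℤ), ∑ i, a i * ψ v i + c = 1 ∧
        ∀ w ∈ σ, w ≠ v → ∑ i, a i * ψ w i + c = 0)
    (hP : P = convexHull ℝ ((fun z => toR (ψ z)) '' (A : Set κ)))
    (hlat : ∀ x : Fin d → ℤ, toR x ∈ P → ∃ z, ψ z = x)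
    (hsep : ∀ φ : (Fin d → ℝ) × ℝ, (∀ z ∈ A, ev φ (toR (ψ z)) = 0) → φ = 0) :
    ∃ (K : SimplicialComplex ℝ (Fin d → ℝ)) (h : (Fin d → ℝ) → ℝ), RutData P K h := by
  classical
  set f : κ → (Fin d → ℝ) := fun z => toR (ψ z) with hf
  have hfinj : Function.Injective f := fun x y h => hψinj (toR_injective h)
  let h : (Fin d → ℝ) → ℝ := fun x => if hx : ∃ z, f z = x then ω hx.choose else 0
  have hh : ∀ z, h (f z) = ω z := by
    intro z
    have hx : ∃ y, f y = f z := ⟨z, rfl⟩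
    have : hx.choose = z := hfinj hx.choose_spec
    simp only [h]
    rw [dif_pos hx, this]
  have huni : ∀ σ, Pool.Agent.Helper489.RUT.Low (A.image f) h σ →
      ∃ τ : Finset κ, τ ⊆ A ∧ σ = τ.image f ∧
      ∀ v ∈ τ, ∃ (a : Fin d → ℤ) (c : ℤ), ∑ i, a i * ψ v i + c = 1 ∧
        ∀ w ∈ τ, w ≠ v → ∑ i, a i * ψ w i + c = 0 := by
    rintro σ ⟨hσA, φ, h1, h2⟩
    have hσ : σ = (A.filter fun z => f z ∈ σ).image f := by
      ext x
      rw [mem_image]
      constructor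
      · intro hx
        obtain ⟨z, hz, rfl⟩ := mem_image.1 (hσA hx)
        exact ⟨z, mem_filter.2 ⟨hz, hx⟩, rfl⟩
      · rintro ⟨z, hz, rfl⟩
        exact (mem_filter.1 hz).2
    refine ⟨_, filter_subset _ _, hσ, fun v hv => hlow _ (filter_subset _ _) ⟨v, hv⟩
      ⟨φ, ?_, ?_⟩ v hv⟩
    · intro v hv
      rw [← hh]
      exact h1 _ (mem_filter.1 hv).2
    · intro w hw hwσ
      rw [← hh]
      exact h2 _ (mem_image_of_mem _ hw) (fun hc => hwσ (mem_filter.2 ⟨hw, hc⟩))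
  have hev : ∀ (a : Fin d → ℤ) (c : ℤ) (z : κ),
      ev ((fun i => (a i : ℝ)), (c : ℝ)) (f z) = ((∑ i, a i * ψ z i + c : ℤ) : ℝ) := by
    intro a c z
    rw [hf]
    simp only
    rw [ev_toR]
  have hdual : ∀ σ, Pool.Agent.Helper489.RUT.Low (A.image f) h σ → Dual σ := by
    intro σ hσ v hv
    obtain ⟨τ, hτA, rfl, hτ⟩ := huni σ hσ
    obtain ⟨z, hz, rfl⟩ := mem_image.1 hv
    obtain ⟨a, c, hac1, hac2⟩ := hτ z hz
    refine ⟨((fun i => (a i : ℝ)), (c : ℝ)), ?_, ?_⟩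
    · rw [hev, hac1]; norm_num
    · intro w hw hwz
      obtain ⟨y, hy, rfl⟩ := mem_image.1 hw
      rw [hev, hac2 y hy (fun hc => hwz (by rw [hc]))]; norm_num
  obtain ⟨K, hK1, hK2, hK3⟩ := exists_complex (A.image f) h (fun φ hφ => hsep φ (fun z hz =>
    hφ _ (mem_image_of_mem _ hz))) hdual
  have hspace : K.space = P := by
    rw [hK2, hP, coe_image]
  -- the lattice points
  have hpts : ∀ x, (x ∈ P ∧ ∀ i, ∃ k : ℤ, x i = (k : ℝ)) ↔ x ∈ A.image f := by
    intro x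
    constructor
    · rintro ⟨hx, hxi⟩
      choose k hk using hxi
      have hxk : toR k = x := funext (fun i => (hk i).symm)
      obtain ⟨z, hz⟩ := hlat k (by rw [hxk]; exact hx)
      have hfz : f z = x := by rw [hf]; simp only; rw [hz, hxk]
      rw [← hspace, SimplicialComplex.mem_space_iff] at hx
      obtain ⟨σ, hσ, hxσ⟩ := hx
      obtain ⟨hne, hlow'⟩ := (hK1 σ).1 hσ
      obtain ⟨τ, hτA, rfl, hτ⟩ := huni σ hlow'
      rw [Finset.mem_convexHull'] at hxσ
      obtain ⟨t, ht0, ht1, htx⟩ := hxσ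
      obtain ⟨v0, hv0, hv0pos⟩ : ∃ v ∈ τ.image f, 0 < t v := by
        by_contra hcon
        push Not at hcon
        have : ∑ y ∈ τ.image f, t y ≤ 0 := sum_nonpos hcon
        rw [ht1] at this
        linarith
      obtain ⟨z0, hz0, rfl⟩ := mem_image.1 hv0
      obtain ⟨a, c, hac1, hac2⟩ := hτ z0 hz0
      have e1 : ev ((fun i => (a i : ℝ)), (c : ℝ)) x = t (f z0) := by
        rw [← htx, ev_comb_one _ _ _ _ ht1, sum_eq_single (f z0)]
        · rw [hev, hac1]; norm_num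
        · intro b hb hbne
          obtain ⟨y, hy, rfl⟩ := mem_image.1 hb
          rw [hev, hac2 y hy (fun hc => hbne (by rw [hc]))]; norm_num
        · intro hc; exact absurd hv0 hc
      rw [← hfz, hev] at e1
      have e2 : 1 ≤ ∑ i, a i * ψ z i + c := by
        have h3 : (0 : ℝ) < ((∑ i, a i * ψ z i + c : ℤ) : ℝ) := by rw [e1]; exact hv0pos
        have h4 : 0 < ∑ i, a i * ψ z i + c := by exact_mod_cast h3
        omega
      have e3 : (1 : ℝ) ≤ t (f z0) := by rw [← e1]; exact_mod_cast e2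
      have e4 : ∀ y ∈ (τ.image f).erase (f z0), t y = 0 := by
        have h5 : ∑ y ∈ (τ.image f).erase (f z0), t y = 0 := by
          have h6 := add_sum_erase _ t hv0
          rw [ht1] at h6
          have h7 : 0 ≤ ∑ y ∈ (τ.image f).erase (f z0), t y :=
            sum_nonneg (fun y hy => ht0 y (mem_of_mem_erase hy))
          linarith
        exact (sum_eq_zero_iff_of_nonneg (fun y hy => ht0 y (mem_of_mem_erase hy))).1 h5
      have e5 : t (f z0) = 1 := by
        have h6 := add_sum_erase _ t hv0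
        rw [sum_eq_zero e4, ht1] at h6
        linarith
      have e6 : x = f z0 := by
        rw [← htx, ← add_sum_erase _ _ hv0, e5, one_smul, sum_eq_zero, add_zero]
        intro y hy
        rw [e4 y hy, zero_smul]
      rw [e6]
      exact mem_image_of_mem _ (hτA hz0)
    · intro hx
      obtain ⟨z, hz, rfl⟩ := mem_image.1 hx
      refine ⟨?_, fun i => ⟨ψ z i, rfl⟩⟩
      rw [hP]
      exact subset_convexHull ℝ _ ⟨z, hz, rfl⟩
  refine ⟨K, h, hspace, ?_, ?_⟩
  · intro σ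
    rw [hK1]
    constructor
    · rintro ⟨hne, hσA, φ, h1, h2⟩
      refine ⟨hne, fun v hv => (hpts v).2 (hσA hv), φ.1, φ.2, h1, ?_⟩
      intro w hw hwσ
      exact h2 w ((hpts w).1 hw) hwσ
    · rintro ⟨hne, hσA, a, c, h1, h2⟩
      refine ⟨hne, fun v hv => (hpts v).1 (hσA v hv), (a, c), h1, ?_⟩
      intro w hw hwσ
      exact h2 w ((hpts w).2 hw) hwσ
  · intro σ hσ
    have hcard := hK3 σ hσ
    obtain ⟨τ, hτA, rfl, hτ⟩ := huni σ ((hK1 σ).1 hσ.1).2
    rw [card_image_of_injective _ hfinj] at hcard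
    let e : Fin (d + 1) ≃ τ := (τ.equivFinOfCardEq hcard).symm
    let v : Fin (d + 1) → (Fin d → ℤ) := fun j => ψ (e j : κ)
    refine ⟨v, fun i j hij => e.injective (Subtype.ext (hψinj hij)), ?_, ?_⟩
    · intro x
      rw [mem_image]
      constructor
      · rintro ⟨z, hz, rfl⟩
        refine ⟨e.symm ⟨z, hz⟩, ?_⟩
        have h1 : e (e.symm ⟨z, hz⟩) = ⟨z, hz⟩ := e.apply_symm_apply _
        show toR (ψ z) = toR (ψ (e (e.symm ⟨z, hz⟩) : κ))
        rw [h1]
      · rintro ⟨j, rfl⟩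
        exact ⟨e j, (e j).2, rfl⟩
    · refine det_of_dual v ?_
      intro j
      obtain ⟨a, c, hac1, hac2⟩ := hτ (e j.succ) (e j.succ).2
      refine ⟨a, c, fun i => ?_⟩
      by_cases hij : i = j.succ
      · rw [if_pos hij, hij]; exact hac1
      · rw [if_neg hij]
        exact hac2 _ (e i).2 (fun hc => hij (e.injective (Subtype.ext hc)))

/-- Determinant `± 1` gives integral dual functionals. -/
lemma dual_of_det {d : ℕ} (v : Fin (d + 1) → (Fin d → ℤ))
    (hdet : |Matrix.det (Matrix.of fun (j : Fin d) (i : Fin d) => v j.succ i - v 0 i)| = 1)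
    (α : Fin (d + 1) → ℤ) :
    ∃ (a : Fin d → ℤ) (c : ℤ), ∀ j, ∑ i, a i * v j i + c = α j := by
  classical
  set M : Matrix (Fin d) (Fin d) ℤ :=
      Matrix.of fun (j : Fin d) (i : Fin d) => v j.succ i - v 0 i with hM
  have hunit : IsUnit M.det := Int.isUnit_iff_abs_eq.2 hdet
  have hinv : M * M⁻¹ = 1 := Matrix.mul_nonsing_inv M hunit
  let β : Fin d → ℤ := fun j => α j.succ - α 0
  let a : Fin d → ℤ := fun z => ∑ j, M⁻¹ z j * β j
  have key : ∀ j : Fin d, ∑ z, a z * (v j.succ z - v 0 z) = β j := by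
    intro j
    calc ∑ z, a z * (v j.succ z - v 0 z) = ∑ z, ∑ i, M j z * (M⁻¹ z i * β i) := by
          refine sum_congr rfl (fun z _ => ?_)
          rw [sum_mul]
          refine sum_congr rfl (fun i _ => ?_)
          show M⁻¹ z i * β i * (v j.succ z - v 0 z) = (v j.succ z - v 0 z) * (M⁻¹ z i * β i)
          ring
      _ = ∑ i, ∑ z, M j z * (M⁻¹ z i * β i) := sum_comm
      _ = ∑ i, (M * M⁻¹) j i * β i := by
          refine sum_congr rfl (fun i _ => ?_)
          rw [Matrix.mul_apply, sum_mul]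
          exact sum_congr rfl (fun z _ => by ring)
      _ = β j := by rw [hinv]; simp [Matrix.one_apply]
  refine ⟨a, α 0 - ∑ z, a z * v 0 z, fun j => ?_⟩
  refine Fin.cases ?_ (fun j => ?_) j
  · ring
  · have h1 := key j
    simp only [mul_sub, sum_sub_distrib] at h1
    simp only [β] at h1
    linarith

end Pool.Agent.Helper517.Conv
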