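import Pool.Agent.Helper517.Assemble

/-!
Cayley polytopes of lattice segments.
-/

namespace Pool.Agent.Helper517.Prism

open Finset Pool.Agent.Helper517.Place Pool.Agent.Helper517.Conv Pool.Agent.Helper517.Frame
open Pool.Agent.Helper517.Smooth Pool.Agent.Helper517.Assemble
open Pool.Agent.Helper517
open Pool.Agent.Helper489.RUT (ev)

variable {d : ℕ}

lemma ev_comb (φ : (Fin d → ℝ) × ℝ) (x y : Fin d → ℝ) {s t : ℝ} (h : s + t = 1) :
    ev φ (s • x + t • y) = s * ev φ x + t * ev φ y := by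
  simp only [ev, Pi.add_apply, Pi.smul_apply, smul_eq_mul, mul_add, sum_add_distrib]
  have e1 : ∀ (c : ℝ) (z : Fin d → ℝ), ∑ i, φ.1 i * (c * z i) = c * ∑ i, φ.1 i * z i := by
    intro c z
    rw [mul_sum]
    exact sum_congr rfl (fun i _ => by ring)
  rw [e1, e1]
  linear_combination (-φ.2) * h

lemma ev_zero {X : Set (Fin d → ℝ)} (φ : (Fin d → ℝ) × ℝ) (h : ∀ x ∈ X, ev φ x = 0) :
    ∀ x ∈ convexHull ℝ X, ev φ x = 0 := by
  intro x hx
  have hconv : Convex ℝ {x | ev φ x = 0} := by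
    intro x hx y hy s t _ _ hst
    have hx' : ev φ x = 0 := hx
    have hy' : ev φ y = 0 := hy
    show ev φ (s • x + t • y) = 0
    rw [ev_comb φ x y hst, hx', hy']; ring
  exact convexHull_min (s := X) h hconv hx

lemma sep_of_basis {φ : (Fin d → ℝ) × ℝ} {v : Fin d → ℤ} {u D : Fin d → (Fin d → ℤ)}
    (hD : DualBasis u D) (hv : ev φ (toR v) = 0) (hu : ∀ i, ev φ (toR (v + u i)) = 0) :
    φ = 0 := by
  have h1 : ∀ i, ∑ z, φ.1 z * (u i z : ℝ) = 0 := by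
    intro i
    have e1 := hu i
    have e2 := hv
    simp only [ev, toR, Pi.add_apply] at e1 e2
    push_cast at e1
    simp only [mul_add, sum_add_distrib] at e1
    linarith
  have h2 : ∀ x : Fin d → ℤ, ∑ z, φ.1 z * (x z : ℝ) = 0 := by
    intro x
    have e1 := hD.repr x
    have e2 : ∀ z, (x z : ℝ) = ∑ i, (D i ⬝ᵥ x : ℤ) * (u i z : ℝ) := by
      intro z
      have := congrFun e1 z
      rw [Finset.sum_apply] at this
      simp only [Pi.smul_apply, smul_eq_mul] at this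
      exact_mod_cast this
    calc ∑ z, φ.1 z * (x z : ℝ) = ∑ z, ∑ i, φ.1 z * ((D i ⬝ᵥ x : ℤ) * (u i z : ℝ)) := by
          refine sum_congr rfl (fun z _ => ?_)
          rw [e2, mul_sum]
      _ = ∑ i, ∑ z, φ.1 z * ((D i ⬝ᵥ x : ℤ) * (u i z : ℝ)) := sum_comm
      _ = ∑ i, ((D i ⬝ᵥ x : ℤ) : ℝ) * ∑ z, φ.1 z * (u i z : ℝ) := by
          refine sum_congr rfl (fun i _ => ?_)
          rw [mul_sum]
          exact sum_congr rfl (fun z _ => by ring)
      _ = 0 := by simp [h1]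
  have h3 : φ.1 = 0 := by
    funext i
    have := h2 (Pi.single i 1)
    simpa [Pi.single_apply] using this
  have h4 : φ.2 = 0 := by
    have e2 := hv
    simp only [ev, h3, Pi.zero_apply, zero_mul, sum_const_zero, zero_add] at e2
    exact e2
  exact Prod.ext h3 h4

/-- Cayley polytopes of segments. -/
theorem prism {P : Set (Fin d → ℝ)} (S : Set (Fin d → ℤ)) (hS : S.Finite)
    (hP : P = convexHull ℝ (toR '' S)) (v : Fin d → ℤ) (hv : toR v ∈ P)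
    (u D : Fin d → (Fin d → ℤ)) (hD : DualBasis u D) (hu : ∀ i, toR (v + u i) ∈ P)
    (hpos : ∀ x : Fin d → ℤ, toR x ∈ P → ∀ i, 0 ≤ D i ⬝ᵥ (x - v)) (i0 : Fin d)
    (hle : ∀ x : Fin d → ℤ, toR x ∈ P → ∑ i ∈ univ.erase i0, D i ⬝ᵥ (x - v) ≤ 1) :
    ∃ (K : Geometry.SimplicialComplex ℝ (Fin d → ℝ)) (h : (Fin d → ℝ) → ℝ), K.space = P ∧
      (∀ σ : Finset (Fin d → ℝ), σ ∈ K.faces ↔
        σ.Nonempty ∧ (∀ v ∈ σ, v ∈ P ∧ ∀ i, ∃ k : ℤ, v i = (k : ℝ)) ∧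
        ∃ (a : Fin d → ℝ) (c : ℝ), (∀ v ∈ σ, ∑ i, a i * v i + c = h v) ∧
          ∀ w, (w ∈ P ∧ ∀ i, ∃ k : ℤ, w i = (k : ℝ)) → w ∉ σ → ∑ i, a i * w i + c < h w) ∧
      ∀ σ ∈ K.facets, ∃ v : Fin (d + 1) → (Fin d → ℤ), Function.Injective v ∧
        (∀ x, x ∈ σ ↔ ∃ j, x = fun i => (v j i : ℝ)) ∧
        |Matrix.det (Matrix.of fun (j : Fin d) (i : Fin d) => v j.succ i - v 0 i)| = 1 := by
  classical
  set L : Set (Fin d → ℤ) := {x | toR x ∈ P} with hL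
  have hSL : S ⊆ L := fun s hs => by
    show toR s ∈ P
    rw [hP]; exact subset_convexHull ℝ _ ⟨s, hs, rfl⟩
  have hLfin : L.Finite := by
    rw [hL, hP]; exact finite_lattice hS
  have hPconv : Convex ℝ P := by rw [hP]; exact convex_convexHull ℝ _
  let U : Fin d → (Fin d → ℤ) := fun i => if i = i0 then 0 else u i
  have hU0 : U i0 = 0 := by simp [U]
  have hU1 : ∀ i, i ≠ i0 → U i = u i := fun i hi => by simp [U, hi]
  have hUL : ∀ i, v + U i ∈ L := by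
    intro i
    by_cases hi : i = i0
    · rw [hi, hU0, add_zero]; exact hv
    · rw [hU1 i hi]; exact hu i
  let ψ : Pt (Fin d) → (Fin d → ℤ) := fun z => v + U z.1 + z.2.1 • u i0
  have hDU : ∀ i z, i ≠ i0 → D i ⬝ᵥ (ψ z - v) = if i = z.1 then 1 else 0 := by
    intro i z hi
    have e : ψ z - v = U z.1 + z.2.1 • u i0 := by simp only [ψ]; abel
    rw [e, dotProduct_add, dotProduct_smul, hD.dual, if_neg hi]
    by_cases hz : z.1 = i0
    · rw [hz, hU0, dotProduct_zero, if_neg hi]; simp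
    · rw [hU1 _ hz, hD.dual]; simp
  have hD0 : ∀ z, D i0 ⬝ᵥ (ψ z - v) = z.2.1 := by
    intro z
    have e : ψ z - v = U z.1 + z.2.1 • u i0 := by simp only [ψ]; abel
    rw [e, dotProduct_add, dotProduct_smul, hD.dual, if_pos rfl]
    by_cases hz : z.1 = i0
    · rw [hz, hU0, dotProduct_zero]; simp
    · rw [hU1 _ hz, hD.dual, if_neg (Ne.symm hz)]; simp
  -- levels
  have hlevel : ∀ x ∈ L, ∃ i, x = v + U i + (D i0 ⬝ᵥ (x - v)) • u i0 := by
    intro x hx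
    have h1 := hD.repr (x - v)
    rw [← add_sum_erase univ _ (mem_univ i0)] at h1
    by_cases hall : ∀ i ∈ univ.erase i0, D i ⬝ᵥ (x - v) = 0
    · refine ⟨i0, ?_⟩
      have h2 : ∑ i ∈ univ.erase i0, (D i ⬝ᵥ (x - v)) • u i = 0 :=
        sum_eq_zero (fun i hi => by rw [hall i hi, zero_smul])
      rw [h2, add_zero] at h1
      rw [hU0, add_zero, ← h1]; ring
    · push Not at hall
      obtain ⟨i, hi, hne⟩ := hall
      have hi0 := ne_of_mem_erase hi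
      refine ⟨i, ?_⟩
      have h3 := hpos x hx
      have h4 := hle x hx
      rw [← add_sum_erase _ _ hi] at h4
      have h5 : 0 ≤ ∑ l ∈ (univ.erase i0).erase i, D l ⬝ᵥ (x - v) :=
        sum_nonneg (fun l _ => h3 l)
      have h6 := h3 i
      have h7 : D i ⬝ᵥ (x - v) = 1 := by omega
      have h8 : ∑ l ∈ (univ.erase i0).erase i, D l ⬝ᵥ (x - v) = 0 := by omega
      have h9 := (sum_eq_zero_iff_of_nonneg (fun l _ => h3 l)).1 h8
      rw [← add_sum_erase _ _ hi, h7, one_smul, sum_eq_zero, add_zero] at h1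
      · rw [hU1 i hi0]
        calc x = v + (x - v) := by ring
          _ = v + ((D i0 ⬝ᵥ (x - v)) • u i0 + u i) := by rw [← h1]
          _ = _ := by abel
      · intro l hl
        rw [h9 l hl, zero_smul]
  -- extreme coordinates in every level
  have hmin : ∀ i, ∃ x ∈ L, (∃ t : ℤ, x = v + U i + t • u i0) ∧
      ∀ y ∈ L, (∃ t : ℤ, y = v + U i + t • u i0) → D i0 ⬝ᵥ (x - v) ≤ D i0 ⬝ᵥ (y - v) := by
    intro i
    obtain ⟨x, ⟨hx1, hx2⟩, hx3⟩ := Set.exists_min_image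
      {x | x ∈ L ∧ ∃ t : ℤ, x = v + U i + t • u i0} (fun x => D i0 ⬝ᵥ (x - v))
      (hLfin.subset (fun x hx => hx.1)) ⟨v + U i, hUL i, 0, by simp⟩
    exact ⟨x, hx1, hx2, fun y hy hy' => hx3 y ⟨hy, hy'⟩⟩
  have hmax : ∀ i, ∃ x ∈ L, (∃ t : ℤ, x = v + U i + t • u i0) ∧
      ∀ y ∈ L, (∃ t : ℤ, y = v + U i + t • u i0) → D i0 ⬝ᵥ (y - v) ≤ D i0 ⬝ᵥ (x - v) := by
    intro i
    obtain ⟨x, ⟨hx1, hx2⟩, hx3⟩ := Set.exists_max_image
      {x | x ∈ L ∧ ∃ t : ℤ, x = v + U i + t • u i0} (fun x => D i0 ⬝ᵥ (x - v))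
      (hLfin.subset (fun x hx => hx.1)) ⟨v + U i, hUL i, 0, by simp⟩
    exact ⟨x, hx1, hx2, fun y hy hy' => hx3 y ⟨hy, hy'⟩⟩
  choose xm hxm1 hxm2 hxm3 using hmin
  choose xM hxM1 hxM2 hxM3 using hmax
  let l : Fin d → ℤ := fun i => D i0 ⬝ᵥ (xm i - v)
  let r : Fin d → ℤ := fun i => D i0 ⬝ᵥ (xM i - v)
  have hpsi : ∀ (i : Fin d) (t : ℤ) (x : Fin d → ℤ), x = v + U i + t • u i0 →
      x = ψ (i, D i0 ⬝ᵥ (x - v), 0) := by
    intro i t x hx
    have h1 : x = ψ (i, t, 0) := hx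
    have h2 := hD0 (i, t, 0)
    rw [← h1] at h2
    rw [h2]; exact h1
  have hl : ∀ i, ψ (i, l i, 0) = xm i := by
    intro i
    obtain ⟨t, ht⟩ := hxm2 i
    exact (hpsi i t _ ht).symm
  have hr : ∀ i, ψ (i, r i, 0) = xM i := by
    intro i
    obtain ⟨t, ht⟩ := hxM2 i
    exact (hpsi i t _ ht).symm
  have hlr : ∀ i, l i ≤ r i := fun i => hxm3 i _ (hxM1 i) (hxM2 i)
  obtain ⟨A, hG, hA1, hA2⟩ := segs (∑ i, (r i - l i)).toNat l r (fun _ => 0) hlr
    (Int.toNat_of_nonneg (sum_nonneg (fun i _ => by have := hlr i; omega))).symm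
  have htoR : ∀ z : Pt (Fin d), toR (ψ z) =
      toR (v + U z.1) + (z.2.1 : ℝ) • toR (u i0) + (0 : ℝ) • (0 : Fin d → ℝ) := by
    intro z
    simp only [ψ]
    rw [toR_add, toR_smul]
    simp
  -- points between the end points
  have hbetween : ∀ (K : Set (Fin d → ℝ)), Convex ℝ K → ∀ i t, l i ≤ t → t ≤ r i →
      toR (ψ (i, l i, 0)) ∈ K → toR (ψ (i, r i, 0)) ∈ K → ∀ y, toR (ψ (i, t, y)) ∈ K := by
    intro K hK i t h1 h2 h3 h4 y
    have h5 : ((t : ℝ), (0 : ℝ)) ∈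
        convexHull ℝ ({((l i : ℝ), (0 : ℝ)), ((r i : ℝ), (0 : ℝ))} : Set (ℝ × ℝ)) := by
      refine Hull.mem_of_between (convex_convexHull ℝ _) (l := (l i : ℝ)) (r := (r i : ℝ))
        (subset_convexHull ℝ _ (by simp)) (subset_convexHull ℝ _ (by simp)) ?_ ?_
      · exact_mod_cast h1
      · exact_mod_cast h2
    rw [htoR]
    refine affine_mem (C := toR (v + U i)) (A := toR (u i0)) (B := 0) hK ?_ h5
    intro p hp
    rw [Set.mem_insert_iff, Set.mem_singleton_iff] at hp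
    rcases hp with rfl | rfl
    · rw [htoR] at h3; exact h3
    · rw [htoR] at h4; exact h4
  have hPA : P = convexHull ℝ ((fun z => toR (ψ z)) '' (A : Set (Pt (Fin d)))) := by
    apply Set.Subset.antisymm
    · rw [hP]
      apply convexHull_min _ (convex_convexHull ℝ _)
      rintro _ ⟨s, hs, rfl⟩
      obtain ⟨i, hi⟩ := hlevel s (hSL hs)
      have h1 := hpsi i _ s hi
      rw [h1]
      refine hbetween _ (convex_convexHull ℝ _) i _ (hxm3 i s (hSL hs) ⟨_, hi⟩)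
        (hxM3 i s (hSL hs) ⟨_, hi⟩) ?_ ?_ 0
      · exact subset_convexHull ℝ _ ⟨_, (hA2 i).1, rfl⟩
      · exact subset_convexHull ℝ _ ⟨_, (hA2 i).2, rfl⟩
    · apply convexHull_min _ hPconv
      rintro _ ⟨z, hz, rfl⟩
      obtain ⟨h1, h2, h3⟩ := hA1 z hz
      refine hbetween P hPconv z.1 z.2.1 h2 h3 ?_ ?_ z.2.2
      · rw [hl]; exact hxm1 _
      · rw [hr]; exact hxM1 _
  refine exists_rut P ψ {z | z.2.2 = 0} ?_ ?_ A (fun z hz => (hA1 z hz).1) hG hPA ?_ ?_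
  · intro f hf
    obtain ⟨α, β, γ, h⟩ := hf
    set a : Fin d → ℤ := ∑ i, (α i - α i0) • D i + β • D i0 with ha
    refine ⟨a, α i0 - a ⬝ᵥ v, fun z hz => ?_⟩
    have hz' : z.2.2 = 0 := hz
    have h1 : a ⬝ᵥ (ψ z - v) = (α z.1 - α i0) + β * z.2.1 := by
      rw [ha, add_dotProduct, sum_dotProduct, smul_dotProduct, hD0, smul_eq_mul]
      congr 1
      rw [sum_eq_single z.1]
      · rw [smul_dotProduct, smul_eq_mul]
        by_cases hz1 : z.1 = i0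
        · rw [hz1]; ring
        · rw [hDU _ _ hz1, if_pos rfl, mul_one]
      · intro i _ hi
        rw [smul_dotProduct, smul_eq_mul]
        by_cases hi0 : i = i0
        · rw [hi0]; ring
        · rw [hDU _ _ hi0, if_neg hi, mul_zero]
      · intro hc; exact absurd (mem_univ _) hc
    rw [dotProduct_sub] at h1
    rw [h, hz']
    have h2 : ∑ i, a i * ψ z i = a ⬝ᵥ ψ z := rfl
    rw [h2]
    linarith
  · intro φ
    refine ⟨fun i => ev φ (toR (v + U i)), ∑ i, φ.1 i * (u i0 i : ℝ), 0, fun z => ?_⟩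
    simp only [ev, ψ, toR, Pi.add_apply, Pi.smul_apply, smul_eq_mul]
    push_cast
    simp only [mul_add, sum_add_distrib, sum_mul]
    have e1 : ∑ i, φ.1 i * ((z.2.1 : ℝ) * (u i0 i : ℝ)) =
        ∑ i, φ.1 i * (u i0 i : ℝ) * (z.2.1 : ℝ) := sum_congr rfl (fun i _ => by ring)
    rw [e1]
    ring
  · intro x hx
    obtain ⟨i, hi⟩ := hlevel x hx
    exact ⟨_, rfl, (hpsi i _ x hi).symm⟩
  · intro φ hφ
    have h0 : ∀ x ∈ P, ev φ x = 0 := by
      intro x hx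
      rw [hPA] at hx
      refine ev_zero φ ?_ x hx
      rintro _ ⟨z, hz, rfl⟩
      exact hφ z hz
    exact sep_of_basis hD (h0 _ hv) (fun i => h0 _ (hu i))

/-- The main theorem. -/
theorem main {k : ℕ} {P : Set (Fin (k + 2) → ℝ)} (S : Set (Fin (k + 2) → ℤ)) (hS : S.Finite)
    (hP : P = convexHull ℝ (toR '' S)) (hsm : ∀ v ∈ P.extremePoints ℝ, SmoothAt P v)
    (lam : Fin (k + 1) → (Fin (k + 2) → ℤ) × ℤ) (hpos : ∀ x ∈ P, ∀ j, 0 ≤ evR (lam j) x)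
    (hsum : ∀ x ∈ P, ∑ j, evR (lam j) x = 1)
    (hfib : ∀ j, ∃ x ∈ P, evR (lam j) x = 1) :
    ∃ (K : Geometry.SimplicialComplex ℝ (Fin (k + 2) → ℝ)) (h : (Fin (k + 2) → ℝ) → ℝ),
      K.space = P ∧
      (∀ σ : Finset (Fin (k + 2) → ℝ), σ ∈ K.faces ↔
        σ.Nonempty ∧ (∀ v ∈ σ, v ∈ P ∧ ∀ i, ∃ z : ℤ, v i = (z : ℝ)) ∧
        ∃ (a : Fin (k + 2) → ℝ) (c : ℝ), (∀ v ∈ σ, ∑ i, a i * v i + c = h v) ∧
          ∀ w, (w ∈ P ∧ ∀ i, ∃ z : ℤ, w i = (z : ℝ)) → w ∉ σ → ∑ i, a i * w i + c < h w) ∧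
      ∀ σ ∈ K.facets, ∃ v : Fin (k + 2 + 1) → (Fin (k + 2) → ℤ), Function.Injective v ∧
        (∀ x, x ∈ σ ↔ ∃ j, x = fun i => (v j i : ℝ)) ∧
        |Matrix.det (Matrix.of fun (j : Fin (k + 2)) (i : Fin (k + 2)) =>
          v j.succ i - v 0 i)| = 1 := by
  classical
  by_cases htwo : ∀ v : Fin (k + 2) → ℤ, toR v ∈ P.extremePoints ℝ →
      ∀ u D : Fin (k + 2) → (Fin (k + 2) → ℤ), DualBasis u D → (∀ i, toR (v + u i) ∈ P) →
      (∀ x : Fin (k + 2) → ℤ, toR x ∈ P → ∀ i, 0 ≤ D i ⬝ᵥ (x - v)) →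
      ∀ j, evZ (lam j) v = 1 →
      ∃ a b, a ≠ b ∧ (lam j).1 ⬝ᵥ u a = 0 ∧ (lam j).1 ⬝ᵥ u b = 0
  · exact main_two S hS hP hsm lam hpos hsum hfib htwo
  · push Not at htwo
    obtain ⟨v, hv, u, D, hD, hu, hc, j, hj, hno⟩ := htwo
    have hle1 : ∀ x ∈ P, evR (lam j) x ≤ 1 := by
      intro x hx
      rw [← hsum x hx]
      exact single_le_sum (f := fun j => evR (lam j) x) (fun l _ => hpos x hx l) (mem_univ j)
    have hlin : ∀ i, (lam j).1 ⬝ᵥ u i ≤ 0 := by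
      intro i
      have h1 := hle1 _ (hu i)
      rw [evR_toR, evZ_add, hj] at h1
      have h2 : 1 + (lam j).1 ⬝ᵥ u i ≤ 1 := by exact_mod_cast h1
      omega
    obtain ⟨i0, hi0⟩ : ∃ i0, ∀ i, i ≠ i0 → (lam j).1 ⬝ᵥ u i ≤ -1 := by
      by_cases hex : ∃ i, (lam j).1 ⬝ᵥ u i = 0
      · obtain ⟨i0, hi0⟩ := hex
        refine ⟨i0, fun i hi => ?_⟩
        have h1 := hno i0 i (Ne.symm hi) hi0
        have h2 := hlin i
        omega
      · push Not at hex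
        refine ⟨0, fun i _ => ?_⟩
        have h1 := hex i
        have h2 := hlin i
        omega
    refine prism S hS hP v hv.1 u D hD hu hc i0 ?_
    intro x hx
    have h1 : evZ (lam j) x = 1 + ∑ i, (D i ⬝ᵥ (x - v)) * ((lam j).1 ⬝ᵥ u i) := by
      have e1 : x = v + (x - v) := by ring
      have e2 := hD.repr (x - v)
      conv_lhs => rw [e1, evZ_add, e2]
      rw [dotProduct_sum, hj]
      simp only [dotProduct_smul, smul_eq_mul]
    have h2 : 0 ≤ evZ (lam j) x := by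
      have := hpos _ hx j
      rw [evR_toR] at this
      exact_mod_cast this
    have h3 : ∑ i ∈ univ.erase i0, D i ⬝ᵥ (x - v) ≤
        ∑ i, -((D i ⬝ᵥ (x - v)) * ((lam j).1 ⬝ᵥ u i)) := by
      rw [← add_sum_erase univ _ (mem_univ i0)]
      have h4 : 0 ≤ -((D i0 ⬝ᵥ (x - v)) * ((lam j).1 ⬝ᵥ u i0)) := by
        have h5 := mul_nonpos_of_nonneg_of_nonpos (hc x hx i0) (hlin i0)
        linarith
      have h6 : ∑ i ∈ univ.erase i0, D i ⬝ᵥ (x - v) ≤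
          ∑ i ∈ univ.erase i0, -((D i ⬝ᵥ (x - v)) * ((lam j).1 ⬝ᵥ u i)) := by
        refine sum_le_sum (fun i hi => ?_)
        have h7 := hi0 i (ne_of_mem_erase hi)
        have h8 := hc x hx i
        nlinarith
      linarith
    rw [sum_neg_distrib] at h3
    linarith

end Pool.Agent.Helper517.Prism
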