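import Pool.Agent.Helper517.Sect2
import Pool.Agent.Helper517.Conv0
import Pool.Agent.Helper517.Prism

/-!
Polygon bundles: common corners.
-/

namespace Pool.Agent.Helper517.Bundle

open Finset Pool.Agent.Helper517.Place Pool.Agent.Helper517.Conv Pool.Agent.Helper517.Frame
open Pool.Agent.Helper517.Smooth Pool.Agent.Helper517.Walk Pool.Agent.Helper517.Extract
open Pool.Agent.Helper517.Sect
open Pool.Agent.Helper517 Pool.Agent.Helper517.Step
open Pool.Agent.Helper489.RUT (ev)

variable {m : ℕ}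

/-- The integral base part. -/
def baseZ {r : ℕ} (x : Fin (m + r) → ℤ) : Fin m → ℤ := fun i => x (Fin.castAdd r i)

lemma base_toR {r : ℕ} (x : Fin (m + r) → ℤ) : base (toR x) = toR (baseZ x) := rfl

/-- The vertical part. -/
def vp (x : Fin (m + 2) → ℤ) : ℤ × ℤ := (x (Fin.natAdd m 0), x (Fin.natAdd m 1))

/-- Putting together base part and vertical part. -/
def join (y : Fin m → ℤ) (q : ℤ × ℤ) : Fin (m + 2) → ℤ := Fin.append y ![q.1, q.2]

lemma baseZ_join (y : Fin m → ℤ) (q : ℤ × ℤ) : baseZ (join y q) = y := by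
  funext i
  simp [baseZ, join]

lemma vp_join (y : Fin m → ℤ) (q : ℤ × ℤ) : vp (join y q) = q := by
  simp [vp, join]

lemma join_eta (x : Fin (m + 2) → ℤ) : join (baseZ x) (vp x) = x := by
  funext i
  refine Fin.addCases (fun i => ?_) (fun i => ?_) i
  · simp [join, baseZ]
  · fin_cases i
    · simp [join, vp]
    · simp [join, vp]

lemma join_ext {x x' : Fin (m + 2) → ℤ} (h1 : baseZ x = baseZ x') (h2 : vp x = vp x') : x = x' := by
  rw [← join_eta x, ← join_eta x', h1, h2]

lemma vp_add (x y : Fin (m + 2) → ℤ) : vp (x + y) = vp x + vp y := rfl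

lemma vp_sub (x y : Fin (m + 2) → ℤ) : vp (x - y) = vp x - vp y := rfl

lemma vp_smul (c : ℤ) (x : Fin (m + 2) → ℤ) : vp (c • x) = c • vp x := rfl

lemma baseZ_add {r : ℕ} (x y : Fin (m + r) → ℤ) : baseZ (x + y) = baseZ x + baseZ y := rfl

/-- The integral section. -/
def sectZ (v : Fin (m + 2) → ℤ) (u D : Fin (m + 2) → (Fin (m + 2) → ℤ)) (y : Fin m → ℤ) :
    Fin (m + 2) → ℤ :=
  join y 0 - ∑ l : Fin 2, (D (Fin.natAdd m l) ⬝ᵥ (join y 0 - v)) • u (Fin.natAdd m l)

lemma toR_join (y : Fin m → ℤ) : toR (join y 0) = (lift (toR y) : Fin (m + 2) → ℝ) := by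
  funext i
  refine Fin.addCases (fun i => ?_) (fun i => ?_) i
  · simp [join, lift, toR]
  · fin_cases i
    · simp [join, lift, toR]
    · simp [join, lift, toR]

lemma toR_sectZ (v : Fin (m + 2) → ℤ) (u D : Fin (m + 2) → (Fin (m + 2) → ℤ)) (y : Fin m → ℤ) :
    toR (sectZ v u D y) = sect v u D (toR y) := by
  simp only [sectZ, sect, Fin.sum_univ_two]
  rw [toR_sub, toR_add, toR_smul, toR_smul, toR_join, ← linR_toR, ← linR_toR, toR_sub, toR_join]

section corner

variable {P : Set (Fin (m + 2) → ℝ)} {S : Set (Fin (m + 2) → ℤ)}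

/-- Lattice points of the base. -/
abbrev Lev (P : Set (Fin (m + 2) → ℝ)) := {y : Fin m → ℤ // toR y ∈ base '' P}

/-- The configuration. -/
def conf (P : Set (Fin (m + 2) → ℝ)) : Set (Pt (Lev P)) := {z | toR (join z.1.1 z.2) ∈ P}

/-- Affine families of corners. -/
def Raff (P : Set (Fin (m + 2) → ℝ)) (c : Lev P → ℤ × ℤ) : Prop :=
  ∃ α β : (Fin m → ℤ) × ℤ, ∀ y : Lev P, c y = (evZ α y.1, evZ β y.1)

lemma vp_sectZ_affine (v : Fin (m + 2) → ℤ) (u D : Fin (m + 2) → (Fin (m + 2) → ℤ)) :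
    ∃ α β : (Fin m → ℤ) × ℤ, ∀ y : Fin m → ℤ, vp (sectZ v u D y) = (evZ α y, evZ β y) := by
  have e : ∀ (l : Fin 2) (y : Fin m → ℤ), D (Fin.natAdd m l) ⬝ᵥ (join y 0 - v) =
      (fun z => D (Fin.natAdd m l) (Fin.castAdd 2 z)) ⬝ᵥ y - D (Fin.natAdd m l) ⬝ᵥ v := by
    intro l y
    rw [dotProduct_sub]
    congr 1
    rw [dotProduct, Fin.sum_univ_add]
    simp only [join, Fin.append_left, Fin.append_right, Fin.sum_univ_two]
    simp [dotProduct]
  have key : ∀ j : Fin 2, ∃ α : (Fin m → ℤ) × ℤ, ∀ y : Fin m → ℤ,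
      sectZ v u D y (Fin.natAdd m j) = evZ α y := by
    intro j
    refine ⟨(-((u (Fin.natAdd m 0) (Fin.natAdd m j)) • (fun z => D (Fin.natAdd m 0) (Fin.castAdd 2 z)) +
      (u (Fin.natAdd m 1) (Fin.natAdd m j)) • (fun z => D (Fin.natAdd m 1) (Fin.castAdd 2 z))),
      (D (Fin.natAdd m 0) ⬝ᵥ v) * u (Fin.natAdd m 0) (Fin.natAdd m j) +
      (D (Fin.natAdd m 1) ⬝ᵥ v) * u (Fin.natAdd m 1) (Fin.natAdd m j)), fun y => ?_⟩
    simp only [sectZ, Fin.sum_univ_two, Pi.sub_apply, Pi.add_apply, Pi.smul_apply, smul_eq_mul, e,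
      evZ, neg_dotProduct, add_dotProduct, smul_dotProduct]
    have h0 : join y 0 (Fin.natAdd m j) = 0 := by
      fin_cases j <;> simp [join]
    rw [h0]
    ring
  obtain ⟨α, hα⟩ := key 0
  obtain ⟨β, hβ⟩ := key 1
  exact ⟨α, β, fun y => by rw [vp, hα, hβ]⟩

/-- The common corner at a vertex. -/
theorem corner_of_VD (hS : S.Finite) (hP : P = convexHull ℝ (toR '' S))
    (hVD : ∀ v, toR v ∈ P.extremePoints ℝ → ∃ u D, VD P v u D) {v : Fin (m + 2) → ℤ}
    {u D : Fin (m + 2) → (Fin (m + 2) → ℤ)} (h : VD P v u D) :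
    ∃ w w' c, Corner (conf P) w w' c ∧ Raff P c ∧ ∀ y : Lev P, y.1 = baseZ v → c y = vp v := by
  have hbase : ∀ y : Fin m → ℤ, baseZ (sectZ v u D y) = y := by
    intro y
    have h1 := h.base_sect (toR y)
    rw [← toR_sectZ, base_toR] at h1
    exact toR_injective h1
  have hsec : ∀ y : Lev P, join y.1 (vp (sectZ v u D y.1)) = sectZ v u D y.1 := by
    intro y
    have := join_eta (sectZ v u D y.1)
    rwa [hbase] at this
  let c : Lev P → ℤ × ℤ := fun y => vp (sectZ v u D y.1)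
  have hmem : ∀ y, (y, c y) ∈ conf P := by
    intro y
    show toR (join y.1 (c y)) ∈ P
    rw [hsec, toR_sectZ]
    obtain ⟨x, hx, hxy⟩ := y.2
    rw [← hxy]
    exact (h.sect_mem hS hP hVD hx).1
  have hedge : ∀ (l : Fin 2) y, (y, c y + vp (u (Fin.natAdd m l))) ∈ conf P := by
    intro l y
    show toR (join y.1 (c y + vp (u (Fin.natAdd m l)))) ∈ P
    have e : join y.1 (c y + vp (u (Fin.natAdd m l))) = sectZ v u D y.1 + u (Fin.natAdd m l) := by
      apply join_ext
      · rw [baseZ_join, baseZ_add, hbase]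
        have : baseZ (u (Fin.natAdd m l)) = 0 := funext (fun z => h.vert l z)
        rw [this, add_zero]
      · rw [vp_join, vp_add]
    rw [e, toR_add, toR_sectZ]
    exact h.vert_edge_all hS hP hVD y.2 l
  have hcone : ∀ y x, (y, x) ∈ conf P → ∃ α β : ℤ, 0 ≤ α ∧ 0 ≤ β ∧
      x - c y = α • vp (u (Fin.natAdd m 0)) + β • vp (u (Fin.natAdd m 1)) := by
    intro y x hx
    have hx' : toR (join y.1 x) ∈ P := hx
    have h1 : ∀ z : Fin m, (join y.1 x - sectZ v u D y.1) (Fin.castAdd 2 z) = 0 := by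
      intro z
      have e1 := congrFun (hbase y.1) z
      have e2 := congrFun (baseZ_join y.1 x) z
      simp only [baseZ] at e1 e2
      rw [Pi.sub_apply, e1, e2, sub_self]
    have h2 := h.reprZ_vert h1
    have h3 : ∀ l, D (Fin.natAdd m l) ⬝ᵥ (join y.1 x - sectZ v u D y.1) =
        D (Fin.natAdd m l) ⬝ᵥ (join y.1 x - v) := by
      intro l
      have e1 := h.lin_sect (toR y.1) l
      rw [← toR_sectZ, ← toR_sub, linR_toR] at e1
      have e2 : D (Fin.natAdd m l) ⬝ᵥ (sectZ v u D y.1 - v) = 0 := by exact_mod_cast e1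
      have e3 : join y.1 x - sectZ v u D y.1 = (join y.1 x - v) - (sectZ v u D y.1 - v) := by abel
      rw [e3, dotProduct_sub, e2, sub_zero]
    have h4 : ∀ l, 0 ≤ D (Fin.natAdd m l) ⬝ᵥ (join y.1 x - v) := by
      intro l
      have e1 := h.pos _ hx' (Fin.natAdd m l)
      rw [← toR_sub, linR_toR] at e1
      exact_mod_cast e1
    refine ⟨_, _, h4 0, h4 1, ?_⟩
    have h5 := congrArg vp h2
    rw [vp_sub, vp_join, Fin.sum_univ_two, vp_add, vp_smul, vp_smul, h3, h3] at h5
    exact h5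
  have hcv : ∀ y : Lev P, y.1 = baseZ v → c y = vp v := by
    intro y hy
    have h1 : sectZ v u D y.1 = v := by
      apply toR_injective
      rw [toR_sectZ, hy, ← base_toR]
      exact (h.eq_sect (fun l => by rw [sub_self, linR_zero])).symm
    simp only [c]
    rw [h1]
  have haff : Raff P c := by
    obtain ⟨α, β, hαβ⟩ := vp_sectZ_affine v u D
    exact ⟨α, β, fun y => hαβ y.1⟩
  set w := vp (u (Fin.natAdd m 0)) with hw
  set w' := vp (u (Fin.natAdd m 1)) with hw'
  -- the determinant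
  have hex : ∀ q : ℤ × ℤ, ∃ a b : ℤ, q = a • w + b • w' := by
    intro q
    have h1 := h.reprZ_vert (x := join 0 q) (fun z => by simp [join])
    have h2 := congrArg vp h1
    rw [vp_join, Fin.sum_univ_two, vp_add, vp_smul, vp_smul] at h2
    exact ⟨_, _, h2⟩
  obtain ⟨a, b, hab⟩ := hex (1, 0)
  obtain ⟨a', b', hab'⟩ := hex (0, 1)
  have hdet : dt w w' * (a * b' - b * a') = 1 := by
    have e1 := congrArg Prod.fst hab
    have e2 := congrArg Prod.snd hab
    have e3 := congrArg Prod.fst hab'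
    have e4 := congrArg Prod.snd hab'
    simp only [Prod.fst_add, Prod.snd_add, Prod.smul_fst, Prod.smul_snd, smul_eq_mul] at e1 e2 e3 e4
    simp only [dt]
    linear_combination (-(a' * w.2 + b' * w'.2)) * e1 - e4 + (a * w.2 + b * w'.2) * e3
  rcases Int.eq_one_or_neg_one_of_mul_eq_one' hdet with hd | hd
  · refine ⟨w, w', c, ⟨hd.1, hmem, hedge 0, hedge 1, ?_⟩, haff, hcv⟩
    intro y x hx
    obtain ⟨α, β, ha, hb, e⟩ := hcone y x hx
    rw [e, dt_add_right, dt_smul_right, dt_smul_right, dt_self, dt_add_left, dt_smul_left,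
      dt_smul_left, dt_self, hd.1]
    constructor <;> linarith
  · have h1 : dt w' w = 1 := by rw [dt_swap, hd.1]; ring
    refine ⟨w', w, c, ⟨h1, hmem, hedge 1, hedge 0, ?_⟩, haff, hcv⟩
    intro y x hx
    obtain ⟨α, β, ha, hb, e⟩ := hcone y x hx
    rw [e, dt_add_right, dt_smul_right, dt_smul_right, dt_self, dt_add_left, dt_smul_left,
      dt_smul_left, dt_self, h1]
    constructor <;> linarith

/-- Exposed points over an extreme point of the base. -/
theorem hcat (hS : S.Finite) (hP : P = convexHull ℝ (toR '' S))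
    (hVD : ∀ v, toR v ∈ P.extremePoints ℝ → ∃ u D, VD P v u D) (j0 : Lev P)
    (hj0 : toR j0.1 ∈ (base '' P).extremePoints ℝ) : HCat (conf P) (Raff P) j0 := by
  classical
  rintro z hz ⟨hzA, f, ⟨α, β, γ, hf⟩, hfmin⟩
  subst hz
  set Q : Set (Fin (m + 2) → ℝ) := {x | x ∈ P ∧ base x = toR z.1.1} with hQ
  have hcomp : IsCompact P := by rw [hP]; exact (hS.image _).isCompact_convexHull (𝕜 := ℝ)
  have hconv : Convex ℝ P := by rw [hP]; exact convex_convexHull ℝ _
  have hQc : IsCompact Q := by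
    have : Q = P ∩ {x | base x = toR z.1.1} := rfl
    rw [this]
    exact hcomp.inter_right (isClosed_eq VD.continuous_base continuous_const)
  have hQconv : Convex ℝ Q := by
    rintro x ⟨hx, hx'⟩ y ⟨hy, hy'⟩ a b ha hb hab
    refine ⟨hconv hx hy ha hb hab, ?_⟩
    rw [base_add, base_smul, base_smul, hx', hy', ← add_smul, hab, one_smul]
  have hQext : IsExtreme ℝ P Q := by
    refine ⟨fun x hx => hx.1, ?_⟩
    rintro x hx y hy p ⟨_, hp⟩ hseg
    obtain ⟨a, b, ha, hb, hab, rfl⟩ := hseg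
    refine ⟨hx, ?_⟩
    rw [mem_extremePoints] at hj0
    refine (hj0.2 _ ⟨x, hx, rfl⟩ _ ⟨y, hy, rfl⟩ ⟨a, b, ha, hb, hab, ?_⟩).1
    rw [← hp, base_add, base_smul, base_smul]
  have hPE : P.extremePoints ℝ ⊆ toR '' S := by
    rw [hP]
    exact extremePoints_convexHull_subset
  have hQE : Q.extremePoints ℝ ⊆ toR '' S := hQext.extremePoints_subset_extremePoints.trans hPE
  set SQ : Set (Fin (m + 2) → ℤ) := {s | toR s ∈ Q.extremePoints ℝ} with hSQ
  have hSQi : toR '' SQ = Q.extremePoints ℝ := by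
    ext x
    constructor
    · rintro ⟨s, hs, rfl⟩; exact hs
    · intro hx
      obtain ⟨s, _, rfl⟩ := hQE hx
      exact ⟨s, hx, rfl⟩
  have hQP : Q = convexHull ℝ (toR '' SQ) := by
    rw [hSQi]
    have hfin : (Q.extremePoints ℝ).Finite := (hS.image _).subset hQE
    rw [← (hfin.isClosed_convexHull (𝕜 := ℝ)).closure_eq]
    exact (closure_convexHull_extremePoints hQc hQconv).symm
  have hzQ : toR (join z.1.1 z.2) ∈ Q := ⟨hzA, by rw [base_toR, baseZ_join]⟩
  have hcoef : ∀ x : Fin (m + 2) → ℤ, evZ ((fun i => if i = Fin.natAdd m 0 then β else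
      if i = Fin.natAdd m 1 then γ else 0), 0) x = β * (vp x).1 + γ * (vp x).2 := by
    intro x
    have h01 : Fin.natAdd m (0 : Fin 2) ≠ Fin.natAdd m 1 := by
      intro hc
      have := congrArg Fin.val hc
      simp at this
    simp only [evZ, dotProduct, vp, add_zero]
    have e : ∀ i : Fin (m + 2), (if i = Fin.natAdd m 0 then β else
        if i = Fin.natAdd m 1 then γ else 0) * x i =
        (if i = Fin.natAdd m 0 then β * x i else 0) +
          (if i = Fin.natAdd m 1 then γ * x i else 0) := by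
      intro i
      by_cases h1 : i = Fin.natAdd m 0
      · rw [if_pos h1, if_pos h1, if_neg (by rw [h1]; exact h01), add_zero]
      · rw [if_neg h1, if_neg h1, zero_add]
        split_ifs <;> simp
    simp only [e, sum_add_distrib, sum_ite_eq', mem_univ, if_true]
  have hex := extreme_of_exposed (P := Q) (S := SQ) (L := {x | toR x ∈ Q}) hQP
    (fun s hs => hs.1) hzQ ((fun i => if i = Fin.natAdd m 0 then β else
      if i = Fin.natAdd m 1 then γ else 0), 0) (by
      intro x hx hne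
      have hb : baseZ x = z.1.1 := toR_injective (by rw [← base_toR]; exact hx.2)
      have e1 : join z.1.1 (vp x) = x := by rw [← hb, join_eta]
      have e2 := hfmin (z.1, vp x) (by
        show toR (join z.1.1 (vp x)) ∈ P
        rw [e1]; exact hx.1) (by
        intro hc
        apply hne
        rw [← e1, ← hc])
      rw [hf, hf] at e2
      rw [hcoef, hcoef, vp_join]
      simp only at e2
      linarith)
  have hexP := hQext.extremePoints_subset_extremePoints hex
  obtain ⟨u, D, h⟩ := hVD _ hexP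
  obtain ⟨w, w', c, hC, hR, hc⟩ := corner_of_VD hS hP hVD h
  refine ⟨w, w', c, hC, ?_, hR⟩
  rw [hc z.1 (by rw [baseZ_join]), vp_join]

end corner

end Pool.Agent.Helper517.Bundle
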