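import Pool.Agent.Helper517.Extract

/-!
A lattice point satisfying all inequalities is in the convex hull of the corners.
-/

namespace Pool.Agent.Helper517.Hull

open Finset Pool.Agent.Helper517.Place Pool.Agent.Helper517.Step
open Pool.Agent.Helper517 Pool.Agent.Helper517.Grow Pool.Agent.Helper517.Walk
open Pool.Agent.Helper517.Start Pool.Agent.Helper517.Level Pool.Agent.Helper517.Extract
open Pool.Agent.Helper517.Cvx

section chain

variable {P Q C k : ℕ → ℤ} {M : ℕ}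

lemma chain_pt (h : Chain P Q C k M) (hM : 2 ≤ M)
    (ha : ∀ i, 1 ≤ i → i < M → 1 ≤ C (i - 1) + C (i + 1) - k i * C i) {x y : ℤ}
    (hx : ∀ j, j ≤ M → P j * x + Q j * y ≤ C j) (h0 : Chain.Y P C 0 ≤ y)
    (h1 : y ≤ Chain.Y P C (M - 1)) :
    ∃ e, 1 ≤ e ∧ e < M ∧ ∃ s t : ℝ, 0 ≤ s ∧ 0 ≤ t ∧ s + t = 1 ∧
      s * (Chain.Y P C (e - 1) : ℝ) + t * (Chain.Y P C e : ℝ) = y ∧
      (x : ℝ) ≤ s * (Chain.X Q C (e - 1) : ℝ) + t * (Chain.X Q C e : ℝ) := by
  obtain ⟨e, e1, e2, e3, e4⟩ : ∃ e, 1 ≤ e ∧ e < M ∧ Chain.Y P C (e - 1) ≤ y ∧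
      y ≤ Chain.Y P C e := by
    rcases h1.lt_or_eq with h2 | h2
    · obtain ⟨e, a, b, c, d⟩ := active h0 h2
      exact ⟨e, a, b, c, d.le⟩
    · refine ⟨M - 1, by omega, by omega, ?_, h2.le⟩
      rw [h2]
      exact h.Y_mono (by omega) (by omega)
  have pe := h.pos e e1 e2
  have hlt := Y_lt' h ha (show e - 1 < e by omega) e2
  have b1 := h.at_left e e2
  have b2 := h.at_right (e - 1) (by omega)
  rw [show e - 1 + 1 = e by omega] at b2
  have hxe := hx e e2.le
  set u := Chain.X Q C (e - 1)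
  set v := Chain.Y P C (e - 1)
  set u' := Chain.X Q C e
  set v' := Chain.Y P C e
  have hD : (0 : ℝ) < (v' : ℝ) - v := by
    have : (v : ℝ) < v' := by exact_mod_cast hlt
    linarith
  have pe' : (0 : ℝ) < P e := by exact_mod_cast pe
  have b1' : (P e : ℝ) * u' + Q e * v' = C e := by exact_mod_cast b1
  have b2' : (P e : ℝ) * u + Q e * v = C e := by exact_mod_cast b2
  have hxe' : (P e : ℝ) * x + Q e * y ≤ C e := by exact_mod_cast hxe
  have e3' : (v : ℝ) ≤ y := by exact_mod_cast e3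
  have e4' : (y : ℝ) ≤ v' := by exact_mod_cast e4
  refine ⟨e, e1, e2, (v' - y) / (v' - v), (y - v) / (v' - v), ?_, ?_, ?_, ?_, ?_⟩
  · exact div_nonneg (by linarith) hD.le
  · exact div_nonneg (by linarith) hD.le
  · rw [← add_div]
    rw [show (v' : ℝ) - y + (y - v) = v' - v by ring]
    exact div_self hD.ne'
  · field_simp
    ring
  · have key : (P e : ℝ) * x ≤ P e * ((v' - y) / (v' - v) * u + (y - v) / (v' - v) * u') := by
      have : (P e : ℝ) * ((v' - y) / (v' - v) * u + (y - v) / (v' - v) * u') = C e - Q e * y := by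
        field_simp
        linear_combination (v' - y : ℝ) * b2' + (y - v : ℝ) * b1'
      rw [this]
      linarith
    exact le_of_mul_le_mul_left key pe'

end chain

lemma mem_of_between {K : Set (ℝ × ℝ)} (hK : Convex ℝ K) {l r x y : ℝ} (hl : (l, y) ∈ K)
    (hr : (r, y) ∈ K) (h1 : l ≤ x) (h2 : x ≤ r) : (x, y) ∈ K := by
  have h3 : x ∈ segment ℝ l r := by
    rw [segment_eq_Icc (h1.trans h2)]
    exact ⟨h1, h2⟩
  obtain ⟨a, b, ha, hb, hab, h4⟩ := h3
  have h5 := hK hl hr ha hb hab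
  have : a • (l, y) + b • (r, y) = (x, y) := by
    ext
    · simpa using h4
    · simp only [Prod.snd_add, Prod.smul_snd, smul_eq_mul]
      rw [← add_mul, hab, one_mul]
  rwa [this] at h5

variable {n N N' : ℕ} {F : Fan n}

theorem hull (h : TwoChain F N N') {a : ZMod n → ℤ} (ha : Amp F N N' a) {x y : ℤ}
    (hc : ∀ m, F.p m * x + F.q m * y ≤ a m) :
    ((x : ℝ), (y : ℝ)) ∈
      convexHull ℝ (Set.range fun m : ZMod n => ((F.ux a m : ℝ), (F.uy a m : ℝ))) := by
  obtain ⟨ha0, haR, haL⟩ := ha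
  have hR := h.chainR ha0
  have hL := h.chainL ha0
  have hN := h.N_pos
  have hN' := h.N'_pos
  have aR : ∀ i, 1 ≤ i → i < N + 1 → 1 ≤ (fun i : ℕ => a (i : ZMod n)) (i - 1) +
      (fun i : ℕ => a (i : ZMod n)) (i + 1) -
      (fun i : ℕ => F.k (i : ZMod n)) i * (fun i : ℕ => a (i : ZMod n)) i := by
    intro i hi hi'
    have := haR i hi (by omega)
    simp only
    rw [Nat.cast_sub hi]
    push_cast
    exact this
  have aL : ∀ i, 1 ≤ i → i < N' + 1 → 1 ≤ (fun i : ℕ => a (-(i : ZMod n))) (i - 1) +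
      (fun i : ℕ => a (-(i : ZMod n))) (i + 1) -
      (fun i : ℕ => F.k (-(i : ZMod n))) i * (fun i : ℕ => a (-(i : ZMod n))) i := by
    intro i hi hi'
    have := haL i hi (by omega)
    have e : -((i - 1 : ℕ) : ZMod n) = -(i : ZMod n) + 1 := by
      rw [Nat.cast_sub hi]; push_cast; ring
    have e' : -((i + 1 : ℕ) : ZMod n) = -(i : ZMod n) - 1 := by push_cast; ring
    simp only
    rw [e, e']
    rw [Fan.len] at this
    linarith
  have hbot : - a 0 ≤ y := by
    have := hc 0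
    rw [h.p0, h.q0] at this
    linarith
  have htop : y ≤ a ((N + 1 : ℕ) : ZMod n) := by
    have := hc ((N + 1 : ℕ) : ZMod n)
    rw [h.pT, h.qT] at this
    linarith
  obtain ⟨e, _, _, s, t, hs, ht, hst, hy, hx⟩ := chain_pt hR (by omega) aR (x := x) (y := y)
    (fun j _ => hc _) (by rw [TwoChain.YR, uy_zero h]; exact hbot)
    (by rw [add_tsub_cancel_right, TwoChain.YR, uy_top h]; exact htop)
  obtain ⟨e', _, _, s', t', hs', ht', hst', hy', hx'⟩ := chain_pt hL (by omega) aL (x := -x)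
    (y := y) (fun j _ => by have := hc (-(j : ZMod n)); linarith)
    (by rw [TwoChain.YL, uy_neg_one h]; exact hbot)
    (by rw [add_tsub_cancel_right, TwoChain.YL, uy_top' h]; exact htop)
  rw [TwoChain.YR, TwoChain.YR] at hy
  rw [TwoChain.XR, TwoChain.XR] at hx
  rw [TwoChain.YL, TwoChain.YL] at hy'
  rw [TwoChain.XL, TwoChain.XL] at hx'
  set S : Set (ℝ × ℝ) := Set.range fun m : ZMod n => ((F.ux a m : ℝ), (F.uy a m : ℝ)) with hS
  have hconv := convex_convexHull ℝ S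
  have hmem : ∀ m : ZMod n, ((F.ux a m : ℝ), (F.uy a m : ℝ)) ∈ convexHull ℝ S :=
    fun m => subset_convexHull ℝ S ⟨m, rfl⟩
  have r1 := hconv (hmem ((e - 1 : ℕ) : ZMod n)) (hmem (e : ZMod n)) hs ht hst
  have l1 := hconv (hmem (-((e' - 1 + 1 : ℕ) : ZMod n))) (hmem (-((e' + 1 : ℕ) : ZMod n)))
    hs' ht' hst'
  simp only [Prod.smul_mk, Prod.mk_add_mk, smul_eq_mul] at r1 l1
  rw [hy] at r1
  rw [hy'] at l1
  push_cast at hx'
  push_cast at l1
  refine mem_of_between hconv l1 r1 ?_ hx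
  linarith

end Pool.Agent.Helper517.Hull
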