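import Pool.Agent.Helper517.Conv
import Pool.Agent.Helper517.Hull

/-!
Unimodular coordinates at a vertex of a smooth Cayley polytope.
-/

namespace Pool.Agent.Helper517.Frame

open Finset Pool.Agent.Helper517.Place Pool.Agent.Helper517.Conv
open Pool.Agent.Helper517

variable {d k : ℕ}

/-- Values of an integral affine functional. -/
def evZ (l : (Fin d → ℤ) × ℤ) (x : Fin d → ℤ) : ℤ := l.1 ⬝ᵥ x + l.2

lemma evZ_add (l : (Fin d → ℤ) × ℤ) (x y : Fin d → ℤ) : evZ l (x + y) = evZ l x + l.1 ⬝ᵥ y := by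
  simp only [evZ, dotProduct_add]; ring

/-- Dual bases. -/
structure DualBasis (u D : Fin d → (Fin d → ℤ)) : Prop where
  dual : ∀ i l, D i ⬝ᵥ u l = if i = l then 1 else 0
  repr : ∀ x : Fin d → ℤ, x = ∑ i, (D i ⬝ᵥ x) • u i

lemma exists_dualBasis (u : Fin d → (Fin d → ℤ)) (hu : |(Matrix.of u).det| = 1) :
    ∃ D, DualBasis u D := by
  set M : Matrix (Fin d) (Fin d) ℤ := Matrix.of u with hM
  have hunit : IsUnit M.det := Int.isUnit_iff_abs_eq.2 hu
  have h1 : M * M⁻¹ = 1 := Matrix.mul_nonsing_inv M hunit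
  have h2 : M⁻¹ * M = 1 := Matrix.nonsing_inv_mul M hunit
  refine ⟨fun i z => M⁻¹ z i, ?_, ?_⟩
  · intro i l
    have h3 := congrFun (congrFun h1 l) i
    rw [Matrix.mul_apply, Matrix.one_apply] at h3
    rw [dotProduct]
    calc ∑ z, M⁻¹ z i * u l z = ∑ z, M l z * M⁻¹ z i :=
          sum_congr rfl (fun z _ => mul_comm _ _)
      _ = if l = i then 1 else 0 := h3
      _ = if i = l then 1 else 0 := by simp only [eq_comm]
  · intro x
    funext z
    rw [Finset.sum_apply]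
    have h3 : ∀ z', (∑ i, M⁻¹ z' i * M i z) = if z' = z then 1 else 0 := by
      intro z'
      have := congrFun (congrFun h2 z') z
      rwa [Matrix.mul_apply, Matrix.one_apply] at this
    calc x z = ∑ z', x z' * (if z' = z then 1 else 0) := by simp
      _ = ∑ z', x z' * ∑ i, M⁻¹ z' i * M i z := by
        exact sum_congr rfl (fun z' _ => by rw [h3])
      _ = ∑ z', ∑ i, x z' * (M⁻¹ z' i * M i z) := by
        exact sum_congr rfl (fun z' _ => mul_sum _ _ _)
      _ = ∑ i, ∑ z', x z' * (M⁻¹ z' i * M i z) := sum_comm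
      _ = ∑ i, (((fun z => M⁻¹ z i) ⬝ᵥ x) • u i) z := by
        refine sum_congr rfl (fun i _ => ?_)
        rw [Pi.smul_apply, smul_eq_mul, dotProduct, sum_mul]
        refine sum_congr rfl (fun z' _ => ?_)
        show _ = M⁻¹ z' i * x z' * M i z
        ring

/-- Coordinates at a vertex. -/
structure VFrame (L : Set (Fin d → ℤ)) (lam : Fin (k + 1) → (Fin d → ℤ) × ℤ) (j : Fin (k + 1))
    (v w w' : Fin d → ℤ) (U : Fin (k + 1) → (Fin d → ℤ)) (X Y : Fin d → ℤ) : Prop where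
  Uj : U j = 0
  memU : ∀ l, v + U l ∈ L
  memw : v + w ∈ L
  memw' : v + w' ∈ L
  lamU : ∀ l l', evZ (lam l') (v + U l) = if l' = l then 1 else 0
  lamw : ∀ l, (lam l).1 ⬝ᵥ w = 0
  lamw' : ∀ l, (lam l).1 ⬝ᵥ w' = 0
  Xw : X ⬝ᵥ w = 1
  Xw' : X ⬝ᵥ w' = 0
  XU : ∀ l, X ⬝ᵥ U l = 0
  Yw : Y ⬝ᵥ w = 0
  Yw' : Y ⬝ᵥ w' = 1
  YU : ∀ l, Y ⬝ᵥ U l = 0
  repr : ∀ x, x = v + ∑ l, evZ (lam l) x • U l + (X ⬝ᵥ (x - v)) • w + (Y ⬝ᵥ (x - v)) • w'
  pos : ∀ x ∈ L, 0 ≤ X ⬝ᵥ (x - v) ∧ 0 ≤ Y ⬝ᵥ (x - v)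

/-- Levels. -/
lemma exists_level {L : Set (Fin d → ℤ)} {lam : Fin (k + 1) → (Fin d → ℤ) × ℤ}
    (hpos : ∀ x ∈ L, ∀ l, 0 ≤ evZ (lam l) x) (hsum : ∀ x ∈ L, ∑ l, evZ (lam l) x = 1)
    {x : Fin d → ℤ} (hx : x ∈ L) : ∃ j, ∀ l, evZ (lam l) x = if l = j then 1 else 0 := by
  classical
  have hs := hsum x hx
  have hp := hpos x hx
  obtain ⟨j, hj⟩ : ∃ j, 1 ≤ evZ (lam j) x := by
    by_contra hcon
    push Not at hcon
    have : ∑ l, evZ (lam l) x ≤ 0 := sum_nonpos (fun l _ => by have := hcon l; omega)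
    omega
  have h1 := add_sum_erase univ (fun l => evZ (lam l) x) (mem_univ j)
  have h2 : 0 ≤ ∑ l ∈ univ.erase j, evZ (lam l) x := sum_nonneg (fun l _ => hp l)
  have h3 : ∑ l ∈ univ.erase j, evZ (lam l) x = 0 := by omega
  have h4 := (sum_eq_zero_iff_of_nonneg (fun l _ => hp l)).1 h3
  refine ⟨j, fun l => ?_⟩
  by_cases hl : l = j
  · rw [if_pos hl, hl]; omega
  · rw [if_neg hl]; exact h4 l (mem_erase.2 ⟨hl, mem_univ _⟩)

lemma exists_frame {L : Set (Fin (k + 2) → ℤ)} {lam : Fin (k + 1) → (Fin (k + 2) → ℤ) × ℤ}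
    (hpos : ∀ x ∈ L, ∀ l, 0 ≤ evZ (lam l) x) (hsum : ∀ x ∈ L, ∑ l, evZ (lam l) x = 1)
    (hne : ∀ l, ∃ x ∈ L, evZ (lam l) x = 1) {j : Fin (k + 1)} {v : Fin (k + 2) → ℤ}
    (hv : v ∈ L) (hvj : evZ (lam j) v = 1) {u D : Fin (k + 2) → (Fin (k + 2) → ℤ)}
    (hD : DualBasis u D) (hu : ∀ i, v + u i ∈ L) (hcone : ∀ x ∈ L, ∀ i, 0 ≤ D i ⬝ᵥ (x - v))
    {a b : Fin (k + 2)} (hab : a ≠ b) (ha : (lam j).1 ⬝ᵥ u a = 0) (hb : (lam j).1 ⬝ᵥ u b = 0) :
    ∃ U, VFrame L lam j v (u a) (u b) U (D a) (D b) := by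
  classical
  have hvl : ∀ l, evZ (lam l) v = if l = j then 1 else 0 := by
    obtain ⟨j', hj'⟩ := exists_level hpos hsum hv
    have : j = j' := by
      by_contra hcon
      have := hj' j
      rw [if_neg hcon] at this
      omega
    rw [this]; exact hj'
  choose τ hτ using fun i => exists_level hpos hsum (hu i)
  have hlin : ∀ l i, (lam l).1 ⬝ᵥ u i = (if l = τ i then 1 else 0) - (if l = j then 1 else 0) := by
    intro l i
    have := hτ i l
    rw [evZ_add, hvl] at this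
    linarith
  have hτa : τ a = j := by
    have := hlin j a
    rw [ha, if_pos rfl] at this
    by_contra hcon
    rw [if_neg (Ne.symm hcon)] at this
    omega
  have hτb : τ b = j := by
    have := hlin j b
    rw [hb, if_pos rfl] at this
    by_contra hcon
    rw [if_neg (Ne.symm hcon)] at this
    omega
  -- values of the functionals
  have hval : ∀ l x, evZ (lam l) x = evZ (lam l) v + ∑ i, (D i ⬝ᵥ (x - v)) * ((lam l).1 ⬝ᵥ u i) := by
    intro l x
    have e1 : x = v + (x - v) := by ring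
    have e2 := hD.repr (x - v)
    conv_lhs => rw [e1, evZ_add, e2]
    rw [dotProduct_sum]
    simp only [dotProduct_smul, smul_eq_mul]
  have hsurj : ∀ l, l ≠ j → ∃ i, τ i = l := by
    intro l hl
    obtain ⟨x, hx, hxl⟩ := hne l
    by_contra hcon
    push Not at hcon
    rw [hval, hvl, if_neg hl, sum_eq_zero] at hxl
    · omega
    · intro i _
      rw [hlin, if_neg (Ne.symm (hcon i)), if_neg hl]; ring
  have hsurj' : ∀ l, ∃ i, l ≠ j → τ i = l := by
    intro l
    by_cases hl : l = j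
    · exact ⟨a, fun h => absurd hl h⟩
    · obtain ⟨i, hi⟩ := hsurj l hl
      exact ⟨i, fun _ => hi⟩
  choose σ hσ using hsurj'
  have hinj : Set.InjOn σ ((univ.erase j : Finset (Fin (k + 1))) : Set (Fin (k + 1))) := by
    intro l hl l' hl' h
    have h1 := hσ l (ne_of_mem_erase (mem_coe.1 hl))
    have h2 := hσ l' (ne_of_mem_erase (mem_coe.1 hl'))
    rw [← h1, ← h2, h]
  have hbn : b ∉ (univ.erase j).image σ := by
    intro hc
    obtain ⟨l, hl, hlb⟩ := mem_image.1 hc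
    have h1 := hσ l (ne_of_mem_erase hl)
    rw [hlb, hτb] at h1
    exact ne_of_mem_erase hl h1.symm
  have han : a ∉ insert b ((univ.erase j).image σ) := by
    intro hc
    rcases mem_insert.1 hc with h | h
    · exact hab h
    · obtain ⟨l, hl, hla⟩ := mem_image.1 h
      have h1 := hσ l (ne_of_mem_erase hl)
      rw [hla, hτa] at h1
      exact ne_of_mem_erase hl h1.symm
  have huniv : (univ : Finset (Fin (k + 2))) =
      insert a (insert b ((univ.erase j).image σ)) := by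
    symm
    apply eq_univ_of_card
    rw [card_insert_of_notMem han, card_insert_of_notMem hbn, card_image_of_injOn hinj,
      card_erase_of_mem (mem_univ _), card_univ, Fintype.card_fin, Fintype.card_fin]
    omega
  have hsumall : ∀ (G : Fin (k + 2) → (Fin (k + 2) → ℤ)),
      ∑ i, G i = G a + (G b + ∑ l ∈ univ.erase j, G (σ l)) := by
    intro G
    rw [huniv, sum_insert han, sum_insert hbn, sum_image hinj]
  have hsumallZ : ∀ (G : Fin (k + 2) → ℤ),
      ∑ i, G i = G a + (G b + ∑ l ∈ univ.erase j, G (σ l)) := by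
    intro G
    rw [huniv, sum_insert han, sum_insert hbn, sum_image hinj]
  have hcoef : ∀ l, l ≠ j → ∀ x, evZ (lam l) x = D (σ l) ⬝ᵥ (x - v) := by
    intro l hl x
    rw [hval, hvl, if_neg hl, hsumallZ]
    rw [hlin l a, hlin l b, hτa, hτb, if_neg hl]
    rw [sum_eq_single l]
    · rw [hlin, hσ l hl, if_pos rfl, if_neg hl]; ring
    · intro l' hl' hne'
      rw [hlin, hσ l' (ne_of_mem_erase hl'), if_neg hl, if_neg (Ne.symm hne')]; ring
    · intro h
      exact absurd (mem_erase.2 ⟨hl, mem_univ _⟩) h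
  let U : Fin (k + 1) → (Fin (k + 2) → ℤ) := fun l => if l = j then 0 else u (σ l)
  have hU0 : U j = 0 := by simp [U]
  have hU1 : ∀ l, l ≠ j → U l = u (σ l) := fun l hl => by simp [U, hl]
  refine ⟨U, hU0, ?_, hu a, hu b, ?_, ?_, ?_, ?_, ?_, ?_, ?_, ?_, ?_, ?_, ?_⟩
  · intro l
    by_cases hl : l = j
    · rw [hl, hU0, add_zero]; exact hv
    · rw [hU1 l hl]; exact hu _
  · intro l l'
    by_cases hl : l = j
    · rw [hl, hU0, add_zero]; exact hvl l'
    · rw [hU1 l hl, hτ, hσ l hl]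
  · intro l
    rw [hlin, hτa]; ring
  · intro l
    rw [hlin, hτb]; ring
  · rw [hD.dual, if_pos rfl]
  · rw [hD.dual, if_neg hab]
  · intro l
    by_cases hl : l = j
    · rw [hl, hU0, dotProduct_zero]
    · rw [hU1 l hl, hD.dual, if_neg]
      intro h
      have h1 := hσ l hl
      rw [← h, hτa] at h1
      exact hl h1.symm
  · rw [hD.dual, if_neg (Ne.symm hab)]
  · rw [hD.dual, if_pos rfl]
  · intro l
    by_cases hl : l = j
    · rw [hl, hU0, dotProduct_zero]
    · rw [hU1 l hl, hD.dual, if_neg]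
      intro h
      have h1 := hσ l hl
      rw [← h, hτb] at h1
      exact hl h1.symm
  · intro x
    have e1 := hD.repr (x - v)
    rw [hsumall] at e1
    have e2 : ∑ l, evZ (lam l) x • U l = ∑ l ∈ univ.erase j, (D (σ l) ⬝ᵥ (x - v)) • u (σ l) := by
      rw [← add_sum_erase univ _ (mem_univ j), hU0, smul_zero, zero_add]
      refine sum_congr rfl (fun l hl => ?_)
      have hl' := ne_of_mem_erase hl
      rw [hU1 l hl', hcoef l hl']
    rw [e2]
    calc x = v + (x - v) := by ring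
      _ = v + ((D a ⬝ᵥ (x - v)) • u a + ((D b ⬝ᵥ (x - v)) • u b +
          ∑ l ∈ univ.erase j, (D (σ l) ⬝ᵥ (x - v)) • u (σ l))) := by rw [← e1]
      _ = _ := by abel
  · intro x hx
    exact ⟨hcone x hx a, hcone x hx b⟩

end Pool.Agent.Helper517.Frame
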