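import Pool.Agent.Helper517.Hull
import Pool.Agent.Helper517.Conv0
import Pool.Agent.Helper517.Frame

/-!
Gluing: the lower faces of the total space lie over faces of the triangulation of the base.
-/

namespace Pool.Agent.Helper517.Glue

open Finset Geometry Pool.Agent.Helper517.Place Pool.Agent.Helper517.Conv
open Pool.Agent.Helper517.Frame Pool.Agent.Helper517.Extract Pool.Agent.Helper517.Grow
open Pool.Agent.Helper517 Pool.Agent.Helper517.Step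
open Pool.Agent.Helper489.RUT (ev ev_comb_one)

variable {m : ℕ} {ι : Type*}

lemma len_sum {n : ℕ} (F : Fan n) (s : Finset ι) (a : ι → ZMod n → ℤ) (i : ZMod n) :
    F.len (fun i => ∑ y ∈ s, a y i) i = ∑ y ∈ s, F.len (a y) i := by
  simp only [Fan.len, sum_sub_distrib, sum_add_distrib, mul_sum]

lemma ux_sum {n : ℕ} (F : Fan n) (s : Finset ι) (a : ι → ZMod n → ℤ) (i : ZMod n) :
    F.ux (fun i => ∑ y ∈ s, a y i) i = ∑ y ∈ s, F.ux (a y) i := by
  simp only [Fan.ux, sum_sub_distrib, sum_mul]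

lemma uy_sum {n : ℕ} (F : Fan n) (s : Finset ι) (a : ι → ZMod n → ℤ) (i : ZMod n) :
    F.uy (fun i => ∑ y ∈ s, a y i) i = ∑ y ∈ s, F.uy (a y) i := by
  simp only [Fan.uy, sum_sub_distrib, sum_mul]

lemma amp_sum {n N N' : ℕ} {F : Fan n} {s : Finset ι} (hs : s.Nonempty) {a : ι → ZMod n → ℤ}
    (ha : ∀ y, Amp F N N' (a y)) : Amp F N N' (fun i => ∑ y ∈ s, a y i) := by
  classical
  obtain ⟨y0, hy0⟩ := hs
  have key : ∀ i : ZMod n, (∀ y, 1 ≤ F.len (a y) i) → 1 ≤ ∑ y ∈ s, F.len (a y) i := by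
    intro i hi
    have h1 : F.len (a y0) i ≤ ∑ y ∈ s, F.len (a y) i :=
      single_le_sum (f := fun y => F.len (a y) i) (fun y _ => by have := hi y; omega) hy0
    have := hi y0
    omega
  refine ⟨fun i => ?_, fun i h1 h2 => ?_, fun i h1 h2 => ?_⟩
  · rw [len_sum]
    exact sum_nonneg (fun y _ => (ha y).1 i)
  · rw [len_sum]
    exact key _ (fun y => (ha y).2.1 i h1 h2)
  · rw [len_sum]
    exact key _ (fun y => (ha y).2.2 i h1 h2)

/-- The real version of an integral functional. -/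
def cast (α : (Fin m → ℤ) × ℤ) : (Fin m → ℝ) × ℝ := ((fun i => (α.1 i : ℝ)), (α.2 : ℝ))

lemma ev_cast (α : (Fin m → ℤ) × ℤ) (x : Fin m → ℤ) : ev (cast α) (toR x) = (evZ α x : ℝ) := by
  rw [cast, ev_toR]
  rfl

theorem levels_in_face [Fintype ι] [DecidableEq ι] {e : ι → (Fin m → ℤ)}
    {K : SimplicialComplex ℝ (Fin m → ℝ)} {h : (Fin m → ℝ) → ℝ} {Q : Set (Fin m → ℝ)}
    (hK : RutData Q K h) (hconv : Convex ℝ Q) (heQ : ∀ y, toR (e y) ∈ Q)
    (heQ' : ∀ x : Fin m → ℤ, toR x ∈ Q → ∃ y, e y = x)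
    {n N N' : ℕ} {F : Fan n} (hT : TwoChain F N N') {a : ι → ZMod n → ℤ}
    (hAmp : ∀ j, Amp F N N' (a j))
    (haff : ∀ i, ∃ α β : (Fin m → ℤ) × ℤ, ∀ y, F.ux (a y) i = evZ α (e y) ∧
      F.uy (a y) i = evZ β (e y)) {B : Finset (Pt ι)} (hB : F.Conf a B) (ω : Pt ι → ℝ) :
    ∃ M : ℝ, ∀ σ : Finset (Pt ι), σ ⊆ B → σ.Nonempty → ∀ (A : (Fin m → ℝ) × ℝ) (β γ : ℝ),
      (∀ z ∈ σ, ev A (toR (e z.1)) + β * z.2.1 + γ * z.2.2 = M * h (toR (e z.1)) + ω z) →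
      (∀ z ∈ B, z ∉ σ → ev A (toR (e z.1)) + β * z.2.1 + γ * z.2.2 <
        M * h (toR (e z.1)) + ω z) →
      ∃ τ ∈ K.faces, ∀ z ∈ σ, toR (e z.1) ∈ τ := by
  classical
  obtain ⟨hsp, hfaces, _⟩ := hK
  set C : ℝ := ∑ z ∈ B, |ω z| with hC
  have hC0 : 0 ≤ C := sum_nonneg (fun _ _ => abs_nonneg _)
  have hωC : ∀ z ∈ B, |ω z| ≤ C := fun z hz =>
    single_le_sum (f := fun z => |ω z|) (fun _ _ => abs_nonneg _) hz
  have hpt : ∀ x : Fin m → ℝ, x ∈ Q ∧ (∀ i, ∃ k : ℤ, x i = (k : ℝ)) ↔ ∃ y, x = toR (e y) := by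
    intro x
    constructor
    · rintro ⟨hx, hxi⟩
      choose k hk using hxi
      have hxk : toR k = x := funext (fun i => (hk i).symm)
      obtain ⟨y, hy⟩ := heQ' k (by rw [hxk]; exact hx)
      exact ⟨y, by rw [hy, hxk]⟩
    · rintro ⟨y, rfl⟩
      exact ⟨heQ y, fun i => ⟨e y i, rfl⟩⟩
  set L : Finset (Fin m → ℝ) := univ.image (fun y => toR (e y)) with hL
  have hΦ : ∀ τ : Finset (Fin m → ℝ), ∃ φ : (Fin m → ℝ) × ℝ, τ ∈ K.faces →
      (∀ v ∈ τ, ev φ v = h v) ∧ ∀ y, toR (e y) ∉ τ → ev φ (toR (e y)) < h (toR (e y)) := by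
    intro τ
    by_cases hτ : τ ∈ K.faces
    · obtain ⟨_, _, φ1, φ2, h1, h2⟩ := (hfaces τ).1 hτ
      exact ⟨(φ1, φ2), fun _ => ⟨h1, fun y hy => h2 _ ((hpt _).2 ⟨y, rfl⟩) hy⟩⟩
    · exact ⟨0, fun hc => absurd hc hτ⟩
  choose Φ hΦ using hΦ
  have hsub : ∀ τ ∈ K.faces, τ ⊆ L := by
    intro τ hτ v hv
    obtain ⟨_, h1, _⟩ := (hfaces τ).1 hτ
    obtain ⟨y, hy⟩ := (hpt v).1 (h1 v hv)
    rw [hL, mem_image]
    exact ⟨y, mem_univ _, hy.symm⟩
  set D : ℝ := 2 * (Fintype.card ι : ℝ) * C with hD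
  set M : ℝ := 1 + ∑ τ ∈ L.powerset, ∑ y, |D / (h (toR (e y)) - ev (Φ τ) (toR (e y)))| with hM
  have hM1 : ∀ τ ∈ K.faces, ∀ y, 1 + |D / (h (toR (e y)) - ev (Φ τ) (toR (e y)))| ≤ M := by
    intro τ hτ y
    have h1 : ∑ y, |D / (h (toR (e y)) - ev (Φ τ) (toR (e y)))| ≤
        ∑ τ ∈ L.powerset, ∑ y, |D / (h (toR (e y)) - ev (Φ τ) (toR (e y)))| :=
      single_le_sum (f := fun τ => ∑ y, |D / (h (toR (e y)) - ev (Φ τ) (toR (e y)))|)
        (fun τ _ => sum_nonneg (fun _ _ => abs_nonneg _)) (mem_powerset.2 (hsub τ hτ))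
    have h2 : |D / (h (toR (e y)) - ev (Φ τ) (toR (e y)))| ≤
        ∑ y, |D / (h (toR (e y)) - ev (Φ τ) (toR (e y)))| :=
      single_le_sum (f := fun y => |D / (h (toR (e y)) - ev (Φ τ) (toR (e y)))|)
        (fun _ _ => abs_nonneg _) (mem_univ y)
    linarith
  have hM0 : 0 ≤ M := by
    have : 0 ≤ ∑ τ ∈ L.powerset, ∑ y, |D / (h (toR (e y)) - ev (Φ τ) (toR (e y)))| :=
      sum_nonneg (fun _ _ => sum_nonneg (fun _ _ => abs_nonneg _))
    linarith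
  refine ⟨M, fun σ hσB hne A β γ h1 h2 => ?_⟩
  have hle : ∀ z ∈ B, ev A (toR (e z.1)) + β * z.2.1 + γ * z.2.2 ≤
      M * h (toR (e z.1)) + ω z := by
    intro z hz
    by_cases hzσ : z ∈ σ
    · exact (h1 z hzσ).le
    · exact (h2 z hz hzσ).le
  set J : Finset ι := σ.image Prod.fst with hJ
  have hJne : J.Nonempty := hne.image _
  have hz : ∀ y, ∃ z : Pt ι, y ∈ J → z ∈ σ ∧ z.1 = y := by
    intro y
    by_cases hy : y ∈ J
    · obtain ⟨z, hz, hzy⟩ := mem_image.1 hy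
      exact ⟨z, fun _ => ⟨hz, hzy⟩⟩
    · exact ⟨(y, 0), fun hc => absurd hc hy⟩
  choose z hz using hz
  set R : ℝ := (J.card : ℝ) with hR
  have hR0 : 0 < R := by
    rw [hR]; exact_mod_cast hJne.card_pos
  have hone : ∑ y ∈ J, (1 / R) = 1 := by
    rw [sum_const, nsmul_eq_mul, ← hR]
    field_simp
  set p : Fin m → ℝ := ∑ y ∈ J, (1 / R) • toR (e y) with hp
  have hpQ : p ∈ Q := hconv.sum_mem (fun y _ => by positivity) hone (fun y _ => heQ y)
  rw [← hsp, SimplicialComplex.mem_space_iff] at hpQ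
  obtain ⟨τ, hτ, hpτ⟩ := hpQ
  obtain ⟨μ, hμ0, hμ1, hμp⟩ := Finset.mem_convexHull'.1 hpτ
  refine ⟨τ, hτ, ?_⟩
  by_contra hcon
  push Not at hcon
  obtain ⟨z0, hz0, hz0τ⟩ := hcon
  obtain ⟨hΦ1, hΦ2⟩ := hΦ τ hτ
  -- affine functionals at the barycenter
  have hbar : ∀ φ : (Fin m → ℝ) × ℝ, R * ev φ p = ∑ y ∈ J, ev φ (toR (e y)) := by
    intro φ
    rw [hp, ev_comb_one _ _ _ _ hone, ← mul_sum]
    field_simp
  have hbar' : ∀ φ : (Fin m → ℝ) × ℝ, ev φ p = ∑ v ∈ τ, μ v * ev φ v := by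
    intro φ
    rw [← hμp, ev_comb_one _ _ _ _ hμ1]
  -- the bound at the corners
  have hcor : ∀ i : ZMod n, ∑ y ∈ J, ev A (toR (e y)) + β * (∑ y ∈ J, (F.ux (a y) i : ℝ)) +
      γ * (∑ y ∈ J, (F.uy (a y) i : ℝ)) ≤
      M * ∑ y ∈ J, ev (Φ τ) (toR (e y)) + R * C := by
    intro i
    obtain ⟨α, δ, hαδ⟩ := haff i
    have e1 : ∑ y ∈ J, (F.ux (a y) i : ℝ) = R * ev (cast α) p := by
      rw [hbar]
      refine sum_congr rfl (fun y _ => ?_)
      rw [ev_cast, (hαδ y).1]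
    have e2 : ∑ y ∈ J, (F.uy (a y) i : ℝ) = R * ev (cast δ) p := by
      rw [hbar]
      refine sum_congr rfl (fun y _ => ?_)
      rw [ev_cast, (hαδ y).2]
    have key : ev A p + β * ev (cast α) p + γ * ev (cast δ) p ≤ M * ev (Φ τ) p + C := by
      have k1 : ∀ v ∈ τ, ev A v + β * ev (cast α) v + γ * ev (cast δ) v ≤
          M * ev (Φ τ) v + C := by
        intro v hv
        obtain ⟨_, q1, _⟩ := (hfaces τ).1 hτ
        obtain ⟨y, rfl⟩ := (hpt v).1 (q1 v hv)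
        have q2 := hle _ (hB.2 y i)
        simp only at q2
        have q3 := hωC _ (hB.2 y i)
        have q4 := le_abs_self (ω (y, F.ux (a y) i, F.uy (a y) i))
        rw [hΦ1 _ hv, ev_cast, ev_cast, ← (hαδ y).1, ← (hαδ y).2]
        linarith
      have k2 : ∑ v ∈ τ, μ v * (ev A v + β * ev (cast α) v + γ * ev (cast δ) v) ≤
          ∑ v ∈ τ, μ v * (M * ev (Φ τ) v + C) :=
        sum_le_sum (fun v hv => mul_le_mul_of_nonneg_left (k1 v hv) (hμ0 v hv))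
      have k3 : ∑ v ∈ τ, μ v * (ev A v + β * ev (cast α) v + γ * ev (cast δ) v) =
          ev A p + β * ev (cast α) p + γ * ev (cast δ) p := by
        rw [hbar' A, hbar' (cast α), hbar' (cast δ), mul_sum, mul_sum, ← sum_add_distrib,
          ← sum_add_distrib]
        exact sum_congr rfl (fun v _ => by ring)
      have k4 : ∑ v ∈ τ, μ v * (M * ev (Φ τ) v + C) = M * ev (Φ τ) p + C := by
        rw [hbar' (Φ τ), mul_sum]
        have : C = ∑ v ∈ τ, μ v * C := by rw [← sum_mul, hμ1, one_mul]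
        conv_rhs => rw [this, ← sum_add_distrib]
        exact sum_congr rfl (fun v _ => by ring)
      rw [← k3, ← k4]
      exact k2
    rw [e1, e2, ← hbar A, ← hbar (Φ τ)]
    have := mul_le_mul_of_nonneg_left key hR0.le
    linarith
  -- the sum of the chosen points
  have hX := Hull.hull hT (amp_sum hJne hAmp) (x := ∑ y ∈ J, (z y).2.1)
    (y := ∑ y ∈ J, (z y).2.2) (by
      intro i
      rw [mul_sum, mul_sum, ← sum_add_distrib]
      refine sum_le_sum (fun y hy => ?_)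
      have q1 := hB.1 (z y) (hσB (hz y hy).1) i
      rw [(hz y hy).2] at q1
      exact q1)
  have hX2 : ∑ y ∈ J, ev A (toR (e y)) + β * (∑ y ∈ J, ((z y).2.1 : ℝ)) +
      γ * (∑ y ∈ J, ((z y).2.2 : ℝ)) ≤ M * ∑ y ∈ J, ev (Φ τ) (toR (e y)) + R * C := by
    have hcv : Convex ℝ {q : ℝ × ℝ | ∑ y ∈ J, ev A (toR (e y)) + β * q.1 + γ * q.2 ≤
        M * ∑ y ∈ J, ev (Φ τ) (toR (e y)) + R * C} := by
      intro q hq q' hq' s t hs ht hst
      have g1 : ∑ y ∈ J, ev A (toR (e y)) + β * q.1 + γ * q.2 ≤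
        M * ∑ y ∈ J, ev (Φ τ) (toR (e y)) + R * C := hq
      have g2 : ∑ y ∈ J, ev A (toR (e y)) + β * q'.1 + γ * q'.2 ≤
        M * ∑ y ∈ J, ev (Φ τ) (toR (e y)) + R * C := hq'
      show ∑ y ∈ J, ev A (toR (e y)) + β * (s • q + t • q').1 + γ * (s • q + t • q').2 ≤
        M * ∑ y ∈ J, ev (Φ τ) (toR (e y)) + R * C
      simp only [Prod.fst_add, Prod.snd_add, Prod.smul_fst, Prod.smul_snd, smul_eq_mul]
      have g3 := mul_le_mul_of_nonneg_left g1 hs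
      have g4 := mul_le_mul_of_nonneg_left g2 ht
      have g5 : t = 1 - s := by linarith
      subst g5
      linarith
    have := convexHull_min (s := Set.range fun i : ZMod n =>
      ((F.ux (fun i => ∑ y ∈ J, a y i) i : ℝ), (F.uy (fun i => ∑ y ∈ J, a y i) i : ℝ))) (by
        rintro _ ⟨i, rfl⟩
        show ∑ y ∈ J, ev A (toR (e y)) + β * (F.ux (fun i => ∑ y ∈ J, a y i) i : ℝ) +
          γ * (F.uy (fun i => ∑ y ∈ J, a y i) i : ℝ) ≤ _
        rw [ux_sum, uy_sum]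
        push_cast
        exact hcor i) hcv hX
    have h3 : ∑ y ∈ J, ev A (toR (e y)) + β * ((∑ y ∈ J, (z y).2.1 : ℤ) : ℝ) +
      γ * ((∑ y ∈ J, (z y).2.2 : ℤ) : ℝ) ≤ M * ∑ y ∈ J, ev (Φ τ) (toR (e y)) + R * C := this
    push_cast at h3
    exact h3
  have hX3 : M * ∑ y ∈ J, h (toR (e y)) - R * C ≤ ∑ y ∈ J, ev A (toR (e y)) +
      β * (∑ y ∈ J, ((z y).2.1 : ℝ)) + γ * (∑ y ∈ J, ((z y).2.2 : ℝ)) := by
    have k1 : ∑ y ∈ J, ev A (toR (e y)) + β * (∑ y ∈ J, ((z y).2.1 : ℝ)) +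
        γ * (∑ y ∈ J, ((z y).2.2 : ℝ)) = ∑ y ∈ J, (M * h (toR (e y)) + ω (z y)) := by
      rw [mul_sum, mul_sum, ← sum_add_distrib, ← sum_add_distrib]
      refine sum_congr rfl (fun y hy => ?_)
      have := h1 (z y) (hz y hy).1
      rw [(hz y hy).2] at this
      exact this
    rw [k1, sum_add_distrib, ← mul_sum]
    have k2 : ∑ y ∈ J, (- C) ≤ ∑ y ∈ J, ω (z y) := by
      refine sum_le_sum (fun y hy => ?_)
      have q1 := hωC _ (hσB (hz y hy).1)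
      have q2 := neg_abs_le (ω (z y))
      linarith
    rw [sum_const, nsmul_eq_mul, ← hR] at k2
    linarith
  have hgap : ∀ y ∈ J, 0 ≤ h (toR (e y)) - ev (Φ τ) (toR (e y)) := by
    intro y _
    by_cases hy : toR (e y) ∈ τ
    · rw [hΦ1 _ hy, sub_self]
    · have := hΦ2 y hy
      linarith
  have hz0J : z0.1 ∈ J := mem_image_of_mem _ hz0
  have hg0 : h (toR (e z0.1)) - ev (Φ τ) (toR (e z0.1)) ≤
      ∑ y ∈ J, (h (toR (e y)) - ev (Φ τ) (toR (e y))) :=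
    single_le_sum (f := fun y => h (toR (e y)) - ev (Φ τ) (toR (e y))) hgap hz0J
  have hgpos : 0 < h (toR (e z0.1)) - ev (Φ τ) (toR (e z0.1)) := by
    have := hΦ2 _ hz0τ
    linarith
  set g := h (toR (e z0.1)) - ev (Φ τ) (toR (e z0.1)) with hg
  rw [sum_sub_distrib] at hg0
  have hfin1 : M * g ≤ 2 * R * C := by
    have := mul_le_mul_of_nonneg_left hg0 hM0
    linarith
  have hRle : R ≤ (Fintype.card ι : ℝ) := by
    rw [hR]
    exact_mod_cast card_le_univ J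
  have hfin2 : 2 * R * C ≤ D := by
    rw [hD]
    have := mul_le_mul_of_nonneg_right hRle hC0
    linarith
  have hfin3 := hM1 τ hτ z0.1
  rw [← hg] at hfin3
  have hfin4 := le_abs_self (D / g)
  have hfin5 : D / g < M := by linarith
  rw [div_lt_iff₀ hgpos] at hfin5
  linarith

end Pool.Agent.Helper517.Glue
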