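import Pool.Agent.Helper517.Bundle
import Pool.Agent.Helper517.Glue

/-!
Polygon bundles: a regular unimodular triangulation of the base gives one of the total space.
-/

namespace Pool.Agent.Helper517.Bundle

open Finset Geometry Pool.Agent.Helper517.Place Pool.Agent.Helper517.Conv
open Pool.Agent.Helper517.Frame
open Pool.Agent.Helper517.Smooth Pool.Agent.Helper517.Walk Pool.Agent.Helper517.Extract
open Pool.Agent.Helper517.Sect Pool.Agent.Helper517.Glue
open Pool.Agent.Helper517 Pool.Agent.Helper517.Step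
open Pool.Agent.Helper489.RUT (ev)

variable {m : ℕ}

/-- A functional on the total space. -/
lemma sum_join (φ : (Fin (m + 2) → ℝ) × ℝ) (y : Fin m → ℤ) (q : ℤ × ℤ) :
    ev φ (toR (join y q)) = ev ((fun i => φ.1 (Fin.castAdd 2 i)), φ.2) (toR y) +
      φ.1 (Fin.natAdd m 0) * q.1 + φ.1 (Fin.natAdd m 1) * q.2 := by
  simp only [ev, toR]
  rw [Fin.sum_univ_add, Fin.sum_univ_two]
  simp only [join, Fin.append_left, Fin.append_right]
  simp only [Matrix.cons_val_zero, Matrix.cons_val_one]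
  ring

/-- An integral functional on the total space. -/
lemma sum_joinZ (a₀ : Fin m → ℤ) (c₀ b₁ b₂ : ℤ) (y : Fin m → ℤ) (q : ℤ × ℤ) :
    ∑ i, (Fin.append a₀ ![b₁, b₂] : Fin (m + 2) → ℤ) i * join y q i + c₀ =
      (∑ i, a₀ i * y i + c₀) + b₁ * q.1 + b₂ * q.2 := by
  rw [Fin.sum_univ_add, Fin.sum_univ_two]
  simp only [join, Fin.append_left, Fin.append_right]
  simp only [Matrix.cons_val_zero, Matrix.cons_val_one]
  ring

theorem bundle {P : Set (Fin (m + 2) → ℝ)} {S : Set (Fin (m + 2) → ℤ)} (hS : S.Finite)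
    (hP : P = convexHull ℝ (toR '' S)) (hne : P.Nonempty)
    (hVD : ∀ v, toR v ∈ P.extremePoints ℝ → ∃ u D, VD P v u D)
    {K : SimplicialComplex ℝ (Fin m → ℝ)} {h : (Fin m → ℝ) → ℝ} (hK : RutData (base '' P) K h) :
    ∃ (K' : SimplicialComplex ℝ (Fin (m + 2) → ℝ)) (h' : (Fin (m + 2) → ℝ) → ℝ),
      RutData P K' h' := by
  classical
  have hcomp : IsCompact P := by rw [hP]; exact (hS.image _).isCompact_convexHull (𝕜 := ℝ)
  have hconv : Convex ℝ P := by rw [hP]; exact convex_convexHull ℝ _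
  let bl : (Fin (m + 2) → ℝ) →ₗ[ℝ] (Fin m → ℝ) :=
    { toFun := base, map_add' := base_add, map_smul' := base_smul }
  have hQeq : base '' P = convexHull ℝ (toR '' (baseZ '' S)) := by
    have h1 : base '' P = bl '' convexHull ℝ (toR '' S) := by rw [hP]; rfl
    rw [h1, bl.image_convexHull, Set.image_image, Set.image_image]
    rfl
  have hBc : IsCompact (base '' P) := hcomp.image VD.continuous_base
  have hBconv : Convex ℝ (base '' P) := hconv.linear_image bl
  have hlevfin : {y : Fin m → ℤ | toR y ∈ base '' P}.Finite := by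
    rw [hQeq]; exact finite_lattice (hS.image _)
  haveI : Finite (Lev P) := hlevfin.to_subtype
  haveI : Fintype (Lev P) := Fintype.ofFinite _
  -- a special level
  obtain ⟨j0, hj0⟩ : ∃ j0 : Lev P, toR j0.1 ∈ (base '' P).extremePoints ℝ := by
    obtain ⟨x, hx⟩ := hBc.extremePoints_nonempty (hne.image _)
    have h1 : x ∈ toR '' (baseZ '' S) := by
      rw [hQeq] at hx
      exact extremePoints_convexHull_subset hx
    obtain ⟨y, _, rfl⟩ := h1
    exact ⟨⟨y, hx.1⟩, hx⟩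
  -- a common corner
  obtain ⟨v0, hv0⟩ : ∃ v : Fin (m + 2) → ℤ, toR v ∈ P.extremePoints ℝ := by
    obtain ⟨y, hy⟩ := hcomp.extremePoints_nonempty hne
    have h1 : y ∈ toR '' S := by
      rw [hP] at hy
      exact extremePoints_convexHull_subset hy
    obtain ⟨s, _, rfl⟩ := h1
    exact ⟨s, hy⟩
  obtain ⟨u0, D0, hVD0⟩ := hVD v0 hv0
  obtain ⟨w1, w1', c1, hC1, hR1, _⟩ := corner_of_VD hS hP hVD hVD0
  have hfin : (conf P).Finite := by
    have h1 : {x : Fin (m + 2) → ℤ | toR x ∈ P}.Finite := by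
      rw [hP]; exact finite_lattice hS
    refine h1.preimage (f := fun z : Pt (Lev P) => join z.1.1 z.2) ?_
    intro z _ z' _ hzz
    have h2 := congrArg baseZ hzz
    have h3 := congrArg vp hzz
    simp only [baseZ_join, vp_join] at h2 h3
    exact Prod.ext (Subtype.ext h2) h3
  obtain ⟨w, w', n, F, N, N', a, B, hdet, hT, hAmp, ⟨hE1, hE2⟩, hRR, hG, hB⟩ :=
    exists_config' hfin (hcat hS hP hVD j0 hj0) ⟨w1, w1', c1, hC1, hR1⟩
  set ψ : Pt (Lev P) → (Fin (m + 2) → ℤ) :=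
    fun z => join z.1.1 (z.2.1 • w + z.2.2 • w') with hψ
  have hψinj : Function.Injective ψ := by
    intro z z' hzz
    have h2 := congrArg baseZ hzz
    have h3 := congrArg vp hzz
    simp only [hψ, baseZ_join, vp_join] at h2 h3
    have h4 := congrArg (fun q => dt q w') h3
    have h5 := congrArg (fun q => dt w q) h3
    simp only [dt_add_left, dt_add_right, dt_smul_left, dt_smul_right, dt_self, hdet, mul_zero,
      mul_one, add_zero, zero_add] at h4 h5
    exact Prod.ext (Subtype.ext h2) (Prod.ext h4 h5)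
  have haff : ∀ i, ∃ α β : (Fin m → ℤ) × ℤ, ∀ y : Lev P, F.ux (a y) i = evZ α y.1 ∧
      F.uy (a y) i = evZ β y.1 := by
    intro i
    obtain ⟨α, β, hαβ⟩ := hRR i
    refine ⟨(w'.2 • α.1 - w'.1 • β.1, w'.2 * α.2 - w'.1 * β.2),
      (w.1 • β.1 - w.2 • α.1, w.1 * β.2 - w.2 * α.2), fun y => ?_⟩
    have e := hαβ y
    simp only at e
    have e1 := congrArg (fun q => dt q w') e
    have e2 := congrArg (fun q => dt w q) e
    simp only [dt_add_left, dt_add_right, dt_smul_left, dt_smul_right, dt_self, hdet, mul_zero,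
      mul_one, add_zero, zero_add] at e1 e2
    rw [e1, e2]
    simp only [dt, evZ, sub_dotProduct, smul_dotProduct, smul_eq_mul]
    constructor <;> ring
  obtain ⟨ω, hω⟩ := hG
  obtain ⟨M, hM⟩ := levels_in_face (e := fun y : Lev P => y.1) hK hBconv (fun y => y.2)
    (fun x hx => ⟨⟨x, hx⟩, rfl⟩) hT hAmp haff hB ω
  have hvec : ∀ z : Pt (Lev P), (z.2.1 • w + z.2.2 • w').1 = z.2.1 * w.1 + z.2.2 * w'.1 ∧
      (z.2.1 • w + z.2.2 • w').2 = z.2.1 * w.2 + z.2.2 * w'.2 := by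
    intro z
    simp
  have hev : ∀ (φ : (Fin (m + 2) → ℝ) × ℝ) (z : Pt (Lev P)), ev φ (toR (ψ z)) =
      ev ((fun i => φ.1 (Fin.castAdd 2 i)), φ.2) (toR z.1.1) +
      (φ.1 (Fin.natAdd m 0) * w.1 + φ.1 (Fin.natAdd m 1) * w.2) * z.2.1 +
      (φ.1 (Fin.natAdd m 0) * w'.1 + φ.1 (Fin.natAdd m 1) * w'.2) * z.2.2 := by
    intro φ z
    simp only [hψ]
    rw [sum_join, (hvec z).1, (hvec z).2]
    push_cast
    ring
  obtain ⟨hsp, hfaces, hfacets⟩ := hK
  -- extending level functions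
  have hext : ∀ τ ∈ K.faces, ∀ α : Lev P → ℤ, ∃ (a₀ : Fin m → ℤ) (c₀ : ℤ), ∀ y : Lev P,
      toR y.1 ∈ τ → ∑ i, a₀ i * y.1 i + c₀ = α y := by
    intro τ hτ α
    obtain ⟨ρ, hρ, hτρ⟩ : ∃ ρ ∈ K.facets, τ ⊆ ρ := by
      have hfinK : K.faces.Finite := by
        have h1 : (toR '' {y : Fin m → ℤ | toR y ∈ base '' P}).Finite := hlevfin.image _
        refine (Set.Finite.finite_subsets h1).preimage
          (f := fun s : Finset (Fin m → ℝ) => (s : Set (Fin m → ℝ)))
          (Finset.coe_injective.injOn) |>.subset ?_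
        intro s hs
        obtain ⟨_, h2, _⟩ := (hfaces s).1 hs
        show (s : Set (Fin m → ℝ)) ⊆ _
        intro v hv
        obtain ⟨h3, h4⟩ := h2 v hv
        choose k hk using h4
        have hkv : toR k = v := funext (fun i => (hk i).symm)
        exact ⟨k, by rw [Set.mem_setOf_eq, hkv]; exact h3, hkv⟩
      obtain ⟨ρ, ⟨hρ1, hρ2⟩, hρ3⟩ := Set.exists_max_image {s | s ∈ K.faces ∧ τ ⊆ s}
        (fun s => s.card) (hfinK.subset (fun s hs => hs.1)) ⟨τ, hτ, Finset.Subset.refl _⟩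
      refine ⟨ρ, ?_, hρ2⟩
      rw [SimplicialComplex.mem_facets]
      refine ⟨hρ1, fun s hs hρs => ?_⟩
      exact Finset.eq_of_subset_of_card_le hρs (hρ3 s ⟨hs, hρ2.trans hρs⟩)
    obtain ⟨v, hv1, hv2, hv3⟩ := hfacets ρ hρ
    have hmemv : ∀ j, toR (v j) ∈ base '' P := by
      intro j
      have h1 : toR (v j) ∈ ρ := (hv2 _).2 ⟨j, rfl⟩
      obtain ⟨_, h2, _⟩ := (hfaces ρ).1 hρ.1
      exact (h2 _ h1).1
    obtain ⟨a₀, c₀, hac⟩ := dual_of_det v hv3 (fun j => α ⟨v j, hmemv j⟩)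
    refine ⟨a₀, c₀, fun y hy => ?_⟩
    obtain ⟨j, hj⟩ := (hv2 _).1 (hτρ hy)
    have hj' : y.1 = v j := toR_injective hj
    have hj'' : y = ⟨v j, hmemv j⟩ := Subtype.ext hj'
    rw [hj'']
    exact hac j
  have htoR : ∀ z : Pt (Lev P), toR (ψ z) =
      toR (join z.1.1 0) + (z.2.1 : ℝ) • toR (join 0 w) + (z.2.2 : ℝ) • toR (join 0 w') := by
    intro z
    rw [← toR_smul, ← toR_smul, ← toR_add, ← toR_add]
    congr 1
    apply join_ext
    · simp only [hψ]
      rw [baseZ_join]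
      funext i
      have h1 := congrFun (baseZ_join z.1.1 (0 : ℤ × ℤ)) i
      have h2 := congrFun (baseZ_join (0 : Fin m → ℤ) w) i
      have h3 := congrFun (baseZ_join (0 : Fin m → ℤ) w') i
      simp only [baseZ, Pi.add_apply, Pi.smul_apply, smul_eq_mul, Pi.zero_apply] at h1 h2 h3 ⊢
      rw [h1, h2, h3]
      ring
    · simp only [hψ]
      rw [vp_join, vp_add, vp_add, vp_smul, vp_smul, vp_join, vp_join, vp_join, zero_add]
  have hcorner : ∀ (K : Set (Fin (m + 2) → ℝ)), Convex ℝ K → ∀ l : Lev P,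
      (∀ i, toR (ψ (l, F.ux (a l) i, F.uy (a l) i)) ∈ K) → ∀ x y : ℤ,
      (∀ i, F.p i * x + F.q i * y ≤ a l i) → toR (ψ (l, x, y)) ∈ K := by
    intro K hK l hm x y hxy
    have h1 := Hull.hull hT (hAmp l) hxy
    rw [htoR]
    refine Assemble.affine_mem (C := toR (join l.1 0)) (A := toR (join 0 w))
      (B := toR (join 0 w')) hK ?_ h1
    rintro _ ⟨i, rfl⟩
    have := hm i
    rw [htoR] at this
    exact this
  have hlat : ∀ x : Fin (m + 2) → ℤ, toR x ∈ P → ∃ z : Pt (Lev P), ψ z = x ∧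
      ∀ i, F.p i * z.2.1 + F.q i * z.2.2 ≤ a z.1 i := by
    intro x hx
    have hb : toR (baseZ x) ∈ base '' P := ⟨toR x, hx, base_toR x⟩
    refine ⟨(⟨baseZ x, hb⟩, dt (vp x) w', dt w (vp x)), ?_, ?_⟩
    · simp only [hψ]
      rw [← expand hdet, join_eta]
    · intro i
      refine hE1 ⟨baseZ x, hb⟩ (vp x) ?_ i
      show toR (join (baseZ x) (vp x)) ∈ P
      rw [join_eta]; exact hx
  have hBP : ∀ z ∈ B, toR (ψ z) ∈ P := by
    intro z hz
    refine hcorner P hconv z.1 ?_ z.2.1 z.2.2 (hB.1 z hz)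
    intro i
    exact hE2 z.1 i
  have hPB : P = convexHull ℝ ((fun z => toR (ψ z)) '' (B : Set (Pt (Lev P)))) := by
    apply Set.Subset.antisymm
    · intro x hx
      rw [hP] at hx
      refine convexHull_min ?_ (convex_convexHull ℝ _) hx
      rintro _ ⟨s, hs, rfl⟩
      have hsP : toR s ∈ P := by
        rw [hP]; exact subset_convexHull ℝ _ ⟨s, hs, rfl⟩
      obtain ⟨z, hz, hzc⟩ := hlat s hsP
      rw [← hz]
      refine hcorner _ (convex_convexHull ℝ _) z.1 ?_ _ _ hzc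
      intro i
      exact subset_convexHull ℝ _ ⟨_, hB.2 z.1 i, rfl⟩
    · apply convexHull_min _ hconv
      rintro _ ⟨z, hz, rfl⟩
      exact hBP z hz
  refine exists_rut0 P ψ hψinj B (fun z => M * h (toR z.1.1) + ω z) ?_ hPB
    (fun x hx => (hlat x hx).imp (fun z hz => hz.1)) ?_
  · rintro σ hσB hσne ⟨φ, h1, h2⟩ v hv
    obtain ⟨τ, hτ, hστ⟩ := hM σ hσB hσne ((fun i => φ.1 (Fin.castAdd 2 i)), φ.2)
      (φ.1 (Fin.natAdd m 0) * w.1 + φ.1 (Fin.natAdd m 1) * w.2)
      (φ.1 (Fin.natAdd m 0) * w'.1 + φ.1 (Fin.natAdd m 1) * w'.2)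
      (fun z hz => by rw [← hev]; exact h1 z hz)
      (fun z hz hzσ => by rw [← hev]; exact h2 z hz hzσ)
    obtain ⟨l, ⟨α, β, γ, hl⟩, hl1, hl2⟩ := hω σ ⟨hσB, fun z => ev φ (toR (ψ z)) -
      M * h (toR z.1.1), ⟨fun y => ev ((fun i => φ.1 (Fin.castAdd 2 i)), φ.2) (toR y.1) -
        M * h (toR y.1), φ.1 (Fin.natAdd m 0) * w.1 + φ.1 (Fin.natAdd m 1) * w.2,
        φ.1 (Fin.natAdd m 0) * w'.1 + φ.1 (Fin.natAdd m 1) * w'.2,
        fun z => by simp only [hev]; ring⟩, fun z hz => by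
          have := h1 z hz
          simp only at this ⊢
          linarith, fun z hz hzσ => by
          have := h2 z hz hzσ
          simp only at this ⊢
          linarith⟩ v hv
    obtain ⟨a₀, c₀, hac⟩ := hext τ hτ α
    have key : ∀ z ∈ σ, ∑ i, (Fin.append a₀ ![β * w'.2 - γ * w.2, γ * w.1 - β * w'.1] :
        Fin (m + 2) → ℤ) i * ψ z i + c₀ = l z := by
      intro z hz
      simp only [hψ]
      rw [sum_joinZ, hac z.1 (hστ z hz), hl, (hvec z).1, (hvec z).2]
      simp only [dt] at hdet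
      linear_combination (β * z.2.1 + γ * z.2.2) * hdet
    refine ⟨_, c₀, (key v hv).trans hl1, fun z hz hzv => (key z hz).trans (hl2 z hz hzv)⟩
  · intro φ hφ
    have h0 : ∀ x ∈ P, ev φ x = 0 := by
      intro x hx
      rw [hPB] at hx
      refine Prism.ev_zero φ ?_ x hx
      rintro _ ⟨z, hz, rfl⟩
      exact hφ z hz
    exact Prism.sep_of_basis hVD0.dual (h0 _ hVD0.mem) (fun i => h0 _ (hVD0.edge i))

end Pool.Agent.Helper517.Bundle
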