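import Pool.Agent.Helper517.Place
import Pool.Agent.Helper489.RUT

/-!
From good configurations to regular unimodular triangulations.
-/

namespace Pool.Agent.Helper517.Conv

open Finset Geometry Pool.Agent.Helper517.Place
open Pool.Agent.Helper489.RUT (ev Dual exists_complex ev_comb_one)

/-- Integral points as real points. -/
def toR {d : ℕ} (x : Fin d → ℤ) : Fin d → ℝ := fun i => (x i : ℝ)

lemma toR_injective {d : ℕ} : Function.Injective (toR : (Fin d → ℤ) → (Fin d → ℝ)) := by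
  intro x y h
  funext i
  have := congrFun h i
  simp only [toR] at this
  exact_mod_cast this

lemma ev_toR {d : ℕ} (a : Fin d → ℤ) (c : ℤ) (x : Fin d → ℤ) :
    ev ((fun i => (a i : ℝ)), (c : ℝ)) (toR x) = ((∑ i, a i * x i + c : ℤ) : ℝ) := by
  simp only [ev, toR]
  push_cast
  rfl

/-- Dual functionals give determinant `± 1`. -/
lemma det_of_dual {d : ℕ} (v : Fin (d + 1) → (Fin d → ℤ))
    (hL : ∀ j : Fin d, ∃ (a : Fin d → ℤ) (c : ℤ),
      ∀ i, ∑ z, a z * v i z + c = if i = j.succ then 1 else 0) :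
    |Matrix.det (Matrix.of fun (j : Fin d) (i : Fin d) => v j.succ i - v 0 i)| = 1 := by
  classical
  choose a c hac using hL
  let M : Matrix (Fin d) (Fin d) ℤ :=
    Matrix.of fun (j : Fin d) (i : Fin d) => v j.succ i - v 0 i
  let N : Matrix (Fin d) (Fin d) ℤ := Matrix.of fun (z : Fin d) (j : Fin d) => a j z
  have hMN : M * N = 1 := by
    ext i j
    rw [Matrix.mul_apply, Matrix.one_apply]
    have h1 := hac j i.succ
    have h2 := hac j 0
    have h3 : ∑ z, M i z * N z j = (∑ z, a j z * v i.succ z + c j) -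
        (∑ z, a j z * v 0 z + c j) := by
      rw [add_sub_add_right_eq_sub, ← Finset.sum_sub_distrib]
      refine Finset.sum_congr rfl (fun z _ => ?_)
      simp only [M, N, Matrix.of_apply]
      ring
    rw [h3, h1, h2]
    simp only [Fin.succ_inj, (Fin.succ_ne_zero j).symm, if_false, sub_zero]
  have hdet : M.det * N.det = 1 := by rw [← Matrix.det_mul, hMN, Matrix.det_one]
  exact Int.isUnit_iff_abs_eq.1 (IsUnit.of_mul_eq_one _ hdet)

theorem exists_rut {d : ℕ} {ι : Type*} [DecidableEq ι] (P : Set (Fin d → ℝ))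
    (ψ : Pt ι → (Fin d → ℤ)) (T : Set (Pt ι))
    (hψ1 : ∀ l : Pt ι → ℤ, AffZ l →
      ∃ (a : Fin d → ℤ) (c : ℤ), ∀ z ∈ T, l z = ∑ i, a i * ψ z i + c)
    (hψ2 : ∀ φ : (Fin d → ℝ) × ℝ, AffR (fun z => ev φ (toR (ψ z))))
    (A : Finset (Pt ι)) (hAT : ∀ z ∈ A, z ∈ T) (hG : Good A)
    (hP : P = convexHull ℝ ((fun z => toR (ψ z)) '' (A : Set (Pt ι))))
    (hlat : ∀ x : Fin d → ℤ, toR x ∈ P → ∃ z ∈ T, ψ z = x)
    (hsep : ∀ φ : (Fin d → ℝ) × ℝ, (∀ z ∈ A, ev φ (toR (ψ z)) = 0) → φ = 0) :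
    ∃ (K : SimplicialComplex ℝ (Fin d → ℝ)) (h : (Fin d → ℝ) → ℝ), K.space = P ∧
      (∀ σ : Finset (Fin d → ℝ), σ ∈ K.faces ↔
        σ.Nonempty ∧ (∀ v ∈ σ, v ∈ P ∧ ∀ i, ∃ k : ℤ, v i = (k : ℝ)) ∧
        ∃ (a : Fin d → ℝ) (c : ℝ), (∀ v ∈ σ, ∑ i, a i * v i + c = h v) ∧
          ∀ w, (w ∈ P ∧ ∀ i, ∃ k : ℤ, w i = (k : ℝ)) → w ∉ σ → ∑ i, a i * w i + c < h w) ∧
      ∀ σ ∈ K.facets, ∃ v : Fin (d + 1) → (Fin d → ℤ), Function.Injective v ∧
        (∀ x, x ∈ σ ↔ ∃ j, x = fun i => (v j i : ℝ)) ∧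
        |Matrix.det (Matrix.of fun (j : Fin d) (i : Fin d) => v j.succ i - v 0 i)| = 1 := by
  classical
  obtain ⟨ω, hω⟩ := hG
  have hψinj : ∀ z ∈ T, ∀ z' ∈ T, ψ z = ψ z' → z = z' := by
    intro z hz z' hz' hzz
    have key : ∀ l : Pt ι → ℤ, AffZ l → l z = l z' := by
      intro l hl
      obtain ⟨a, c, hac⟩ := hψ1 l hl
      rw [hac z hz, hac z' hz', hzz]
    have k1 := key (fun y => (fun i => if i = z.1 then (1 : ℤ) else 0) y.1)
      ⟨fun i => if i = z.1 then (1 : ℤ) else 0, 0, 0, fun y => by ring⟩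
    have k2 := key (fun y => y.2.1) ⟨fun _ => 0, 1, 0, fun y => by ring⟩
    have k3 := key (fun y => y.2.2) ⟨fun _ => 0, 0, 1, fun y => by ring⟩
    simp only [if_true] at k1
    have k1' : z'.1 = z.1 := by
      by_contra hcon
      rw [if_neg hcon] at k1
      exact one_ne_zero k1
    exact Prod.ext k1'.symm (Prod.ext k2 k3)
  set f : Pt ι → (Fin d → ℝ) := fun z => toR (ψ z) with hf
  have hfinj : ∀ z ∈ T, ∀ z' ∈ T, f z = f z' → z = z' :=
    fun x hx y hy h => hψinj x hx y hy (toR_injective h)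
  let h : (Fin d → ℝ) → ℝ := fun x => if hx : ∃ z, z ∈ T ∧ f z = x then ω hx.choose else 0
  have hh : ∀ z ∈ T, h (f z) = ω z := by
    intro z hz
    have hx : ∃ y, y ∈ T ∧ f y = f z := ⟨z, hz, rfl⟩
    have : hx.choose = z := hfinj _ hx.choose_spec.1 _ hz hx.choose_spec.2
    simp only [h]
    rw [dif_pos hx, this]
  have huni : ∀ σ, Pool.Agent.Helper489.RUT.Low (A.image f) h σ →
      ∃ τ : Finset (Pt ι), τ ⊆ A ∧ σ = τ.image f ∧ UniD τ := by
    rintro σ ⟨hσA, φ, h1, h2⟩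
    have hσ : σ = (A.filter fun z => f z ∈ σ).image f := by
      ext x
      rw [mem_image]
      constructor
      · intro hx
        obtain ⟨z, hz, rfl⟩ := mem_image.1 (hσA hx)
        exact ⟨z, mem_filter.2 ⟨hz, hx⟩, rfl⟩
      · rintro ⟨z, hz, rfl⟩
        exact (mem_filter.1 hz).2
    refine ⟨_, filter_subset _ _, hσ, hω _ ⟨filter_subset _ _, fun z => ev φ (f z), hψ2 φ, ?_, ?_⟩⟩
    · intro v hv
      rw [← hh _ (hAT _ (mem_filter.1 hv).1)]
      exact h1 _ (mem_filter.1 hv).2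
    · intro w hw hwσ
      rw [← hh _ (hAT _ hw)]
      exact h2 _ (mem_image_of_mem _ hw) (fun hc => hwσ (mem_filter.2 ⟨hw, hc⟩))
  have hpull : ∀ l : Pt ι → ℤ, AffZ l →
      ∃ φ : (Fin d → ℝ) × ℝ, ∀ z ∈ T, ev φ (f z) = (l z : ℝ) := by
    intro l hl
    obtain ⟨a, c, hac⟩ := hψ1 l hl
    refine ⟨((fun i => (a i : ℝ)), (c : ℝ)), fun z hz => ?_⟩
    rw [hf]
    simp only
    rw [ev_toR, hac z hz]
  have hdual : ∀ σ, Pool.Agent.Helper489.RUT.Low (A.image f) h σ → Dual σ := by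
    intro σ hσ v hv
    obtain ⟨τ, hτA, rfl, hτ⟩ := huni σ hσ
    obtain ⟨z, hz, rfl⟩ := mem_image.1 hv
    obtain ⟨l, hl, hl1, hl2⟩ := hτ z hz
    obtain ⟨φ, hφ⟩ := hpull l hl
    refine ⟨φ, ?_, ?_⟩
    · rw [hφ z (hAT _ (hτA hz)), hl1]; norm_num
    · intro w hw hwz
      obtain ⟨y, hy, rfl⟩ := mem_image.1 hw
      rw [hφ y (hAT _ (hτA hy)), hl2 y hy (fun hc => hwz (by rw [hc]))]; norm_num
  obtain ⟨K, hK1, hK2, hK3⟩ := exists_complex (A.image f) h (fun φ hφ => hsep φ (fun z hz =>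
    hφ _ (mem_image_of_mem _ hz))) hdual
  have hspace : K.space = P := by
    rw [hK2, hP, coe_image]
  -- the lattice points
  have hpts : ∀ x, (x ∈ P ∧ ∀ i, ∃ k : ℤ, x i = (k : ℝ)) ↔ x ∈ A.image f := by
    intro x
    constructor
    · rintro ⟨hx, hxi⟩
      choose k hk using hxi
      have hxk : toR k = x := funext (fun i => (hk i).symm)
      obtain ⟨z, hzT, hz⟩ := hlat k (by rw [hxk]; exact hx)
      have hfz : f z = x := by rw [hf]; simp only; rw [hz, hxk]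
      rw [← hspace, SimplicialComplex.mem_space_iff] at hx
      obtain ⟨σ, hσ, hxσ⟩ := hx
      obtain ⟨hne, hlow⟩ := (hK1 σ).1 hσ
      obtain ⟨τ, hτA, rfl, hτ⟩ := huni σ hlow
      rw [Finset.mem_convexHull'] at hxσ
      obtain ⟨t, ht0, ht1, htx⟩ := hxσ
      obtain ⟨v0, hv0, hv0pos⟩ : ∃ v ∈ τ.image f, 0 < t v := by
        by_contra hcon
        push Not at hcon
        have : ∑ y ∈ τ.image f, t y ≤ 0 := sum_nonpos hcon
        rw [ht1] at this
        linarith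
      obtain ⟨z0, hz0, rfl⟩ := mem_image.1 hv0
      obtain ⟨l, hl, hl1, hl2⟩ := hτ z0 hz0
      obtain ⟨φ, hφ⟩ := hpull l hl
      have e1 : ev φ x = t (f z0) := by
        rw [← htx, ev_comb_one _ _ _ _ ht1, sum_eq_single (f z0)]
        · rw [hφ _ (hAT _ (hτA hz0)), hl1]; norm_num
        · intro b hb hbne
          obtain ⟨y, hy, rfl⟩ := mem_image.1 hb
          rw [hφ _ (hAT _ (hτA hy)), hl2 y hy (fun hc => hbne (by rw [hc]))]; norm_num
        · intro hc; exact absurd hv0 hc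
      rw [← hfz, hφ z hzT] at e1
      have e2 : 1 ≤ l z := by
        have : (0 : ℝ) < l z := by rw [e1]; exact hv0pos
        have : 0 < l z := by exact_mod_cast this
        omega
      have e3 : (1 : ℝ) ≤ t (f z0) := by rw [← e1]; exact_mod_cast e2
      have e4 : ∀ y ∈ (τ.image f).erase (f z0), t y = 0 := by
        have h5 : ∑ y ∈ (τ.image f).erase (f z0), t y = 0 := by
          have h6 := add_sum_erase _ t hv0
          rw [ht1] at h6
          have h7 : 0 ≤ ∑ y ∈ (τ.image f).erase (f z0), t y :=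
            sum_nonneg (fun y hy => ht0 y (mem_of_mem_erase hy))
          linarith
        exact (sum_eq_zero_iff_of_nonneg (fun y hy => ht0 y (mem_of_mem_erase hy))).1 h5
      have e5 : t (f z0) = 1 := by
        have h6 := add_sum_erase _ t hv0
        rw [sum_eq_zero e4, ht1] at h6
        linarith
      have e6 : x = f z0 := by
        rw [← htx, ← add_sum_erase _ _ hv0, e5, one_smul, sum_eq_zero, add_zero]
        intro y hy
        rw [e4 y hy, zero_smul]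
      rw [e6]
      exact mem_image_of_mem _ (hτA hz0)
    · intro hx
      obtain ⟨z, hz, rfl⟩ := mem_image.1 hx
      refine ⟨?_, fun i => ⟨ψ z i, rfl⟩⟩
      rw [hP]
      exact subset_convexHull ℝ _ ⟨z, hz, rfl⟩
  refine ⟨K, h, hspace, ?_, ?_⟩
  · intro σ
    rw [hK1]
    constructor
    · rintro ⟨hne, hσA, φ, h1, h2⟩
      refine ⟨hne, fun v hv => (hpts v).2 (hσA hv), φ.1, φ.2, h1, ?_⟩
      intro w hw hwσ
      exact h2 w ((hpts w).1 hw) hwσ
    · rintro ⟨hne, hσA, a, c, h1, h2⟩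
      refine ⟨hne, fun v hv => (hpts v).1 (hσA v hv), (a, c), h1, ?_⟩
      intro w hw hwσ
      exact h2 w ((hpts w).2 hw) hwσ
  · intro σ hσ
    have hcard := hK3 σ hσ
    obtain ⟨τ, hτA, rfl, hτ⟩ := huni σ ((hK1 σ).1 hσ.1).2
    rw [card_image_of_injOn (fun x hx y hy => hfinj x (hAT _ (hτA (mem_coe.1 hx))) y
      (hAT _ (hτA (mem_coe.1 hy))))] at hcard
    let e : Fin (d + 1) ≃ τ := (τ.equivFinOfCardEq hcard).symm
    let v : Fin (d + 1) → (Fin d → ℤ) := fun j => ψ (e j : Pt ι)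
    refine ⟨v, fun i j hij => e.injective (Subtype.ext (hψinj _ (hAT _ (hτA (e i).2)) _
      (hAT _ (hτA (e j).2)) hij)), ?_, ?_⟩
    · intro x
      rw [mem_image]
      constructor
      · rintro ⟨z, hz, rfl⟩
        refine ⟨e.symm ⟨z, hz⟩, ?_⟩
        have h1 : e (e.symm ⟨z, hz⟩) = ⟨z, hz⟩ := e.apply_symm_apply _
        show toR (ψ z) = toR (ψ (e (e.symm ⟨z, hz⟩) : Pt ι))
        rw [h1]
      · rintro ⟨j, rfl⟩
        exact ⟨e j, (e j).2, rfl⟩
    · refine det_of_dual v ?_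
      intro j
      obtain ⟨l, hl, hl1, hl2⟩ := hτ (e j.succ) (e j.succ).2
      obtain ⟨a, c, hac⟩ := hψ1 l hl
      refine ⟨a, c, fun i => ?_⟩
      have h1 : ∑ z, a z * v i z + c = l (e i) := (hac _ (hAT _ (hτA (e i).2))).symm
      rw [h1]
      by_cases hij : i = j.succ
      · rw [if_pos hij, hij, hl1]
      · rw [if_neg hij]
        exact hl2 _ (e i).2 (fun hc => hij (e.injective (Subtype.ext hc)))

end Pool.Agent.Helper517.Conv
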