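import Mathlib

/-!
Chains of plane lattice vectors in a half plane, and their convex support sequences.
-/

namespace Pool.Agent.Helper517.Cvx

/-- A chain of lattice vectors `(P i, Q i)`, `0 ≤ i ≤ M`, in a half plane, with a convex sequence
`C`. -/
structure Chain (P Q C k : ℕ → ℤ) (M : ℕ) : Prop where
  det : ∀ i, i < M → P i * Q (i + 1) - Q i * P (i + 1) = 1
  pos : ∀ i, 1 ≤ i → i < M → 0 < P i
  zero : P 0 = 0
  top : P M = 0
  recP : ∀ i, 1 ≤ i → i < M → P (i - 1) + P (i + 1) = k i * P i
  recQ : ∀ i, 1 ≤ i → i < M → Q (i - 1) + Q (i + 1) = k i * Q i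
  nef : ∀ i, 1 ≤ i → i < M → 0 ≤ C (i - 1) + C (i + 1) - k i * C i

namespace Chain

variable {P Q C k : ℕ → ℤ} {M : ℕ}

/-- First coordinate of the corners. -/
def X (Q C : ℕ → ℤ) (i : ℕ) : ℤ := C i * Q (i + 1) - C (i + 1) * Q i

/-- Second coordinate of the corners. -/
def Y (P C : ℕ → ℤ) (i : ℕ) : ℤ := C (i + 1) * P i - C i * P (i + 1)

lemma nonneg (h : Chain P Q C k M) (i : ℕ) (hi : i ≤ M) : 0 ≤ P i := by
  rcases Nat.eq_zero_or_pos i with h0 | h0
  · rw [h0, h.zero]
  · rcases hi.lt_or_eq with h1 | h1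
    · exact (h.pos i h0 h1).le
    · rw [h1, h.top]

lemma at_left (h : Chain P Q C k M) (i : ℕ) (hi : i < M) :
    P i * X Q C i + Q i * Y P C i = C i := by
  simp only [X, Y]
  linear_combination (C i) * h.det i hi

lemma at_right (h : Chain P Q C k M) (i : ℕ) (hi : i < M) :
    P (i + 1) * X Q C i + Q (i + 1) * Y P C i = C (i + 1) := by
  simp only [X, Y]
  linear_combination (C (i + 1)) * h.det i hi

lemma corner_le (h : Chain P Q C k M) (i : ℕ) (hi : i < M) (j : ℕ) (hj : j ≤ M) :
    P j * X Q C i + Q j * Y P C i ≤ C j := by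
  set g : ℕ → ℤ := fun j => C j - P j * X Q C i - Q j * Y P C i with hg
  have gi : g i = 0 := by have := h.at_left i hi; simp only [hg]; linarith
  have gi1 : g (i + 1) = 0 := by have := h.at_right i hi; simp only [hg]; linarith
  have step : ∀ l, l + 1 < M → g (l + 1 + 1) * P (l + 1) - g (l + 1) * P (l + 1 + 1) =
      (g (l + 1) * P l - g l * P (l + 1)) +
        P (l + 1) * (C l + C (l + 1 + 1) - k (l + 1) * C (l + 1)) := by
    intro l hl
    have h1 := h.recP (l + 1) (by omega) hl
    have h2 := h.recQ (l + 1) (by omega) hl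
    rw [add_tsub_cancel_right] at h1 h2
    simp only [hg]
    linear_combination (-C (l + 1) + Q (l + 1) * Y P C i) * h1 -
      (P (l + 1) * Y P C i) * h2
  have nefl : ∀ l, l + 1 < M → 0 ≤ P (l + 1) * (C l + C (l + 1 + 1) - k (l + 1) * C (l + 1)) := by
    intro l hl
    have h1 := h.nef (l + 1) (by omega) hl
    rw [add_tsub_cancel_right] at h1
    exact mul_nonneg (h.pos (l + 1) (by omega) hl).le h1
  -- upwards
  have up : ∀ l, i ≤ l → l + 1 ≤ M → 0 ≤ g (l + 1) ∧ 0 ≤ g (l + 1) * P l - g l * P (l + 1) := by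
    intro l hl
    induction l, hl using Nat.le_induction with
    | base =>
      intro _
      rw [gi, gi1]; simp
    | succ l hl ih =>
      intro hlM
      obtain ⟨h1, h2⟩ := ih (by omega)
      have h3 := step l (by omega)
      have h4 := nefl l (by omega)
      have h5 : 0 ≤ g (l + 1 + 1) * P (l + 1) - g (l + 1) * P (l + 1 + 1) := by
        rw [h3]; linarith
      refine ⟨?_, h5⟩
      have h6 := mul_nonneg h1 (h.nonneg (l + 1 + 1) hlM)
      have h7 : 0 ≤ g (l + 1 + 1) * P (l + 1) := by linarith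
      exact nonneg_of_mul_nonneg_left h7 (h.pos (l + 1) (by omega) (by omega))
  have down : ∀ d, d ≤ i → 0 ≤ g (i - d) ∧
      g (i - d + 1) * P (i - d) - g (i - d) * P (i - d + 1) ≤ 0 := by
    intro d
    induction d with
    | zero =>
      intro _
      rw [Nat.sub_zero, gi, gi1]; simp
    | succ d ih =>
      intro hd
      obtain ⟨h1, h2⟩ := ih (by omega)
      set l := i - (d + 1) with hl
      have e : i - d = l + 1 := by omega
      rw [e] at h1 h2
      have h3 := step l (by omega)
      have h4 := nefl l (by omega)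
      have h5 : g (l + 1) * P l - g l * P (l + 1) ≤ 0 := by linarith
      refine ⟨?_, h5⟩
      have h6 := mul_nonneg h1 (h.nonneg l (by omega))
      have h7 : 0 ≤ g l * P (l + 1) := by linarith
      exact nonneg_of_mul_nonneg_left h7 (h.pos (l + 1) (by omega) (by omega))
  have hgj : 0 ≤ g j := by
    rcases le_total j i with hji | hji
    · have := (down (i - j) (by omega)).1
      have e : i - (i - j) = j := by omega
      rwa [e] at this
    · rcases hji.lt_or_eq with h1 | h1
      · have := (up (j - 1) (by omega) (by omega)).1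
        have e : j - 1 + 1 = j := by omega
        rwa [e] at this
      · rw [← h1, gi]
  simp only [hg] at hgj
  linarith

lemma Y_succ (h : Chain P Q C k M) (i : ℕ) (hi : i + 1 < M) :
    Y P C (i + 1) = Y P C i + P (i + 1) * (C i + C (i + 1 + 1) - k (i + 1) * C (i + 1)) := by
  have h1 := h.recP (i + 1) (by omega) hi
  rw [add_tsub_cancel_right] at h1
  simp only [Y]
  linear_combination (-C (i + 1)) * h1

lemma Y_mono_succ (h : Chain P Q C k M) (i : ℕ) (hi : i + 1 < M) : Y P C i ≤ Y P C (i + 1) := by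
  have h1 := h.nef (i + 1) (by omega) hi
  rw [add_tsub_cancel_right] at h1
  have h2 := mul_nonneg (h.pos (i + 1) (by omega) hi).le h1
  rw [h.Y_succ i hi]
  linarith

lemma Y_mono (h : Chain P Q C k M) {i j : ℕ} (hij : i ≤ j) (hj : j < M) :
    Y P C i ≤ Y P C j := by
  induction j, hij using Nat.le_induction with
  | base => exact le_rfl
  | succ j hij ih => exact (ih (by omega)).trans (h.Y_mono_succ j hj)

/-- The corners lie beyond the chord. -/
lemma chord (h : Chain P Q C k M) (i : ℕ) (hi : i < M) :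
    (Y P C (M - 1) - Y P C i) * X Q C 0 + (Y P C i - Y P C 0) * X Q C (M - 1) ≤
      (Y P C (M - 1) - Y P C 0) * X Q C i := by
  rcases Nat.eq_zero_or_pos i with h0 | h0
  · subst h0; linarith
  rcases Nat.lt_or_ge (i + 1) M with h1 | h1
  · have hM0 : M - 1 < M := by omega
    have d := h.det i hi
    have a1 := h.at_left i hi
    have a2 := h.at_right i hi
    have b1 := h.corner_le 0 (by omega) i hi.le
    have b2 := h.corner_le 0 (by omega) (i + 1) hi
    have b3 := h.corner_le (M - 1) hM0 i hi.le
    have b4 := h.corner_le (M - 1) hM0 (i + 1) hi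
    have m1 := h.Y_mono (Nat.zero_le i) hi
    have m2 := h.Y_mono (by omega : i ≤ M - 1) hM0
    have p1 := h.pos i h0 hi
    have p2 := h.pos (i + 1) (by omega) h1
    set x := X Q C i
    set y := Y P C i
    set x0 := X Q C 0
    set y0 := Y P C 0
    set x1 := X Q C (M - 1)
    set y1 := Y P C (M - 1)
    -- coordinates of the two difference vectors
    set α := P i * (x - x0) + Q i * (y - y0) with hα
    set β := P (i + 1) * (x - x0) + Q (i + 1) * (y - y0) with hβ
    set γ := P i * (x - x1) + Q i * (y - y1) with hγ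
    set δ := P (i + 1) * (x - x1) + Q (i + 1) * (y - y1) with hδ
    have α0 : 0 ≤ α := by rw [hα]; linarith
    have β0 : 0 ≤ β := by rw [hβ]; linarith
    have γ0 : 0 ≤ γ := by rw [hγ]; linarith
    have δ0 : 0 ≤ δ := by rw [hδ]; linarith
    have v1 : P i * β - P (i + 1) * α = y - y0 := by
      rw [hα, hβ]; linear_combination (y - y0) * d
    have v2 : P i * δ - P (i + 1) * γ = y - y1 := by
      rw [hγ, hδ]; linear_combination (y - y1) * d
    have w1 : P (i + 1) * α ≤ P i * β := by linarith
    have w2 : P i * δ ≤ P (i + 1) * γ := by linarith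
    have w3 : (P (i + 1) * α) * (P i * δ) ≤ (P i * β) * (P (i + 1) * γ) :=
      mul_le_mul w1 w2 (mul_nonneg p1.le δ0) (mul_nonneg p1.le β0)
    have w4 : 0 ≤ P i * P (i + 1) * (β * γ - α * δ) := by linarith
    have w5 : 0 ≤ β * γ - α * δ := nonneg_of_mul_nonneg_right w4 (mul_pos p1 p2)
    have w6 : β * γ - α * δ = (x - x0) * (y1 - y) - (y - y0) * (x1 - x) := by
      rw [hα, hβ, hγ, hδ]
      linear_combination ((x - x0) * (y1 - y) - (y - y0) * (x1 - x)) * d
    rw [w6] at w5
    linarith
  · have : i = M - 1 := by omega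
    subst this; linarith

end Chain

open Chain

/-- A corner of one chain satisfies the inequalities of the mirrored other chain. -/
lemma cross {P Q C k P' Q' C' k' : ℕ → ℤ} {M M' : ℕ} (h : Chain P Q C k M)
    (h' : Chain P' Q' C' k' M') (hM : 0 < M) (hM' : 0 < M')
    (h0 : Y P C 0 = Y P' C' 0) (h1 : Y P C (M - 1) = Y P' C' (M' - 1))
    (hb : 0 ≤ X Q C 0 + X Q' C' 0) (ht : 0 ≤ X Q C (M - 1) + X Q' C' (M' - 1))
    (i : ℕ) (hi : i < M) (j : ℕ) (hj : j ≤ M') :
    - P' j * X Q C i + Q' j * Y P C i ≤ C' j := by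
  have c0 := h'.corner_le 0 hM' j hj
  have c1 := h'.corner_le (M' - 1) (by omega) j hj
  have m1 := h.Y_mono (Nat.zero_le i) hi
  have m2 := h.Y_mono (by omega : i ≤ M - 1) (by omega)
  have pj := h'.nonneg j hj
  rw [← h0] at c0
  rw [← h1] at c1
  rcases (m1.trans m2).lt_or_eq with hH | hH
  · have hc := h.chord i hi
    set y0 := Y P C 0
    set y1 := Y P C (M - 1)
    set y := Y P C i
    set x0 := X Q C 0
    set x1 := X Q C (M - 1)
    set x := X Q C i
    set a0 := X Q' C' 0
    set a1 := X Q' C' (M' - 1)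
    have e1 := mul_le_mul_of_nonneg_left hc pj
    have e2 := mul_nonneg (mul_nonneg (sub_nonneg.2 m2) pj) hb
    have e3 := mul_nonneg (mul_nonneg (sub_nonneg.2 m1) pj) ht
    have e4 := mul_le_mul_of_nonneg_left c0 (sub_nonneg.2 m2)
    have e5 := mul_le_mul_of_nonneg_left c1 (sub_nonneg.2 m1)
    have e6 : (y1 - y0) * (- P' j * x + Q' j * y) ≤ (y1 - y0) * C' j := by
      linarith
    exact le_of_mul_le_mul_left e6 (by linarith)
  · have y0i : Y P C i = Y P C 0 := by omega
    have hx : X Q C 0 ≤ X Q C i := by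
      rcases Nat.eq_zero_or_pos i with h0 | h0
      · subst h0; exact le_rfl
      · have b1 := h.corner_le 0 (by omega) i hi.le
        have a1 := h.at_left i hi
        rw [y0i] at a1
        have p1 := h.pos i h0 hi
        have : P i * X Q C 0 ≤ P i * X Q C i := by linarith
        exact le_of_mul_le_mul_left this p1
    rw [y0i]
    have e1 := mul_le_mul_of_nonneg_left hx pj
    have e2 := mul_nonneg pj hb
    linarith

end Pool.Agent.Helper517.Cvx
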