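import Pool.Agent.Helper517.Walk

/-!
Good configurations with prescribed corners, and the convex hull of the corners.
-/

namespace Pool.Agent.Helper517.Extract

open Finset Pool.Agent.Helper517.Place Pool.Agent.Helper517.Step
open Pool.Agent.Helper517 Pool.Agent.Helper517.Grow Pool.Agent.Helper517.Walk
open Pool.Agent.Helper517.Start Pool.Agent.Helper517.Level

/-- The fan of a triangle, with one additional ray. -/
def triFan : Fan 4 where
  p := (![0, 1, 0, -1] : Fin 4 → ℤ)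
  q := (![-1, 1, 1, 0] : Fin 4 → ℤ)
  det := by decide

lemma triFan_two : TwoChain triFan 1 1 where
  hn := rfl
  p0 := rfl
  q0 := rfl
  pT := rfl
  qT := rfl
  R := by
    intro i h1 h2
    interval_cases i
    decide
  L := by
    intro i h1 h2
    interval_cases i
    decide

lemma triFan_k : triFan.k ((1 + 1 : ℕ) : ZMod 4) = 1 := by decide

/-- Nonnegative edge lengths, positive on the two chains. -/
def Amp {n : ℕ} (F : Fan n) (N N' : ℕ) (a : ZMod n → ℤ) : Prop :=
  (∀ m, 0 ≤ F.len a m) ∧ (∀ i : ℕ, 1 ≤ i → i ≤ N → 1 ≤ F.len a (i : ZMod n)) ∧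
    ∀ i : ℕ, 1 ≤ i → i ≤ N' → 1 ≤ F.len a (-(i : ZMod n))

variable {ι : Type*}

/-- Triangles. -/
theorem tri_extract {A : Set (Pt ι)} {R : (ι → ℤ × ℤ) → Prop} {w w' : ℤ × ℤ}
    {c C1 C2 : ι → ℤ × ℤ} {b b1 : ι → ℤ}
    (hC : Corner A w w' c) (hR : R c) (hC1 : Corner A (w' - w) (-w) C1) (hR1 : R C1)
    (h1 : ∀ j, 1 ≤ b j ∧ C1 j = c j + b j • w) (hC2 : Corner A (-w') (w - w') C2) (hR2 : R C2)
    (h2 : ∀ j, C2 j = C1 j + b1 j • (w' - w)) :
    ∃ (a : ι → ZMod 4 → ℤ), (∀ j, Amp triFan 1 1 (a j)) ∧ Extracted A w w' triFan a ∧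
      ∀ m, R (fun j => triFan.ux (a j) m • w + triFan.uy (a j) m • w') := by
  classical
  have hd := hC.det
  -- the third corner
  have hb1 : ∀ j, b1 j = b j := by
    intro j
    have e1 := (hC.cone j _ (hC2.mem j)).2
    have e2 := (hC2.cone j _ (hC.mem j)).1
    rw [h2, (h1 j).2] at e1 e2
    have e3 : c j + b j • w + b1 j • (w' - w) - c j = (b j - b1 j) • w + b1 j • w' := by
      rw [smul_sub, sub_smul]; abel
    have e4 : c j - (c j + b j • w + b1 j • (w' - w)) = -((b j - b1 j) • w + b1 j • w') := by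
      rw [smul_sub, sub_smul]; abel
    rw [e3, dt_add_left, dt_smul_left, dt_smul_left, dt_self, hd] at e1
    rw [e4, dt_neg_left, dt_neg_right, dt_add_right, dt_smul_right, dt_smul_right, dt_self,
      dt_swap w' w, hd] at e2
    linarith
  have hC2' : ∀ j, C2 j = c j + b j • w' := by
    intro j
    rw [h2, (h1 j).2, hb1, smul_sub]; abel
  let a : ι → ZMod 4 → ℤ := fun j =>
    (![-dt w (c j), dt (c j) w' + dt w (c j) + b j, dt w (c j) + b j, -dt (c j) w'] : Fin 4 → ℤ)
  have hlen : ∀ j (m : ZMod 4), triFan.len (a j) m =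
      (![b j, b j, 0, b j] : Fin 4 → ℤ) m := by
    intro j m
    have k0 : triFan.k 0 = -1 := by decide
    have k1 : triFan.k 1 = 0 := by decide
    have k2 : triFan.k 2 = 1 := by decide
    have k3 : triFan.k 3 = 0 := by decide
    have hm : m = 0 ∨ m = 1 ∨ m = 2 ∨ m = 3 := by revert m; decide
    rcases hm with rfl | rfl | rfl | rfl
    · show a j 3 + a j 1 - triFan.k 0 * a j 0 = b j
      rw [k0]
      show -dt (c j) w' + (dt (c j) w' + dt w (c j) + b j) - (-1) * (-dt w (c j)) = b j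
      ring
    · show a j 0 + a j 2 - triFan.k 1 * a j 1 = b j
      rw [k1]
      show -dt w (c j) + (dt w (c j) + b j) - 0 * _ = b j
      ring
    · show a j 1 + a j 3 - triFan.k 2 * a j 2 = 0
      rw [k2]
      show (dt (c j) w' + dt w (c j) + b j) + -dt (c j) w' - 1 * (dt w (c j) + b j) = 0
      ring
    · show a j 2 + a j 0 - triFan.k 3 * a j 3 = b j
      rw [k3]
      show (dt w (c j) + b j) + -dt w (c j) - 0 * _ = b j
      ring
  have hbpos : ∀ j, 1 ≤ b j := fun j => (h1 j).1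
  -- the corners
  have hcor : ∀ m : ZMod 4, ∃ E : ι → ℤ × ℤ, (∀ j, (j, E j) ∈ A) ∧ R E ∧
      ∀ j, triFan.ux (a j) m • w + triFan.uy (a j) m • w' = E j := by
    intro m
    have hm : m = 0 ∨ m = 1 ∨ m = 2 ∨ m = 3 := by revert m; decide
    have key : ∀ j, ∀ u : ℤ × ℤ, triFan.ux (a j) m = dt u w' →
        triFan.uy (a j) m = dt w u → triFan.ux (a j) m • w + triFan.uy (a j) m • w' = u := by
      intro j u h3 h4
      rw [h3, h4, ← expand hd]
    rcases hm with rfl | rfl | rfl | rfl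
    · refine ⟨C1, hC1.mem, hR1, fun j => key j _ ?_ ?_⟩
      · rw [(h1 j).2, dt_add_left, dt_smul_left, hd]
        show (-dt w (c j)) * 1 - (dt (c j) w' + dt w (c j) + b j) * (-1) = _
        ring
      · rw [(h1 j).2, dt_add_right, dt_smul_right, dt_self]
        show (dt (c j) w' + dt w (c j) + b j) * 0 - (-dt w (c j)) * 1 = _
        ring
    · refine ⟨C2, hC2.mem, hR2, fun j => key j _ ?_ ?_⟩
      · rw [hC2', dt_add_left, dt_smul_left, dt_self]
        show (dt (c j) w' + dt w (c j) + b j) * 1 - (dt w (c j) + b j) * 1 = _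
        ring
      · rw [hC2', dt_add_right, dt_smul_right, hd]
        show (dt w (c j) + b j) * 1 - (dt (c j) w' + dt w (c j) + b j) * 0 = _
        ring
    · refine ⟨C2, hC2.mem, hR2, fun j => key j _ ?_ ?_⟩
      · rw [hC2', dt_add_left, dt_smul_left, dt_self]
        show (dt w (c j) + b j) * 0 - (-dt (c j) w') * 1 = _
        ring
      · rw [hC2', dt_add_right, dt_smul_right, hd]
        show (-dt (c j) w') * 0 - (dt w (c j) + b j) * (-1) = _
        ring
    · refine ⟨c, hC.mem, hR, fun j => key j _ ?_ ?_⟩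
      · show (-dt (c j) w') * (-1) - (-dt w (c j)) * 0 = _
        ring
      · show (-dt w (c j)) * (-1) - (-dt (c j) w') * 0 = _
        ring
  refine ⟨a, ?_, ⟨?_, ?_⟩, ?_⟩
  · intro j
    refine ⟨?_, ?_, ?_⟩
    · intro m
      rw [hlen]
      have := hbpos j
      have hm : m = 0 ∨ m = 1 ∨ m = 2 ∨ m = 3 := by revert m; decide
      rcases hm with rfl | rfl | rfl | rfl
      · show 0 ≤ b j; omega
      · show 0 ≤ b j; omega
      · show (0 : ℤ) ≤ 0; omega
      · show 0 ≤ b j; omega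
    · intro i hi1 hi2
      interval_cases i
      rw [hlen]
      exact hbpos j
    · intro i hi1 hi2
      interval_cases i
      rw [hlen]
      exact hbpos j
  · intro j z hz m
    obtain ⟨e1, e2⟩ := hC.cone j z hz
    have e3 := (hC1.cone j z hz).1
    rw [(h1 j).2] at e3
    rw [dt_sub_right] at e1
    rw [dt_sub_left] at e2
    rw [dt_sub_left, dt_sub_right, dt_sub_right, dt_add_right, dt_add_right, dt_smul_right,
      dt_smul_right, dt_self, dt_swap w' w, hd, dt_swap w' z, dt_swap w' (c j)] at e3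
    have hm : m = 0 ∨ m = 1 ∨ m = 2 ∨ m = 3 := by revert m; decide
    rcases hm with rfl | rfl | rfl | rfl
    · show 0 * dt z w' + (-1) * dt w z ≤ -dt w (c j)
      linarith
    · show 1 * dt z w' + 1 * dt w z ≤ dt (c j) w' + dt w (c j) + b j
      linarith
    · show 0 * dt z w' + 1 * dt w z ≤ dt w (c j) + b j
      linarith
    · show (-1) * dt z w' + 0 * dt w z ≤ -dt (c j) w'
      linarith
  · intro j m
    obtain ⟨E, hE1, _, hE3⟩ := hcor m
    rw [hE3]
    exact hE1 j
  · intro m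
    obtain ⟨E, _, hE2, hE3⟩ := hcor m
    have : (fun j => triFan.ux (a j) m • w + triFan.uy (a j) m • w') = E := funext hE3
    rw [this]
    exact hE2

/-- Good configurations. -/
theorem exists_config' [Fintype ι] [DecidableEq ι] {A : Set (Pt ι)} (hfin : A.Finite)
    {R : (ι → ℤ × ℤ) → Prop} {j0 : ι} (h : HCat A R j0) (hex : ∃ w w' c, Corner A w w' c ∧ R c) :
    ∃ (w w' : ℤ × ℤ) (n : ℕ) (F : Fan n) (N N' : ℕ) (a : ι → ZMod n → ℤ) (B : Finset (Pt ι)),
      dt w w' = 1 ∧ TwoChain F N N' ∧ (∀ j, Amp F N N' (a j)) ∧ Extracted A w w' F a ∧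
        (∀ m, R (fun j => F.ux (a j) m • w + F.uy (a j) m • w')) ∧
        Good B ∧ F.Conf a B := by
  classical
  obtain ⟨w, w', c, hC, hR, hcase⟩ := dichotomy hfin h hex
  rcases hcase with ⟨j1, z1, z2, h1, h2, hne, hmax⟩ |
    ⟨C1, C2, b, b1, h1, r1, h2, h3, r3, h4⟩
  · obtain ⟨n, hn, F, N, N', a, hT, hlen, hE, hRR⟩ := par_extract hfin h hC hR h1 h2 hne hmax
    obtain ⟨B, hG, hB⟩ := exists_good hT a hlen
    refine ⟨w, w', n, F, N, N', a, B, hC.det, hT, fun j => ⟨fun m => ?_, fun i _ _ => hlen j _,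
      fun i _ _ => hlen j _⟩, hE, hRR, hG, hB⟩
    have := hlen j m
    omega
  · obtain ⟨a, hA, hE, hRR⟩ := tri_extract hC hR h1 r1 h2 h3 r3 h4
    obtain ⟨B, hG, hB⟩ := exists_good_tri triFan_two triFan_k a (fun j => (hA j).1)
    exact ⟨w, w', 4, triFan, 1, 1, a, B, hC.det, triFan_two, hA, hE, hRR, hG, hB⟩

/-- Good configurations. -/
theorem exists_config [Nonempty ι] [Fintype ι] [DecidableEq ι] {A : Set (Pt ι)} (hfin : A.Finite)
    (h : HC A) (hex : ∃ w w' c, Corner A w w' c) :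
    ∃ (w w' : ℤ × ℤ) (n : ℕ) (F : Fan n) (N N' : ℕ) (a : ι → ZMod n → ℤ) (B : Finset (Pt ι)),
      dt w w' = 1 ∧ TwoChain F N N' ∧ (∀ j, Amp F N N' (a j)) ∧ Extracted A w w' F a ∧
        Good B ∧ F.Conf a B := by
  obtain ⟨j0⟩ := ‹Nonempty ι›
  obtain ⟨w, w', c, hC⟩ := hex
  obtain ⟨w, w', n, F, N, N', a, B, h1, h2, h3, h4, _, h6, h7⟩ :=
    exists_config' hfin (hcat_of_hc h j0) ⟨w, w', c, hC, trivial⟩
  exact ⟨w, w', n, F, N, N', a, B, h1, h2, h3, h4, h6, h7⟩

end Pool.Agent.Helper517.Extract
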