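import Mathlib

/-!
Inequalities for convex sequences along a chain of plane lattice vectors.
-/

namespace Pool.Agent.Helper517.Seq

/-- No isolated bump of a convex sequence inside a half plane. -/
lemma no_bump {P k f : ℕ → ℤ} {a b : ℕ} (hab : a + 1 < b)
    (hrec : ∀ i, a < i → i < b → P (i - 1) + P (i + 1) = k i * P i)
    (hPa : 0 ≤ P a) (hPb : 0 ≤ P b) (hP : ∀ i, a < i → i < b → 0 < P i)
    (hfa : f a = -1) (hfb : f b = -1) (hf : ∀ i, a < i → i < b → 0 ≤ f i)
    (hκ : ∀ i, a < i → i < b → 0 ≤ f (i - 1) + f (i + 1) - k i * f i) : False := by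
  have key : ∀ l, a ≤ l → l < b → 0 < f (l + 1) * P l - f l * P (l + 1) := by
    intro l hl
    induction l, hl using Nat.le_induction with
    | base =>
      intro _
      have h1 := hP (a + 1) (by omega) hab
      have h2 := mul_nonneg (hf (a + 1) (by omega) hab) hPa
      rw [hfa]
      linarith
    | succ l hl ih =>
      intro hlb
      have h0 := ih (by omega)
      have h1 := hrec (l + 1) (by omega) hlb
      have h2 := hκ (l + 1) (by omega) hlb
      have h3 := hP (l + 1) (by omega) hlb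
      rw [add_tsub_cancel_right] at h1 h2
      have h4 := mul_nonneg h3.le h2
      have h5 : f (l + 1 + 1) * P (l + 1) - f (l + 1) * P (l + 1 + 1) =
          (f (l + 1) * P l - f l * P (l + 1)) +
            P (l + 1) * (f l + f (l + 1 + 1) - k (l + 1) * f (l + 1)) := by
        linear_combination (-f (l + 1)) * h1
      rw [h5]
      linarith
  have h1 := key (b - 1) (by omega) (by omega)
  have h2 : b - 1 + 1 = b := by omega
  rw [h2, hfb] at h1
  have h3 := hP (b - 1) (by omega) (by omega)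
  have h4 := mul_nonneg (hf (b - 1) (by omega) (by omega)) hPb
  linarith

/-- Slopes are monotone. -/
lemma slope {P Q : ℕ → ℤ} {X : ℕ} (h0 : 0 ≤ P 0) (hpos : ∀ i, 1 ≤ i → i ≤ X → 0 < P i)
    (hdet : ∀ i, i < X → P (i + 1) * Q i - Q (i + 1) * P i = 1) :
    ∀ i, i ≤ X → 0 ≤ P X * Q i - Q X * P i := by
  have hP : ∀ i, i ≤ X → 0 ≤ P i := by
    intro i hi
    rcases Nat.eq_zero_or_pos i with h | h
    · rw [h]; exact h0
    · exact (hpos i h hi).le
  have key : ∀ d, d ≤ X → 0 ≤ P X * Q (X - d) - Q X * P (X - d) := by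
    intro d
    induction d with
    | zero => intro _; simp only [Nat.sub_zero]; linarith [mul_comm (P X) (Q X)]
    | succ d ih =>
      intro hd
      have h1 := ih (by omega)
      have h2 := hdet (X - (d + 1)) (by omega)
      have e : X - (d + 1) + 1 = X - d := by omega
      rw [e] at h2
      have h3 := hpos (X - d) (by omega) (by omega)
      have h4 := hP (X - (d + 1)) (by omega)
      have h5 := hP X le_rfl
      have h6 : P (X - d) * (P X * Q (X - (d + 1)) - Q X * P (X - (d + 1))) =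
          P X + P (X - (d + 1)) * (P X * Q (X - d) - Q X * P (X - d)) := by
        linear_combination (P X) * h2
      have h7 : 0 ≤ P (X - d) * (P X * Q (X - (d + 1)) - Q X * P (X - (d + 1))) := by
        rw [h6]
        have := mul_nonneg h4 h1
        linarith
      exact nonneg_of_mul_nonneg_right h7 h3
  intro i hi
  have := key (X - i) (by omega)
  have e : X - (X - i) = i := by omega
  rwa [e] at this

/-- The one-sided inequality. -/
lemma side {P Q k f : ℕ → ℤ} {X : ℕ} (hX : 1 ≤ X) (hP0 : P 0 = 0) (hQ0 : Q 0 = 1)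
    (hpos : ∀ i, 1 ≤ i → i ≤ X → 0 < P i)
    (hdet : ∀ i, i < X → P (i + 1) * Q i - Q (i + 1) * P i = 1)
    (hrecP : ∀ i, 1 ≤ i → i < X → P (i - 1) + P (i + 1) = k i * P i)
    (hrecQ : ∀ i, 1 ≤ i → i < X → Q (i - 1) + Q (i + 1) = k i * Q i)
    (hκ : ∀ i, 1 ≤ i → i < X → 0 ≤ f (i - 1) + f (i + 1) - k i * f i) :
    P X * f 1 ≤ (P X * Q 1 - Q X) * f 0 + f X ∧
      (2 ≤ X → P X * f 1 + (P X * Q 1 - Q X) * (f 0 + f 2 - k 1 * f 1) ≤
        (P X * Q 1 - Q X) * f 0 + f X) ∧ 0 ≤ P X * Q 1 - Q X := by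
  have hsl := slope hP0.ge hpos hdet
  have hP1 : P 1 = 1 := by
    have := hdet 0 (by omega)
    rw [hP0, hQ0] at this
    simpa using this
  have key : ∀ d, d + 1 ≤ X → -f X ≤ f (X - 1 - d) * (P X * Q (X - 1 - d + 1) -
      Q X * P (X - 1 - d + 1)) - f (X - 1 - d + 1) * (P X * Q (X - 1 - d) -
      Q X * P (X - 1 - d)) := by
    intro d
    induction d with
    | zero =>
      intro _
      have e : X - 1 - 0 + 1 = X := by omega
      have e' : X - 1 - 0 = X - 1 := rfl
      have h1 := hdet (X - 1) (by omega)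
      have e2 : X - 1 + 1 = X := by omega
      rw [e2] at h1
      rw [e, e']
      have h2 : P X * Q (X - 1) - Q X * P (X - 1) = 1 := h1
      rw [h2]
      linarith [mul_comm (P X) (Q X), mul_comm (f (X - 1)) (P X * Q X - Q X * P X),
        show P X * Q X - Q X * P X = 0 by ring, show f (X - 1) * (P X * Q X - Q X * P X) = 0 by ring]
    | succ d ih =>
      intro hd
      have h1 := ih (by omega)
      set l := X - 1 - (d + 1) with hl
      have e : X - 1 - d = l + 1 := by omega
      rw [e] at h1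
      have h2 := hrecP (l + 1) (by omega) (by omega)
      have h3 := hrecQ (l + 1) (by omega) (by omega)
      have h4 := hκ (l + 1) (by omega) (by omega)
      have h5 := hsl (l + 1) (by omega)
      rw [add_tsub_cancel_right] at h2 h3 h4
      have h6 := mul_nonneg h5 h4
      have h7 : f l * (P X * Q (l + 1) - Q X * P (l + 1)) -
          f (l + 1) * (P X * Q l - Q X * P l) =
          (f (l + 1) * (P X * Q (l + 1 + 1) - Q X * P (l + 1 + 1)) -
          f (l + 1 + 1) * (P X * Q (l + 1) - Q X * P (l + 1))) +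
          (P X * Q (l + 1) - Q X * P (l + 1)) * (f l + f (l + 1 + 1) - k (l + 1) * f (l + 1)) := by
        linear_combination (f (l + 1) * Q X) * h2 - (f (l + 1) * P X) * h3
      rw [h7]
      linarith
  have hz := key (X - 1) (by omega)
  have e0 : X - 1 - (X - 1) = 0 := by omega
  rw [e0] at hz
  simp only [zero_add] at hz
  rw [hP0, hQ0, hP1] at hz
  refine ⟨by linarith, ?_, ?_⟩
  · intro hX2
    have h1 := key (X - 2) (by omega)
    have e1 : X - 1 - (X - 2) = 1 := by omega
    rw [e1] at h1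
    have h2 := hrecP 1 le_rfl (by omega)
    have h3 := hrecQ 1 le_rfl (by omega)
    simp only [Nat.sub_self, Nat.reduceAdd] at h1 h2 h3
    rw [hP1] at h1 h2
    rw [hP0] at h2
    rw [hQ0] at h3
    have h2' : P 2 = k 1 := by linarith
    have h3' : Q 2 = k 1 * Q 1 - 1 := by linarith
    rw [h2', h3'] at h1
    linarith
  · have := hsl 1 hX
    rw [hP1] at this
    linarith

/-- The analysis of a stuck state at a ray whose opposite is present. -/
lemma top_stuck {P Q k f P' Q' k' f' : ℕ → ℤ} {X X' : ℕ} {kT : ℤ}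
    (hX : 1 ≤ X) (hP0 : P 0 = 0) (hQ0 : Q 0 = 1)
    (hpos : ∀ i, 1 ≤ i → i ≤ X → 0 < P i)
    (hdet : ∀ i, i < X → P (i + 1) * Q i - Q (i + 1) * P i = 1)
    (hrecP : ∀ i, 1 ≤ i → i < X → P (i - 1) + P (i + 1) = k i * P i)
    (hrecQ : ∀ i, 1 ≤ i → i < X → Q (i - 1) + Q (i + 1) = k i * Q i)
    (hκ : ∀ i, 1 ≤ i → i < X → 0 ≤ f (i - 1) + f (i + 1) - k i * f i)
    (hX' : 1 ≤ X') (hP0' : P' 0 = 0) (hQ0' : Q' 0 = 1)
    (hpos' : ∀ i, 1 ≤ i → i ≤ X' → 0 < P' i)
    (hdet' : ∀ i, i < X' → P' (i + 1) * Q' i - Q' (i + 1) * P' i = 1)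
    (hrecP' : ∀ i, 1 ≤ i → i < X' → P' (i - 1) + P' (i + 1) = k' i * P' i)
    (hrecQ' : ∀ i, 1 ≤ i → i < X' → Q' (i - 1) + Q' (i + 1) = k' i * Q' i)
    (hκ' : ∀ i, 1 ≤ i → i < X' → 0 ≤ f' (i - 1) + f' (i + 1) - k' i * f' i)
    (hf0 : f 0 = f' 0) (hf : ∀ i, i < X → 0 ≤ f i) (hfX : f X = -1)
    (hfX' : f' X' ≤ P' X' - 2) (hkT : kT = Q 1 + Q' 1) (hkT1 : 1 ≤ kT)
    (hκT : 0 ≤ f 1 + f' 1 - kT * f 0) (hang : 0 ≤ P X * Q' X' + P' X' * Q X) :
    2 ≤ X ∧ 2 ≤ X' ∧ f 1 + f' 1 - kT * f 0 = 0 ∧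
      (f 0 + f 2 - k 1 * f 1 ≤ 0 ∨ f' 0 + f' 2 - k' 1 * f' 1 ≤ 0) := by
  obtain ⟨s1, s2, s3⟩ := side hX hP0 hQ0 hpos hdet hrecP hrecQ hκ
  obtain ⟨s1', s2', s3'⟩ := side hX' hP0' hQ0' hpos' hdet' hrecP' hrecQ' hκ'
  have hPX := hpos X hX le_rfl
  have hPX' := hpos' X' hX' le_rfl
  have ht : 0 ≤ f 0 := hf 0 (by omega)
  set t := f 0 with htdef
  rw [← hf0] at s1' s2'
  rw [hfX] at s1 s2
  have hP1 : P 1 = 1 := by
    have := hdet 0 (by omega)
    rw [hP0, hQ0] at this
    simpa using this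
  have hP1' : P' 1 = 1 := by
    have := hdet' 0 (by omega)
    rw [hP0', hQ0'] at this
    simpa using this
  have hst := mul_nonneg hang ht
  have hPP := mul_pos hPX hPX'
  -- the basic inequality
  have a1 := mul_le_mul_of_nonneg_left s1 hPX'.le
  have a2 := mul_le_mul_of_nonneg_left s1' hPX.le
  have a3 := mul_le_mul_of_nonneg_left hfX' hPX.le
  have base : P X * P' X' * (f 1 + f' 1 - kT * t) + (P X * Q' X' + P' X' * Q X) * t +
      P' X' + 2 * P X ≤ P X * P' X' := by
    rw [hkT]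
    nlinarith
  have hκT0 : f 1 + f' 1 - kT * t = 0 := by
    by_contra hne
    have h1 : 1 ≤ f 1 + f' 1 - kT * t := by omega
    have h2 := mul_le_mul_of_nonneg_left h1 hPP.le
    linarith
  have hX2 : 2 ≤ X := by
    by_contra hcon
    have : X = 1 := by omega
    subst this
    rw [hP1, hκT0] at base
    rw [hP1] at hst
    linarith
  have hX2' : 2 ≤ X' := by
    by_contra hcon
    have : X' = 1 := by omega
    subst this
    rw [hP1', hκT0] at base
    rw [hP1'] at hst
    linarith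
  refine ⟨hX2, hX2', hκT0, ?_⟩
  by_contra hcon
  push Not at hcon
  obtain ⟨c1, c2⟩ := hcon
  -- the height is positive
  have ht1 : 1 ≤ t := by
    have key : ∀ i, i + 1 ≤ X → f i * P (i + 1) - f (i + 1) * P i ≤ t := by
      intro i
      induction i with
      | zero => intro _; rw [hP0, zero_add, hP1]; linarith
      | succ i ih =>
        intro hi
        have h0 := ih (by omega)
        have h1 := hrecP (i + 1) (by omega) (by omega)
        have h2 := hκ (i + 1) (by omega) (by omega)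
        have h3 := hpos (i + 1) (by omega) (by omega)
        rw [add_tsub_cancel_right] at h1 h2
        have h4 := mul_nonneg h3.le h2
        have h5 : f (i + 1) * P (i + 1 + 1) - f (i + 1 + 1) * P (i + 1) =
            (f i * P (i + 1) - f (i + 1) * P i) -
              P (i + 1) * (f i + f (i + 1 + 1) - k (i + 1) * f (i + 1)) := by
          linear_combination (f (i + 1)) * h1
        rw [h5]
        linarith
    have h1 := key (X - 1) (by omega)
    have e : X - 1 + 1 = X := by omega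
    rw [e, hfX] at h1
    have h2 := hpos (X - 1) (by omega) (by omega)
    have h3 := mul_nonneg (hf (X - 1) (by omega)) hPX.le
    linarith
  have b1 := mul_le_mul_of_nonneg_left (s2 hX2) hPX'.le
  have b2 := mul_le_mul_of_nonneg_left (s2' hX2') hPX.le
  have c1' : 1 ≤ f 0 + f 2 - k 1 * f 1 := c1
  have c2' : 1 ≤ f' 0 + f' 2 - k' 1 * f' 1 := c2
  rw [← hf0] at c2'
  have b3 : (P X * Q 1 - Q X) * 1 ≤ (P X * Q 1 - Q X) * (t + f 2 - k 1 * f 1) :=
    mul_le_mul_of_nonneg_left c1' s3
  have b4 : (P' X' * Q' 1 - Q' X') * 1 ≤ (P' X' * Q' 1 - Q' X') * (t + f' 2 - k' 1 * f' 1) :=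
    mul_le_mul_of_nonneg_left c2' s3'
  have b5 := mul_le_mul_of_nonneg_left b3 hPX'.le
  have b6 := mul_le_mul_of_nonneg_left b4 hPX.le
  have b7 := mul_nonneg hang (sub_nonneg.2 ht1)
  have b8 := mul_le_mul_of_nonneg_left hkT1 hPP.le
  have b9 : f 1 + f' 1 = kT * t := by linarith
  have b10 : P X * P' X' * (f 1 + f' 1) = P X * P' X' * (kT * t) := by rw [b9]
  rw [hkT] at b8 b10
  nlinarith

end Pool.Agent.Helper517.Seq
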