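import Pool.Agent.Helper517.Step
import Pool.Agent.Helper517.Seq
import Pool.Agent.Helper517.Cvx

/-!
Growing a horizontal segment to a smooth polygon.
-/

namespace Pool.Agent.Helper517.Grow

open Finset Pool.Agent.Helper517.Place Pool.Agent.Helper517.Step Pool.Agent.Helper517.Seq
open Pool.Agent.Helper517

/-- A complete fan containing the rays `(0, -1)` (index `0`) and `(0, 1)` (index `N + 1`). -/
structure TwoChain {n : ℕ} (F : Fan n) (N N' : ℕ) : Prop where
  hn : n = N + N' + 2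
  p0 : F.p 0 = 0
  q0 : F.q 0 = -1
  pT : F.p ((N + 1 : ℕ) : ZMod n) = 0
  qT : F.q ((N + 1 : ℕ) : ZMod n) = 1
  R : ∀ i : ℕ, 1 ≤ i → i ≤ N → 0 < F.p (i : ZMod n)
  L : ∀ i : ℕ, 1 ≤ i → i ≤ N' → F.p (-(i : ZMod n)) < 0

namespace TwoChain

variable {n N N' : ℕ} {F : Fan n}

lemma neg_top (h : TwoChain F N N') : -((N' + 1 : ℕ) : ZMod n) = ((N + 1 : ℕ) : ZMod n) := by
  have h1 : ((N + N' + 2 : ℕ) : ZMod n) = 0 := by rw [← h.hn]; exact ZMod.natCast_self n
  push_cast at h1 ⊢
  linear_combination (-1 : ZMod n) * h1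

lemma p1 (h : TwoChain F N N') : F.p 1 = 1 := by
  have := F.det 0
  rw [h.p0, h.q0, zero_add] at this
  linarith

lemma pm1 (h : TwoChain F N N') : F.p (-1) = -1 := by
  have := F.det (-1)
  rw [neg_add_cancel, h.p0, h.q0] at this
  linarith

lemma N_pos (h : TwoChain F N N') : 1 ≤ N := by
  by_contra hcon
  have hN : N = 0 := by omega
  have h1 := h.pT
  rw [hN] at h1
  simp only [zero_add, Nat.cast_one] at h1
  rw [h.p1] at h1
  omega

lemma N'_pos (h : TwoChain F N N') : 1 ≤ N' := by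
  by_contra hcon
  have hN : N' = 0 := by omega
  have h1 := h.pT
  rw [← h.neg_top, hN] at h1
  simp only [zero_add, Nat.cast_one] at h1
  rw [h.pm1] at h1
  omega

lemma pTm1 (h : TwoChain F N N') : F.p (((N + 1 : ℕ) : ZMod n) - 1) = 1 := by
  have := F.det' ((N + 1 : ℕ) : ZMod n)
  rw [h.pT, h.qT] at this
  linarith

lemma pTp1 (h : TwoChain F N N') : F.p (((N + 1 : ℕ) : ZMod n) + 1) = -1 := by
  have := F.det ((N + 1 : ℕ) : ZMod n)
  rw [h.pT, h.qT] at this
  linarith

lemma cover (h : TwoChain F N N') (m : ZMod n) :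
    (∃ i : ℕ, i ≤ N ∧ m = i) ∨ ∃ i : ℕ, i ≤ N' ∧ m = -((i + 1 : ℕ) : ZMod n) := by
  have hn0 : n ≠ 0 := by rw [h.hn]; omega
  have : NeZero n := ⟨hn0⟩
  have hv := ZMod.val_lt m
  have hm : m = ((m.val : ℕ) : ZMod n) := (ZMod.natCast_zmod_val m).symm
  rcases Nat.lt_or_ge N m.val with h1 | h1
  · right
    refine ⟨n - m.val - 1, by have := h.hn; omega, ?_⟩
    have e : n - m.val - 1 + 1 = n - m.val := by omega
    rw [e, Nat.cast_sub hv.le, ZMod.natCast_self]
    rw [zero_sub, neg_neg]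
    exact hm
  · left
    exact ⟨m.val, h1, hm⟩

lemma cover_ray (h : TwoChain F N N') (m : ZMod n) :
    (∃ i : ℕ, i ≤ N + 1 ∧ m = i) ∨ ∃ i : ℕ, i ≤ N' + 1 ∧ m = -(i : ZMod n) := by
  rcases h.cover m with ⟨i, h1, h2⟩ | ⟨i, h1, h2⟩
  · exact Or.inl ⟨i, by omega, h2⟩
  · exact Or.inr ⟨i + 1, by omega, h2⟩

lemma chainR (h : TwoChain F N N') {c : ZMod n → ℤ} (hc : ∀ m, 0 ≤ F.len c m) :
    Cvx.Chain (fun i : ℕ => F.p (i : ZMod n)) (fun i : ℕ => F.q (i : ZMod n))
      (fun i : ℕ => c (i : ZMod n)) (fun i : ℕ => F.k (i : ZMod n)) (N + 1) where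
  det i _ := by
    have := F.det (i : ZMod n)
    push_cast
    exact this
  pos i hi hi' := h.R i hi (by omega)
  zero := by simpa using h.p0
  top := h.pT
  recP i hi _ := by
    have := F.p_rec (i : ZMod n)
    rw [Nat.cast_sub hi]
    push_cast
    exact this
  recQ i hi _ := by
    have := F.q_rec (i : ZMod n)
    rw [Nat.cast_sub hi]
    push_cast
    exact this
  nef i hi _ := by
    have := hc (i : ZMod n)
    rw [Nat.cast_sub hi]
    push_cast
    exact this

lemma chainL (h : TwoChain F N N') {c : ZMod n → ℤ} (hc : ∀ m, 0 ≤ F.len c m) :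
    Cvx.Chain (fun i : ℕ => -F.p (-(i : ZMod n))) (fun i : ℕ => F.q (-(i : ZMod n)))
      (fun i : ℕ => c (-(i : ZMod n))) (fun i : ℕ => F.k (-(i : ZMod n))) (N' + 1) where
  det i _ := by
    have := F.det' (-(i : ZMod n))
    have e : -((i + 1 : ℕ) : ZMod n) = -(i : ZMod n) - 1 := by push_cast; ring
    rw [e]
    linarith
  pos i hi hi' := by have := h.L i hi (by omega); omega
  zero := by simp [h.p0]
  top := by rw [h.neg_top, h.pT]; rfl
  recP i hi _ := by
    have := F.p_rec (-(i : ZMod n))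
    have e : -((i - 1 : ℕ) : ZMod n) = -(i : ZMod n) + 1 := by
      rw [Nat.cast_sub hi]; push_cast; ring
    have e' : -((i + 1 : ℕ) : ZMod n) = -(i : ZMod n) - 1 := by push_cast; ring
    rw [e, e']
    linarith
  recQ i hi _ := by
    have := F.q_rec (-(i : ZMod n))
    have e : -((i - 1 : ℕ) : ZMod n) = -(i : ZMod n) + 1 := by
      rw [Nat.cast_sub hi]; push_cast; ring
    have e' : -((i + 1 : ℕ) : ZMod n) = -(i : ZMod n) - 1 := by push_cast; ring
    rw [e, e']
    linarith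
  nef i hi _ := by
    have := hc (-(i : ZMod n))
    have e : -((i - 1 : ℕ) : ZMod n) = -(i : ZMod n) + 1 := by
      rw [Nat.cast_sub hi]; push_cast; ring
    have e' : -((i + 1 : ℕ) : ZMod n) = -(i : ZMod n) - 1 := by push_cast; ring
    rw [e, e']
    rw [Fan.len] at this
    linarith

lemma XR (F : Fan n) (c : ZMod n → ℤ) (i : ℕ) :
    Cvx.Chain.X (fun i : ℕ => F.q (i : ZMod n)) (fun i : ℕ => c (i : ZMod n)) i =
      F.ux c (i : ZMod n) := by
  simp only [Cvx.Chain.X, Fan.ux]; push_cast; rfl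

lemma YR (F : Fan n) (c : ZMod n → ℤ) (i : ℕ) :
    Cvx.Chain.Y (fun i : ℕ => F.p (i : ZMod n)) (fun i : ℕ => c (i : ZMod n)) i =
      F.uy c (i : ZMod n) := by
  simp only [Cvx.Chain.Y, Fan.uy]; push_cast; rfl

lemma XL (F : Fan n) (c : ZMod n → ℤ) (i : ℕ) :
    Cvx.Chain.X (fun i : ℕ => F.q (-(i : ZMod n))) (fun i : ℕ => c (-(i : ZMod n))) i =
      - F.ux c (-((i + 1 : ℕ) : ZMod n)) := by
  have e : -((i + 1 : ℕ) : ZMod n) + 1 = -(i : ZMod n) := by push_cast; ring
  simp only [Cvx.Chain.X, Fan.ux]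
  rw [e]
  ring

lemma YL (F : Fan n) (c : ZMod n → ℤ) (i : ℕ) :
    Cvx.Chain.Y (fun i : ℕ => -F.p (-(i : ZMod n))) (fun i : ℕ => c (-(i : ZMod n))) i =
      F.uy c (-((i + 1 : ℕ) : ZMod n)) := by
  have e : -((i + 1 : ℕ) : ZMod n) + 1 = -(i : ZMod n) := by push_cast; ring
  simp only [Cvx.Chain.Y, Fan.uy]
  rw [e]
  ring

/-- Nonnegative edge lengths imply convexity. -/
lemma cvx (h : TwoChain F N N') {c : ZMod n → ℤ} (hc : ∀ m, 0 ≤ F.len c m) : F.Cvx c := by
  have hR := h.chainR hc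
  have hL := h.chainL hc
  have hp1 := h.p1
  have hpm1 := h.pm1
  have e0 : F.uy c 0 = - c 0 := by
    simp only [Fan.uy, zero_add, h.p0, hp1]; ring
  have e1 : F.uy c (-1) = - c 0 := by
    simp only [Fan.uy, neg_add_cancel, h.p0, hpm1]; ring
  have hT1 := h.pTm1
  have hT2 := h.pTp1
  have f0 : F.uy c (N : ZMod n) = c ((N + 1 : ℕ) : ZMod n) := by
    have e : (N : ZMod n) = ((N + 1 : ℕ) : ZMod n) - 1 := by push_cast; ring
    rw [e]
    simp only [Fan.uy, sub_add_cancel, hT1, h.pT]; ring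
  have f1 : F.uy c ((N + 1 : ℕ) : ZMod n) = c ((N + 1 : ℕ) : ZMod n) := by
    simp only [Fan.uy, hT2, h.pT]; ring
  have g0 : F.ux c 0 - F.ux c (-1) = F.len c 0 := by
    simp only [Fan.ux, Fan.len, Fan.k, zero_add, zero_sub, neg_add_cancel, h.q0, hp1, hpm1]
    ring
  have g1 : F.ux c (N : ZMod n) - F.ux c ((N + 1 : ℕ) : ZMod n) =
      F.len c ((N + 1 : ℕ) : ZMod n) := by
    have e : (N : ZMod n) = ((N + 1 : ℕ) : ZMod n) - 1 := by push_cast; ring
    rw [e]
    simp only [Fan.ux, Fan.len, Fan.k, sub_add_cancel, h.qT, hT1, hT2]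
    ring
  have h0 : Cvx.Chain.Y (fun i : ℕ => F.p (i : ZMod n)) (fun i : ℕ => c (i : ZMod n)) 0 =
      Cvx.Chain.Y (fun i : ℕ => -F.p (-(i : ZMod n))) (fun i : ℕ => c (-(i : ZMod n))) 0 := by
    rw [YR, YL]
    simp only [Nat.cast_zero, zero_add, Nat.cast_one]
    rw [e0, e1]
  have h1 : Cvx.Chain.Y (fun i : ℕ => F.p (i : ZMod n)) (fun i : ℕ => c (i : ZMod n))
      (N + 1 - 1) = Cvx.Chain.Y (fun i : ℕ => -F.p (-(i : ZMod n)))
      (fun i : ℕ => c (-(i : ZMod n))) (N' + 1 - 1) := by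
    rw [YR, YL]
    simp only [add_tsub_cancel_right]
    rw [h.neg_top, f0, f1]
  have hb : 0 ≤ Cvx.Chain.X (fun i : ℕ => F.q (i : ZMod n)) (fun i : ℕ => c (i : ZMod n)) 0 +
      Cvx.Chain.X (fun i : ℕ => F.q (-(i : ZMod n))) (fun i : ℕ => c (-(i : ZMod n))) 0 := by
    rw [XR, XL]
    simp only [Nat.cast_zero, zero_add, Nat.cast_one]
    have := hc 0
    linarith
  have ht : 0 ≤ Cvx.Chain.X (fun i : ℕ => F.q (i : ZMod n)) (fun i : ℕ => c (i : ZMod n))
      (N + 1 - 1) + Cvx.Chain.X (fun i : ℕ => F.q (-(i : ZMod n)))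
      (fun i : ℕ => c (-(i : ZMod n))) (N' + 1 - 1) := by
    rw [XR, XL]
    simp only [add_tsub_cancel_right]
    rw [h.neg_top]
    have := hc ((N + 1 : ℕ) : ZMod n)
    linarith
  intro m j
  rcases h.cover m with ⟨i, hi, rfl⟩ | ⟨i, hi, rfl⟩
  · rcases h.cover_ray j with ⟨l, hl, rfl⟩ | ⟨l, hl, rfl⟩
    · have := hR.corner_le i (by omega) l hl
      rwa [XR, YR] at this
    · have := Cvx.cross hR hL (by omega) (by omega) h0 h1 hb ht i (by omega) l hl
      rw [XR, YR, neg_neg] at this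
      exact this
  · rcases h.cover_ray j with ⟨l, hl, rfl⟩ | ⟨l, hl, rfl⟩
    · have := Cvx.cross hL hR (by omega) (by omega) h0.symm h1.symm (by linarith)
        (by linarith) i (by omega) l hl
      rw [XL, YL] at this
      linarith
    · have := hL.corner_le i (by omega) l hl
      rw [XL, YL] at this
      linarith

end TwoChain

/-- One side of the fan, seen from the ray `T0`. -/
structure Side {n : ℕ} (F : Fan n) (T0 : ZMod n) (r : ℕ → ZMod n) (P Q : ℕ → ℤ) (M : ℕ) :
    Prop where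
  r0 : r 0 = T0
  P0 : P 0 = 0
  Q0 : Q 0 = 1
  pos : ∀ i, 1 ≤ i → i ≤ M → 0 < P i
  det : ∀ i, i < M → P (i + 1) * Q i - Q (i + 1) * P i = 1
  recP : ∀ i, 1 ≤ i → i < M → P (i - 1) + P (i + 1) = F.k (r i) * P i
  recQ : ∀ i, 1 ≤ i → i < M → Q (i - 1) + Q (i + 1) = F.k (r i) * Q i
  nbr : ∀ (g : ZMod n → ℤ) (i : ℕ), 1 ≤ i → i ≤ M →
    g (r (i - 1)) + g (r (i + 1)) = g (r i - 1) + g (r i + 1)

/-- The analysis of a stuck state. `D` is the difference of the support vectors. -/
lemma stuck {n : ℕ} {F : Fan n} {T0 : ZMod n} {r l : ℕ → ZMod n} {P Q P' Q' : ℕ → ℤ} {M M' : ℕ}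
    (hr : Side F T0 r P Q M) (hl : Side F T0 l P' Q' M') (D : ZMod n → ℤ)
    (hD : ∀ m, 0 ≤ D m)
    (hcv : ∀ m, 0 < D m → 0 ≤ (D (m - 1) - 1) + (D (m + 1) - 1) - F.k m * (D m - 1))
    (hT : 0 < D T0) (hk : F.k T0 = Q 1 + Q' 1) (hk1 : 1 ≤ F.k T0)
    (hn : ∀ g : ZMod n → ℤ, g (r 1) + g (l 1) = g (T0 - 1) + g (T0 + 1))
    {i i' : ℕ} (hi : 1 ≤ i) (hiM : i ≤ M) (hi' : 1 ≤ i') (hiM' : i' ≤ M')
    (hDi : D (r i) = 0) (hDi' : D (l i') ≤ P' i' - 1)
    (hang : 0 ≤ P i * Q' i' + P' i' * Q i) :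
    0 < D (r 1) ∧ 0 < D (l 1) ∧
      (D (T0 - 1) - 1) + (D (T0 + 1) - 1) - F.k T0 * (D T0 - 1) = 0 ∧
      ((D (r 1 - 1) - 1) + (D (r 1 + 1) - 1) - F.k (r 1) * (D (r 1) - 1) ≤ 0 ∨
        (D (l 1 - 1) - 1) + (D (l 1 + 1) - 1) - F.k (l 1) * (D (l 1) - 1) ≤ 0) := by
  classical
  have hex : ∃ j, 1 ≤ j ∧ D (r j) = 0 := ⟨i, hi, hDi⟩
  have hex' : ∃ j, 1 ≤ j ∧ (D (l j) = 0 ∨ j = i') := ⟨i', hi', Or.inr rfl⟩
  set X := Nat.find hex with hX
  set X' := Nat.find hex' with hX'
  obtain ⟨x1, x2⟩ := Nat.find_spec hex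
  obtain ⟨x1', x2'⟩ := Nat.find_spec hex'
  rw [← hX] at x1 x2
  rw [← hX'] at x1' x2'
  have x3 : X ≤ i := Nat.find_min' hex ⟨hi, hDi⟩
  have x3' : X' ≤ i' := Nat.find_min' hex' ⟨hi', Or.inr rfl⟩
  have x4 : ∀ j, j < X → 0 < D (r j) := by
    intro j hj
    rcases Nat.eq_zero_or_pos j with h0 | h0
    · rw [h0, hr.r0]; exact hT
    · have := Nat.find_min hex hj
      push Not at this
      exact lt_of_le_of_ne (hD _) (Ne.symm (this h0))
  have x4' : ∀ j, j < X' → 0 < D (l j) := by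
    intro j hj
    rcases Nat.eq_zero_or_pos j with h0 | h0
    · rw [h0, hl.r0]; exact hT
    · have := Nat.find_min hex' hj
      push Not at this
      exact lt_of_le_of_ne (hD _) (Ne.symm (this h0).1)
  have hPi := hr.pos i hi hiM
  have hPi' := hl.pos i' hi' hiM'
  have hPX := hr.pos X x1 (by omega)
  have hPX' := hl.pos X' x1' (by omega)
  -- the angle condition
  have s1 := slope hr.P0.ge (fun j h1 h2 => hr.pos j h1 (by omega))
    (fun j hj => hr.det j (by omega)) X x3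
  have s2 := slope hl.P0.ge (fun j h1 h2 => hl.pos j h1 (by omega))
    (fun j hj => hl.det j (by omega)) X' x3'
  have hang' : 0 ≤ P X * Q' X' + P' X' * Q X := by
    have h1 : 0 ≤ P i * P' i' * (P X * Q' X' + P' X' * Q X) := by
      have e : P i * P' i' * (P X * Q' X' + P' X' * Q X) =
          (P X * P' X') * (P i * Q' i' + P' i' * Q i) +
          (P i * P X) * (P' i' * Q' X' - Q' i' * P' X') +
          (P' i' * P' X') * (P i * Q X - Q i * P X) := by ring
      rw [e]
      positivity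
    exact nonneg_of_mul_nonneg_right h1 (mul_pos hPi hPi')
  have fX' : D (l X') - 1 ≤ P' X' - 2 := by
    rcases x2' with h | h
    · rw [h]; omega
    · rw [h]; omega
  have hn' := hn (fun m => D m - 1)
  have main := top_stuck (P := P) (Q := Q) (k := fun j => F.k (r j))
    (f := fun j => D (r j) - 1) (P' := P') (Q' := Q') (k' := fun j => F.k (l j))
    (f' := fun j => D (l j) - 1) (X := X) (X' := X') (kT := F.k T0)
    x1 hr.P0 hr.Q0 (fun j h1 h2 => hr.pos j h1 (by omega)) (fun j hj => hr.det j (by omega))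
    (fun j h1 h2 => hr.recP j h1 (by omega)) (fun j h1 h2 => hr.recQ j h1 (by omega))
    (fun j h1 h2 => by
      have e1 : (D (r (j - 1)) - 1) + (D (r (j + 1)) - 1) = (D (r j - 1) - 1) + (D (r j + 1) - 1) :=
        hr.nbr (fun m => D m - 1) j h1 (by omega)
      have e2 := hcv (r j) (x4 j h2)
      show 0 ≤ (D (r (j - 1)) - 1) + (D (r (j + 1)) - 1) - F.k (r j) * (D (r j) - 1)
      rw [e1]; exact e2)
    x1' hl.P0 hl.Q0 (fun j h1 h2 => hl.pos j h1 (by omega)) (fun j hj => hl.det j (by omega))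
    (fun j h1 h2 => hl.recP j h1 (by omega)) (fun j h1 h2 => hl.recQ j h1 (by omega))
    (fun j h1 h2 => by
      have e1 : (D (l (j - 1)) - 1) + (D (l (j + 1)) - 1) = (D (l j - 1) - 1) + (D (l j + 1) - 1) :=
        hl.nbr (fun m => D m - 1) j h1 (by omega)
      have e2 := hcv (l j) (x4' j h2)
      show 0 ≤ (D (l (j - 1)) - 1) + (D (l (j + 1)) - 1) - F.k (l j) * (D (l j) - 1)
      rw [e1]; exact e2)
    (by simp only [hr.r0, hl.r0]) (fun j hj => by have := x4 j hj; show 0 ≤ D (r j) - 1; omega)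
    (by simp only [x2]; rfl) fX' hk hk1
    (by
      have e2 := hcv T0 hT
      simp only [hr.r0] at hn' ⊢
      rw [hn']; exact e2)
    hang'
  obtain ⟨m1, m2, m3, m4⟩ := main
  have y1 := x4 1 (by omega)
  have y1' := x4' 1 (by omega)
  refine ⟨y1, y1', ?_, ?_⟩
  · simp only [hr.r0] at m3 hn'
    rw [hn'] at m3
    exact m3
  · have hM2 : 1 ≤ M := by omega
    have e1 := hr.nbr (fun m => D m - 1) 1 le_rfl (by omega)
    have e1' := hl.nbr (fun m => D m - 1) 1 le_rfl (by omega)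
    simp only [Nat.sub_self, Nat.reduceAdd] at e1 e1' m4
    rw [e1, e1'] at m4
    exact m4

namespace TwoChain

variable {n N N' : ℕ} {F : Fan n}

lemma sideTR (h : TwoChain F N N') : Side F ((N + 1 : ℕ) : ZMod n)
    (fun i => ((N + 1 : ℕ) : ZMod n) - i) (fun i => F.p (((N + 1 : ℕ) : ZMod n) - i))
    (fun i => F.q (((N + 1 : ℕ) : ZMod n) - i)) N where
  r0 := by simp
  P0 := by simpa using h.pT
  Q0 := by simpa using h.qT
  pos i h1 h2 := by
    have := h.R (N + 1 - i) (by omega) (by omega)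
    rwa [Nat.cast_sub (by omega)] at this
  det i _ := by
    have := F.det' (((N + 1 : ℕ) : ZMod n) - i)
    have e : ((N + 1 : ℕ) : ZMod n) - ((i + 1 : ℕ) : ZMod n) = ((N + 1 : ℕ) : ZMod n) - i - 1 := by
      push_cast; ring
    rw [e]; exact this
  recP i h1 _ := by
    have := F.p_rec (((N + 1 : ℕ) : ZMod n) - i)
    have e : ((N + 1 : ℕ) : ZMod n) - ((i + 1 : ℕ) : ZMod n) = ((N + 1 : ℕ) : ZMod n) - i - 1 := by
      push_cast; ring
    have e' : ((N + 1 : ℕ) : ZMod n) - ((i - 1 : ℕ) : ZMod n) = ((N + 1 : ℕ) : ZMod n) - i + 1 := by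
      rw [Nat.cast_sub h1]; push_cast; ring
    rw [e, e']; linarith
  recQ i h1 _ := by
    have := F.q_rec (((N + 1 : ℕ) : ZMod n) - i)
    have e : ((N + 1 : ℕ) : ZMod n) - ((i + 1 : ℕ) : ZMod n) = ((N + 1 : ℕ) : ZMod n) - i - 1 := by
      push_cast; ring
    have e' : ((N + 1 : ℕ) : ZMod n) - ((i - 1 : ℕ) : ZMod n) = ((N + 1 : ℕ) : ZMod n) - i + 1 := by
      rw [Nat.cast_sub h1]; push_cast; ring
    rw [e, e']; linarith
  nbr g i h1 _ := by
    have e : ((N + 1 : ℕ) : ZMod n) - ((i + 1 : ℕ) : ZMod n) = ((N + 1 : ℕ) : ZMod n) - i - 1 := by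
      push_cast; ring
    have e' : ((N + 1 : ℕ) : ZMod n) - ((i - 1 : ℕ) : ZMod n) = ((N + 1 : ℕ) : ZMod n) - i + 1 := by
      rw [Nat.cast_sub h1]; push_cast; ring
    rw [e, e']; ring

lemma sideTL (h : TwoChain F N N') : Side F ((N + 1 : ℕ) : ZMod n)
    (fun i => ((N + 1 : ℕ) : ZMod n) + i) (fun i => - F.p (((N + 1 : ℕ) : ZMod n) + i))
    (fun i => F.q (((N + 1 : ℕ) : ZMod n) + i)) N' where
  r0 := by simp
  P0 := by
    have := h.pT
    simp only [Nat.cast_zero, add_zero]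
    omega
  Q0 := by simpa using h.qT
  pos i h1 h2 := by
    have := h.L (N' + 1 - i) (by omega) (by omega)
    rw [Nat.cast_sub (by omega)] at this
    have e : -(((N' + 1 : ℕ) : ZMod n) - i) = ((N + 1 : ℕ) : ZMod n) + i := by
      rw [← h.neg_top]; ring
    rw [e] at this
    omega
  det i _ := by
    have := F.det (((N + 1 : ℕ) : ZMod n) + i)
    have e : ((N + 1 : ℕ) : ZMod n) + ((i + 1 : ℕ) : ZMod n) = ((N + 1 : ℕ) : ZMod n) + i + 1 := by
      push_cast; ring
    rw [e]; linarith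
  recP i h1 _ := by
    have := F.p_rec (((N + 1 : ℕ) : ZMod n) + i)
    have e : ((N + 1 : ℕ) : ZMod n) + ((i + 1 : ℕ) : ZMod n) = ((N + 1 : ℕ) : ZMod n) + i + 1 := by
      push_cast; ring
    have e' : ((N + 1 : ℕ) : ZMod n) + ((i - 1 : ℕ) : ZMod n) = ((N + 1 : ℕ) : ZMod n) + i - 1 := by
      rw [Nat.cast_sub h1]; push_cast; ring
    rw [e, e']; linarith
  recQ i h1 _ := by
    have := F.q_rec (((N + 1 : ℕ) : ZMod n) + i)
    have e : ((N + 1 : ℕ) : ZMod n) + ((i + 1 : ℕ) : ZMod n) = ((N + 1 : ℕ) : ZMod n) + i + 1 := by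
      push_cast; ring
    have e' : ((N + 1 : ℕ) : ZMod n) + ((i - 1 : ℕ) : ZMod n) = ((N + 1 : ℕ) : ZMod n) + i - 1 := by
      rw [Nat.cast_sub h1]; push_cast; ring
    rw [e, e']; linarith
  nbr g i h1 _ := by
    have e : ((N + 1 : ℕ) : ZMod n) + ((i + 1 : ℕ) : ZMod n) = ((N + 1 : ℕ) : ZMod n) + i + 1 := by
      push_cast; ring
    have e' : ((N + 1 : ℕ) : ZMod n) + ((i - 1 : ℕ) : ZMod n) = ((N + 1 : ℕ) : ZMod n) + i - 1 := by
      rw [Nat.cast_sub h1]; push_cast; ring
    rw [e, e']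

lemma sideBR (h : TwoChain F N N') : Side F 0
    (fun i => (i : ZMod n)) (fun i => F.p (i : ZMod n)) (fun i => - F.q (i : ZMod n)) N where
  r0 := by simp
  P0 := by simpa using h.p0
  Q0 := by simp [h.q0]
  pos i h1 h2 := h.R i h1 h2
  det i _ := by
    have := F.det (i : ZMod n)
    push_cast
    linarith
  recP i h1 _ := by
    have := F.p_rec (i : ZMod n)
    rw [Nat.cast_sub h1]
    push_cast
    exact this
  recQ i h1 _ := by
    have := F.q_rec (i : ZMod n)
    rw [Nat.cast_sub h1]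
    push_cast
    linarith
  nbr g i h1 _ := by
    rw [Nat.cast_sub h1]
    push_cast
    rfl

lemma sideBL (h : TwoChain F N N') : Side F 0
    (fun i => -(i : ZMod n)) (fun i => -F.p (-(i : ZMod n))) (fun i => - F.q (-(i : ZMod n)))
    N' where
  r0 := by simp
  P0 := by simp [h.p0]
  Q0 := by simp [h.q0]
  pos i h1 h2 := by have := h.L i h1 h2; omega
  det i _ := by
    have := F.det' (-(i : ZMod n))
    have e : -((i + 1 : ℕ) : ZMod n) = -(i : ZMod n) - 1 := by push_cast; ring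
    rw [e]
    linarith
  recP i h1 _ := by
    have := F.p_rec (-(i : ZMod n))
    have e : -((i - 1 : ℕ) : ZMod n) = -(i : ZMod n) + 1 := by
      rw [Nat.cast_sub h1]; push_cast; ring
    have e' : -((i + 1 : ℕ) : ZMod n) = -(i : ZMod n) - 1 := by push_cast; ring
    rw [e, e']
    linarith
  recQ i h1 _ := by
    have := F.q_rec (-(i : ZMod n))
    have e : -((i - 1 : ℕ) : ZMod n) = -(i : ZMod n) + 1 := by
      rw [Nat.cast_sub h1]; push_cast; ring
    have e' : -((i + 1 : ℕ) : ZMod n) = -(i : ZMod n) - 1 := by push_cast; ring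
    rw [e, e']
    linarith
  nbr g i h1 _ := by
    have e : -((i - 1 : ℕ) : ZMod n) = -(i : ZMod n) + 1 := by
      rw [Nat.cast_sub h1]; push_cast; ring
    have e' : -((i + 1 : ℕ) : ZMod n) = -(i : ZMod n) - 1 := by push_cast; ring
    rw [e, e']
    ring

end TwoChain

/-- The condition on the starting segment at the top. -/
def TopOK {n : ℕ} (F : Fan n) (N N' : ℕ) (a c : ZMod n → ℤ) : Prop :=
  c ((N + 1 : ℕ) : ZMod n) = a ((N + 1 : ℕ) : ZMod n) ∨
    ∃ i i' : ℕ, 1 ≤ i ∧ i ≤ N ∧ 1 ≤ i' ∧ i' ≤ N' ∧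
      0 ≤ F.p (((N + 1 : ℕ) : ZMod n) - i) * F.q (((N + 1 : ℕ) : ZMod n) + i') -
        F.p (((N + 1 : ℕ) : ZMod n) + i') * F.q (((N + 1 : ℕ) : ZMod n) - i) ∧
      ((a (((N + 1 : ℕ) : ZMod n) - i) = c (((N + 1 : ℕ) : ZMod n) - i) ∧
        a (((N + 1 : ℕ) : ZMod n) + i') - c (((N + 1 : ℕ) : ZMod n) + i') ≤
          - F.p (((N + 1 : ℕ) : ZMod n) + i') - 1) ∨
      (a (((N + 1 : ℕ) : ZMod n) + i') = c (((N + 1 : ℕ) : ZMod n) + i') ∧
        a (((N + 1 : ℕ) : ZMod n) - i) - c (((N + 1 : ℕ) : ZMod n) - i) ≤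
          F.p (((N + 1 : ℕ) : ZMod n) - i) - 1))

/-- The condition on the starting segment at the bottom. -/
def BotOK {n : ℕ} (F : Fan n) (N N' : ℕ) (a c : ZMod n → ℤ) : Prop :=
  c 0 = a 0 ∨ ∃ i i' : ℕ, 1 ≤ i ∧ i ≤ N ∧ 1 ≤ i' ∧ i' ≤ N' ∧
      0 ≤ F.p (-(i' : ZMod n)) * F.q (i : ZMod n) - F.p (i : ZMod n) * F.q (-(i' : ZMod n)) ∧
      ((a (i : ZMod n) = c (i : ZMod n) ∧
        a (-(i' : ZMod n)) - c (-(i' : ZMod n)) ≤ - F.p (-(i' : ZMod n)) - 1) ∨
      (a (-(i' : ZMod n)) = c (-(i' : ZMod n)) ∧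
        a (i : ZMod n) - c (i : ZMod n) ≤ F.p (i : ZMod n) - 1))

lemma kappa {n : ℕ} (F : Fan n) (a c : ZMod n → ℤ) (m : ZMod n) :
    ((a - c) (m - 1) - 1) + ((a - c) (m + 1) - 1) - F.k m * ((a - c) m - 1) =
      F.len a m - F.len c m - 2 + F.k m := by
  simp only [Fan.len, Pi.sub_apply]
  ring

/-- There is always a legal step. -/
lemma grow_step {n N N' : ℕ} {F : Fan n} (h : TwoChain F N N') {a c0 c : ZMod n → ℤ}
    (ha : ∀ m, 1 ≤ F.len a m) (hTop : TopOK F N N' a c0) (hBot : BotOK F N N' a c0)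
    (h0c : ∀ m, c0 m ≤ c m) (hca : ∀ m, c m ≤ a m) (hc : ∀ m, 0 ≤ F.len c m) (hne : c ≠ a) :
    ∃ m, (c m < a m ∧ F.k m ≤ F.len c m) ∨
      (c m < a m ∧ c (m + 1) < a (m + 1) ∧ F.len c m = F.k m - 1 ∧
        F.len c (m + 1) = F.k (m + 1) - 1) := by
  by_contra hcon
  push Not at hcon
  have H1 : ∀ m, c m < a m → F.len c m < F.k m := fun m hm => (hcon m).1 hm
  have H2 : ∀ m, c m < a m → c (m + 1) < a (m + 1) → F.len c m = F.k m - 1 →
      F.len c (m + 1) ≠ F.k (m + 1) - 1 := fun m => (hcon m).2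
  set D : ZMod n → ℤ := a - c with hDdef
  have hD : ∀ m, 0 ≤ D m := fun m => by
    have := hca m; simp only [hDdef, Pi.sub_apply]; omega
  have hDlt : ∀ m, 0 < D m → c m < a m := fun m hm => by
    simp only [hDdef, Pi.sub_apply] at hm; omega
  have hcv : ∀ m, 0 < D m →
      0 ≤ (D (m - 1) - 1) + (D (m + 1) - 1) - F.k m * (D m - 1) := by
    intro m hm
    rw [hDdef, kappa]
    have := H1 m (hDlt m hm)
    have := ha m
    omega
  have hlen : ∀ m, 0 < D m → (D (m - 1) - 1) + (D (m + 1) - 1) - F.k m * (D m - 1) ≤ 0 →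
      F.len c m = F.k m - 1 := by
    intro m hm h1
    rw [hDdef, kappa] at h1
    have := H1 m (hDlt m hm)
    have := ha m
    omega
  unfold TopOK at hTop
  set T : ZMod n := ((N + 1 : ℕ) : ZMod n) with hT
  have hkT : F.k T = F.q (T - 1) + F.q (T + 1) := by
    have h1 := h.pTm1
    have h2 := h.pTp1
    rw [← hT] at h1 h2
    simp only [Fan.k]; rw [h1, h2]; ring
  have hk0 : F.k 0 = - F.q 1 - F.q (-1) := by
    simp only [Fan.k, zero_add, zero_sub]; rw [h.p1, h.pm1]; ring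
  -- the top is not a problem
  have hTop0 : D T = 0 := by
    by_contra hne
    have hpos : 0 < D T := lt_of_le_of_ne (hD T) (Ne.symm hne)
    have hk1 : 1 ≤ F.k T := by
      have := H1 T (hDlt T hpos)
      have := hc T
      omega
    rcases hTop with h1 | ⟨i, i', hi, hiN, hi', hiN', hang, h1 | h1⟩
    · have := hDlt T hpos
      have := h0c T
      omega
    · -- touched on the right
      have hDi : D (T - i) = 0 := by
        have e1 := h0c (T - i)
        have e2 := hca (T - i)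
        have e3 := h1.1
        simp only [hDdef, Pi.sub_apply]; omega
      have hDi' : D (T + i') ≤ - F.p (T + i') - 1 := by
        have e1 := h0c (T + i')
        have e3 := h1.2
        simp only [hDdef, Pi.sub_apply]; omega
      have := stuck h.sideTR h.sideTL D hD hcv hpos
        (by simp only [Nat.cast_one]; exact hkT) hk1
        (fun g => by simp only [Nat.cast_one]) hi hiN hi' hiN' hDi hDi'
        (by rw [← hT]; linarith)
      rw [← hT] at this
      simp only [Nat.cast_one] at this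
      obtain ⟨s1, s2, s3, s4⟩ := this
      have t1 := hlen T hpos s3.le
      rcases s4 with s4 | s4
      · have t2 := hlen _ s1 s4
        have := H2 (T - 1) (hDlt _ s1) (by rw [sub_add_cancel]; exact hDlt _ hpos) t2
        rw [sub_add_cancel] at this
        exact this t1
      · exact H2 T (hDlt _ hpos) (hDlt _ s2) t1 (hlen _ s2 s4)
    · have hDi' : D (T + i') = 0 := by
        have e1 := h0c (T + i')
        have e2 := hca (T + i')
        have e3 := h1.1
        simp only [hDdef, Pi.sub_apply]; omega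
      have hDi : D (T - i) ≤ F.p (T - i) - 1 := by
        have e1 := h0c (T - i)
        have e3 := h1.2
        simp only [hDdef, Pi.sub_apply]; omega
      have := stuck h.sideTL h.sideTR D hD hcv hpos
        (by simp only [Nat.cast_one]; rw [← hT, hkT]; ring) hk1
        (fun g => by simp only [Nat.cast_one]; rw [← hT]; ring) hi' hiN' hi hiN hDi' hDi
        (by rw [← hT]; linarith)
      rw [← hT] at this
      simp only [Nat.cast_one] at this
      obtain ⟨s1, s2, s3, s4⟩ := this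
      have t1 := hlen T hpos s3.le
      rcases s4 with s4 | s4
      · exact H2 T (hDlt _ hpos) (hDlt _ s1) t1 (hlen _ s1 s4)
      · have t2 := hlen _ s2 s4
        have := H2 (T - 1) (hDlt _ s2) (by rw [sub_add_cancel]; exact hDlt _ hpos) t2
        rw [sub_add_cancel] at this
        exact this t1
  have hBot0 : D 0 = 0 := by
    by_contra hne
    have hpos : 0 < D 0 := lt_of_le_of_ne (hD 0) (Ne.symm hne)
    have hk1 : 1 ≤ F.k 0 := by
      have := H1 0 (hDlt 0 hpos)
      have := hc 0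
      omega
    rcases hBot with h1 | ⟨i, i', hi, hiN, hi', hiN', hang, h1 | h1⟩
    · have := hDlt 0 hpos
      have := h0c 0
      omega
    · have hDi : D i = 0 := by
        have e1 := h0c i
        have e2 := hca i
        have e3 := h1.1
        simp only [hDdef, Pi.sub_apply]; omega
      have hDi' : D (-(i' : ZMod n)) ≤ - F.p (-(i' : ZMod n)) - 1 := by
        have e1 := h0c (-(i' : ZMod n))
        have e3 := h1.2
        simp only [hDdef, Pi.sub_apply]; omega
      have := stuck h.sideBR h.sideBL D hD hcv hpos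
        (by simp only [Nat.cast_one]; rw [hk0]; ring) hk1
        (fun g => by simp only [Nat.cast_one, zero_add, zero_sub]; ring) hi hiN hi' hiN' hDi hDi'
        (by linarith)
      simp only [Nat.cast_one] at this
      obtain ⟨s1, s2, s3, s4⟩ := this
      have t1 := hlen 0 hpos s3.le
      rcases s4 with s4 | s4
      · have t2 := hlen _ s1 s4
        have := H2 0 (hDlt _ hpos) (by rw [zero_add]; exact hDlt _ s1) t1
        rw [zero_add] at this
        exact this t2
      · have t2 := hlen _ s2 s4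
        have := H2 (-1) (hDlt _ s2) (by rw [neg_add_cancel]; exact hDlt _ hpos) t2
        rw [neg_add_cancel] at this
        exact this t1
    · have hDi' : D (-(i' : ZMod n)) = 0 := by
        have e1 := h0c (-(i' : ZMod n))
        have e2 := hca (-(i' : ZMod n))
        have e3 := h1.1
        simp only [hDdef, Pi.sub_apply]; omega
      have hDi : D i ≤ F.p i - 1 := by
        have e1 := h0c i
        have e3 := h1.2
        simp only [hDdef, Pi.sub_apply]; omega
      have := stuck h.sideBL h.sideBR D hD hcv hpos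
        (by simp only [Nat.cast_one]; rw [hk0]; ring) hk1
        (fun g => by simp only [Nat.cast_one, zero_add, zero_sub]) hi' hiN' hi hiN hDi' hDi
        (by linarith)
      simp only [Nat.cast_one] at this
      obtain ⟨s1, s2, s3, s4⟩ := this
      have t1 := hlen 0 hpos s3.le
      rcases s4 with s4 | s4
      · have t2 := hlen _ s1 s4
        have := H2 (-1) (hDlt _ s1) (by rw [neg_add_cancel]; exact hDlt _ hpos) t2
        rw [neg_add_cancel] at this
        exact this t1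
      · have t2 := hlen _ s2 s4
        have := H2 0 (hDlt _ hpos) (by rw [zero_add]; exact hDlt _ s2) t1
        rw [zero_add] at this
        exact this t2
  -- the right side
  have side : ∀ (r : ℕ → ZMod n) (P : ℕ → ℤ) (M : ℕ), D (r 0) = 0 → D (r (M + 1)) = 0 →
      0 ≤ P 0 → 0 ≤ P (M + 1) → (∀ i, 1 ≤ i → i ≤ M → 0 < P i) →
      (∀ i, 1 ≤ i → i ≤ M → P (i - 1) + P (i + 1) = F.k (r i) * P i) →
      (∀ (g : ZMod n → ℤ) (i : ℕ), 1 ≤ i → i ≤ M →
        g (r (i - 1)) + g (r (i + 1)) = g (r i - 1) + g (r i + 1)) →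
      ∀ i, i ≤ M + 1 → D (r i) = 0 := by
    intro r P M e0 e1 p0 p1 hP hrec hnbr i hi
    by_contra hne
    have hpos : 0 < D (r i) := lt_of_le_of_ne (hD _) (Ne.symm hne)
    classical
    have hex : ∃ j, i < j ∧ D (r j) = 0 := by
      refine ⟨M + 1, ?_, e1⟩
      rcases hi.lt_or_eq with h | h
      · exact h
      · exfalso; rw [h] at hne; exact hne e1
    have hex' : ∃ j, j < i ∧ D (r (i - 1 - j)) = 0 := by
      refine ⟨i - 1, ?_, by rw [Nat.sub_self]; exact e0⟩
      rcases Nat.eq_zero_or_pos i with h | h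
      · exfalso; rw [h] at hne; exact hne e0
      · omega
    set b := Nat.find hex with hb
    set j0 := Nat.find hex' with hj0
    obtain ⟨b1, b2⟩ := Nat.find_spec hex
    obtain ⟨j1, j2⟩ := Nat.find_spec hex'
    rw [← hb] at b1 b2
    rw [← hj0] at j1 j2
    have bM : b ≤ M + 1 := Nat.find_min' hex ⟨by
      rcases hi.lt_or_eq with h | h
      · exact h
      · exfalso; rw [h] at hne; exact hne e1, e1⟩
    set a0 := i - 1 - j0 with ha0
    have mid : ∀ j, a0 < j → j < b → 0 < D (r j) := by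
      intro j h1 h2
      rcases lt_trichotomy j i with h3 | h3 | h3
      · have := Nat.find_min hex' (m := i - 1 - j) (by omega)
        push Not at this
        have h4 := this (by omega)
        have h5 : i - 1 - (i - 1 - j) = j := by omega
        rw [h5] at h4
        exact lt_of_le_of_ne (hD _) (Ne.symm h4)
      · rw [h3]; exact hpos
      · have := Nat.find_min hex (m := j) (by omega)
        push Not at this
        exact lt_of_le_of_ne (hD _) (Ne.symm (this h3))
    have pnn : ∀ j, j ≤ M + 1 → 0 ≤ P j := by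
      intro j hj
      rcases Nat.eq_zero_or_pos j with h | h
      · rw [h]; exact p0
      · rcases hj.lt_or_eq with h' | h'
        · exact (hP j h (by omega)).le
        · rw [h']; exact p1
    refine no_bump (P := P) (k := fun j => F.k (r j)) (f := fun j => D (r j) - 1) (a := a0) (b := b)
      (by omega) (fun j h1 h2 => hrec j (by omega) (by omega)) (pnn _ (by omega)) (pnn _ bM)
      (fun j h1 h2 => hP j (by omega) (by omega)) ?_ ?_ ?_ ?_
    · show D (r a0) - 1 = -1
      rw [j2]; rfl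
    · show D (r b) - 1 = -1
      rw [b2]; rfl
    · intro j h1 h2
      have := mid j h1 h2
      show 0 ≤ D (r j) - 1
      omega
    · intro j h1 h2
      have e1 : (D (r (j - 1)) - 1) + (D (r (j + 1)) - 1) =
          (D (r j - 1) - 1) + (D (r j + 1) - 1) :=
        hnbr (fun m => D m - 1) j (by omega) (by omega)
      have e2 := hcv (r j) (mid j h1 h2)
      show 0 ≤ (D (r (j - 1)) - 1) + (D (r (j + 1)) - 1) - F.k (r j) * (D (r j) - 1)
      rw [e1]; exact e2
  have hR := side (fun i => (i : ZMod n)) (fun i => F.p (i : ZMod n)) N (by simpa using hBot0)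
    hTop0 (by simp [h.p0]) (by rw [h.pT]) h.R (fun i h1 h2 => by
      have := F.p_rec (i : ZMod n)
      rw [Nat.cast_sub h1]
      push_cast
      exact this) (fun g i h1 h2 => h.sideBR.nbr g i h1 h2)
  have hL := side (fun i => -(i : ZMod n)) (fun i => -F.p (-(i : ZMod n))) N'
    (by simpa using hBot0) (by rw [h.neg_top]; exact hTop0) (by simp [h.p0])
    (by rw [h.neg_top, h.pT]; rfl) (fun i h1 h2 => h.sideBL.pos i h1 h2) (fun i h1 h2 => by
      have := F.p_rec (-(i : ZMod n))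
      have e : -((i - 1 : ℕ) : ZMod n) = -(i : ZMod n) + 1 := by
        rw [Nat.cast_sub h1]; push_cast; ring
      have e' : -((i + 1 : ℕ) : ZMod n) = -(i : ZMod n) - 1 := by push_cast; ring
      rw [e, e']
      linarith) (fun g i h1 h2 => h.sideBL.nbr g i h1 h2)
  apply hne
  funext m
  have hDm : D m = 0 := by
    rcases h.cover_ray m with ⟨i, hi, rfl⟩ | ⟨i, hi, rfl⟩
    · exact hR i hi
    · exact hL i hi
  simp only [hDdef, Pi.sub_apply] at hDm
  omega

end Pool.Agent.Helper517.Grow
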