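import Pool.Agent.Helper517.Transfer

/-!
The integer decomposition property from a regular unimodular triangulation.
-/

namespace Pool.Agent.Helper517.IDPB

open Finset Geometry Pool.Agent.Helper517.Conv Pool.Agent.Helper517.Transfer
open Pool.Agent.Helper517

/-- The integer decomposition property. -/
def IDP {d : ℕ} (Q : Set (Fin d → ℝ)) : Prop :=
  ∀ k : ℕ, 1 ≤ k → ∀ z : Fin d → ℤ, (∃ x ∈ Q, toR z = (k : ℝ) • x) →
    ∃ f : Fin k → (Fin d → ℤ), (∀ i, toR (f i) ∈ Q) ∧ ∑ i, f i = z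

lemma of_multiset {d : ℕ} {Q : Set (Fin d → ℝ)} {k : ℕ} {z : Fin d → ℤ}
    (M : Multiset (Fin d → ℤ)) (hk : Multiset.card M = k) (hz : M.sum = z)
    (hQ : ∀ y ∈ M, toR y ∈ Q) :
    ∃ f : Fin k → (Fin d → ℤ), (∀ i, toR (f i) ∈ Q) ∧ ∑ i, f i = z := by
  have hl : M.toList.length = k := by rw [Multiset.length_toList, hk]
  subst hl
  refine ⟨M.toList.get, fun i => hQ _ (Multiset.mem_toList.1 (List.get_mem _ _)), ?_⟩
  rw [← hz, ← Multiset.sum_toList, ← List.sum_ofFn, List.ofFn_get]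

theorem rut_idp {d : ℕ} {Q : Set (Fin d → ℝ)} {K : SimplicialComplex ℝ (Fin d → ℝ)}
    {h : (Fin d → ℝ) → ℝ} (hfin : {y : Fin d → ℤ | toR y ∈ Q}.Finite) (hK : RutData Q K h) :
    IDP Q := by
  classical
  rintro k hk z ⟨x, hx, hz⟩
  have hx' : x ∈ K.space := by rw [hK.1]; exact hx
  rw [SimplicialComplex.mem_space_iff] at hx'
  obtain ⟨τ, hτ, hxτ⟩ := hx'
  obtain ⟨ρ, hρ, hτρ⟩ := exists_facet hfin hK hτ
  obtain ⟨v, hv1, hv2, hv3⟩ := hK.2.2 ρ hρ
  have hvQ : ∀ j, toR (v j) ∈ Q := by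
    intro j
    have h1 : toR (v j) ∈ ρ := (hv2 _).2 ⟨j, rfl⟩
    obtain ⟨_, h2, _⟩ := (hK.2.1 ρ).1 hρ.1
    exact (h2 _ h1).1
  have hxρ : x ∈ convexHull ℝ (ρ : Set (Fin d → ℝ)) :=
    convexHull_mono (by exact_mod_cast hτρ) hxτ
  rw [Finset.mem_convexHull'] at hxρ
  obtain ⟨w, hw0, hw1, hwx⟩ := hxρ
  have hinj : Function.Injective fun j => toR (v j) := fun a b hab => hv1 (toR_injective hab)
  have hρi : ρ = univ.image fun j => toR (v j) := by
    ext y
    rw [hv2, mem_image]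
    constructor
    · rintro ⟨j, rfl⟩; exact ⟨j, mem_univ _, rfl⟩
    · rintro ⟨j, _, rfl⟩; exact ⟨j, rfl⟩
  rw [hρi, sum_image (fun a _ b _ hab => hinj hab)] at hw1 hwx
  have hw0' : ∀ j, 0 ≤ w (toR (v j)) := fun j => hw0 _ ((hv2 _).2 ⟨j, rfl⟩)
  have hint : ∀ j, ∃ n : ℕ, (k : ℝ) * w (toR (v j)) = n := by
    intro j0
    obtain ⟨a, c, hac⟩ := dual_of_det v hv3 (fun j => if j = j0 then 1 else 0)
    have h1 : (k : ℝ) * w (toR (v j0)) = ((∑ i, a i * z i + k * c : ℤ) : ℝ) := by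
      have h2 : ∀ j, (∑ i, (a i : ℝ) * (v j i : ℝ) + (c : ℝ)) = if j = j0 then 1 else 0 := by
        intro j
        have := hac j
        have h3 := congrArg (fun t : ℤ => (t : ℝ)) this
        push_cast at h3
        rw [h3]
      have h4 : ∀ i, (z i : ℝ) = k * ∑ j, w (toR (v j)) * (v j i : ℝ) := by
        intro i
        have h5 := congrFun hz i
        have h6 := congrFun hwx i
        simp only [Finset.sum_apply, Pi.smul_apply, smul_eq_mul, toR] at h5 h6
        rw [h5, ← h6]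
      push_cast
      simp only [h4]
      have h7 : (k : ℝ) * w (toR (v j0)) =
          k * ∑ j, w (toR (v j)) * (∑ i, (a i : ℝ) * (v j i : ℝ) + (c : ℝ)) := by
        simp only [h2]
        simp
      rw [h7]
      simp only [mul_add, sum_add_distrib, ← sum_mul, hw1, mul_sum]
      rw [sum_comm]
      congr 1
      · refine sum_congr rfl fun i _ => sum_congr rfl fun j _ => by ring
      · ring
    have h8 : (0 : ℝ) ≤ ((∑ i, a i * z i + k * c : ℤ) : ℝ) := by
      rw [← h1]; exact mul_nonneg (Nat.cast_nonneg _) (hw0' _)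
    have h9 : 0 ≤ (∑ i, a i * z i + k * c : ℤ) := by exact_mod_cast h8
    obtain ⟨n, hn⟩ := Int.eq_ofNat_of_zero_le h9
    refine ⟨n, ?_⟩
    rw [h1, hn]
    simp
  choose n hn using hint
  refine of_multiset (∑ j, Multiset.replicate (n j) (v j)) ?_ ?_ ?_
  · rw [Multiset.card_sum]
    simp only [Multiset.card_replicate]
    have : ((∑ j, n j : ℕ) : ℝ) = k := by
      push_cast
      simp only [← hn]
      rw [← mul_sum, hw1, mul_one]
    exact_mod_cast this
  · have h1 : (∑ j, Multiset.replicate (n j) (v j)).sum = ∑ j, n j • v j := by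
      rw [← Multiset.coe_sumAddMonoidHom, map_sum]
      simp
    rw [h1]
    funext i
    have h5 := congrFun hz i
    have h6 := congrFun hwx i
    simp only [Finset.sum_apply, Pi.smul_apply, smul_eq_mul, toR] at h5 h6
    have h7 : ((∑ j, (n j : ℤ) * v j i : ℤ) : ℝ) = (z i : ℝ) := by
      rw [h5, ← h6, mul_sum]
      push_cast
      refine sum_congr rfl fun j _ => ?_
      have h8 := hn j
      have h9 : (toR (v j)) = (fun i => (v j i : ℝ)) := rfl
      simp only [h9] at h8 ⊢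
      rw [← h8]
      ring
    have h8 : ∑ j, (n j : ℤ) * v j i = z i := by exact_mod_cast h7
    rw [← h8, Finset.sum_apply]
    simp
  · intro y hy
    rw [Multiset.mem_sum] at hy
    obtain ⟨j, _, hj⟩ := hy
    rw [Multiset.eq_of_mem_replicate hj]
    exact hvQ j

end Pool.Agent.Helper517.IDPB
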