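import Pool.Agent.Helper517.IDP1

/-!
Splitting lattice points of Minkowski sums of polygons with a common smooth normal fan.
-/

namespace Pool.Agent.Helper517.IDPB

open Finset Geometry Pool.Agent.Helper517.Place Pool.Agent.Helper517.Conv
open Pool.Agent.Helper517.Frame
open Pool.Agent.Helper517.Smooth Pool.Agent.Helper517.Walk Pool.Agent.Helper517.Extract
open Pool.Agent.Helper517.Sect Pool.Agent.Helper517.Glue Pool.Agent.Helper517.Bundle
open Pool.Agent.Helper517 Pool.Agent.Helper517.Step Pool.Agent.Helper517.Grow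
open Pool.Agent.Helper489.RUT (ev)

variable {ι : Type*}

/-- The vertices of the standard simplex. -/
def bv {N0 : ℕ} (e : ι ≃ Fin (N0 + 1)) (y : ι) : Fin N0 → ℤ :=
  fun i => if e y = i.succ then 1 else 0

lemma star {N0 : ℕ} (e : ι ≃ Fin (N0 + 1)) {R : Type*} [CommRing R] (g : ι → R) (y : ι) :
    ∑ l, (g (e.symm (Fin.succ l)) - g (e.symm 0)) * ((bv e y l : ℤ) : R) + g (e.symm 0) = g y := by
  obtain ⟨j, rfl⟩ : ∃ j, y = e.symm j := ⟨e y, by simp⟩
  simp only [bv, Equiv.apply_symm_apply]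
  refine Fin.cases ?_ (fun l => ?_) j
  · rw [sum_eq_zero, zero_add]
    intro l _
    rw [if_neg (Fin.succ_ne_zero l).symm]
    simp
  · rw [sum_eq_single l]
    · simp
    · intro b _ hb
      rw [if_neg (fun hc => hb (Fin.succ_injective _ hc).symm)]
      simp
    · intro hc; exact absurd (mem_univ _) hc

lemma bv_inj {N0 : ℕ} (e : ι ≃ Fin (N0 + 1)) : Function.Injective (bv e) := by
  intro y y' h
  have h1 := star e (fun z => ((e z : ℕ) : ℤ)) y
  have h2 := star e (fun z => ((e z : ℕ) : ℤ)) y'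
  rw [h] at h1
  have h3 : ((e y : ℕ) : ℤ) = ((e y' : ℕ) : ℤ) := h1.symm.trans h2
  exact e.injective (Fin.ext (by exact_mod_cast h3))

lemma exists_bv {N0 : ℕ} (e : ι ≃ Fin (N0 + 1)) {x : Fin N0 → ℤ} (h0 : ∀ l, 0 ≤ x l)
    (h1 : ∑ l, x l ≤ 1) : ∃ y, bv e y = x := by
  by_cases hx : ∃ l, x l ≠ 0
  · obtain ⟨l, hl⟩ := hx
    refine ⟨e.symm l.succ, ?_⟩
    have h2 : ∑ i, x i = x l + ∑ i ∈ univ.erase l, x i := (add_sum_erase _ _ (mem_univ l)).symm
    have h3 : 0 ≤ ∑ i ∈ univ.erase l, x i := sum_nonneg fun i _ => h0 i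
    have h4 := h0 l
    have h5 : x l = 1 := by omega
    have h6 : ∑ i ∈ univ.erase l, x i = 0 := by omega
    have h7 := (sum_eq_zero_iff_of_nonneg (fun i _ => h0 i)).1 h6
    funext i
    simp only [bv, Equiv.apply_symm_apply]
    by_cases hi : i = l
    · subst hi; rw [if_pos rfl, h5]
    · rw [if_neg (fun hc => hi (Fin.succ_injective _ hc).symm),
        h7 i (mem_erase.2 ⟨hi, mem_univ _⟩)]
  · push Not at hx
    refine ⟨e.symm 0, ?_⟩
    funext i
    simp only [bv, Equiv.apply_symm_apply]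
    rw [if_neg (Fin.succ_ne_zero i).symm, hx i]

lemma sum_bv {N0 k : ℕ} (e : ι ≃ Fin (N0 + 1)) {y y' : Fin k → ι}
    (h : ∑ i, bv e (y i) = ∑ i, bv e (y' i)) (g : ι → ℤ) : ∑ i, g (y i) = ∑ i, g (y' i) := by
  have key : ∀ y : Fin k → ι, ∑ i, g (y i) = ∑ l, (g (e.symm (Fin.succ l)) - g (e.symm 0)) *
      (∑ i, bv e (y i)) l + k * g (e.symm 0) := by
    intro y
    have h1 : ∀ i, g (y i) = ∑ l, (g (e.symm (Fin.succ l)) - g (e.symm 0)) * bv e (y i) l +
        g (e.symm 0) := fun i => by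
      have := star e g (y i)
      simpa using this.symm
    simp only [h1]
    rw [sum_add_distrib, sum_comm]
    simp only [Finset.sum_apply, mul_sum, sum_const, card_univ, Fintype.card_fin, nsmul_eq_mul]
  rw [key, key, h]

theorem split [Fintype ι] [Nonempty ι] [DecidableEq ι] {n N N' : ℕ} {F : Fan n}
    {a : ι → ZMod n → ℤ} {B : Finset (Pt ι)} (hT : TwoChain F N N')
    (hAmp : ∀ j, Amp F N N' (a j)) (hG : Good B) (hB : F.Conf a B)
    (hfull : ∀ j, ∀ β γ c : ℝ, (∀ m, β * F.ux (a j) m + γ * F.uy (a j) m = c) →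
      β = 0 ∧ γ = 0)
    {k : ℕ} (hk : 1 ≤ k) (y : Fin k → ι) {X Y : ℤ}
    (hXY : ∀ m, F.p m * X + F.q m * Y ≤ ∑ i, a (y i) m) :
    ∃ ζ : Fin k → Pt ι, (∀ i m, F.p m * (ζ i).2.1 + F.q m * (ζ i).2.2 ≤ a (ζ i).1 m) ∧
      ∑ i, (ζ i).2 = (X, Y) ∧ ∀ g : ι → ℤ, ∑ i, g (ζ i).1 = ∑ i, g (y i) := by
  classical
  obtain ⟨N0, hN0⟩ : ∃ N0, Fintype.card ι = N0 + 1 :=
    Nat.exists_eq_succ_of_ne_zero Fintype.card_ne_zero
  set e : ι ≃ Fin (N0 + 1) := Fintype.equivFinOfCardEq hN0 with he
  set ψ : Pt ι → (Fin (N0 + 2) → ℤ) := fun z => join (bv e z.1) z.2 with hψ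
  have hψinj : Function.Injective ψ := by
    intro z z' hzz
    have h2 := congrArg baseZ hzz
    have h3 := congrArg vp hzz
    simp only [hψ, baseZ_join, vp_join] at h2 h3
    exact Prod.ext (bv_inj e h2) h3
  set C : Set (Fin (N0 + 2) → ℝ) := convexHull ℝ ((fun z => toR (ψ z)) '' (B : Set (Pt ι)))
    with hC
  have hCconv : Convex ℝ C := convex_convexHull ℝ _
  have hmin : ∀ φ : (Fin (N0 + 2) → ℝ) × ℝ, (∀ z ∈ B, ev φ (toR (ψ z)) ≤ 0) →
      ∀ x ∈ C, ev φ x ≤ 0 := by
    intro φ hφ x hx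
    have hcv : Convex ℝ {x : Fin (N0 + 2) → ℝ | ev φ x ≤ 0} := by
      intro x hx y hy s t hs ht hst
      have h1 : ev φ (s • x + t • y) = s * ev φ x + t * ev φ y := by
        simp only [ev, Pi.add_apply, Pi.smul_apply, smul_eq_mul, mul_add, sum_add_distrib]
        have e1 : ∑ i, φ.1 i * (s * x i) = s * ∑ i, φ.1 i * x i := by
          rw [mul_sum]; exact sum_congr rfl fun i _ => by ring
        have e2 : ∑ i, φ.1 i * (t * y i) = t * ∑ i, φ.1 i * y i := by
          rw [mul_sum]; exact sum_congr rfl fun i _ => by ring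
        rw [e1, e2]
        linear_combination (-φ.2) * hst
      show ev φ (s • x + t • y) ≤ 0
      rw [h1]
      have h2 : ev φ x ≤ 0 := hx
      have h3 : ev φ y ≤ 0 := hy
      nlinarith
    refine convexHull_min ?_ hcv hx
    rintro _ ⟨z, hz, rfl⟩
    exact hφ z hz
  -- functionals
  have hfun : ∀ (g : ι → ℝ) (β γ : ℝ) (z : Pt ι),
      ev ((Fin.append (fun l : Fin N0 => g (e.symm (Fin.succ l)) - g (e.symm 0)) ![β, γ] :
        Fin (N0 + 2) → ℝ), g (e.symm 0)) (toR (ψ z)) = g z.1 + β * z.2.1 + γ * z.2.2 := by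
    intro g β γ z
    simp only [hψ]
    rw [sum_join]
    simp only [Fin.append_left, Fin.append_right, Matrix.cons_val_zero, Matrix.cons_val_one]
    have := star e g z.1
    have h2 : ev ((fun i => g (e.symm (Fin.succ i)) - g (e.symm 0)), g (e.symm 0))
        (toR (bv e z.1)) = g z.1 := by
      rw [← this]
      rfl
    rw [h2]
  have hlat : ∀ x : Fin (N0 + 2) → ℤ, toR x ∈ C → ∃ z, ψ z = x := by
    intro x hx
    have h0 : ∀ l : Fin N0, 0 ≤ baseZ x l := by
      intro l
      have h1 := hmin (fun i => if i = Fin.castAdd 2 l then -1 else 0, 0) (by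
        intro z _
        simp only [ev, toR, add_zero]
        rw [sum_eq_single (Fin.castAdd 2 l)]
        · rw [if_pos rfl]
          have h2 : ψ z (Fin.castAdd 2 l) = bv e z.1 l := congrFun (baseZ_join _ _) l
          rw [h2]
          simp only [bv]
          split_ifs <;> simp
        · intro b _ hb
          rw [if_neg hb, zero_mul]
        · intro hc; exact absurd (mem_univ _) hc) _ hx
      simp only [ev, toR, add_zero] at h1
      rw [sum_eq_single (Fin.castAdd 2 l)] at h1
      · rw [if_pos rfl] at h1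
        have h2 : (0 : ℝ) ≤ (x (Fin.castAdd 2 l) : ℝ) := by linarith
        show 0 ≤ x (Fin.castAdd 2 l)
        exact_mod_cast h2
      · intro b _ hb
        rw [if_neg hb, zero_mul]
      · intro hc; exact absurd (mem_univ _) hc
    have h1 : ∑ l, baseZ x l ≤ 1 := by
      have hs : ∀ x : Fin (N0 + 2) → ℤ,
          ev ((Fin.append (fun _ : Fin N0 => (1 : ℝ)) ![0, 0] : Fin (N0 + 2) → ℝ), -1) (toR x) =
          ((∑ l, baseZ x l : ℤ) : ℝ) - 1 := by
        intro x
        simp only [ev]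
        rw [Fin.sum_univ_add, Fin.sum_univ_two]
        simp only [Fin.append_left, Fin.append_right, Matrix.cons_val_zero, Matrix.cons_val_one]
        push_cast
        simp [baseZ, toR, sub_eq_add_neg]
      have h2 := hmin ((Fin.append (fun _ : Fin N0 => (1 : ℝ)) ![0, 0]), -1) (by
        intro z _
        rw [hs]
        have h3 : baseZ (ψ z) = bv e z.1 := baseZ_join _ _
        rw [h3]
        have h4 : ∑ l, bv e z.1 l ≤ 1 := by
          have h5 := star e (fun u => if u = e.symm 0 then (0 : ℤ) else 1) z.1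
          simp only [if_true, sub_zero, add_zero] at h5
          have h6 : ∀ l : Fin N0, (if e.symm (Fin.succ l) = e.symm 0 then (0 : ℤ) else 1) = 1 := by
            intro l
            rw [if_neg (fun hc => Fin.succ_ne_zero l (e.symm.injective hc))]
          simp only [h6, one_mul] at h5
          have h7 : ∑ l, bv e z.1 l = if z.1 = e.symm 0 then (0 : ℤ) else 1 := by
            rw [← h5]; simp
          rw [h7]
          split_ifs <;> norm_num
        have h5 : ((∑ l, bv e z.1 l : ℤ) : ℝ) ≤ 1 := by exact_mod_cast h4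
        linarith) _ hx
      rw [hs] at h2
      have h3 : ((∑ l, baseZ x l : ℤ) : ℝ) ≤ 1 := by linarith
      exact_mod_cast h3
    obtain ⟨y, hy⟩ := exists_bv e h0 h1
    refine ⟨(y, vp x), ?_⟩
    simp only [hψ]
    rw [hy, join_eta]
  obtain ⟨ω, hω⟩ := hG
  obtain ⟨K, h, hK⟩ : ∃ (K : SimplicialComplex ℝ (Fin (N0 + 2) → ℝ))
      (h : (Fin (N0 + 2) → ℝ) → ℝ), RutData C K h := by
    refine exists_rut0 C ψ hψinj B ω ?_ rfl hlat ?_
    · rintro σ hσB hσne ⟨φ, h1, h2⟩ v hv
      obtain ⟨l, ⟨α, β, γ, hl⟩, hl1, hl2⟩ := hω σ ⟨hσB, fun z => ev φ (toR (ψ z)),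
        ⟨fun y => ev ((fun i => φ.1 (Fin.castAdd 2 i)), φ.2) (toR (bv e y)),
          φ.1 (Fin.natAdd N0 0), φ.1 (Fin.natAdd N0 1), fun z => by
            simp only [hψ]; rw [sum_join]⟩, h1, h2⟩ v hv
      have key : ∀ z : Pt ι, ∑ i, (Fin.append
          (fun l : Fin N0 => α (e.symm (Fin.succ l)) - α (e.symm 0)) ![β, γ] :
          Fin (N0 + 2) → ℤ) i * ψ z i + α (e.symm 0) = l z := by
        intro z
        simp only [hψ]
        rw [sum_joinZ, hl]
        have := star e α z.1
        simp only [Int.cast_id] at this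
        rw [this]
      exact ⟨_, _, (key v).trans hl1, fun z hz hzv => (key z).trans (hl2 z hz hzv)⟩
    · intro φ hφ
      have hφ' : ∀ z ∈ B, ev ((fun i => φ.1 (Fin.castAdd 2 i)), φ.2) (toR (bv e z.1)) +
          φ.1 (Fin.natAdd N0 0) * z.2.1 + φ.1 (Fin.natAdd N0 1) * z.2.2 = 0 := by
        intro z hz
        rw [← sum_join]
        exact hφ z hz
      obtain ⟨j0⟩ := ‹Nonempty ι›
      have hβγ := hfull j0 (φ.1 (Fin.natAdd N0 0)) (φ.1 (Fin.natAdd N0 1))
        (-ev ((fun i => φ.1 (Fin.castAdd 2 i)), φ.2) (toR (bv e j0))) (fun m => by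
          have := hφ' _ (hB.2 j0 m)
          simp only at this
          linarith)
      have hlev : ∀ j, ev ((fun i => φ.1 (Fin.castAdd 2 i)), φ.2) (toR (bv e j)) = 0 := by
        intro j
        have := hφ' _ (hB.2 j 0)
        rw [hβγ.1, hβγ.2] at this
        simpa using this
      have h0 : φ.2 = 0 := by
        have := hlev (e.symm 0)
        simp only [ev, toR, bv, Equiv.apply_symm_apply] at this
        rw [sum_eq_zero, zero_add] at this
        · exact this
        · intro l _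
          rw [if_neg (Fin.succ_ne_zero l).symm]
          simp
      have hl : ∀ l : Fin N0, φ.1 (Fin.castAdd 2 l) = 0 := by
        intro l
        have := hlev (e.symm l.succ)
        simp only [ev, toR, bv, Equiv.apply_symm_apply, h0, add_zero] at this
        rw [sum_eq_single l] at this
        · simpa using this
        · intro b _ hb
          rw [if_neg (fun hc => hb (Fin.succ_injective _ hc).symm)]
          simp
        · intro hc; exact absurd (mem_univ _) hc
      refine Prod.ext ?_ h0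
      funext i
      refine Fin.addCases (fun i => ?_) (fun i => ?_) i
      · exact hl i
      · fin_cases i
        · exact hβγ.1
        · exact hβγ.2
  have hfinC : {x : Fin (N0 + 2) → ℤ | toR x ∈ C}.Finite := by
    have h1 : C = convexHull ℝ (toR '' (ψ '' (B : Set (Pt ι)))) := by
      rw [hC, Set.image_image]
    rw [h1]
    exact finite_lattice ((B.finite_toSet).image _)
  have hidp := rut_idp hfinC hK
  -- the point
  have hk0 : (k : ℝ) ≠ 0 := by
    have : 0 < k := hk
    positivity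
  have : Nonempty (Fin k) := ⟨⟨0, hk⟩⟩
  set Z : Fin (N0 + 2) → ℤ := join (∑ i, bv e (y i)) (X, Y) with hZ
  have hZmem : (k : ℝ)⁻¹ • toR Z ∈ C := by
    have h1 := Hull.hull hT (amp_sum (s := (univ : Finset (Fin k))) univ_nonempty
      (fun i => hAmp (y i))) (x := X) (y := Y) hXY
    have h2 : (k : ℝ)⁻¹ • toR Z = (k : ℝ)⁻¹ • toR (join (∑ i, bv e (y i)) 0) +
        (X : ℝ) • ((k : ℝ)⁻¹ • toR (join 0 (1, 0))) +
        (Y : ℝ) • ((k : ℝ)⁻¹ • toR (join 0 (0, 1))) := by
      funext i
      simp only [Pi.add_apply, Pi.smul_apply, smul_eq_mul, toR, hZ, join]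
      refine Fin.addCases (fun i => ?_) (fun i => ?_) i
      · simp only [Fin.append_left]
        simp
      · simp only [Fin.append_right]
        fin_cases i
        · simp
          ring
        · simp
          ring
    rw [h2]
    refine Assemble.affine_mem (p := ((X : ℝ), (Y : ℝ))) hCconv ?_ h1
    rintro _ ⟨m, rfl⟩
    have h3 : (k : ℝ)⁻¹ • toR (join (∑ i, bv e (y i)) 0) +
        ((F.ux (fun i => ∑ j, a (y j) i) m : ℤ) : ℝ) • ((k : ℝ)⁻¹ • toR (join 0 (1, 0))) +
        ((F.uy (fun i => ∑ j, a (y j) i) m : ℤ) : ℝ) • ((k : ℝ)⁻¹ • toR (join 0 (0, 1))) =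
        ∑ j : Fin k, (k : ℝ)⁻¹ • toR (ψ (y j, F.ux (a (y j)) m, F.uy (a (y j)) m)) := by
      rw [ux_sum F univ (fun j => a (y j)), uy_sum F univ (fun j => a (y j))]
      funext i
      simp only [Pi.add_apply, Pi.smul_apply, smul_eq_mul, toR, hψ, join, Finset.sum_apply]
      refine Fin.addCases (fun i => ?_) (fun i => ?_) i
      · simp only [Fin.append_left]
        simp [Finset.sum_apply, mul_sum]
      · simp only [Fin.append_right]
        fin_cases i
        · simp [sum_mul]
          exact sum_congr rfl fun j _ => by ring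
        · simp [sum_mul]
          exact sum_congr rfl fun j _ => by ring
    show _ ∈ C
    rw [h3]
    refine hCconv.sum_mem (fun _ _ => by positivity) ?_ (fun j _ => ?_)
    · simp [hk0]
    · exact subset_convexHull ℝ _ ⟨_, hB.2 (y j) m, rfl⟩
  obtain ⟨f, hf1, hf2⟩ := hidp k hk Z ⟨_, hZmem, by rw [smul_smul, mul_inv_cancel₀ hk0, one_smul]⟩
  choose ζ hζ using fun i => hlat (f i) (hf1 i)
  have hbase : ∑ i, bv e (ζ i).1 = ∑ i, bv e (y i) := by
    have h1 : ∀ i, bv e (ζ i).1 = baseZ (f i) := by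
      intro i
      rw [← hζ i]
      exact (baseZ_join _ _).symm
    have h2 : baseZ (∑ i, f i) = ∑ i, baseZ (f i) := by
      funext l
      simp [baseZ, Finset.sum_apply]
    simp only [h1]
    rw [← h2, hf2, hZ, baseZ_join]
  refine ⟨ζ, ?_, ?_, fun g => sum_bv e hbase g⟩
  · intro i m
    have h1 := hmin (Fin.append (fun l : Fin N0 => -((a (e.symm (Fin.succ l)) m : ℤ) : ℝ) -
      -((a (e.symm 0) m : ℤ) : ℝ)) ![((F.p m : ℤ) : ℝ), ((F.q m : ℤ) : ℝ)],
      -((a (e.symm 0) m : ℤ) : ℝ)) (by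
        intro z hz
        have h2 := hfun (fun y => -((a y m : ℤ) : ℝ)) (F.p m) (F.q m) z
        rw [h2]
        have h3 := hB.1 z hz m
        have h4 : ((F.p m * z.2.1 + F.q m * z.2.2 : ℤ) : ℝ) ≤ ((a z.1 m : ℤ) : ℝ) := by
          exact_mod_cast h3
        push_cast at h4
        linarith) _ (hf1 i)
    have h2 := hfun (fun y => -((a y m : ℤ) : ℝ)) (F.p m) (F.q m) (ζ i)
    rw [← hζ i, h2] at h1
    have h3 : ((F.p m * (ζ i).2.1 + F.q m * (ζ i).2.2 : ℤ) : ℝ) ≤ ((a (ζ i).1 m : ℤ) : ℝ) := by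
      push_cast
      linarith
    exact_mod_cast h3
  · have h1 : ∀ i, (ζ i).2 = vp (f i) := by
      intro i
      rw [← hζ i]
      exact (vp_join _ _).symm
    have h2 : vp (∑ i, f i) = ∑ i, vp (f i) := by
      simp only [vp]
      ext
      · simp [Prod.fst_sum, Finset.sum_apply]
      · simp [Prod.snd_sum, Finset.sum_apply]
    simp only [h1]
    rw [← h2, hf2, hZ, vp_join]

end Pool.Agent.Helper517.IDPB
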