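import Pool.Agent.Helper517.IDP2

/-!
The integer decomposition property passes from the base to a polygon bundle.
-/

namespace Pool.Agent.Helper517.IDPB

open Finset Geometry Pool.Agent.Helper517.Place Pool.Agent.Helper517.Conv
open Pool.Agent.Helper517.Frame
open Pool.Agent.Helper517.Smooth Pool.Agent.Helper517.Walk Pool.Agent.Helper517.Extract
open Pool.Agent.Helper517.Sect Pool.Agent.Helper517.Glue Pool.Agent.Helper517.Bundle
open Pool.Agent.Helper517 Pool.Agent.Helper517.Step Pool.Agent.Helper517.Grow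
open Pool.Agent.Helper489.RUT (ev)

variable {m : ℕ}

lemma ev_comb {d : ℕ} (φ : (Fin d → ℝ) × ℝ) (x y : Fin d → ℝ) {s t : ℝ} (hst : s + t = 1) :
    ev φ (s • x + t • y) = s * ev φ x + t * ev φ y := by
  simp only [ev, Pi.add_apply, Pi.smul_apply, smul_eq_mul, mul_add, sum_add_distrib]
  have e1 : ∑ i, φ.1 i * (s * x i) = s * ∑ i, φ.1 i * x i := by
    rw [mul_sum]; exact sum_congr rfl fun i _ => by ring
  have e2 : ∑ i, φ.1 i * (t * y i) = t * ∑ i, φ.1 i * y i := by
    rw [mul_sum]; exact sum_congr rfl fun i _ => by ring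
  rw [e1, e2]
  linear_combination (-φ.2) * hst

lemma ev_le {d : ℕ} (φ : (Fin d → ℝ) × ℝ) {T : Set (Fin d → ℝ)} (h : ∀ x ∈ T, ev φ x ≤ 0)
    {x : Fin d → ℝ} (hx : x ∈ convexHull ℝ T) : ev φ x ≤ 0 := by
  have hcv : Convex ℝ {x : Fin d → ℝ | ev φ x ≤ 0} := by
    intro x hx y hy s t hs ht hst
    show ev φ (s • x + t • y) ≤ 0
    rw [ev_comb φ x y hst]
    have h2 : ev φ x ≤ 0 := hx
    have h3 : ev φ y ≤ 0 := hy
    nlinarith
  exact convexHull_min h hcv hx

theorem bundle_idp {P : Set (Fin (m + 2) → ℝ)} {S : Set (Fin (m + 2) → ℤ)} (hS : S.Finite)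
    (hP : P = convexHull ℝ (toR '' S)) (hne : P.Nonempty)
    (hVD : ∀ v, toR v ∈ P.extremePoints ℝ → ∃ u D, VD P v u D)
    (hI : IDP (base '' P)) : IDP P := by
  classical
  have hcomp : IsCompact P := by rw [hP]; exact (hS.image _).isCompact_convexHull (𝕜 := ℝ)
  have hconv : Convex ℝ P := by rw [hP]; exact convex_convexHull ℝ _
  let bl : (Fin (m + 2) → ℝ) →ₗ[ℝ] (Fin m → ℝ) :=
    { toFun := base, map_add' := base_add, map_smul' := base_smul }
  have hQeq : base '' P = convexHull ℝ (toR '' (baseZ '' S)) := by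
    have h1 : base '' P = bl '' convexHull ℝ (toR '' S) := by rw [hP]; rfl
    rw [h1, bl.image_convexHull, Set.image_image, Set.image_image]
    rfl
  have hBc : IsCompact (base '' P) := hcomp.image VD.continuous_base
  have hlevfin : {y : Fin m → ℤ | toR y ∈ base '' P}.Finite := by
    rw [hQeq]; exact finite_lattice (hS.image _)
  have : Finite (Lev P) := hlevfin.to_subtype
  have : Fintype (Lev P) := Fintype.ofFinite _
  -- a special level
  obtain ⟨j0, hj0⟩ : ∃ j0 : Lev P, toR j0.1 ∈ (base '' P).extremePoints ℝ := by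
    obtain ⟨x, hx⟩ := hBc.extremePoints_nonempty (hne.image _)
    have h1 : x ∈ toR '' (baseZ '' S) := by
      rw [hQeq] at hx
      exact extremePoints_convexHull_subset hx
    obtain ⟨y, _, rfl⟩ := h1
    exact ⟨⟨y, hx.1⟩, hx⟩
  -- a common corner
  obtain ⟨v0, hv0⟩ : ∃ v : Fin (m + 2) → ℤ, toR v ∈ P.extremePoints ℝ := by
    obtain ⟨y, hy⟩ := hcomp.extremePoints_nonempty hne
    have h1 : y ∈ toR '' S := by
      rw [hP] at hy
      exact extremePoints_convexHull_subset hy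
    obtain ⟨s, _, rfl⟩ := h1
    exact ⟨s, hy⟩
  obtain ⟨u0, D0, hVD0⟩ := hVD v0 hv0
  obtain ⟨w1, w1', c1, hC1, hR1, _⟩ := corner_of_VD hS hP hVD hVD0
  have hfin : (conf P).Finite := by
    have h1 : {x : Fin (m + 2) → ℤ | toR x ∈ P}.Finite := by
      rw [hP]; exact finite_lattice hS
    refine h1.preimage (f := fun z : Pt (Lev P) => join z.1.1 z.2) ?_
    intro z _ z' _ hzz
    have h2 := congrArg baseZ hzz
    have h3 := congrArg vp hzz
    simp only [baseZ_join, vp_join] at h2 h3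
    exact Prod.ext (Subtype.ext h2) h3
  obtain ⟨w, w', n, F, N, N', a, B, hdet, hT, hAmp, ⟨hE1, hE2⟩, hRR, hG, hB⟩ :=
    exists_config' hfin (hcat hS hP hVD j0 hj0) ⟨w1, w1', c1, hC1, hR1⟩
  set ψ : Pt (Lev P) → (Fin (m + 2) → ℤ) :=
    fun z => join z.1.1 (z.2.1 • w + z.2.2 • w') with hψ
  have haff : ∀ i, ∃ α β : (Fin m → ℤ) × ℤ, ∀ y : Lev P, F.ux (a y) i = evZ α y.1 ∧
      F.uy (a y) i = evZ β y.1 := by
    intro i
    obtain ⟨α, β, hαβ⟩ := hRR i
    refine ⟨(w'.2 • α.1 - w'.1 • β.1, w'.2 * α.2 - w'.1 * β.2),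
      (w.1 • β.1 - w.2 • α.1, w.1 * β.2 - w.2 * α.2), fun y => ?_⟩
    have e := hαβ y
    simp only at e
    have e1 := congrArg (fun q => dt q w') e
    have e2 := congrArg (fun q => dt w q) e
    simp only [dt_add_left, dt_add_right, dt_smul_left, dt_smul_right, dt_self, hdet, mul_zero,
      mul_one, add_zero, zero_add] at e1 e2
    rw [e1, e2]
    simp only [dt, evZ, sub_dotProduct, smul_dotProduct, smul_eq_mul]
    constructor <;> ring
  have htoR : ∀ z : Pt (Lev P), toR (ψ z) =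
      toR (join z.1.1 0) + (z.2.1 : ℝ) • toR (join 0 w) + (z.2.2 : ℝ) • toR (join 0 w') := by
    intro z
    rw [← toR_smul, ← toR_smul, ← toR_add, ← toR_add]
    congr 1
    apply join_ext
    · simp only [hψ]
      rw [baseZ_join]
      funext i
      have h1 := congrFun (baseZ_join z.1.1 (0 : ℤ × ℤ)) i
      have h2 := congrFun (baseZ_join (0 : Fin m → ℤ) w) i
      have h3 := congrFun (baseZ_join (0 : Fin m → ℤ) w') i
      simp only [baseZ, Pi.add_apply, Pi.smul_apply, smul_eq_mul, Pi.zero_apply] at h1 h2 h3 ⊢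
      rw [h1, h2, h3]
      ring
    · simp only [hψ]
      rw [vp_join, vp_add, vp_add, vp_smul, vp_smul, vp_join, vp_join, vp_join, zero_add]
  have hcorner : ∀ l : Lev P, ∀ x y : ℤ,
      (∀ i, F.p i * x + F.q i * y ≤ a l i) → toR (ψ (l, x, y)) ∈ P := by
    intro l x y hxy
    have h1 := Hull.hull hT (hAmp l) hxy
    rw [htoR]
    refine Assemble.affine_mem (C := toR (join l.1 0)) (A := toR (join 0 w))
      (B := toR (join 0 w')) hconv ?_ h1
    rintro _ ⟨i, rfl⟩
    have : toR (ψ (l, F.ux (a l) i, F.uy (a l) i)) ∈ P := hE2 l i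
    rw [htoR] at this
    exact this
  -- full dimension of the fibres
  have hfull : ∀ j, ∀ β γ c : ℝ, (∀ m, β * F.ux (a j) m + γ * F.uy (a j) m = c) →
      β = 0 ∧ γ = 0 := by
    intro j β γ c hc
    have key : ∀ q : ℤ × ℤ, (j, q) ∈ conf P → β * (dt q w' : ℤ) + γ * (dt w q : ℤ) = c := by
      intro q hq
      have h1 := Hull.hull hT (hAmp j) (fun i => hE1 j q hq i)
      have hcv : Convex ℝ {p : ℝ × ℝ | β * p.1 + γ * p.2 = c} := by
        intro p hp q hq s t _ _ hst
        have hp' : β * p.1 + γ * p.2 = c := hp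
        have hq' : β * q.1 + γ * q.2 = c := hq
        show β * (s • p + t • q).1 + γ * (s • p + t • q).2 = c
        simp only [Prod.fst_add, Prod.snd_add, Prod.smul_fst, Prod.smul_snd, smul_eq_mul]
        linear_combination s * hp' + t * hq' + c * hst
      refine convexHull_min (s := Set.range fun m : ZMod n => ((F.ux (a j) m : ℝ),
        (F.uy (a j) m : ℝ))) ?_ hcv h1
      rintro _ ⟨i, rfl⟩
      exact hc i
    have k0 := key _ (hC1.mem j)
    have k1 := key _ (hC1.mem_w j)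
    have k2 := key _ (hC1.mem_w' j)
    have hd1 := hC1.det
    have e1 : β * (dt w1 w' : ℤ) + γ * (dt w w1 : ℤ) = 0 := by
      rw [dt_add_left, dt_add_right] at k1
      push_cast at k1
      linarith
    have e2 : β * (dt w1' w' : ℤ) + γ * (dt w w1' : ℤ) = 0 := by
      rw [dt_add_left, dt_add_right] at k2
      push_cast at k2
      linarith
    have e3 : ((dt w1 w' * dt w w1' - dt w w1 * dt w1' w' : ℤ) : ℝ) = 1 := by
      have : dt w1 w' * dt w w1' - dt w w1 * dt w1' w' = dt w w' * dt w1 w1' := by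
        simp only [dt]; ring
      rw [this, hdet, hd1]
      norm_num
    push_cast at e3
    constructor
    · linear_combination (-β) * e3 + (dt w w1' : ℝ) * e1 - (dt w w1 : ℝ) * e2
    · linear_combination (-γ) * e3 + (dt w1 w' : ℝ) * e2 - (dt w1' w' : ℝ) * e1
  rintro k hk z ⟨x, hx, hzx⟩
  have hbz : toR (baseZ z) = (k : ℝ) • base x := by rw [← base_toR, hzx, base_smul]
  obtain ⟨f, hf1, hf2⟩ := hI k hk (baseZ z) ⟨base x, ⟨x, hx, rfl⟩, hbz⟩
  set y : Fin k → Lev P := fun i => ⟨f i, hf1 i⟩ with hy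
  have : Nonempty (Lev P) := ⟨j0⟩
  have hXY : ∀ i, F.p i * dt (vp z) w' + F.q i * dt w (vp z) ≤ ∑ j, a (y j) i := by
    intro i
    obtain ⟨α, β, hαβ⟩ := haff i
    have haγ : ∀ y : Lev P, a y i = evZ (F.p i • α.1 + F.q i • β.1,
        F.p i * α.2 + F.q i * β.2) y.1 := by
      intro y
      rw [← F.at_left (a y) i, (hαβ y).1, (hαβ y).2]
      simp only [evZ, add_dotProduct, smul_dotProduct, smul_eq_mul]
      ring
    set γ : (Fin m → ℤ) × ℤ := (F.p i • α.1 + F.q i • β.1, F.p i * α.2 + F.q i * β.2) with hγ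
    set A : Fin (m + 2) → ℤ := Fin.append (-γ.1) ![F.p i * w'.2 - F.q i * w.2,
      F.q i * w.1 - F.p i * w'.1] with hA
    have hval : ∀ s : Fin (m + 2) → ℤ, ∑ l, A l * s l =
        -(γ.1 ⬝ᵥ baseZ s) + (F.p i * dt (vp s) w' + F.q i * dt w (vp s)) := by
      intro s
      have h1 := sum_joinZ (-γ.1) 0 (F.p i * w'.2 - F.q i * w.2) (F.q i * w.1 - F.p i * w'.1)
        (baseZ s) (vp s)
      rw [join_eta, add_zero, add_zero] at h1
      rw [hA, h1]
      simp only [dt, dotProduct, Pi.neg_apply, neg_mul, sum_neg_distrib]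
      ring
    have h1 : ev ((fun l => (A l : ℝ)), -(γ.2 : ℝ)) x ≤ 0 := by
      rw [hP] at hx
      refine ev_le _ ?_ hx
      rintro _ ⟨s, hs, rfl⟩
      have hsP : toR s ∈ P := by
        rw [hP]; exact subset_convexHull ℝ _ ⟨s, hs, rfl⟩
      have hb : toR (baseZ s) ∈ base '' P := ⟨toR s, hsP, base_toR s⟩
      have h2 := hE1 ⟨baseZ s, hb⟩ (vp s) (by
        show toR (join (baseZ s) (vp s)) ∈ P
        rw [join_eta]; exact hsP) i
      rw [haγ] at h2
      have h3 : ∑ l, A l * s l - γ.2 ≤ 0 := by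
        rw [hval]
        simp only [evZ] at h2
        linarith
      simp only [ev, toR]
      have h4 : ((∑ l, A l * s l - γ.2 : ℤ) : ℝ) ≤ 0 := by exact_mod_cast h3
      push_cast at h4
      linarith
    have h2 : ((∑ l, A l * z l - k * γ.2 : ℤ) : ℝ) ≤ 0 := by
      have h3 : ((∑ l, A l * z l - k * γ.2 : ℤ) : ℝ) = k * ev ((fun l => (A l : ℝ)), -(γ.2 : ℝ)) x := by
        simp only [ev]
        push_cast
        have h4 : ∀ l, (z l : ℝ) = k * x l := fun l => congrFun hzx l
        simp only [h4, mul_add, mul_sum]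
        have h5 : ∑ l, (A l : ℝ) * (k * x l) = ∑ l, k * ((A l : ℝ) * x l) :=
          sum_congr rfl fun l _ => by ring
        rw [h5]
        ring
      rw [h3]
      exact mul_nonpos_of_nonneg_of_nonpos (Nat.cast_nonneg _) h1
    have h3 : ∑ l, A l * z l - k * γ.2 ≤ 0 := by exact_mod_cast h2
    rw [hval] at h3
    have h4 : ∑ j, a (y j) i = γ.1 ⬝ᵥ baseZ z + k * γ.2 := by
      simp only [haγ, evZ, hy]
      rw [sum_add_distrib, ← hf2, dotProduct_sum]
      simp
    rw [h4]
    linarith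
  obtain ⟨ζ, hζ1, hζ2, hζ3⟩ := split hT hAmp hG hB hfull hk y hXY
  refine ⟨fun i => ψ (ζ i), fun i => hcorner _ _ _ (hζ1 i), ?_⟩
  apply join_ext
  · funext l
    have h1 := hζ3 (fun y => y.1 l)
    have h2 := congrFun hf2 l
    simp only [Finset.sum_apply] at h2
    rw [← h2]
    simp only [baseZ, Finset.sum_apply]
    have h3 : ∀ i, ψ (ζ i) (Fin.castAdd 2 l) = (ζ i).1.1 l := fun i =>
      congrFun (baseZ_join (ζ i).1.1 ((ζ i).2.1 • w + (ζ i).2.2 • w')) l
    simp only [h3]
    exact h1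
  · have h1 : vp (∑ i, ψ (ζ i)) = ∑ i, ((ζ i).2.1 • w + (ζ i).2.2 • w') := by
      have h2 : ∀ i, vp (ψ (ζ i)) = (ζ i).2.1 • w + (ζ i).2.2 • w' := fun i => vp_join _ _
      have h3 : vp (∑ i, ψ (ζ i)) = ∑ i, vp (ψ (ζ i)) := by
        simp only [vp]
        ext
        · simp [Prod.fst_sum, Finset.sum_apply]
        · simp [Prod.snd_sum, Finset.sum_apply]
      rw [h3]
      simp only [h2]
    rw [h1, sum_add_distrib, ← sum_smul, ← sum_smul]
    have h2 : ∑ i, (ζ i).2.1 = dt (vp z) w' := by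
      have := congrArg Prod.fst hζ2
      rwa [Prod.fst_sum] at this
    have h3 : ∑ i, (ζ i).2.2 = dt w (vp z) := by
      have := congrArg Prod.snd hζ2
      rwa [Prod.snd_sum] at this
    rw [h2, h3, ← expand hdet]

end Pool.Agent.Helper517.IDPB
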