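import Pool.Agent.Helper517.IDP3

/-!
The integer decomposition property: segment bundles, unimodular maps, the point.
-/

namespace Pool.Agent.Helper517.IDPB

open Finset Geometry Pool.Agent.Helper517.Conv Pool.Agent.Helper517.Frame
open Pool.Agent.Helper517.Smooth Pool.Agent.Helper517.Sect Pool.Agent.Helper517.Bundle
open Pool.Agent.Helper517.Transfer
open Pool.Agent.Helper517
open Pool.Agent.Helper489.RUT (ev)

variable {m : ℕ}

theorem seg_idp {P : Set (Fin (m + 1) → ℝ)} {S : Set (Fin (m + 1) → ℤ)} (hS : S.Finite)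
    (hP : P = convexHull ℝ (toR '' S)) (hne : P.Nonempty)
    (hVD : ∀ v, toR v ∈ P.extremePoints ℝ → ∃ u D, VD P v u D)
    (hI : IDP (base '' P)) : IDP P := by
  classical
  have hbase : ((base (m := m) (r := 2)) '' (prodI P : Set (Fin (m + 2) → ℝ))) = base '' P := by
    ext y
    constructor
    · rintro ⟨x, hx, rfl⟩
      exact ⟨_, hx.1, rfl⟩
    · rintro ⟨x, hx, rfl⟩
      refine ⟨(Fin.snoc x 0 : Fin (m + 2) → ℝ), snoc_mem.2 ⟨hx, le_rfl, zero_le_one⟩, ?_⟩
      funext i
      show (Fin.snoc x (0 : ℝ) : Fin (m + 2) → ℝ) (Fin.castSucc (Fin.castAdd 1 i)) = _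
      rw [Fin.snoc_castSucc]
      rfl
  have hVD' : ∀ v : Fin (m + 2) → ℤ, toR v ∈ (prodI P).extremePoints ℝ →
      ∃ u D : Fin (m + 2) → (Fin (m + 2) → ℤ), VD (r := 2) (prodI P) v u D := by
    intro k hk
    rw [mem_extremePoints] at hk
    obtain ⟨hkm, hext⟩ := hk
    -- decompose
    set v : Fin (m + 1) → ℤ := fun i => k i.castSucc with hv
    set t : ℤ := k (Fin.last (m + 1)) with ht
    have hk' : k = Fin.snoc v t := by
      funext i
      refine Fin.lastCases ?_ (fun i => ?_) i
      · simp [ht]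
      · simp [hv]
    have hvP : toR v ∈ P := hkm.1
    have ht0 : 0 ≤ t := by
      have : (0 : ℝ) ≤ (t : ℝ) := hkm.2.1
      exact_mod_cast this
    have ht1 : t ≤ 1 := by
      have : (t : ℝ) ≤ 1 := hkm.2.2
      exact_mod_cast this
    have hvE : toR v ∈ P.extremePoints ℝ := by
      rw [mem_extremePoints]
      refine ⟨hvP, ?_⟩
      intro x hx y hy hseg
      obtain ⟨a, b, ha, hb, hab, hxy⟩ := hseg
      have h1 : (Fin.snoc x (t : ℝ) : Fin (m + 2) → ℝ) ∈ prodI P :=
        snoc_mem.2 ⟨hx, by exact_mod_cast ht0, by exact_mod_cast ht1⟩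
      have h2 : (Fin.snoc y (t : ℝ) : Fin (m + 2) → ℝ) ∈ prodI P :=
        snoc_mem.2 ⟨hy, by exact_mod_cast ht0, by exact_mod_cast ht1⟩
      have h3 : toR k ∈ openSegment ℝ (Fin.snoc x (t : ℝ) : Fin (m + 2) → ℝ)
          (Fin.snoc y (t : ℝ) : Fin (m + 2) → ℝ) := by
        refine ⟨a, b, ha, hb, hab, ?_⟩
        rw [hk', toR_snoc, ← hxy]
        funext i
        refine Fin.lastCases ?_ (fun i => ?_) i
        · simp only [Pi.add_apply, Pi.smul_apply, Fin.snoc_last, smul_eq_mul]
          rw [← add_mul, hab, one_mul]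
        · simp
      obtain ⟨e1, e2⟩ := hext _ h1 _ h2 h3
      rw [hk', toR_snoc] at e1 e2
      constructor
      · funext i
        have := congrFun e1 i.castSucc
        simpa using this
      · funext i
        have := congrFun e2 i.castSucc
        simpa using this
    obtain ⟨u, D, hu⟩ := hVD v hvE
    set s : ℤ := 1 - 2 * t with hs
    have hss : s * s = 1 := by
      have : t = 0 ∨ t = 1 := by omega
      rcases this with h0 | h0 <;> rw [hs, h0] <;> norm_num
    let u' : Fin (m + 2) → (Fin (m + 2) → ℤ) :=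
      Fin.snoc (fun i : Fin (m + 1) => (Fin.snoc (u i) 0 : Fin (m + 2) → ℤ))
        (Fin.snoc (0 : Fin (m + 1) → ℤ) s : Fin (m + 2) → ℤ)
    let D' : Fin (m + 2) → (Fin (m + 2) → ℤ) :=
      Fin.snoc (fun i : Fin (m + 1) => (Fin.snoc (D i) 0 : Fin (m + 2) → ℤ))
        (Fin.snoc (0 : Fin (m + 1) → ℤ) s : Fin (m + 2) → ℤ)
    have hdot : ∀ (a b : Fin (m + 1) → ℤ) (p q : ℤ),
        (Fin.snoc a p : Fin (m + 2) → ℤ) ⬝ᵥ (Fin.snoc b q : Fin (m + 2) → ℤ) =
          a ⬝ᵥ b + p * q := by
      intro a b p q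
      simp only [dotProduct]
      rw [Fin.sum_univ_castSucc]
      simp only [Fin.snoc_castSucc, Fin.snoc_last]
    have hu'c : ∀ i : Fin (m + 1), u' i.castSucc = Fin.snoc (u i) 0 := fun i => by
      simp only [u', Fin.snoc_castSucc]
    have hu'l : u' (Fin.last (m + 1)) = Fin.snoc 0 s := by
      simp only [u', Fin.snoc_last]
    have hD'c : ∀ i : Fin (m + 1), D' i.castSucc = Fin.snoc (D i) 0 := fun i => by
      simp only [D', Fin.snoc_castSucc]
    have hD'l : D' (Fin.last (m + 1)) = Fin.snoc 0 s := by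
      simp only [D', Fin.snoc_last]
    have hlinc : ∀ (i : Fin (m + 1)) (x : Fin (m + 2) → ℝ),
        linR (D' i.castSucc) x = linR (D i) (fun z => x z.castSucc) := by
      intro i x
      rw [hD'c, linR, Fin.sum_univ_castSucc]
      simp only [Fin.snoc_castSucc, Fin.snoc_last, Int.cast_zero, zero_mul, add_zero]
      rfl
    have hlinl : ∀ x : Fin (m + 2) → ℝ, linR (D' (Fin.last (m + 1))) x =
        (s : ℝ) * x (Fin.last (m + 1)) := by
      intro x
      rw [hD'l, linR, Fin.sum_univ_castSucc]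
      simp
    refine ⟨u', D', ⟨⟨?_, ?_⟩, hkm, ?_, ?_, ?_⟩⟩
    · intro i l
      refine Fin.lastCases ?_ (fun i => ?_) i
      · refine Fin.lastCases ?_ (fun l => ?_) l
        · rw [hD'l, hu'l, hdot, if_pos rfl]
          simp [hss]
        · rw [hD'l, hu'c, hdot, if_neg (Ne.symm (Fin.castSucc_ne_last l))]
          simp
      · refine Fin.lastCases ?_ (fun l => ?_) l
        · rw [hD'c, hu'l, hdot, if_neg (Fin.castSucc_ne_last i)]
          simp
        · rw [hD'c, hu'c, hdot, hu.dual.dual]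
          simp only [Fin.castSucc_inj, mul_zero, add_zero]
    · intro x
      have hx : x = Fin.snoc (fun i : Fin (m + 1) => x i.castSucc) (x (Fin.last (m + 1))) := by
        funext i
        refine Fin.lastCases ?_ (fun i => ?_) i
        · simp
        · simp
      have hD1 : ∀ i : Fin (m + 1), D' i.castSucc ⬝ᵥ x = D i ⬝ᵥ (fun z => x z.castSucc) := by
        intro i
        conv_lhs => rw [hx]
        rw [hD'c, hdot, zero_mul, add_zero]
      have hD2 : D' (Fin.last (m + 1)) ⬝ᵥ x = s * x (Fin.last (m + 1)) := by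
        conv_lhs => rw [hx]
        rw [hD'l, hdot, zero_dotProduct, zero_add]
      rw [Fin.sum_univ_castSucc]
      simp only [hD1, hD2, hu'c, hu'l]
      have h1 := hu.dual.repr (fun z => x z.castSucc)
      funext z
      refine Fin.lastCases ?_ (fun z => ?_) z
      · simp only [Pi.add_apply, Finset.sum_apply, Pi.smul_apply, Fin.snoc_last, smul_eq_mul,
          mul_zero, sum_const_zero, zero_add]
        linear_combination (-(x (Fin.last (m + 1)))) * hss
      · have h2 := congrFun h1 z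
        simp only [Finset.sum_apply, Pi.smul_apply, smul_eq_mul] at h2
        simp only [Pi.add_apply, Finset.sum_apply, Pi.smul_apply, Fin.snoc_castSucc, smul_eq_mul,
          Pi.zero_apply, mul_zero, add_zero]
        exact h2
    · intro i
      refine Fin.lastCases ?_ (fun i => ?_) i
      · have e : k + u' (Fin.last (m + 1)) = Fin.snoc v (t + s) := by
          rw [hu'l, hk']
          funext z
          refine Fin.lastCases ?_ (fun z => ?_) z
          · simp
          · simp
        rw [e, toR_snoc, snoc_mem]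
        refine ⟨hvP, ?_, ?_⟩
        · have : 0 ≤ t + s := by omega
          exact_mod_cast this
        · have : t + s ≤ 1 := by omega
          exact_mod_cast this
      · have e : k + u' i.castSucc = Fin.snoc (v + u i) t := by
          rw [hu'c, hk']
          funext z
          refine Fin.lastCases ?_ (fun z => ?_) z
          · simp
          · simp
        rw [e, toR_snoc, snoc_mem]
        exact ⟨hu.edge i, by exact_mod_cast ht0, by exact_mod_cast ht1⟩
    · intro x hx i
      refine Fin.lastCases ?_ (fun i => ?_) i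
      · rw [hlinl]
        have h1 := hx.2.1
        have h2 := hx.2.2
        show 0 ≤ (s : ℝ) * (x (Fin.last (m + 1)) - (k (Fin.last (m + 1)) : ℝ))
        rw [← ht]
        have : t = 0 ∨ t = 1 := by omega
        rcases this with h0 | h0
        · rw [hs, h0]; push_cast; linarith
        · rw [hs, h0]; push_cast; linarith
      · rw [hlinc]
        exact hu.pos _ hx.1 i
    · intro i z
      fin_cases i
      · show u' (Fin.castSucc (Fin.natAdd m (0 : Fin 1))) (Fin.castSucc (Fin.castAdd 1 z)) = 0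
        rw [hu'c, Fin.snoc_castSucc]
        exact hu.vert 0 z
      · show u' (Fin.last (m + 1)) (Fin.castSucc (Fin.castAdd 1 z)) = 0
        rw [hu'l, Fin.snoc_castSucc]
        rfl
  have hne' : (prodI P).Nonempty := by
    obtain ⟨x, hx⟩ := hne
    exact ⟨Fin.snoc x 0, snoc_mem.2 ⟨hx, le_rfl, zero_le_one⟩⟩
  have hprod : IDP (prodI P : Set (Fin (m + 2) → ℝ)) := bundle_idp
    (P := (prodI P : Set (Fin (m + 2) → ℝ)))
    ((hS.prod (by simp : ({0, 1} : Set ℤ).Finite)).image _) (prodI_hull hP) hne' hVD'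
    (by rw [hbase]; exact hI)
  rintro k hk z ⟨x, hx, hzx⟩
  obtain ⟨f, hf1, hf2⟩ := hprod k hk (Fin.snoc z 0) ⟨Fin.snoc x 0,
    snoc_mem.2 ⟨hx, le_rfl, zero_le_one⟩, by
      rw [toR_snoc, hzx]
      funext i
      refine Fin.lastCases ?_ (fun i => ?_) i
      · simp
      · simp⟩
  refine ⟨fun i z => f i z.castSucc, fun i => (hf1 i).1, ?_⟩
  funext l
  have h1 := congrFun hf2 (Fin.castSucc l)
  rw [Fin.snoc_castSucc] at h1
  rw [← h1]
  simp only [Finset.sum_apply]

/-- Unimodular maps. -/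
theorem image_idp {d : ℕ} {P : Set (Fin d → ℝ)} (hI : IDP P) (A : Matrix (Fin d) (Fin d) ℤ)
    (hA : |A.det| = 1) (t : Fin d → ℤ) :
    IDP ((fun (x : Fin d → ℝ) (i : Fin d) => ∑ z, (A i z : ℝ) * x z + (t i : ℝ)) '' P) := by
  classical
  have hunit : IsUnit A.det := Int.isUnit_iff_abs_eq.2 hA
  have hAi : A * A⁻¹ = 1 := Matrix.mul_nonsing_inv A hunit
  have hiA : A⁻¹ * A = 1 := Matrix.nonsing_inv_mul A hunit
  rintro k hk z ⟨_, ⟨x, hx, rfl⟩, hzx⟩
  -- pull back
  have hz : toR (A⁻¹.mulVec (z - (k : ℤ) • t)) = (k : ℝ) • x := by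
    have h1 : Matrix.mulVec (A.map (fun z : ℤ => (z : ℝ))) ((k : ℝ) • x) =
        toR (z - (k : ℤ) • t) := by
      funext i
      have h2 := congrFun hzx i
      simp only [toR, Pi.smul_apply, smul_eq_mul] at h2
      simp only [toR, Pi.sub_apply, Pi.smul_apply, smul_eq_mul, Matrix.mulVec, dotProduct,
        Matrix.map_apply]
      push_cast
      rw [h2]
      have h3 : ∑ z, (A i z : ℝ) * (k * x z) = k * ∑ z, (A i z : ℝ) * x z := by
        rw [mul_sum]; exact sum_congr rfl fun z _ => by ring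
      rw [h3]
      ring
    have h2 : (A⁻¹.map (fun z : ℤ => (z : ℝ))) * (A.map (fun z : ℤ => (z : ℝ))) = 1 := by
      have h3 := congrArg (fun M : Matrix (Fin d) (Fin d) ℤ => M.map (Int.castRingHom ℝ)) hiA
      simp only [Matrix.map_mul] at h3
      rw [Matrix.map_one (Int.castRingHom ℝ) (map_zero _) (map_one _)] at h3
      exact h3
    have h3 := congrArg (Matrix.mulVec (A⁻¹.map (fun z : ℤ => (z : ℝ)))) h1
    rw [Matrix.mulVec_mulVec, h2, Matrix.one_mulVec] at h3
    rw [h3]
    funext i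
    simp only [toR, Matrix.mulVec, dotProduct, Matrix.map_apply]
    push_cast
    rfl
  obtain ⟨f, hf1, hf2⟩ := hI k hk _ ⟨x, hx, hz⟩
  refine ⟨fun i => A.mulVec (f i) + t, fun i => ⟨toR (f i), hf1 i, ?_⟩, ?_⟩
  · funext l
    simp only [toR, Pi.add_apply, Matrix.mulVec, dotProduct]
    push_cast
    rfl
  · rw [sum_add_distrib]
    have h1 : ∑ i, A.mulVec (f i) = A.mulVec (∑ i, f i) := by
      rw [← Matrix.mulVec_sum]
    rw [h1, hf2, Matrix.mulVec_mulVec, hAi, Matrix.one_mulVec]
    simp

theorem point_idp : IDP (Set.univ : Set (Fin 0 → ℝ)) := by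
  rintro k hk z _
  exact ⟨fun _ => 0, fun _ => Set.mem_univ _, Subsingleton.elim _ _⟩

end Pool.Agent.Helper517.IDPB
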