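import Pool.Agent.Helper517.IDP4

/-!
The integer decomposition property: fibrations in dilated simplices.
-/

namespace Pool.Agent.Helper517.IDPB

open Finset Pool.Agent.Helper517.Conv Pool.Agent.Helper517.Sect Pool.Agent.Helper517.Bundle
open Pool.Agent.Helper517 Pool.Agent.Helper517.Smooth

lemma exists_le_sum {r : ℕ} (T : Fin r → ℕ) (c : ℕ) (hc : c ≤ ∑ l, T l) :
    ∃ t : Fin r → ℕ, (∀ l, t l ≤ T l) ∧ ∑ l, t l = c := by
  induction c with
  | zero => exact ⟨0, fun l => Nat.zero_le _, by simp⟩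
  | succ c ih =>
    obtain ⟨t, h1, h2⟩ := ih (by omega)
    obtain ⟨l, hl⟩ : ∃ l, t l < T l := by
      by_contra hcon
      push Not at hcon
      have : ∑ l, T l ≤ ∑ l, t l := sum_le_sum fun l _ => hcon l
      omega
    refine ⟨t + Pi.single l 1, fun i => ?_, ?_⟩
    · by_cases hi : i = l
      · subst hi; simp; omega
      · simp [Pi.single_eq_of_ne hi, h1 i]
    · simp only [Pi.add_apply, sum_add_distrib, h2]
      simp

lemma transport {r : ℕ} : ∀ (k : ℕ) (T : Fin r → ℕ) (s : Fin k → ℕ), ∑ l, T l ≤ ∑ j, s j →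
    ∃ t : Fin k → Fin r → ℕ, (∀ l, ∑ j, t j l = T l) ∧ ∀ j, ∑ l, t j l ≤ s j := by
  intro k
  induction k with
  | zero =>
    intro T s h
    simp only [univ_eq_empty, sum_empty, nonpos_iff_eq_zero] at h
    rw [sum_eq_zero_iff] at h
    exact ⟨fun j => j.elim0, fun l => by simp [h l (mem_univ _)], fun j => j.elim0⟩
  | succ k ih =>
    intro T s h
    rw [Fin.sum_univ_succ] at h
    obtain ⟨t0, h1, h2⟩ := exists_le_sum T (min (s 0) (∑ l, T l)) (min_le_right _ _)
    have hsub : ∑ l, (T l - t0 l) + ∑ l, t0 l = ∑ l, T l := by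
      rw [← sum_add_distrib]
      exact sum_congr rfl fun l _ => by have := h1 l; omega
    obtain ⟨t, h3, h4⟩ := ih (fun l => T l - t0 l) (fun j => s j.succ) (by
      show ∑ l, (T l - t0 l) ≤ _
      omega)
    refine ⟨Fin.cons t0 t, fun l => ?_, fun j => ?_⟩
    · rw [Fin.sum_univ_succ]
      simp only [Fin.cons_zero, Fin.cons_succ]
      rw [h3 l]
      have := h1 l
      omega
    · refine Fin.cases ?_ (fun j => ?_) j
      · simp only [Fin.cons_zero]
        rw [h2]
        exact min_le_left _ _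
      · simp only [Fin.cons_succ]
        exact h4 j

theorem simplex_idp {m r : ℕ} {P : Set (Fin (m + r) → ℝ)} (α : Fin r → Fin m → ℤ) (α₀ : Fin r → ℤ)
    (β : Fin m → ℤ) (β₀ : ℤ) (hP : ∀ x : Fin (m + r) → ℝ, x ∈ P ↔
      (fun i => x (Fin.castAdd r i)) ∈ base '' P ∧
      (∀ l, ∑ i, (α l i : ℝ) * x (Fin.castAdd r i) + (α₀ l : ℝ) ≤ x (Fin.natAdd m l)) ∧
      ∑ l, x (Fin.natAdd m l) ≤ ∑ i, (β i : ℝ) * x (Fin.castAdd r i) + (β₀ : ℝ))
    (hI : IDP (base '' P)) : IDP P := by
  classical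
  rintro k hk z ⟨x, hx, hzx⟩
  have hbz : toR (baseZ z) = (k : ℝ) • base x := by rw [← base_toR, hzx, base_smul]
  obtain ⟨f, hf1, hf2⟩ := hI k hk (baseZ z) ⟨base x, ⟨x, hx, rfl⟩, hbz⟩
  have hzi : ∀ i, (z i : ℝ) = k * x i := fun i => congrFun hzx i
  -- values
  set A : Fin r → Fin k → ℤ := fun l j => ∑ i, α l i * f j i + α₀ l with hA
  set C : Fin k → ℤ := fun j => ∑ i, β i * f j i + β₀ with hC
  have hAC : ∀ j, ∑ l, A l j ≤ C j := by
    intro j
    obtain ⟨x', hx', he⟩ := hf1 j
    obtain ⟨_, h1, h2⟩ := (hP x').1 hx'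
    have h3 : ∀ i, x' (Fin.castAdd r i) = (f j i : ℝ) := fun i => congrFun he i
    simp only [h3] at h1 h2
    have h4 : ∑ l, (∑ i, (α l i : ℝ) * (f j i : ℝ) + (α₀ l : ℝ)) ≤ ∑ l, x' (Fin.natAdd m l) :=
      sum_le_sum fun l _ => h1 l
    have h5 : ((∑ l, A l j : ℤ) : ℝ) ≤ ((C j : ℤ) : ℝ) := by
      simp only [hA, hC]
      push_cast
      exact h4.trans h2
    exact_mod_cast h5
  have hsumA : ∀ l, ∑ j, A l j ≤ z (Fin.natAdd m l) := by
    intro l
    obtain ⟨_, h1, _⟩ := (hP x).1 hx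
    have h2 := mul_le_mul_of_nonneg_left (h1 l) (Nat.cast_nonneg k : (0 : ℝ) ≤ k)
    have h3 : ∑ j, A l j = ∑ i, α l i * baseZ z i + k * α₀ l := by
      simp only [hA]
      rw [sum_add_distrib, sum_comm]
      congr 1
      · refine sum_congr rfl fun i _ => ?_
        rw [← mul_sum]
        congr 1
        have := congrFun hf2 i
        rwa [Finset.sum_apply] at this
      · simp
    have h4 : ((∑ j, A l j : ℤ) : ℝ) ≤ (z (Fin.natAdd m l) : ℝ) := by
      rw [h3, hzi]
      push_cast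
      refine le_trans (le_of_eq ?_) h2
      rw [mul_add, mul_sum]
      congr 1
      refine sum_congr rfl fun i _ => ?_
      show (α l i : ℝ) * (z (Fin.castAdd r i) : ℝ) = _
      rw [hzi]
      ring
    exact_mod_cast h4
  have hsumC : ∑ l, z (Fin.natAdd m l) ≤ ∑ j, C j := by
    obtain ⟨_, _, h1⟩ := (hP x).1 hx
    have h2 := mul_le_mul_of_nonneg_left h1 (Nat.cast_nonneg k : (0 : ℝ) ≤ k)
    have h3 : ∑ j, C j = ∑ i, β i * baseZ z i + k * β₀ := by
      simp only [hC]
      rw [sum_add_distrib, sum_comm]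
      congr 1
      · refine sum_congr rfl fun i _ => ?_
        rw [← mul_sum]
        congr 1
        have := congrFun hf2 i
        rwa [Finset.sum_apply] at this
      · simp
    have h4 : ((∑ l, z (Fin.natAdd m l) : ℤ) : ℝ) ≤ ((∑ j, C j : ℤ) : ℝ) := by
      rw [h3]
      push_cast
      simp only [hzi]
      rw [← mul_sum]
      refine h2.trans (le_of_eq ?_)
      rw [mul_add, mul_sum]
      congr 1
      refine sum_congr rfl fun i _ => ?_
      show _ = (β i : ℝ) * (z (Fin.castAdd r i) : ℝ)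
      rw [hzi]
      ring
    exact_mod_cast h4
  obtain ⟨t, ht1, ht2⟩ := transport k (fun l => (z (Fin.natAdd m l) - ∑ j, A l j).toNat)
    (fun j => (C j - ∑ l, A l j).toNat) (by
      have h1 : ∀ l, (((z (Fin.natAdd m l) - ∑ j, A l j).toNat : ℕ) : ℤ) =
          z (Fin.natAdd m l) - ∑ j, A l j := fun l => Int.toNat_of_nonneg (by
        have := hsumA l; linarith)
      have h2 : ∀ j, (((C j - ∑ l, A l j).toNat : ℕ) : ℤ) = C j - ∑ l, A l j := fun j =>
        Int.toNat_of_nonneg (by have := hAC j; linarith)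
      have h3 : ((∑ l, (z (Fin.natAdd m l) - ∑ j, A l j).toNat : ℕ) : ℤ) ≤
          ((∑ j, (C j - ∑ l, A l j).toNat : ℕ) : ℤ) := by
        push_cast [h1, h2]
        rw [sum_sub_distrib, sum_sub_distrib]
        rw [sum_comm (f := fun j l => A l j)]
        linarith
      exact_mod_cast h3)
  refine ⟨fun j => Fin.append (f j) (fun l => A l j + (t j l : ℤ)), fun j => ?_, ?_⟩
  · rw [hP]
    have hb : (fun i => toR (Fin.append (f j) (fun l => A l j + (t j l : ℤ))) (Fin.castAdd r i)) =
        toR (f j) := by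
      funext i
      simp [toR]
    have hbi : ∀ i, toR (Fin.append (f j) (fun l => A l j + (t j l : ℤ))) (Fin.castAdd r i) =
        (f j i : ℝ) := fun i => congrFun hb i
    have hl : ∀ l, toR (Fin.append (f j) (fun l => A l j + (t j l : ℤ))) (Fin.natAdd m l) =
        ((A l j + (t j l : ℤ) : ℤ) : ℝ) := by
      intro l
      simp only [toR, Fin.append_right]
    refine ⟨?_, fun l => ?_, ?_⟩
    · rw [hb]; exact hf1 j
    · rw [hl]
      simp only [hbi]
      have h1 : A l j ≤ A l j + (t j l : ℤ) := by omega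
      have h2 : ((A l j : ℤ) : ℝ) ≤ ((A l j + (t j l : ℤ) : ℤ) : ℝ) := by exact_mod_cast h1
      refine le_trans (le_of_eq ?_) h2
      simp only [hA]
      push_cast
      rfl
    · simp only [hl, hbi]
      have h1 := ht2 j
      have h2 : (((C j - ∑ l, A l j).toNat : ℕ) : ℤ) = C j - ∑ l, A l j :=
        Int.toNat_of_nonneg (by have := hAC j; linarith)
      have h3 : ((∑ l, t j l : ℕ) : ℤ) ≤ C j - ∑ l, A l j := by
        rw [← h2]; exact_mod_cast h1
      have h4 : ∑ l, (A l j + (t j l : ℤ)) ≤ C j := by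
        rw [sum_add_distrib]
        push_cast at h3
        linarith
      have h5 : ((∑ l, (A l j + (t j l : ℤ)) : ℤ) : ℝ) ≤ ((C j : ℤ) : ℝ) := by exact_mod_cast h4
      rw [Int.cast_sum] at h5
      refine h5.trans (le_of_eq ?_)
      simp only [hC]
      push_cast
      rfl
  · funext i
    rw [Finset.sum_apply]
    refine Fin.addCases (fun i => ?_) (fun l => ?_) i
    · simp only [Fin.append_left]
      have := congrFun hf2 i
      rw [Finset.sum_apply] at this
      exact this
    · simp only [Fin.append_right]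
      rw [sum_add_distrib]
      have h1 := ht1 l
      have h2 : (((z (Fin.natAdd m l) - ∑ j, A l j).toNat : ℕ) : ℤ) =
          z (Fin.natAdd m l) - ∑ j, A l j := Int.toNat_of_nonneg (by
        have := hsumA l; linarith)
      have h3 : ((∑ j, t j l : ℕ) : ℤ) = z (Fin.natAdd m l) - ∑ j, A l j := by
        rw [h1, h2]
      push_cast at h3
      rw [h3]
      ring

end Pool.Agent.Helper517.IDPB
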