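import Pool.Agent.Helper517.IDP5

/-!
The integer decomposition property: bundles with fibres of type A of any dimension.
-/

namespace Pool.Agent.Helper517.IDPB

open Finset Pool.Agent.Helper517.Conv Pool.Agent.Helper517.Sect Pool.Agent.Helper517.Bundle
open Pool.Agent.Helper517 Pool.Agent.Helper517.Smooth

section splitting

variable {m r : ℕ} {P : Set (Fin (m + r) → ℝ)} {S : Set (Fin (m + r) → ℤ)}

/-- Every fibre is the convex hull of finitely many affine sections. -/
lemma sections (hS : S.Finite) (hP : P = convexHull ℝ (toR '' S)) (hne : P.Nonempty)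
    (hVD : ∀ v, toR v ∈ P.extremePoints ℝ → ∃ u D, VD P v u D) :
    ∃ (V : Set (Fin (m + r) → ℤ))
      (u D : (Fin (m + r) → ℤ) → Fin (m + r) → (Fin (m + r) → ℤ)),
      (∀ v ∈ V, VD P v (u v) (D v)) ∧
      ∀ x ∈ P, x ∈ convexHull ℝ ((fun v => sect v (u v) (D v) (base x)) '' V) := by
  classical
  have hcomp : IsCompact P := by rw [hP]; exact (hS.image _).isCompact_convexHull (𝕜 := ℝ)
  have hconv : Convex ℝ P := by rw [hP]; exact convex_convexHull ℝ _
  have hBc : IsCompact (base '' P) := hcomp.image VD.continuous_base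
  obtain ⟨b0, hb0⟩ := hBc.extremePoints_nonempty (hne.image _)
  set Q : Set (Fin (m + r) → ℝ) := {x | x ∈ P ∧ base x = b0} with hQ
  have hQc : IsCompact Q := by
    have : Q = P ∩ {x | base x = b0} := rfl
    rw [this]
    exact hcomp.inter_right (isClosed_eq VD.continuous_base continuous_const)
  have hQne : Q.Nonempty := by
    obtain ⟨x, hx, hxb⟩ := hb0.1
    exact ⟨x, hx, hxb⟩
  have hQconv : Convex ℝ Q := by
    rintro x ⟨hx, hx'⟩ y ⟨hy, hy'⟩ a b ha hb hab
    refine ⟨hconv hx hy ha hb hab, ?_⟩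
    rw [base_add, base_smul, base_smul, hx', hy', ← add_smul, hab, one_smul]
  have hQext : IsExtreme ℝ P Q := by
    refine ⟨fun x hx => hx.1, ?_⟩
    rintro x hx y hy p ⟨_, hp⟩ hseg
    obtain ⟨a, b, ha, hb, hab, rfl⟩ := hseg
    refine ⟨hx, ?_⟩
    rw [mem_extremePoints] at hb0
    refine (hb0.2 _ ⟨x, hx, rfl⟩ _ ⟨y, hy, rfl⟩ ⟨a, b, ha, hb, hab, ?_⟩).1
    rw [← hp, base_add, base_smul, base_smul]
  have hPE : P.extremePoints ℝ ⊆ toR '' S := by
    rw [hP]
    exact extremePoints_convexHull_subset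
  have hQEP := hQext.extremePoints_subset_extremePoints
  have hQE : Q.extremePoints ℝ ⊆ toR '' S := hQEP.trans hPE
  set V : Set (Fin (m + r) → ℤ) := {s | toR s ∈ Q.extremePoints ℝ} with hV
  have hVi : toR '' V = Q.extremePoints ℝ := by
    ext x
    constructor
    · rintro ⟨s, hs, rfl⟩; exact hs
    · intro hx
      obtain ⟨s, _, rfl⟩ := hQE hx
      exact ⟨s, hx, rfl⟩
  have hVfin : V.Finite := by
    refine hS.subset fun s hs => ?_
    obtain ⟨s', hs', he⟩ := hQE hs
    rw [← toR_injective he]; exact hs'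
  have hVne : V.Nonempty := by
    obtain ⟨x, hx⟩ := hQc.extremePoints_nonempty hQne
    rw [← hVi] at hx
    obtain ⟨s, hs, _⟩ := hx
    exact ⟨s, hs⟩
  have hQP : Q = convexHull ℝ (toR '' V) := by
    rw [hVi]
    have hfin : (Q.extremePoints ℝ).Finite := (hS.image _).subset hQE
    rw [← (hfin.isClosed_convexHull (𝕜 := ℝ)).closure_eq]
    exact (closure_convexHull_extremePoints hQc hQconv).symm
  have hch : ∀ v, ∃ u D, v ∈ V → VD P v u D := by
    intro v
    by_cases hv : v ∈ V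
    · obtain ⟨u, D, h⟩ := hVD v (hQEP hv)
      exact ⟨u, D, fun _ => h⟩
    · exact ⟨0, 0, fun h => absurd h hv⟩
  choose u D huD using hch
  refine ⟨V, u, D, huD, fun x hx => ?_⟩
  by_contra hcon
  obtain ⟨f, s, hf1, hf2⟩ := geometric_hahn_banach_closed_point (convex_convexHull ℝ _)
    ((hVfin.image (fun v => sect v (u v) (D v) (base x))).isClosed_convexHull (𝕜 := ℝ)) hcon
  obtain ⟨v, hv, hvmax⟩ := Set.exists_max_image V (fun v => f (toR v)) hVfin hVne
  have h := huD v hv
  have hQle : ∀ z ∈ Q, f z ≤ f (toR v) := by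
    intro z hz
    have hcv : Convex ℝ {z | f z ≤ f (toR v)} := by
      intro p hp q hq a b ha hb hab
      have hp' : f p ≤ f (toR v) := hp
      have hq' : f q ≤ f (toR v) := hq
      show f (a • p + b • q) ≤ f (toR v)
      rw [map_add, map_smul, map_smul, smul_eq_mul, smul_eq_mul]
      have e1 := mul_le_mul_of_nonneg_left hp' ha
      have e2 := mul_le_mul_of_nonneg_left hq' hb
      have e3 : a * f (toR v) + b * f (toR v) = f (toR v) := by rw [← add_mul, hab, one_mul]
      linarith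
    rw [hQP] at hz
    refine convexHull_min ?_ hcv hz
    rintro _ ⟨w, hw, rfl⟩
    exact hvmax w hw
  have hvQ : toR v ∈ Q := (hVi ▸ (⟨v, hv, rfl⟩ : toR v ∈ toR '' V) : toR v ∈ Q.extremePoints ℝ).1
  have hu : ∀ l : Fin r, f (toR (u v (Fin.natAdd m l))) ≤ 0 := by
    intro l
    have h1 : toR (v + u v (Fin.natAdd m l)) ∈ Q := by
      refine ⟨h.edge _, ?_⟩
      rw [toR_add, base_add, h.base_u, add_zero]
      exact hvQ.2
    have h2 := hQle _ h1
    rw [toR_add, map_add] at h2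
    linarith
  have h1 := congrArg f (h.eq_sect_add x)
  rw [map_add, map_sum] at h1
  simp only [map_smul, smul_eq_mul] at h1
  have h2 : ∑ l : Fin r, linR (D v (Fin.natAdd m l)) (x - toR v) *
      f (toR (u v (Fin.natAdd m l))) ≤ 0 :=
    sum_nonpos fun l _ => mul_nonpos_of_nonneg_of_nonpos (h.pos x hx _) (hu l)
  have h3 := hf1 (sect v (u v) (D v) (base x)) (subset_convexHull ℝ _ ⟨v, hv, rfl⟩)
  linarith

/-- The fibres depend linearly on the base point. -/
def Lin (P : Set (Fin (m + r) → ℝ)) : Prop :=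
  ∀ x ∈ P, ∀ y ∈ base '' P, ∀ y' ∈ base '' P, ∀ s : ℝ, 0 ≤ s → s ≤ 1 →
    base x = s • y + (1 - s) • y' →
      ∃ p ∈ P, ∃ q ∈ P, base p = y ∧ base q = y' ∧ x = s • p + (1 - s) • q

lemma lin_of_bundle (hS : S.Finite) (hP : P = convexHull ℝ (toR '' S)) (hne : P.Nonempty)
    (hVD : ∀ v, toR v ∈ P.extremePoints ℝ → ∃ u D, VD P v u D) : Lin P := by
  rintro x hx y hy y' hy' s hs0 hs1 hxy
  obtain ⟨V, u, D, hVD', hull⟩ := sections hS hP hne hVD
  have hconv : Convex ℝ P := by rw [hP]; exact convex_convexHull ℝ _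
  have hcv : Convex ℝ {x | ∃ p ∈ P, ∃ q ∈ P, base p = y ∧ base q = y' ∧
      x = s • p + (1 - s) • q} := by
    rintro _ ⟨p, hp, q, hq, e1, e2, rfl⟩ _ ⟨p', hp', q', hq', e1', e2', rfl⟩ a b ha hb hab
    refine ⟨a • p + b • p', hconv hp hp' ha hb hab, a • q + b • q', hconv hq hq' ha hb hab,
      ?_, ?_, ?_⟩
    · rw [base_add, base_smul, base_smul, e1, e1', ← add_smul, hab, one_smul]
    · rw [base_add, base_smul, base_smul, e2, e2', ← add_smul, hab, one_smul]
    · module
  refine convexHull_min ?_ hcv (hull x hx)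
  rintro _ ⟨v, hv, rfl⟩
  have hm : ∀ y ∈ base '' P, sect v (u v) (D v) y ∈ P ∧ base (sect v (u v) (D v) y) = y := by
    rintro _ ⟨p, hp, rfl⟩
    exact ⟨((hVD' v hv).sect_mem hS hP hVD hp).1, (hVD' v hv).base_sect _⟩
  refine ⟨_, (hm y hy).1, _, (hm y' hy').1, (hm y hy).2, (hm y' hy').2, ?_⟩
  show sect v (u v) (D v) (base x) = _
  rw [hxy, sect_comb v _ _ _ _ (by ring)]

/-- Splitting integral points of sums of fibres of type A. -/
theorem alcoved_split (hconv : Convex ℝ P) (hlin : Lin P)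
    (E : Fin (r + 1) → Fin (r + 1) → Prop) (c : Fin (r + 1) → Fin (r + 1) → Fin m → ℤ)
    (c₀ : Fin (r + 1) → Fin (r + 1) → ℤ)
    (hA : ∀ x : Fin (m + r) → ℝ, x ∈ P ↔ (fun i => x (Fin.castAdd r i)) ∈ base '' P ∧
      ∀ i j, E i j → (Fin.cons 0 (fun l => x (Fin.natAdd m l)) : Fin (r + 1) → ℝ) i -
        (Fin.cons 0 (fun l => x (Fin.natAdd m l)) : Fin (r + 1) → ℝ) j ≤
          ∑ l, (c i j l : ℝ) * x (Fin.castAdd r l) + (c₀ i j : ℝ)) :
    ∀ (k : ℕ) (y : Fin (k + 1) → (Fin m → ℤ)), (∀ a, toR (y a) ∈ base '' P) →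
      ∀ X : Fin r → ℤ, (∀ i j, E i j → (Fin.cons 0 X : Fin (r + 1) → ℤ) i -
        (Fin.cons 0 X : Fin (r + 1) → ℤ) j ≤ ∑ a, (∑ l, c i j l * y a l + c₀ i j)) →
      ∃ Z : Fin (k + 1) → Fin r → ℤ, (∀ a i j, E i j → (Fin.cons 0 (Z a) : Fin (r + 1) → ℤ) i -
        (Fin.cons 0 (Z a) : Fin (r + 1) → ℤ) j ≤ ∑ l, c i j l * y a l + c₀ i j) ∧
        ∑ a, Z a = X := by
  classical
  let bl : (Fin (m + r) → ℝ) →ₗ[ℝ] (Fin m → ℝ) :=
    { toFun := base, map_add' := base_add, map_smul' := base_smul }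
  have hBconv : Convex ℝ (base '' P) := hconv.linear_image bl
  have hcons : ∀ (X : Fin r → ℤ) (i : Fin (r + 1)),
      (Fin.cons 0 (fun l => (X l : ℝ)) : Fin (r + 1) → ℝ) i =
        ((Fin.cons 0 X : Fin (r + 1) → ℤ) i : ℝ) := by
    intro X i
    refine Fin.cases ?_ (fun i => ?_) i
    · simp
    · simp
  intro k
  induction k with
  | zero =>
    intro y hy X hX
    refine ⟨fun _ => X, fun a i j hij => ?_, by simp⟩
    have := hX i j hij
    rw [Fin.sum_univ_one] at this
    rwa [Fin.eq_zero a]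
  | succ k ih =>
    intro y hy X hX
    set w : ℝ := ((k + 2 : ℕ) : ℝ)⁻¹ with hw
    have hk0 : ((k + 2 : ℕ) : ℝ) ≠ 0 := by positivity
    have hw0 : 0 ≤ w := by positivity
    have hww : w * ((k + 2 : ℕ) : ℝ) = 1 := inv_mul_cancel₀ hk0
    set x : Fin (m + r) → ℝ := Fin.append (∑ a, w • toR (y a)) (fun l => w * (X l : ℝ)) with hx
    have hxc : ∀ l, x (Fin.castAdd r l) = w * ∑ a, (y a l : ℝ) := by
      intro l
      rw [hx, Fin.append_left, Finset.sum_apply, mul_sum]
      rfl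
    have hbx : base x = ∑ a, w • toR (y a) := by
      funext l
      show x (Fin.castAdd r l) = _
      rw [hx, Fin.append_left]
    have hxP : x ∈ P := by
      rw [hA]
      refine ⟨?_, fun i j hij => ?_⟩
      · show base x ∈ base '' P
        rw [hbx]
        refine hBconv.sum_mem (fun _ _ => hw0) ?_ (fun a _ => hy a)
        rw [sum_const, card_univ, Fintype.card_fin, nsmul_eq_mul, mul_comm]
        exact hww
      · have h1 : ∀ i, (Fin.cons 0 (fun l => x (Fin.natAdd m l)) : Fin (r + 1) → ℝ) i =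
            w * ((Fin.cons 0 X : Fin (r + 1) → ℤ) i : ℝ) := by
          intro i
          refine Fin.cases ?_ (fun i => ?_) i
          · simp
          · simp only [Fin.cons_succ, hx, Fin.append_right]
        rw [h1, h1, ← mul_sub]
        have h2 : ∑ l, (c i j l : ℝ) * x (Fin.castAdd r l) + (c₀ i j : ℝ) =
            w * ((∑ a, (∑ l, c i j l * y a l + c₀ i j) : ℤ) : ℝ) := by
          simp only [hxc]
          push_cast
          rw [sum_add_distrib, mul_add]
          congr 1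
          · rw [sum_comm, mul_sum]
            refine sum_congr rfl fun l _ => ?_
            rw [mul_sum, mul_sum, mul_sum]
            exact sum_congr rfl fun a _ => by ring
          · rw [sum_const, card_univ, Fintype.card_fin, nsmul_eq_mul, ← mul_assoc]
            rw [show w * ((k + 1 + 1 : ℕ) : ℝ) = 1 from hww, one_mul]
        rw [h2]
        refine mul_le_mul_of_nonneg_left ?_ hw0
        exact_mod_cast hX i j hij
    -- the two parts
    have hk1 : ((k + 1 : ℕ) : ℝ) ≠ 0 := by positivity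
    have hw1 : w ≤ 1 := by
      rw [hw]
      exact inv_le_one_of_one_le₀ (by exact_mod_cast (by omega : 1 ≤ k + 2))
    have hw4 : 1 - w = w * ((k + 1 : ℕ) : ℝ) := by
      have h1 := hww
      push_cast at h1 ⊢
      linarith
    have hw2 : (1 - w) * ((k + 1 : ℕ) : ℝ)⁻¹ = w := by
      rw [hw4, mul_assoc, mul_inv_cancel₀ hk1, mul_one]
    have hw3 : w ≠ 0 := inv_ne_zero hk0
    set y' : Fin m → ℝ := ∑ a : Fin (k + 1), ((k + 1 : ℕ) : ℝ)⁻¹ • toR (y a.succ) with hy'
    have hy'B : y' ∈ base '' P := by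
      refine hBconv.sum_mem (fun _ _ => by positivity) ?_ (fun a _ => hy a.succ)
      rw [sum_const, card_univ, Fintype.card_fin, nsmul_eq_mul]
      exact mul_inv_cancel₀ hk1
    obtain ⟨p, hp, q, hq, hpb, hqb, hpq⟩ := hlin x hxP _ (hy 0) y' hy'B w hw0 hw1 (by
      rw [hbx, Fin.sum_univ_succ, hy', smul_sum]
      congr 1
      refine sum_congr rfl fun a _ => ?_
      rw [smul_smul, hw2])
    set ξ : Fin r → ℝ := fun l => p (Fin.natAdd m l) with hξ
    set η : Fin r → ℝ := fun l => q (Fin.natAdd m l) with hη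
    have hξc : ∀ i j, E i j → (Fin.cons 0 ξ : Fin (r + 1) → ℝ) i -
        (Fin.cons 0 ξ : Fin (r + 1) → ℝ) j ≤ ((∑ l, c i j l * y 0 l + c₀ i j : ℤ) : ℝ) := by
      intro i j hij
      have h1 := ((hA _).1 hp).2 i j hij
      refine h1.trans (le_of_eq ?_)
      push_cast
      congr 1
      refine sum_congr rfl fun l _ => ?_
      have := congrFun hpb l
      rw [show p (Fin.castAdd r l) = (y 0 l : ℝ) from this]
    have hηc : ∀ i j, E i j → ((k + 1 : ℕ) : ℝ) * ((Fin.cons 0 η : Fin (r + 1) → ℝ) i -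
        (Fin.cons 0 η : Fin (r + 1) → ℝ) j) ≤
          ((∑ a : Fin (k + 1), (∑ l, c i j l * y a.succ l + c₀ i j) : ℤ) : ℝ) := by
      intro i j hij
      have h1 := ((hA _).1 hq).2 i j hij
      have h2 := mul_le_mul_of_nonneg_left h1 (Nat.cast_nonneg (k + 1) :
        (0 : ℝ) ≤ ((k + 1 : ℕ) : ℝ))
      refine h2.trans (le_of_eq ?_)
      have h3 : ∀ l, ((k + 1 : ℕ) : ℝ) * q (Fin.castAdd r l) =
          ∑ a : Fin (k + 1), (y a.succ l : ℝ) := by
        intro l
        have h4 := congrFun hqb l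
        rw [show q (Fin.castAdd r l) = y' l from h4, hy', Finset.sum_apply]
        simp only [Pi.smul_apply, smul_eq_mul]
        rw [← mul_sum, ← mul_assoc, mul_inv_cancel₀ hk1, one_mul]
        rfl
      rw [mul_add, mul_sum]
      have h4 : ∀ l, ((k + 1 : ℕ) : ℝ) * ((c i j l : ℝ) * q (Fin.castAdd r l)) =
          (c i j l : ℝ) * ∑ a : Fin (k + 1), (y a.succ l : ℝ) := by
        intro l
        rw [← h3 l]; ring
      simp only [h4]
      push_cast
      rw [sum_add_distrib, sum_comm]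
      congr 1
      · exact sum_congr rfl fun l _ => mul_sum _ _ _
      · rw [sum_const, card_univ, Fintype.card_fin, nsmul_eq_mul]
        push_cast
        ring
    have hsum : ∀ l, (X l : ℝ) = ξ l + ((k + 1 : ℕ) : ℝ) * η l := by
      intro l
      have h1 := congrFun hpq (Fin.natAdd m l)
      rw [hx, Fin.append_right] at h1
      simp only [Pi.add_apply, Pi.smul_apply, smul_eq_mul] at h1
      rw [hw4] at h1
      have h3 : w * (X l : ℝ) = w * (ξ l + ((k + 1 : ℕ) : ℝ) * η l) := by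
        rw [h1]; ring
      exact mul_left_cancel₀ hw3 h3
    -- rounding
    set Z0 : Fin r → ℤ := fun l => ⌊ξ l⌋ with hZ0
    have hZ0c : ∀ i, (Fin.cons 0 Z0 : Fin (r + 1) → ℤ) i =
        ⌊(Fin.cons 0 ξ : Fin (r + 1) → ℝ) i⌋ := by
      intro i
      refine Fin.cases ?_ (fun i => ?_) i
      · simp
      · simp [hZ0]
    have hfl : ∀ (a b : ℝ) (n : ℤ), a - b ≤ n → ⌊a⌋ - ⌊b⌋ ≤ n := by
      intro a b n hab
      have h1 : a ≤ b + n := by linarith
      have h2 := Int.floor_le_floor h1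
      rw [Int.floor_add_intCast] at h2
      linarith
    have hrest : ∀ i j, E i j → (Fin.cons 0 (X - Z0) : Fin (r + 1) → ℤ) i -
        (Fin.cons 0 (X - Z0) : Fin (r + 1) → ℤ) j ≤
          ∑ a : Fin (k + 1), (∑ l, c i j l * y a.succ l + c₀ i j) := by
      intro i j hij
      have h1 : ∀ i, (Fin.cons 0 (X - Z0) : Fin (r + 1) → ℤ) i =
          (Fin.cons 0 X : Fin (r + 1) → ℤ) i - (Fin.cons 0 Z0 : Fin (r + 1) → ℤ) i := by
        intro i
        refine Fin.cases ?_ (fun i => ?_) i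
        · simp
        · simp
      have h2 : ∀ i, ((Fin.cons 0 X : Fin (r + 1) → ℤ) i : ℝ) -
          (Fin.cons 0 ξ : Fin (r + 1) → ℝ) i =
          ((k + 1 : ℕ) : ℝ) * (Fin.cons 0 η : Fin (r + 1) → ℝ) i := by
        intro i
        refine Fin.cases ?_ (fun i => ?_) i
        · simp
        · simp only [Fin.cons_succ]
          rw [hsum i]; ring
      have h3 : ((Fin.cons 0 X : Fin (r + 1) → ℤ) i : ℝ) -
          (Fin.cons 0 ξ : Fin (r + 1) → ℝ) i - (((Fin.cons 0 X : Fin (r + 1) → ℤ) j : ℝ) -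
          (Fin.cons 0 ξ : Fin (r + 1) → ℝ) j) ≤
          ((∑ a : Fin (k + 1), (∑ l, c i j l * y a.succ l + c₀ i j) : ℤ) : ℝ) := by
        rw [h2, h2, ← mul_sub]
        exact hηc i j hij
      have h4 := hfl ((Fin.cons 0 ξ : Fin (r + 1) → ℝ) j)
        ((Fin.cons 0 ξ : Fin (r + 1) → ℝ) i)
        (∑ a : Fin (k + 1), (∑ l, c i j l * y a.succ l + c₀ i j) -
          (Fin.cons 0 X : Fin (r + 1) → ℤ) i + (Fin.cons 0 X : Fin (r + 1) → ℤ) j) (by
          push_cast at h3 ⊢
          linarith)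
      rw [← hZ0c, ← hZ0c] at h4
      rw [h1, h1]
      linarith
    obtain ⟨Z, hZ1, hZ2⟩ := ih (fun a => y a.succ) (fun a => hy a.succ) (X - Z0) hrest
    refine ⟨Fin.cons Z0 Z, fun a i j hij => ?_, ?_⟩
    · refine Fin.cases ?_ (fun a => ?_) a
      · rw [Fin.cons_zero, hZ0c, hZ0c]
        exact hfl _ _ _ (hξc i j hij)
      · rw [Fin.cons_succ]
        exact hZ1 a i j hij
    · rw [Fin.sum_univ_succ]
      simp only [Fin.cons_zero, Fin.cons_succ]
      rw [hZ2]
      abel

theorem alcoved_idp (hconv : Convex ℝ P) (hlin : Lin P)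
    (E : Fin (r + 1) → Fin (r + 1) → Prop) (c : Fin (r + 1) → Fin (r + 1) → Fin m → ℤ)
    (c₀ : Fin (r + 1) → Fin (r + 1) → ℤ)
    (hA : ∀ x : Fin (m + r) → ℝ, x ∈ P ↔ (fun i => x (Fin.castAdd r i)) ∈ base '' P ∧
      ∀ i j, E i j → (Fin.cons 0 (fun l => x (Fin.natAdd m l)) : Fin (r + 1) → ℝ) i -
        (Fin.cons 0 (fun l => x (Fin.natAdd m l)) : Fin (r + 1) → ℝ) j ≤
          ∑ l, (c i j l : ℝ) * x (Fin.castAdd r l) + (c₀ i j : ℝ))
    (hI : IDP (base '' P)) : IDP P := by
  classical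
  rintro k hk z ⟨x, hx, hzx⟩
  have hbz : toR (baseZ z) = (k : ℝ) • base x := by rw [← base_toR, hzx, base_smul]
  obtain ⟨f, hf1, hf2⟩ := hI k hk (baseZ z) ⟨base x, ⟨x, hx, rfl⟩, hbz⟩
  have hzi : ∀ i, (z i : ℝ) = k * x i := fun i => congrFun hzx i
  obtain ⟨k, rfl⟩ : ∃ k', k = k' + 1 := ⟨k - 1, by omega⟩
  obtain ⟨Z, hZ1, hZ2⟩ := alcoved_split hconv hlin E c c₀ hA k f hf1
    (fun l => z (Fin.natAdd m l)) (fun i j hij => by
      have h1 := ((hA x).1 hx).2 i j hij
      have h2 := mul_le_mul_of_nonneg_left h1 (Nat.cast_nonneg (k + 1) : (0 : ℝ) ≤ ((k + 1 : ℕ) : ℝ))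
      have h3 : ∀ i, ((Fin.cons 0 (fun l => z (Fin.natAdd m l)) : Fin (r + 1) → ℤ) i : ℝ) =
          ((k + 1 : ℕ) : ℝ) * (Fin.cons 0 (fun l => x (Fin.natAdd m l)) : Fin (r + 1) → ℝ) i := by
        intro i
        refine Fin.cases ?_ (fun i => ?_) i
        · simp
        · simp only [Fin.cons_succ]
          exact hzi _
      have h4 : ∑ a, (∑ l, c i j l * f a l + c₀ i j) =
          ∑ l, c i j l * baseZ z l + (k + 1 : ℕ) * c₀ i j := by
        rw [sum_add_distrib, sum_comm]
        congr 1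
        · refine sum_congr rfl fun l _ => ?_
          rw [← mul_sum]
          congr 1
          have := congrFun hf2 l
          rwa [Finset.sum_apply] at this
        · simp
      have h5 : (((Fin.cons 0 (fun l => z (Fin.natAdd m l)) : Fin (r + 1) → ℤ) i -
          (Fin.cons 0 (fun l => z (Fin.natAdd m l)) : Fin (r + 1) → ℤ) j : ℤ) : ℝ) ≤
          ((∑ a, (∑ l, c i j l * f a l + c₀ i j) : ℤ) : ℝ) := by
        rw [h4]
        push_cast
        rw [h3, h3, ← mul_sub]
        refine h2.trans (le_of_eq ?_)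
        rw [mul_add, mul_sum]
        push_cast
        congr 1
        refine sum_congr rfl fun l _ => ?_
        show _ = (c i j l : ℝ) * (z (Fin.castAdd r l) : ℝ)
        rw [hzi]
        push_cast
        ring
      exact_mod_cast h5)
  refine ⟨fun a => Fin.append (f a) (Z a), fun a => ?_, ?_⟩
  · rw [hA]
    have hb : (fun i => toR (Fin.append (f a) (Z a)) (Fin.castAdd r i)) = toR (f a) := by
      funext i
      simp [toR]
    have hbi : ∀ i, toR (Fin.append (f a) (Z a)) (Fin.castAdd r i) = (f a i : ℝ) :=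
      fun i => congrFun hb i
    refine ⟨by rw [hb]; exact hf1 a, fun i j hij => ?_⟩
    have h1 : ∀ i, (Fin.cons 0 (fun l => toR (Fin.append (f a) (Z a)) (Fin.natAdd m l)) :
        Fin (r + 1) → ℝ) i = ((Fin.cons 0 (Z a) : Fin (r + 1) → ℤ) i : ℝ) := by
      intro i
      refine Fin.cases ?_ (fun i => ?_) i
      · simp
      · simp [toR]
    rw [h1, h1]
    simp only [hbi]
    exact_mod_cast hZ1 a i j hij
  · funext i
    rw [Finset.sum_apply]
    refine Fin.addCases (fun i => ?_) (fun l => ?_) i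
    · simp only [Fin.append_left]
      have := congrFun hf2 i
      rw [Finset.sum_apply] at this
      exact this
    · simp only [Fin.append_right]
      have := congrFun hZ2 l
      rw [Finset.sum_apply] at this
      exact this

end splitting

end Pool.Agent.Helper517.IDPB
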