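import Pool.Agent.Helper517.IDP6

/-!
The integer decomposition property: bundles with unimodular fibres of any dimension.
-/

namespace Pool.Agent.Helper517.IDPB

open Finset Pool.Agent.Helper517.Conv Pool.Agent.Helper517.Sect Pool.Agent.Helper517.Bundle
open Pool.Agent.Helper517 Pool.Agent.Helper517.Smooth

/-- Rows with trivial common kernel contain an invertible square matrix. -/
lemma exists_rows {r : ℕ} {I : Type*} (J : Set I) (v : I → Fin r → ℝ)
    (hJ : ∀ d : Fin r → ℝ, (∀ i ∈ J, ∑ l, v i l * d l = 0) → d = 0) :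
    ∃ f : Fin r → I, (∀ i, f i ∈ J) ∧ (Matrix.of fun i => v (f i)).det ≠ 0 := by
  classical
  have hspan : Submodule.span ℝ (v '' J) = ⊤ := by
    by_contra hcon
    obtain ⟨g, hg0, hg⟩ := Submodule.exists_le_ker_of_lt_top _ (lt_top_iff_ne_top.2 hcon)
    apply hg0
    have h1 : ∀ x : Fin r → ℝ, g x = ∑ l, x l * g (Pi.single l 1) := by
      intro x
      conv_lhs => rw [pi_eq_sum_univ' x]
      rw [map_sum]
      refine sum_congr rfl fun l _ => ?_
      rw [map_smul, smul_eq_mul]
    have h2 := hJ (fun l => g (Pi.single l 1)) (fun i hi => by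
      rw [← h1]
      exact LinearMap.mem_ker.1 (hg (Submodule.subset_span ⟨i, hi, rfl⟩)))
    ext x
    have h3 : g (Pi.single x 1) = 0 := congrFun h2 x
    simpa using h3
  obtain ⟨b, hb1, hb2, hb3⟩ := exists_linearIndependent ℝ (v '' J)
  rw [hspan] at hb2
  have hb4 : ⊤ ≤ Submodule.span ℝ (Set.range (Subtype.val : b → Fin r → ℝ)) := by
    rw [Subtype.range_coe, hb2]
  let B := Module.Basis.mk hb3 hb4
  have : Finite b := Module.Finite.finite_basis B
  have : Fintype b := Fintype.ofFinite b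
  have hcard : Fintype.card b = r := by
    rw [← Module.finrank_eq_card_basis B]
    simp
  let e : Fin r ≃ b := (Fintype.equivFinOfCardEq hcard).symm
  have hch : ∀ i : Fin r, ∃ j ∈ J, v j = (e i : Fin r → ℝ) := fun i => hb1 (e i).2
  choose f hf1 hf2 using hch
  refine ⟨f, hf1, ?_⟩
  have h1 : LinearIndependent ℝ (fun i => v (f i)) := by
    have : (fun i => v (f i)) = (Subtype.val : b → Fin r → ℝ) ∘ e := funext hf2
    rw [this]
    exact hb3.comp e e.injective
  have h2 : IsUnit (Matrix.of fun i => v (f i)) :=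
    Matrix.linearIndependent_rows_iff_isUnit.1 h1
  rw [Matrix.isUnit_iff_isUnit_det] at h2
  exact h2.ne_zero

/-- Rounding for unimodular systems. -/
theorem unimod_rounding {r : ℕ} {I : Type*} [Finite I] (A : I → Fin r → ℤ)
    (hA : ∀ f : Fin r → I, |(Matrix.of fun i => A (f i)).det| ≤ 1) (lo b : I → ℤ)
    (hc : IsCompact {t : Fin r → ℝ | ∀ i, (lo i : ℝ) ≤ ∑ l, (A i l : ℝ) * t l ∧
      ∑ l, (A i l : ℝ) * t l ≤ b i})
    (hne : {t : Fin r → ℝ | ∀ i, (lo i : ℝ) ≤ ∑ l, (A i l : ℝ) * t l ∧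
      ∑ l, (A i l : ℝ) * t l ≤ b i}.Nonempty) :
    ∃ t : Fin r → ℤ, ∀ i, lo i ≤ ∑ l, A i l * t l ∧ ∑ l, A i l * t l ≤ b i := by
  classical
  obtain ⟨t, ht⟩ := hc.extremePoints_nonempty hne
  rw [mem_extremePoints] at ht
  obtain ⟨htT, hext⟩ := ht
  set J : Set I := {i | ∑ l, (A i l : ℝ) * t l = b i ∨ ∑ l, (A i l : ℝ) * t l = lo i} with hJ
  have hker : ∀ d : Fin r → ℝ, (∀ i ∈ J, ∑ l, (A i l : ℝ) * d l = 0) → d = 0 := by
    intro d hd
    have h1 : ∀ i, ∃ e : ℝ, 0 < e ∧ ∀ ε, |ε| ≤ e → (lo i : ℝ) ≤ ∑ l, (A i l : ℝ) * (t l + ε * d l) ∧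
        ∑ l, (A i l : ℝ) * (t l + ε * d l) ≤ b i := by
      intro i
      have hsum : ∀ ε : ℝ, ∑ l, (A i l : ℝ) * (t l + ε * d l) =
          ∑ l, (A i l : ℝ) * t l + ε * ∑ l, (A i l : ℝ) * d l := by
        intro ε
        rw [mul_sum, ← sum_add_distrib]
        exact sum_congr rfl fun l _ => by ring
      by_cases hi : i ∈ J
      · refine ⟨1, one_pos, fun ε _ => ?_⟩
        rw [hsum, hd i hi, mul_zero, add_zero]
        exact htT i
      · rw [hJ, Set.mem_ofPred_eq] at hi
        push Not at hi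
        have h2 : ∑ l, (A i l : ℝ) * t l < b i := lt_of_le_of_ne (htT i).2 hi.1
        have h3 : (lo i : ℝ) < ∑ l, (A i l : ℝ) * t l := lt_of_le_of_ne (htT i).1 hi.2.symm
        set D : ℝ := |∑ l, (A i l : ℝ) * d l| + 1 with hD
        have hD0 : 0 < D := by positivity
        refine ⟨min ((b i : ℝ) - ∑ l, (A i l : ℝ) * t l) (∑ l, (A i l : ℝ) * t l - lo i) / D,
          div_pos (lt_min (by linarith) (by linarith)) hD0, fun ε hε => ?_⟩
        rw [hsum]
        have h4 : |ε * ∑ l, (A i l : ℝ) * d l| ≤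
            min ((b i : ℝ) - ∑ l, (A i l : ℝ) * t l) (∑ l, (A i l : ℝ) * t l - lo i) := by
          rw [abs_mul]
          have h5 : |ε| * |∑ l, (A i l : ℝ) * d l| ≤ |ε| * D :=
            mul_le_mul_of_nonneg_left (by rw [hD]; linarith) (abs_nonneg _)
          refine h5.trans ?_
          rwa [le_div_iff₀ hD0] at hε
        have h5 := abs_le.1 (h4.trans (min_le_left _ _))
        have h6 := abs_le.1 (h4.trans (min_le_right _ _))
        constructor <;> linarith [h5.1, h5.2, h6.1, h6.2]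
    choose e he1 he2 using h1
    obtain ⟨ε, hε, hε'⟩ : ∃ ε : ℝ, 0 < ε ∧ ∀ i, ε ≤ e i := by
      rcases isEmpty_or_nonempty I with hI | hI
      · exact ⟨1, one_pos, fun i => hI.elim i⟩
      · obtain ⟨i0, hi0⟩ := Finite.exists_min e
        exact ⟨e i0, he1 i0, hi0⟩
    have hp : (fun l => t l + ε * d l) ∈ {t : Fin r → ℝ | ∀ i, (lo i : ℝ) ≤
        ∑ l, (A i l : ℝ) * t l ∧ ∑ l, (A i l : ℝ) * t l ≤ b i} := fun i =>
      he2 i ε (by rw [abs_of_pos hε]; exact hε' i)
    have hq : (fun l => t l + (-ε) * d l) ∈ {t : Fin r → ℝ | ∀ i, (lo i : ℝ) ≤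
        ∑ l, (A i l : ℝ) * t l ∧ ∑ l, (A i l : ℝ) * t l ≤ b i} := fun i =>
      he2 i (-ε) (by rw [abs_neg, abs_of_pos hε]; exact hε' i)
    have h2 := (hext _ hp _ hq ⟨1 / 2, 1 / 2, by norm_num, by norm_num, by norm_num, by
      funext l
      simp only [Pi.add_apply, Pi.smul_apply, smul_eq_mul]
      ring⟩).1
    funext l
    have h3 : t l + ε * d l = t l := congrFun h2 l
    have h4 : ε * d l = 0 := by linarith
    exact (mul_eq_zero.1 h4).resolve_left hε.ne'
  obtain ⟨f, hf1, hf2⟩ := exists_rows J (fun i l => (A i l : ℝ)) hker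
  set M : Matrix (Fin r) (Fin r) ℤ := Matrix.of fun i => A (f i) with hM
  have hMR : (Matrix.of fun i => (fun l => (A (f i) l : ℝ))) = M.map (Int.castRingHom ℝ) := by
    ext i l
    simp [hM]
  have hdet : ((Matrix.of fun i => (fun l => (A (f i) l : ℝ))) : Matrix _ _ ℝ).det =
      (M.det : ℝ) := by
    rw [hMR, ← RingHom.mapMatrix_apply, ← RingHom.map_det]
    simp
  have hdet0 : M.det ≠ 0 := by
    intro h0
    apply hf2
    rw [hdet, h0]
    simp
  have hunit : IsUnit M.det := by
    rw [Int.isUnit_iff_abs_eq]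
    have h1 := hA f
    have h2 := abs_pos.2 hdet0
    rw [← hM] at h1
    omega
  -- the integral values at the extreme point
  have hβ : ∀ i, ∃ β : ℤ, ∑ l, (A (f i) l : ℝ) * t l = β := by
    intro i
    rcases hf1 i with h | h
    · exact ⟨_, h⟩
    · exact ⟨_, h⟩
  choose β hβ using hβ
  set τ : Fin r → ℤ := M⁻¹.mulVec β with hτ
  have hMτ : M.mulVec τ = β := by
    rw [hτ, Matrix.mulVec_mulVec, Matrix.mul_nonsing_inv M hunit, Matrix.one_mulVec]
  have hτt : ∀ l, (τ l : ℝ) = t l := by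
    have h1 : Matrix.mulVec (Matrix.of fun i => (fun l => (A (f i) l : ℝ)))
        (fun l => (τ l : ℝ) - t l) = 0 := by
      funext i
      have h2 : ∑ l, A (f i) l * τ l = β i := congrFun hMτ i
      have h3 : ∑ l, (A (f i) l : ℝ) * (τ l : ℝ) = β i := by exact_mod_cast h2
      simp only [Matrix.mulVec, dotProduct, Matrix.of_apply, mul_sub, sum_sub_distrib,
        Pi.zero_apply]
      rw [h3, hβ i, sub_self]
    have h2 := Matrix.eq_zero_of_mulVec_eq_zero hf2 h1
    intro l
    have h3 := congrFun h2 l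
    simp only [Pi.zero_apply] at h3
    linarith
  refine ⟨τ, fun i => ?_⟩
  have h1 := htT i
  simp only [← hτt] at h1
  exact ⟨by exact_mod_cast h1.1, by exact_mod_cast h1.2⟩

section splitting

variable {m r : ℕ} {P : Set (Fin (m + r) → ℝ)}

/-- Splitting integral points of sums of unimodular fibres. -/
theorem unimod_split {I : Type*} [Finite I] (hcomp : IsCompact P) (hconv : Convex ℝ P)
    (hlin : Lin P) (A : I → Fin r → ℤ)
    (hA1 : ∀ f : Fin r → I, |(Matrix.of fun i => A (f i)).det| ≤ 1)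
    (c : I → Fin m → ℤ) (c₀ : I → ℤ)
    (hA : ∀ x : Fin (m + r) → ℝ, x ∈ P ↔ (fun i => x (Fin.castAdd r i)) ∈ base '' P ∧
      ∀ i, ∑ l, (A i l : ℝ) * x (Fin.natAdd m l) ≤
        ∑ l, (c i l : ℝ) * x (Fin.castAdd r l) + (c₀ i : ℝ)) :
    ∀ (k : ℕ) (y : Fin (k + 1) → (Fin m → ℤ)), (∀ a, toR (y a) ∈ base '' P) →
      ∀ X : Fin r → ℤ, (∀ i, ∑ l, A i l * X l ≤ ∑ a, (∑ l, c i l * y a l + c₀ i)) →
      ∃ Z : Fin (k + 1) → Fin r → ℤ, (∀ a i, ∑ l, A i l * Z a l ≤ ∑ l, c i l * y a l + c₀ i) ∧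
        ∑ a, Z a = X := by
  classical
  let bl : (Fin (m + r) → ℝ) →ₗ[ℝ] (Fin m → ℝ) :=
    { toFun := base, map_add' := base_add, map_smul' := base_smul }
  have hBconv : Convex ℝ (base '' P) := hconv.linear_image bl
  intro k
  induction k with
  | zero =>
    intro y hy X hX
    refine ⟨fun _ => X, fun a i => ?_, by simp⟩
    have := hX i
    rw [Fin.sum_univ_one] at this
    rwa [Fin.eq_zero a]
  | succ k ih =>
    intro y hy X hX
    set w : ℝ := ((k + 2 : ℕ) : ℝ)⁻¹ with hw
    have hk0 : ((k + 2 : ℕ) : ℝ) ≠ 0 := by positivity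
    have hw0 : 0 ≤ w := by positivity
    have hww : w * ((k + 2 : ℕ) : ℝ) = 1 := inv_mul_cancel₀ hk0
    set x : Fin (m + r) → ℝ := Fin.append (∑ a, w • toR (y a)) (fun l => w * (X l : ℝ)) with hx
    have hxc : ∀ l, x (Fin.castAdd r l) = w * ∑ a, (y a l : ℝ) := by
      intro l
      rw [hx, Fin.append_left, Finset.sum_apply, mul_sum]
      rfl
    have hbx : base x = ∑ a, w • toR (y a) := by
      funext l
      show x (Fin.castAdd r l) = _
      rw [hx, Fin.append_left]
    have hxP : x ∈ P := by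
      rw [hA]
      refine ⟨?_, fun i => ?_⟩
      · show base x ∈ base '' P
        rw [hbx]
        refine hBconv.sum_mem (fun _ _ => hw0) ?_ (fun a _ => hy a)
        rw [sum_const, card_univ, Fintype.card_fin, nsmul_eq_mul, mul_comm]
        exact hww
      · have h1 : ∑ l, (A i l : ℝ) * x (Fin.natAdd m l) =
            w * ((∑ l, A i l * X l : ℤ) : ℝ) := by
          push_cast
          rw [mul_sum]
          refine sum_congr rfl fun l _ => ?_
          rw [hx, Fin.append_right]
          ring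
        have h2 : ∑ l, (c i l : ℝ) * x (Fin.castAdd r l) + (c₀ i : ℝ) =
            w * ((∑ a, (∑ l, c i l * y a l + c₀ i) : ℤ) : ℝ) := by
          simp only [hxc]
          push_cast
          rw [sum_add_distrib, mul_add]
          congr 1
          · rw [sum_comm, mul_sum]
            refine sum_congr rfl fun l _ => ?_
            rw [mul_sum, mul_sum, mul_sum]
            exact sum_congr rfl fun a _ => by ring
          · rw [sum_const, card_univ, Fintype.card_fin, nsmul_eq_mul, ← mul_assoc]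
            rw [show w * ((k + 1 + 1 : ℕ) : ℝ) = 1 from hww, one_mul]
        rw [h1, h2]
        refine mul_le_mul_of_nonneg_left ?_ hw0
        exact_mod_cast hX i
    -- the two parts
    have hk1 : ((k + 1 : ℕ) : ℝ) ≠ 0 := by positivity
    have hw1 : w ≤ 1 := by
      rw [hw]
      exact inv_le_one_of_one_le₀ (by exact_mod_cast (by omega : 1 ≤ k + 2))
    have hw4 : 1 - w = w * ((k + 1 : ℕ) : ℝ) := by
      have h1 := hww
      push_cast at h1 ⊢
      linarith
    have hw2 : (1 - w) * ((k + 1 : ℕ) : ℝ)⁻¹ = w := by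
      rw [hw4, mul_assoc, mul_inv_cancel₀ hk1, mul_one]
    have hw3 : w ≠ 0 := inv_ne_zero hk0
    set y' : Fin m → ℝ := ∑ a : Fin (k + 1), ((k + 1 : ℕ) : ℝ)⁻¹ • toR (y a.succ) with hy'
    have hy'B : y' ∈ base '' P := by
      refine hBconv.sum_mem (fun _ _ => by positivity) ?_ (fun a _ => hy a.succ)
      rw [sum_const, card_univ, Fintype.card_fin, nsmul_eq_mul]
      exact mul_inv_cancel₀ hk1
    obtain ⟨p, hp, q, hq, hpb, hqb, hpq⟩ := hlin x hxP _ (hy 0) y' hy'B w hw0 hw1 (by
      rw [hbx, Fin.sum_univ_succ, hy', smul_sum]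
      congr 1
      refine sum_congr rfl fun a _ => ?_
      rw [smul_smul, hw2])
    set ξ : Fin r → ℝ := fun l => p (Fin.natAdd m l) with hξ
    set η : Fin r → ℝ := fun l => q (Fin.natAdd m l) with hη
    have hξc : ∀ i, ∑ l, (A i l : ℝ) * ξ l ≤ ((∑ l, c i l * y 0 l + c₀ i : ℤ) : ℝ) := by
      intro i
      have h1 := ((hA _).1 hp).2 i
      refine h1.trans (le_of_eq ?_)
      push_cast
      congr 1
      refine sum_congr rfl fun l _ => ?_
      have := congrFun hpb l
      rw [show p (Fin.castAdd r l) = (y 0 l : ℝ) from this]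
    have hηc : ∀ i, ((k + 1 : ℕ) : ℝ) * ∑ l, (A i l : ℝ) * η l ≤
          ((∑ a : Fin (k + 1), (∑ l, c i l * y a.succ l + c₀ i) : ℤ) : ℝ) := by
      intro i
      have h1 := ((hA _).1 hq).2 i
      have h2 := mul_le_mul_of_nonneg_left h1 (Nat.cast_nonneg (k + 1) :
        (0 : ℝ) ≤ ((k + 1 : ℕ) : ℝ))
      refine h2.trans (le_of_eq ?_)
      have h3 : ∀ l, ((k + 1 : ℕ) : ℝ) * q (Fin.castAdd r l) =
          ∑ a : Fin (k + 1), (y a.succ l : ℝ) := by
        intro l
        have h4 := congrFun hqb l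
        rw [show q (Fin.castAdd r l) = y' l from h4, hy', Finset.sum_apply]
        simp only [Pi.smul_apply, smul_eq_mul]
        rw [← mul_sum, ← mul_assoc, mul_inv_cancel₀ hk1, one_mul]
        rfl
      rw [mul_add, mul_sum]
      have h4 : ∀ l, ((k + 1 : ℕ) : ℝ) * ((c i l : ℝ) * q (Fin.castAdd r l)) =
          (c i l : ℝ) * ∑ a : Fin (k + 1), (y a.succ l : ℝ) := by
        intro l
        rw [← h3 l]; ring
      simp only [h4]
      push_cast
      rw [sum_add_distrib, sum_comm]
      congr 1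
      · exact sum_congr rfl fun l _ => mul_sum _ _ _
      · rw [sum_const, card_univ, Fintype.card_fin, nsmul_eq_mul]
        push_cast
        ring
    have hsum : ∀ l, (X l : ℝ) = ξ l + ((k + 1 : ℕ) : ℝ) * η l := by
      intro l
      have h1 := congrFun hpq (Fin.natAdd m l)
      rw [hx, Fin.append_right] at h1
      simp only [Pi.add_apply, Pi.smul_apply, smul_eq_mul] at h1
      rw [hw4] at h1
      have h3 : w * (X l : ℝ) = w * (ξ l + ((k + 1 : ℕ) : ℝ) * η l) := by
        rw [h1]; ring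
      exact mul_left_cancel₀ hw3 h3
    -- rounding
    set hi : I → ℤ := fun i => ∑ l, c i l * y 0 l + c₀ i with hhi
    set lo : I → ℤ := fun i => ∑ l, A i l * X l -
      ∑ a : Fin (k + 1), (∑ l, c i l * y a.succ l + c₀ i) with hlo
    set T : Set (Fin r → ℝ) := {t | ∀ i, (lo i : ℝ) ≤ ∑ l, (A i l : ℝ) * t l ∧
      ∑ l, (A i l : ℝ) * t l ≤ hi i} with hT
    have hTne : ξ ∈ T := by
      intro i
      refine ⟨?_, hξc i⟩
      have h1 := hηc i
      have h2 : ((∑ l, A i l * X l : ℤ) : ℝ) = ∑ l, (A i l : ℝ) * ξ l +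
          ((k + 1 : ℕ) : ℝ) * ∑ l, (A i l : ℝ) * η l := by
        push_cast
        rw [mul_sum, ← sum_add_distrib]
        refine sum_congr rfl fun l _ => ?_
        have := hsum l
        push_cast at this
        rw [this]; ring
      simp only [hlo]
      rw [Int.cast_sub, h2]
      linarith
    have hTP : ∀ t ∈ T, (Fin.append (toR (y 0)) t : Fin (m + r) → ℝ) ∈ P := by
      intro t ht
      rw [hA]
      have hb : (fun i => (Fin.append (toR (y 0)) t : Fin (m + r) → ℝ) (Fin.castAdd r i)) =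
          toR (y 0) := by
        funext i
        simp
      refine ⟨by rw [hb]; exact hy 0, fun i => ?_⟩
      have h1 := (ht i).2
      simp only [Fin.append_left, Fin.append_right]
      refine h1.trans (le_of_eq ?_)
      simp only [hhi]
      push_cast
      rfl
    have hTc : IsCompact T := by
      have hcl : IsClosed T := by
        have : T = ⋂ i, {t | (lo i : ℝ) ≤ ∑ l, (A i l : ℝ) * t l ∧
            ∑ l, (A i l : ℝ) * t l ≤ hi i} := by
          ext t; simp [hT]
        rw [this]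
        refine isClosed_iInter fun i => ?_
        have hcont : Continuous fun t : Fin r → ℝ => ∑ l, (A i l : ℝ) * t l := by fun_prop
        exact (isClosed_le continuous_const hcont).inter (isClosed_le hcont continuous_const)
      have hcont : Continuous fun (x : Fin (m + r) → ℝ) (l : Fin r) => x (Fin.natAdd m l) := by
        fun_prop
      refine (hcomp.image hcont).of_isClosed_subset hcl ?_
      intro t ht
      refine ⟨_, hTP t ht, ?_⟩
      funext l
      simp
    obtain ⟨Z0, hZ0⟩ := unimod_rounding A hA1 lo hi hTc ⟨ξ, hTne⟩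
    obtain ⟨Z, hZ1, hZ2⟩ := ih (fun a => y a.succ) (fun a => hy a.succ) (X - Z0) (fun i => by
      have h1 := (hZ0 i).1
      simp only [hlo] at h1
      have h2 : ∑ l, A i l * (X - Z0) l = ∑ l, A i l * X l - ∑ l, A i l * Z0 l := by
        rw [← sum_sub_distrib]
        exact sum_congr rfl fun l _ => by rw [Pi.sub_apply]; ring
      rw [h2]
      linarith)
    refine ⟨Fin.cons Z0 Z, fun a i => ?_, ?_⟩
    · refine Fin.cases ?_ (fun a => ?_) a
      · rw [Fin.cons_zero]
        exact (hZ0 i).2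
      · rw [Fin.cons_succ]
        exact hZ1 a i
    · rw [Fin.sum_univ_succ]
      simp only [Fin.cons_zero, Fin.cons_succ]
      rw [hZ2]
      abel

theorem unimod_idp {I : Type*} [Finite I] (hcomp : IsCompact P) (hconv : Convex ℝ P)
    (hlin : Lin P) (A : I → Fin r → ℤ)
    (hA1 : ∀ f : Fin r → I, |(Matrix.of fun i => A (f i)).det| ≤ 1)
    (c : I → Fin m → ℤ) (c₀ : I → ℤ)
    (hA : ∀ x : Fin (m + r) → ℝ, x ∈ P ↔ (fun i => x (Fin.castAdd r i)) ∈ base '' P ∧
      ∀ i, ∑ l, (A i l : ℝ) * x (Fin.natAdd m l) ≤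
        ∑ l, (c i l : ℝ) * x (Fin.castAdd r l) + (c₀ i : ℝ))
    (hI : IDP (base '' P)) : IDP P := by
  classical
  rintro k hk z ⟨x, hx, hzx⟩
  have hbz : toR (baseZ z) = (k : ℝ) • base x := by rw [← base_toR, hzx, base_smul]
  obtain ⟨f, hf1, hf2⟩ := hI k hk (baseZ z) ⟨base x, ⟨x, hx, rfl⟩, hbz⟩
  have hzi : ∀ i, (z i : ℝ) = k * x i := fun i => congrFun hzx i
  obtain ⟨k, rfl⟩ : ∃ k', k = k' + 1 := ⟨k - 1, by omega⟩
  obtain ⟨Z, hZ1, hZ2⟩ := unimod_split hcomp hconv hlin A hA1 c c₀ hA k f hf1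
    (fun l => z (Fin.natAdd m l)) (fun i => by
      have h1 := ((hA x).1 hx).2 i
      have h2 := mul_le_mul_of_nonneg_left h1
        (Nat.cast_nonneg (k + 1) : (0 : ℝ) ≤ ((k + 1 : ℕ) : ℝ))
      have h3 : ((∑ l, A i l * z (Fin.natAdd m l) : ℤ) : ℝ) =
          ((k + 1 : ℕ) : ℝ) * ∑ l, (A i l : ℝ) * x (Fin.natAdd m l) := by
        push_cast
        rw [mul_sum]
        refine sum_congr rfl fun l _ => ?_
        have := hzi (Fin.natAdd m l)
        push_cast at this
        rw [this]; ring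
      have h4 : ∑ a, (∑ l, c i l * f a l + c₀ i) =
          ∑ l, c i l * baseZ z l + (k + 1 : ℕ) * c₀ i := by
        rw [sum_add_distrib, sum_comm]
        congr 1
        · refine sum_congr rfl fun l _ => ?_
          rw [← mul_sum]
          congr 1
          have := congrFun hf2 l
          rwa [Finset.sum_apply] at this
        · simp
      have h5 : ((∑ l, A i l * z (Fin.natAdd m l) : ℤ) : ℝ) ≤
          ((∑ a, (∑ l, c i l * f a l + c₀ i) : ℤ) : ℝ) := by
        rw [h4, h3]
        refine h2.trans (le_of_eq ?_)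
        rw [mul_add, mul_sum]
        push_cast
        congr 1
        refine sum_congr rfl fun l _ => ?_
        show _ = (c i l : ℝ) * (z (Fin.castAdd r l) : ℝ)
        rw [hzi]
        push_cast
        ring
      exact_mod_cast h5)
  refine ⟨fun a => Fin.append (f a) (Z a), fun a => ?_, ?_⟩
  · rw [hA]
    have hb : (fun i => toR (Fin.append (f a) (Z a)) (Fin.castAdd r i)) = toR (f a) := by
      funext i
      simp [toR]
    have hbi : ∀ i, toR (Fin.append (f a) (Z a)) (Fin.castAdd r i) = (f a i : ℝ) :=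
      fun i => congrFun hb i
    have hbl : ∀ l, toR (Fin.append (f a) (Z a)) (Fin.natAdd m l) = (Z a l : ℝ) := by
      intro l
      simp [toR]
    refine ⟨by rw [hb]; exact hf1 a, fun i => ?_⟩
    simp only [hbi, hbl]
    exact_mod_cast hZ1 a i
  · funext i
    rw [Finset.sum_apply]
    refine Fin.addCases (fun i => ?_) (fun l => ?_) i
    · simp only [Fin.append_left]
      have := congrFun hf2 i
      rw [Finset.sum_apply] at this
      exact this
    · simp only [Fin.append_right]
      have := congrFun hZ2 l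
      rw [Finset.sum_apply] at this
      exact this

end splitting

end Pool.Agent.Helper517.IDPB
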