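import Pool.Agent.Helper517.Start

/-!
Growing all levels of a Cayley configuration over a common fan.
-/

namespace Pool.Agent.Helper517.Level

open Finset Pool.Agent.Helper517.Place Pool.Agent.Helper517.Step
open Pool.Agent.Helper517 Pool.Agent.Helper517.Cvx Pool.Agent.Helper517.Grow
open Pool.Agent.Helper517.Start Pool.Agent.Helper517.Step.Fan

variable {n N N' : ℕ} {F : Fan n}

lemma bump_eq (c : ZMod n → ℤ) (m i : ZMod n) :
    bump c m i = c i + (if i = m then 1 else 0) := by
  by_cases h : i = m
  · subst h; rw [bump_self, if_pos rfl]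
  · rw [bump_ne _ h, if_neg h, add_zero]

lemma len_bump (F : Fan n) (c : ZMod n → ℤ) (m i : ZMod n) :
    F.len (bump c m) i = F.len c i + (if i - 1 = m then 1 else 0) + (if i + 1 = m then 1 else 0) -
      F.k i * (if i = m then 1 else 0) := by
  simp only [Fan.len, bump_eq]
  ring

lemma bump_nef {c : ZMod n → ℤ} (hc : ∀ m, 0 ≤ F.len c m) {m : ZMod n}
    (hk : F.k m ≤ F.len c m) (i : ZMod n) : 0 ≤ F.len (bump c m) i := by
  rw [len_bump]
  have h0 := hc i
  by_cases h : i = m
  · subst h
    rw [if_pos rfl]
    split_ifs <;> omega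
  · rw [if_neg h]
    split_ifs <;> omega

lemma bump2_nef {c : ZMod n → ℤ} (hn : 2 ≤ n) (hc : ∀ m, 0 ≤ F.len c m) {m : ZMod n}
    (hk : F.len c m = F.k m - 1) (hk' : F.len c (m + 1) = F.k (m + 1) - 1) (i : ZMod n) :
    0 ≤ F.len (bump (bump c m) (m + 1)) i := by
  have : Fact (1 < n) := ⟨by omega⟩
  have hm1 : m + 1 ≠ m := by
    intro h
    have : (1 : ZMod n) = 0 := by
      have h2 : m + 1 = m + 0 := by rw [h, add_zero]
      exact add_left_cancel h2
    exact one_ne_zero this
  rw [len_bump, len_bump]
  have h0 := hc i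
  by_cases h : i = m
  · subst h
    rw [if_pos (rfl : i = i), if_pos (rfl : i + 1 = i + 1), if_neg (Ne.symm hm1)]
    split_ifs <;> omega
  · by_cases h' : i = m + 1
    · subst h'
      rw [if_pos (rfl : m + 1 = m + 1), if_neg hm1]
      rw [show m + 1 - 1 = m by ring, if_pos (rfl : m = m)]
      split_ifs <;> omega
    · rw [if_neg h, if_neg h']
      split_ifs <;> omega

lemma sum_bump [NeZero n] (a c : ZMod n → ℤ) (m : ZMod n) :
    ∑ i, (a i - bump c m i) = ∑ i, (a i - c i) - 1 := by
  have : ∀ i, a i - bump c m i = (a i - c i) - (if i = m then 1 else 0) := by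
    intro i; rw [bump_eq]; ring
  simp only [this]
  rw [sum_sub_distrib, sum_ite_eq' univ m]
  simp

variable {ι : Type*} [DecidableEq ι]

/-- Growing one level. -/
lemma grow_level [NeZero n] (h : TwoChain F N N') {a c0 : ZMod n → ℤ} (ha : ∀ m, 1 ≤ F.len a m)
    (hTop : TopOK F N N' a c0) (hBot : BotOK F N N' a c0) (j0 : ι) :
    ∀ (M : ℕ) (c : ι → ZMod n → ℤ) (A : Finset (Pt ι)), (∀ j m, 0 ≤ F.len (c j) m) →
      (∀ m, c0 m ≤ c j0 m) → (∀ m, c j0 m ≤ a m) → ∑ m, (a m - c j0 m) ≤ M → Good A →
      F.Conf c A → ∃ A', Good A' ∧ F.Conf (Function.update c j0 a) A' := by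
  intro M
  induction M with
  | zero =>
    intro c A hc h0c hca hM hG hA
    have e : c j0 = a := by
      funext m
      have h1 : ∑ m, (a m - c j0 m) = 0 := by
        have : 0 ≤ ∑ m, (a m - c j0 m) := sum_nonneg (fun m _ => by have := hca m; omega)
        push_cast at hM
        omega
      have h2 := (sum_eq_zero_iff_of_nonneg (fun m _ => by have := hca m; omega)).1 h1 m
        (mem_univ m)
      omega
    refine ⟨A, hG, ?_⟩
    rw [← e, Function.update_eq_self]
    exact hA
  | succ M ih =>
    intro c A hc h0c hca hM hG hA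
    by_cases e : c j0 = a
    · refine ⟨A, hG, ?_⟩
      rw [← e, Function.update_eq_self]
      exact hA
    have hN := h.N_pos
    have hN' := h.N'_pos
    have hn : 3 ≤ n := by have := h.hn; omega
    have hcvx : ∀ j, F.Cvx (c j) := fun j => h.cvx (hc j)
    have : Fact (1 < n) := ⟨by omega⟩
    obtain ⟨m, ⟨h1, h2⟩ | ⟨h1, h2, h3, h4⟩⟩ := grow_step h ha hTop hBot h0c hca (hc j0) e
    · have hb := bump_nef (hc j0) h2
      obtain ⟨A', hG', hA'⟩ := F.step_single (by omega) hcvx hG hA j0 m h2 (h.cvx hb)
      have := ih (Function.update c j0 (bump (c j0) m)) A' ?_ ?_ ?_ ?_ hG' hA'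
      · obtain ⟨A'', hG'', hA''⟩ := this
        rw [Function.update_idem] at hA''
        exact ⟨A'', hG'', hA''⟩
      · intro j i
        by_cases hj : j = j0
        · subst hj; rw [Function.update_self]; exact hb i
        · rw [Function.update_of_ne hj]; exact hc j i
      · intro i
        rw [Function.update_self]
        exact (h0c i).trans (le_bump _ _ _)
      · intro i
        rw [Function.update_self, bump_eq]
        have := hca i
        split_ifs with h5
        · subst h5; omega
        · omega
      · rw [Function.update_self, sum_bump]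
        push_cast at hM
        omega
    · have hb := bump2_nef (F := F) (by omega) (hc j0) h3 h4
      obtain ⟨A', hG', hA'⟩ := F.step_pair hn hcvx hG hA j0 m h3 h4 (h.cvx hb)
      have hm1 : m + 1 ≠ m := by
        intro h
        have : (1 : ZMod n) = 0 := by
          have h2 : m + 1 = m + 0 := by rw [h, add_zero]
          exact add_left_cancel h2
        exact one_ne_zero this
      have := ih (Function.update c j0 (bump (bump (c j0) m) (m + 1))) A' ?_ ?_ ?_ ?_ hG' hA'
      · obtain ⟨A'', hG'', hA''⟩ := this
        rw [Function.update_idem] at hA''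
        exact ⟨A'', hG'', hA''⟩
      · intro j i
        by_cases hj : j = j0
        · subst hj; rw [Function.update_self]; exact hb i
        · rw [Function.update_of_ne hj]; exact hc j i
      · intro i
        rw [Function.update_self]
        exact (h0c i).trans ((le_bump _ _ _).trans (le_bump _ _ _))
      · intro i
        rw [Function.update_self, bump_eq, bump_eq]
        have := hca i
        by_cases h5 : i = m
        · subst h5
          rw [if_pos rfl, if_neg (Ne.symm hm1)]; omega
        · rw [if_neg h5]
          split_ifs with h6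
          · subst h6; omega
          · omega
      · rw [Function.update_self, sum_bump, sum_bump]
        push_cast at hM
        omega

/-- A configuration of parallel segments. -/
lemma exists_segs [Fintype ι] (h : TwoChain F N N') (xl xr y : ι → ℤ) (hx : ∀ j, xl j ≤ xr j) :
    ∃ A : Finset (Pt ι), Good A ∧ F.Conf (fun j => seg F (xl j) (xr j) (y j)) A := by
  obtain ⟨A, hG, h1, h2⟩ := segs (∑ j, (xr j - xl j)).toNat xl xr y hx
    (Int.toNat_of_nonneg (sum_nonneg (fun j _ => by have := hx j; omega))).symm
  refine ⟨A, hG, ?_, ?_⟩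
  · intro z hz m
    obtain ⟨e1, e2, e3⟩ := h1 z hz
    rw [e1]
    have : F.p m * z.2.1 ≤ max (F.p m * xl z.1) (F.p m * xr z.1) := by
      rcases le_total 0 (F.p m) with h4 | h4
      · exact le_max_of_le_right (mul_le_mul_of_nonneg_left e3 h4)
      · exact le_max_of_le_left (mul_le_mul_of_nonpos_left e2 h4)
    simp only [seg]
    linarith
  · intro j m
    obtain ⟨e1 | e1, e2⟩ := seg_corner h (y j) (hx j) m
    · rw [e1, e2]; exact (h2 j).2
    · rw [e1, e2]; exact (h2 j).1

/-- A two-chain fan: every family of ample support vectors has a good configuration. -/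
theorem exists_good [Fintype ι] [NeZero n] (h : TwoChain F N N') (a : ι → ZMod n → ℤ)
    (ha : ∀ j m, 1 ≤ F.len (a j) m) : ∃ A : Finset (Pt ι), Good A ∧ F.Conf a A := by
  classical
  choose xl xr y hx hTop hBot hle using fun j => exists_start h (ha j)
  have key : ∀ s : Finset ι, ∃ A : Finset (Pt ι), Good A ∧
      F.Conf (fun j => if j ∈ s then a j else seg F (xl j) (xr j) (y j)) A := by
    intro s
    induction s using Finset.induction_on with
    | empty =>
      simpa using exists_segs h xl xr y hx
    | insert j0 s hj0 ih =>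
      obtain ⟨A, hG, hA⟩ := ih
      have := grow_level h (ha j0) (hTop j0) (hBot j0) j0
        (∑ m, (a j0 m - seg F (xl j0) (xr j0) (y j0) m)).toNat _ A ?_ ?_ ?_ ?_ hG hA
      · obtain ⟨A', hG', hA'⟩ := this
        refine ⟨A', hG', ?_⟩
        have e : (Function.update (fun j => if j ∈ s then a j else seg F (xl j) (xr j) (y j))
            j0 (a j0)) = fun j => if j ∈ insert j0 s then a j else seg F (xl j) (xr j) (y j) := by
          funext j
          by_cases hj : j = j0
          · subst hj; simp
          · rw [Function.update_of_ne hj]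
            simp [hj]
        rwa [e] at hA'
      · intro j m
        split_ifs
        · have := ha j m; omega
        · exact seg_nef F (y j) (hx j) m
      · intro m
        rw [if_neg hj0]
      · intro m
        rw [if_neg hj0]
        exact hle j0 m
      · rw [if_neg hj0]
        exact Int.self_le_toNat _
  obtain ⟨A, hG, hA⟩ := key univ
  refine ⟨A, hG, ?_⟩
  simpa using hA

/-- Growing one level, triangles. -/
lemma grow_tri (h : TwoChain F N N') (hkT : F.k ((N + 1 : ℕ) : ZMod n) = 1)
    {a : ZMod n → ℤ} (ha : ∀ m, 0 ≤ F.len a m) (j0 : ι) :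
    ∀ (M : ℕ) (c : ι → ZMod n → ℤ) (A : Finset (Pt ι)), (∀ j m, 0 ≤ F.len (c j) m) →
      (∀ m, m ≠ ((N + 1 : ℕ) : ZMod n) → c j0 m = a m) →
      (c j0 ((N + 1 : ℕ) : ZMod n) ≤ a ((N + 1 : ℕ) : ZMod n)) →
      a ((N + 1 : ℕ) : ZMod n) - c j0 ((N + 1 : ℕ) : ZMod n) ≤ M → Good A →
      F.Conf c A → ∃ A', Good A' ∧ F.Conf (Function.update c j0 a) A' := by
  intro M
  set T : ZMod n := ((N + 1 : ℕ) : ZMod n) with hT
  have hN := h.N_pos
  have hN' := h.N'_pos
  have hn : 3 ≤ n := by have := h.hn; omega
  have : Fact (1 < n) := ⟨by omega⟩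
  have hm1 : T + 1 ≠ T := by
    intro h
    have : (1 : ZMod n) = 0 := by
      have h2 : T + 1 = T + 0 := by rw [h, add_zero]
      exact add_left_cancel h2
    exact one_ne_zero this
  have hm2 : T - 1 ≠ T := by
    intro h
    have : (1 : ZMod n) = 0 := by
      have h2 : T - 1 = T - 0 := by rw [h, sub_zero]
      exact sub_right_injective h2
    exact one_ne_zero this
  have final : ∀ (c : ι → ZMod n → ℤ), (∀ m, m ≠ T → c j0 m = a m) → c j0 T = a T → c j0 = a := by
    intro c h1 h2
    funext m
    by_cases hm : m = T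
    · rw [hm]; exact h2
    · exact h1 m hm
  induction M with
  | zero =>
    intro c A hc h1 h2 h3 hG hA
    have e := final c h1 (by push_cast at h3; omega)
    refine ⟨A, hG, ?_⟩
    rw [← e, Function.update_eq_self]
    exact hA
  | succ M ih =>
    intro c A hc h1 h2 h3 hG hA
    rcases h2.lt_or_eq with h4 | h4
    · have hk : F.k T ≤ F.len (c j0) T := by
        have h5 := ha T
        simp only [Fan.len] at h5 ⊢
        rw [hkT] at h5 ⊢
        rw [h1 _ hm1, h1 _ hm2]
        omega
      have hb := bump_nef (hc j0) hk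
      have hcvx : ∀ j, F.Cvx (c j) := fun j => h.cvx (hc j)
      obtain ⟨A', hG', hA'⟩ := F.step_single (by omega) hcvx hG hA j0 T hk (h.cvx hb)
      have := ih (Function.update c j0 (bump (c j0) T)) A' ?_ ?_ ?_ ?_ hG' hA'
      · obtain ⟨A'', hG'', hA''⟩ := this
        rw [Function.update_idem] at hA''
        exact ⟨A'', hG'', hA''⟩
      · intro j i
        by_cases hj : j = j0
        · subst hj; rw [Function.update_self]; exact hb i
        · rw [Function.update_of_ne hj]; exact hc j i
      · intro i hi
        rw [Function.update_self, bump_ne _ hi]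
        exact h1 i hi
      · rw [Function.update_self, bump_self]; omega
      · rw [Function.update_self, bump_self]
        push_cast at h3
        omega
    · have e := final c h1 h4
      refine ⟨A, hG, ?_⟩
      rw [← e, Function.update_eq_self]
      exact hA

/-- Triangles: a fan with four rays, one of which is the sum of its neighbours; nef support vectors
suffice. -/
theorem exists_good_tri [Fintype ι] (h : TwoChain F 1 1) (hkT : F.k ((1 + 1 : ℕ) : ZMod n) = 1)
    (a : ι → ZMod n → ℤ) (ha : ∀ j m, 0 ≤ F.len (a j) m) :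
    ∃ A : Finset (Pt ι), Good A ∧ F.Conf a A := by
  classical
  set xl : ι → ℤ := fun j => F.ux (a j) (-1) with hxl
  set xr : ι → ℤ := fun j => F.ux (a j) 0 with hxr
  set y : ι → ℤ := fun j => - a j 0 with hy
  have hx : ∀ j, xl j ≤ xr j := by
    intro j
    have h1 := F.ux_prev (a j) 0
    rw [zero_sub, h.q0] at h1
    have h2 := ha j 0
    simp only [hxl, hxr]
    rw [h1]
    linarith
  have hp1 := h.p1
  have hpm1 := h.pm1
  have hTm : ((1 + 1 : ℕ) : ZMod n) = -((1 + 1 : ℕ) : ZMod n) := h.neg_top.symm
  -- the values of the segment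
  have s0 : ∀ j, seg F (xl j) (xr j) (y j) 0 = a j 0 := by
    intro j
    simp only [seg, h.p0, h.q0, hy]
    simp
  have s1 : ∀ j, seg F (xl j) (xr j) (y j) 1 = a j 1 := by
    intro j
    rw [seg_nonneg (hx j) (by rw [hp1]; norm_num)]
    have h1 := F.at_right (a j) 0
    rw [zero_add] at h1
    have h2 := uy_zero h (a j)
    rw [Nat.cast_zero] at h2
    rw [h2] at h1
    simp only [hxr, hy]
    exact h1
  have sm1 : ∀ j, seg F (xl j) (xr j) (y j) (-1) = a j (-1) := by
    intro j
    rw [seg_nonpos (hx j) (by rw [hpm1]; norm_num)]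
    have h1 := F.at_left (a j) (-1)
    have h2 := uy_neg_one h (a j)
    rw [zero_add, Nat.cast_one] at h2
    rw [h2] at h1
    simp only [hxl, hy]
    exact h1
  have sT : ∀ j, seg F (xl j) (xr j) (y j) ((1 + 1 : ℕ) : ZMod n) = - a j 0 := by
    intro j
    simp only [seg, h.pT, h.qT, hy]
    simp
  have hother : ∀ j m, m ≠ ((1 + 1 : ℕ) : ZMod n) → seg F (xl j) (xr j) (y j) m = a j m := by
    intro j m hm
    rcases h.cover_ray m with ⟨i, hi, rfl⟩ | ⟨i, hi, rfl⟩
    · interval_cases i
      · simpa using s0 j
      · simpa using s1 j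
      · exact absurd rfl hm
    · interval_cases i
      · simpa using s0 j
      · simpa using sm1 j
      · exact absurd hTm.symm hm
  have hTle : ∀ j, - a j 0 ≤ a j ((1 + 1 : ℕ) : ZMod n) := by
    intro j
    have h1 := (h.chainR (ha j)).Y_mono (Nat.zero_le 1) (by omega)
    rw [TwoChain.YR, TwoChain.YR, uy_zero h, uy_top h] at h1
    exact h1
  have key : ∀ s : Finset ι, ∃ A : Finset (Pt ι), Good A ∧
      F.Conf (fun j => if j ∈ s then a j else seg F (xl j) (xr j) (y j)) A := by
    intro s
    induction s using Finset.induction_on with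
    | empty =>
      simpa using exists_segs h xl xr y hx
    | insert j0 s hj0 ih =>
      obtain ⟨A, hG, hA⟩ := ih
      have := grow_tri h hkT (ha j0) j0
        (a j0 ((1 + 1 : ℕ) : ZMod n) - (- a j0 0)).toNat _ A ?_ ?_ ?_ ?_ hG hA
      · obtain ⟨A', hG', hA'⟩ := this
        refine ⟨A', hG', ?_⟩
        have e : (Function.update (fun j => if j ∈ s then a j else seg F (xl j) (xr j) (y j))
            j0 (a j0)) = fun j => if j ∈ insert j0 s then a j else seg F (xl j) (xr j) (y j) := by
          funext j
          by_cases hj : j = j0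
          · subst hj; simp
          · rw [Function.update_of_ne hj]
            simp [hj]
        rwa [e] at hA'
      · intro j m
        split_ifs
        · exact ha j m
        · exact seg_nef F (y j) (hx j) m
      · intro m hm
        rw [if_neg hj0]
        exact hother j0 m hm
      · rw [if_neg hj0, sT]
        exact hTle j0
      · rw [if_neg hj0, sT]
        exact Int.self_le_toNat _
  obtain ⟨A, hG, hA⟩ := key univ
  refine ⟨A, hG, ?_⟩
  simpa using hA

end Pool.Agent.Helper517.Level
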