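import Mathlib

/-!
Height functions all of whose lower faces are unimodular, for Cayley configurations of planar
lattice point sets: adding points one at a time.
-/

namespace Pool.Agent.Helper517.Place

open Finset

variable {ι : Type*} [DecidableEq ι]

/-- Points of a Cayley configuration: a level, and a point of the planar lattice. -/
abbrev Pt (ι : Type*) := ι × ℤ × ℤ

/-- Real affine functionals. -/
def AffR (g : Pt ι → ℝ) : Prop :=
  ∃ (α : ι → ℝ) (β γ : ℝ), ∀ z, g z = α z.1 + β * z.2.1 + γ * z.2.2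

/-- Integral affine functionals. -/
def AffZ (g : Pt ι → ℤ) : Prop :=
  ∃ (α : ι → ℤ) (β γ : ℤ), ∀ z, g z = α z.1 + β * z.2.1 + γ * z.2.2

/-- Lower faces of the configuration `A` lifted by `ω`. -/
def Low (A : Finset (Pt ι)) (ω : Pt ι → ℝ) (σ : Finset (Pt ι)) : Prop :=
  σ ⊆ A ∧ ∃ g : Pt ι → ℝ, AffR g ∧ (∀ v ∈ σ, g v = ω v) ∧ ∀ w ∈ A, w ∉ σ → g w < ω w

/-- Integral dual functionals. -/
def UniD (σ : Finset (Pt ι)) : Prop :=
  ∀ v ∈ σ, ∃ l : Pt ι → ℤ, AffZ l ∧ l v = 1 ∧ ∀ w ∈ σ, w ≠ v → l w = 0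

/-- Some height function has only unimodular lower faces. -/
def Good (A : Finset (Pt ι)) : Prop := ∃ ω : Pt ι → ℝ, ∀ σ, Low A ω σ → UniD σ

omit [DecidableEq ι] in
lemma AffZ.sub_mul {f g : Pt ι → ℤ} (hf : AffZ f) (hg : AffZ g) (k : ℤ) :
    AffZ (fun x => f x - k * g x) := by
  obtain ⟨a, b, c, h⟩ := hf
  obtain ⟨a', b', c', h'⟩ := hg
  exact ⟨fun i => a i - k * a' i, b - k * b', c - k * c', fun z => by simp only [h, h']; ring⟩

/-- The placing lemma. -/
lemma Good.place {A : Finset (Pt ι)} (hG : Good A) {w : Pt ι} (Φ : Set (Pt ι → ℤ))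
    (hΦ : ∀ φ ∈ Φ, AffZ φ ∧ φ w = 1)
    (hb : ∀ ω : Pt ι → ℝ, ∀ τ ⊆ A, (∀ φ ∈ Φ, ∃ a ∈ τ, φ a ≠ 0) →
      ∃ K : ℝ, ∀ g : Pt ι → ℝ, AffR g → (∀ a ∈ A, g a ≤ ω a) → (∀ a ∈ τ, g a = ω a) → g w ≤ K) :
    Good (insert w A) := by
  classical
  by_cases hwA : w ∈ A
  · rwa [insert_eq_of_mem hwA]
  obtain ⟨ω, hω⟩ := hG
  have h1 : ∀ τ : Finset (Pt ι), ∃ K : ℝ, τ ⊆ A → (∀ φ ∈ Φ, ∃ a ∈ τ, φ a ≠ 0) →
      ∀ g : Pt ι → ℝ, AffR g → (∀ a ∈ A, g a ≤ ω a) → (∀ a ∈ τ, g a = ω a) → g w ≤ K := by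
    intro τ
    by_cases h : τ ⊆ A ∧ ∀ φ ∈ Φ, ∃ a ∈ τ, φ a ≠ 0
    · obtain ⟨K, hK⟩ := hb ω τ h.1 h.2
      exact ⟨K, fun _ _ => hK⟩
    · exact ⟨0, fun h1 h2 => absurd ⟨h1, h2⟩ h⟩
  choose K hK using h1
  set M : ℝ := 1 + ∑ τ ∈ A.powerset, |K τ| with hM
  have hKM : ∀ τ, τ ⊆ A → K τ < M := by
    intro τ hτ
    have h2 := single_le_sum (f := fun τ => |K τ|) (fun _ _ => abs_nonneg _)
      (mem_powerset.2 hτ)
    have h3 := le_abs_self (K τ)
    linarith
  refine ⟨Function.update ω w M, ?_⟩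
  rintro σ ⟨hσA, g, hg, hg1, hg2⟩
  have hupd : ∀ a, a ≠ w → Function.update ω w M a = ω a := fun a ha => by
    rw [Function.update_of_ne ha]
  have hneA : ∀ a ∈ A, a ≠ w := fun a ha h => hwA (h ▸ ha)
  set τ := σ.erase w with hτdef
  have hτA : τ ⊆ A := by
    intro a ha
    obtain ⟨h3, h4⟩ := mem_erase.1 ha
    exact (mem_insert.1 (hσA h4)).resolve_left h3
  have hτg : ∀ a ∈ τ, g a = ω a := by
    intro a ha
    obtain ⟨h3, h4⟩ := mem_erase.1 ha
    rw [hg1 a h4, hupd a h3]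
  have hAg : ∀ a ∈ A, a ∉ τ → g a < ω a := by
    intro a ha haτ
    have h3 : a ∉ σ := fun h => haτ (mem_erase.2 ⟨hneA a ha, h⟩)
    have := hg2 a (mem_insert_of_mem ha) h3
    rwa [hupd a (hneA a ha)] at this
  have hAle : ∀ a ∈ A, g a ≤ ω a := by
    intro a ha
    by_cases h : a ∈ τ
    · exact (hτg a h).le
    · exact (hAg a ha h).le
  have hU : UniD τ := hω τ ⟨hτA, g, hg, hτg, hAg⟩
  by_cases hwσ : w ∈ σ
  · by_cases hbad : ∀ φ ∈ Φ, ∃ a ∈ τ, φ a ≠ 0
    · exfalso
      have h3 := hK τ hτA hbad g hg hAle hτg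
      have h4 := hKM τ hτA
      have h5 := hg1 w hwσ
      rw [Function.update_self] at h5
      linarith
    · push Not at hbad
      obtain ⟨φ, hφ, hφ0⟩ := hbad
      obtain ⟨hφA, hφw⟩ := hΦ φ hφ
      intro v hv
      by_cases hvw : v = w
      · subst hvw
        exact ⟨φ, hφA, hφw, fun u hu huv => hφ0 u (mem_erase.2 ⟨huv, hu⟩)⟩
      · have hvτ : v ∈ τ := mem_erase.2 ⟨hvw, hv⟩
        obtain ⟨l, hl, hl1, hl2⟩ := hU v hvτ
        refine ⟨fun x => l x - l w * φ x, hl.sub_mul hφA _, ?_, ?_⟩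
        · simp only; rw [hl1, hφ0 v hvτ]; ring
        · intro u hu huv
          by_cases huw : u = w
          · subst huw
            simp only; rw [hφw]; ring
          · have huτ : u ∈ τ := mem_erase.2 ⟨huw, hu⟩
            simp only; rw [hl2 u huτ huv, hφ0 u huτ]; ring
  · have : τ = σ := erase_eq_of_notMem hwσ
    rwa [this] at hU

omit [DecidableEq ι] in
/-- Any affine functional in terms of two independent integral ones. -/
lemma AffR.repr {φ ψ : Pt ι → ℤ} {A B : ι → ℤ} {P Q P' Q' : ℤ}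
    (hφ : ∀ z, φ z = A z.1 + P * z.2.1 + Q * z.2.2)
    (hψ : ∀ z, ψ z = B z.1 + P' * z.2.1 + Q' * z.2.2) (hdet : P * Q' - Q * P' ≠ 0)
    {g : Pt ι → ℝ} (hg : AffR g) :
    ∃ (α : ι → ℝ) (β γ : ℝ), ∀ z, g z = α z.1 + β * (φ z : ℝ) + γ * (ψ z : ℝ) := by
  obtain ⟨α, β, γ, h⟩ := hg
  have hD : ((P : ℝ) * Q' - Q * P') ≠ 0 := by exact_mod_cast hdet
  obtain ⟨u, v, e1, e2⟩ : ∃ u v : ℝ, u * P + v * P' = β ∧ u * Q + v * Q' = γ := by
    refine ⟨(β * Q' - γ * P') / ((P : ℝ) * Q' - Q * P'),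
      (γ * P - β * Q) / ((P : ℝ) * Q' - Q * P'), ?_, ?_⟩
    · rw [div_mul_eq_mul_div, div_mul_eq_mul_div, ← add_div, div_eq_iff hD]
      ring
    · rw [div_mul_eq_mul_div, div_mul_eq_mul_div, ← add_div, div_eq_iff hD]
      ring
  refine ⟨fun i => α i - u * A i - v * B i, u, v, fun z => ?_⟩
  rw [h, hφ, hψ, ← e1, ← e2]
  push_cast
  ring

omit [DecidableEq ι] in
lemma abs_le_sum {A : Finset (Pt ι)} (ω : Pt ι → ℝ) {a : Pt ι} (ha : a ∈ A) :
    |ω a| ≤ ∑ a ∈ A, |ω a| :=
  single_le_sum (f := fun a => |ω a|) (fun _ _ => abs_nonneg _) ha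

/-- From a bound for a positive multiple. -/
lemma bound_of {h G O : ℝ} (hh : 1 ≤ h) (hO : 0 ≤ O) (H : h * G ≤ (h + 2) * O) : G ≤ 3 * O := by
  by_contra hcon
  push Not at hcon
  have h1 : h * (3 * O) < h * G := by
    apply mul_lt_mul_of_pos_left hcon; linarith
  nlinarith

/-- Adding the first point of a new edge. -/
lemma Good.first {A : Finset (Pt ι)} (hG : Good A) {φ ψ : Pt ι → ℤ} {α₀ β₀ : ι → ℤ}
    {P Q P' Q' : ℤ}
    (hφ : ∀ z, φ z = α₀ z.1 + P * z.2.1 + Q * z.2.2)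
    (hψ : ∀ z, ψ z = β₀ z.1 + P' * z.2.1 + Q' * z.2.2) (hdet : P * Q' - Q * P' ≠ 0)
    {k : ℤ} {b : ι → ℤ} (hb : ∀ j, 0 ≤ b j)
    (h1 : ∀ z ∈ A, φ z ≤ 0) (h2 : ∀ z ∈ A, ψ z ≤ 0)
    (h3 : ∀ z ∈ A, k * φ z - ψ z - b z.1 ≤ 0)
    (up um : ι → Pt ι) (hup : ∀ j, up j ∈ A ∧ (up j).1 = j ∧ φ (up j) = 0 ∧ ψ (up j) = 0)
    (hum : ∀ j, um j ∈ A ∧ (um j).1 = j ∧ φ (um j) = 0 ∧ ψ (um j) = - b j)
    {w : Pt ι} (hkb : k ≤ b w.1) (hw1 : φ w = 1) (hw2 : ψ w = 0) :
    Good (insert w A) := by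
  refine hG.place {φ} ?_ ?_
  · rintro _ rfl
    exact ⟨⟨α₀, P, Q, hφ⟩, hw1⟩
  · intro ω τ hτ hbad
    obtain ⟨a, haτ, ha0⟩ := hbad φ rfl
    have haA := hτ haτ
    refine ⟨3 * ∑ a ∈ A, |ω a|, fun g hg hgA hgτ => ?_⟩
    obtain ⟨α, β, γ, hrep⟩ := hg.repr hφ hψ hdet
    have hO : 0 ≤ ∑ a ∈ A, |ω a| := sum_nonneg (fun _ _ => abs_nonneg _)
    set O := ∑ a ∈ A, |ω a| with hOdef
    have hgO : ∀ a ∈ A, g a ≤ O := fun a ha =>
      (hgA a ha).trans ((le_abs_self _).trans (abs_le_sum ω ha))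
    set h : ℤ := - φ a with hh
    set y : ℤ := - ψ a with hy
    have e1 : 1 ≤ h := by have := h1 a haA; omega
    have e2 : 0 ≤ y := by have := h2 a haA; omega
    have e3 : y ≤ b a.1 + k * h := by
      have := h3 a haA
      have h4 : k * φ a = -(k * h) := by rw [hh]; ring
      rw [h4] at this
      omega
    have e4 : y ≤ b a.1 + h * b w.1 := by nlinarith
    have hbj := hb a.1
    have hb0 := hb w.1
    have hT0 : 0 ≤ b a.1 + h * b w.1 := by positivity
    have hga : g a = ω a := hgτ a haτ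
    have hωa : - O ≤ ω a := by
      have := abs_le_sum ω haA
      have h5 := neg_abs_le (ω a)
      linarith
    -- the weights
    obtain ⟨s, hs0, hs1, hs⟩ : ∃ s : ℝ, 0 ≤ s ∧ s ≤ 1 ∧
        s * ((b a.1 : ℝ) + h * b w.1) = y := by
      rcases hT0.lt_or_eq with hT | hT
      · have hT' : (0 : ℝ) < (b a.1 : ℝ) + h * b w.1 := by exact_mod_cast hT
        refine ⟨(y : ℝ) / ((b a.1 : ℝ) + h * b w.1), ?_, ?_, ?_⟩
        · apply div_nonneg _ hT'.le
          exact_mod_cast e2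
        · rw [div_le_one hT']
          exact_mod_cast e4
        · field_simp
      · refine ⟨0, le_rfl, zero_le_one, ?_⟩
        have : y = 0 := by omega
        rw [this]; simp
    obtain ⟨p1, p2, p3, p4⟩ := hup a.1
    obtain ⟨m1, m2, m3, m4⟩ := hum a.1
    obtain ⟨p1', p2', p3', p4'⟩ := hup w.1
    obtain ⟨m1', m2', m3', m4'⟩ := hum w.1
    have k1 := hgO _ p1
    have k2 := hgO _ m1
    have k3 := hgO _ p1'
    have k4 := hgO _ m1'
    have hhR : (1 : ℝ) ≤ (h : ℝ) := by exact_mod_cast e1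
    have key : g a + h * g w = (1 - s) * g (up a.1) + s * g (um a.1) +
        h * ((1 - s) * g (up w.1) + s * g (um w.1)) := by
      rw [hrep a, hrep w, hrep (up a.1), hrep (um a.1), hrep (up w.1), hrep (um w.1)]
      rw [p2, p3, p4, m2, m3, m4, p2', p3', p4', m2', m3', m4', hw1, hw2]
      have c1 : (φ a : ℝ) = -(h : ℝ) := by rw [hh]; push_cast; ring
      have c2 : (ψ a : ℝ) = -(y : ℝ) := by rw [hy]; push_cast; ring
      rw [c1, c2, ← hs]
      push_cast
      ring
    apply bound_of hhR hO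
    have b1 : (1 - s) * g (up a.1) + s * g (um a.1) ≤ O := by nlinarith
    have b2 : (1 - s) * g (up w.1) + s * g (um w.1) ≤ O := by nlinarith
    have b3 : (h : ℝ) * ((1 - s) * g (up w.1) + s * g (um w.1)) ≤ h * O :=
      mul_le_mul_of_nonneg_left b2 (by linarith)
    have : (h : ℝ) * g w = (1 - s) * g (up a.1) + s * g (um a.1) +
        h * ((1 - s) * g (up w.1) + s * g (um w.1)) - ω a := by rw [← hga]; linarith
    rw [this]
    nlinarith

/-- Adding a further point of a new edge. The points `W 0, …, W t` of the new edge are already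
present, `w` is the next one. -/
lemma Good.next {A : Finset (Pt ι)} (hG : Good A) {φ ψ : Pt ι → ℤ} {α₀ β₀ : ι → ℤ}
    {P Q P' Q' : ℤ}
    (hφ : ∀ z, φ z = α₀ z.1 + P * z.2.1 + Q * z.2.2)
    (hψ : ∀ z, ψ z = β₀ z.1 + P' * z.2.1 + Q' * z.2.2) (hdet : P * Q' - Q * P' ≠ 0)
    {k : ℤ} {b : ι → ℤ} {w : Pt ι} {t : ℤ}
    (hA : ∀ z ∈ A, (φ z ≤ 0 ∧ k * φ z - ψ z - b z.1 ≤ 0) ∨
      (z.1 = w.1 ∧ φ z = 1 ∧ 0 ≤ - ψ z ∧ - ψ z ≤ t))
    (um : ι → Pt ι)
    (hum : ∀ j, um j ∈ A ∧ (um j).1 = j ∧ φ (um j) = 0 ∧ ψ (um j) = - b j)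
    {wt : Pt ι} (hwt : wt ∈ A) (hwt0 : wt.1 = w.1) (hwt1 : φ wt = 1) (hwt2 : ψ wt = - t)
    (hkb : k + t + 1 ≤ b w.1) (hw1 : φ w = 1) (hw2 : ψ w = - (t + 1)) :
    Good (insert w A) := by
  set c : ℤ := b w.1 - k - t with hc
  have hc1 : 1 ≤ c := by omega
  refine hG.place {fun z => (c + k) * φ z - ψ z - b z.1} ?_ ?_
  · rintro _ rfl
    refine ⟨⟨fun i => (c + k) * α₀ i - β₀ i - b i, (c + k) * P - P', (c + k) * Q - Q', fun z => ?_⟩,
      ?_⟩
    · simp only [hφ, hψ]; ring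
    · simp only [hw1, hw2]; omega
  · intro ω τ hτ hbad
    obtain ⟨a, haτ, ha0⟩ := hbad _ rfl
    have haA := hτ haτ
    refine ⟨3 * ∑ a ∈ A, |ω a|, fun g hg hgA hgτ => ?_⟩
    obtain ⟨α, β, γ, hrep⟩ := hg.repr hφ hψ hdet
    have hO : 0 ≤ ∑ a ∈ A, |ω a| := sum_nonneg (fun _ _ => abs_nonneg _)
    set O := ∑ a ∈ A, |ω a| with hOdef
    have hgO : ∀ a ∈ A, g a ≤ O := fun a ha =>
      (hgA a ha).trans ((le_abs_self _).trans (abs_le_sum ω ha))
    have hga : g a = ω a := hgτ a haτ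
    have hωa : - O ≤ ω a := by
      have := abs_le_sum ω haA
      have h5 := neg_abs_le (ω a)
      linarith
    have hgwt := hgO _ hwt
    rcases hA a haA with ⟨f1, f2⟩ | ⟨f1, f2, f3, f4⟩
    · -- an old point
      set h : ℤ := - φ a with hh
      set e : ℤ := - (k * φ a - ψ a - b a.1) with he
      set s : ℤ := c * h + e with hs
      have e1 : 0 ≤ h := by omega
      have e2 : 0 ≤ e := by omega
      have hsne : s ≠ 0 := by
        intro hs0
        apply ha0
        have : (c + k) * φ a - ψ a - b a.1 = - s := by rw [hs, he, hh]; ring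
        rw [this, hs0]; rfl
      have hs0 : 0 ≤ s := by positivity
      have hs1 : 1 ≤ s := by omega
      have hsh : 0 ≤ s - h := by
        have : s - h = (c - 1) * h + e := by rw [hs]; ring
        rw [this]
        have : 0 ≤ c - 1 := by omega
        positivity
      obtain ⟨m1, m2, m3, m4⟩ := hum a.1
      obtain ⟨m1', m2', m3', m4'⟩ := hum w.1
      have k1 := hgO _ m1
      have k2 := hgO _ m1'
      have key : g a + s * g w = (s - h) * g wt + h * g (um w.1) + g (um a.1) := by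
        rw [hrep a, hrep w, hrep wt, hrep (um a.1), hrep (um w.1)]
        rw [m2, m3, m4, m2', m3', m4', hw1, hw2, hwt0, hwt1, hwt2]
        have c1 : (φ a : ℝ) = -(h : ℝ) := by rw [hh]; push_cast; ring
        have c2 : (ψ a : ℝ) = -(k : ℝ) * h + e - b a.1 := by rw [he, hh]; push_cast; ring
        have c3 : (s : ℝ) = c * h + e := by rw [hs]; push_cast; ring
        have c4 : (b w.1 : ℝ) = c + k + t := by rw [hc]; push_cast; ring
        rw [c1, c2, c3]
        push_cast
        rw [c4]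
        ring
      have hsR : (1 : ℝ) ≤ (s : ℝ) := by exact_mod_cast hs1
      have hshR : (0 : ℝ) ≤ (s : ℝ) - h := by exact_mod_cast hsh
      have hhR : (0 : ℝ) ≤ (h : ℝ) := by exact_mod_cast e1
      apply bound_of hsR hO
      have b1 : ((s : ℝ) - h) * g wt ≤ (s - h) * O := mul_le_mul_of_nonneg_left hgwt hshR
      have b2 : (h : ℝ) * g (um w.1) ≤ h * O := mul_le_mul_of_nonneg_left k2 hhR
      have : (s : ℝ) * g w = (s - h) * g wt + h * g (um w.1) + g (um a.1) - ω a := by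
        rw [← hga]; linarith
      rw [this]
      nlinarith
    · -- an earlier point of the new edge
      set r : ℤ := t + ψ a with hr
      have hr0 : 0 ≤ r := by omega
      have hrne : r ≠ 0 := by
        intro h0
        apply ha0
        simp only [f1, f2]
        omega
      have hr1 : 1 ≤ r := by omega
      have key : g a + r * g w = (r + 1) * g wt := by
        rw [hrep a, hrep w, hrep wt, f1, f2, hw1, hw2, hwt0, hwt1, hwt2]
        have c2 : (ψ a : ℝ) = r - t := by rw [hr]; push_cast; ring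
        rw [c2]
        push_cast
        ring
      have hrR : (1 : ℝ) ≤ (r : ℝ) := by exact_mod_cast hr1
      apply bound_of hrR hO
      have b1 : ((r : ℝ) + 1) * g wt ≤ (r + 1) * O :=
        mul_le_mul_of_nonneg_left hgwt (by linarith)
      have : (r : ℝ) * g w = (r + 1) * g wt - ω a := by rw [← hga]; linarith
      rw [this]
      nlinarith

/-- Adding a single point beyond two adjacent edges. -/
lemma Good.corner {A : Finset (Pt ι)} (hG : Good A) {φ ψ : Pt ι → ℤ} {α₀ β₀ : ι → ℤ}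
    {P Q P' Q' : ℤ}
    (hφ : ∀ z, φ z = α₀ z.1 + P * z.2.1 + Q * z.2.2)
    (hψ : ∀ z, ψ z = β₀ z.1 + P' * z.2.1 + Q' * z.2.2) (hdet : P * Q' - Q * P' ≠ 0)
    {k k' : ℤ} {b b' : ι → ℤ} (hb : ∀ j, 0 ≤ b j) (hb' : ∀ j, 0 ≤ b' j)
    (h1 : ∀ z ∈ A, φ z ≤ 0) (h2 : ∀ z ∈ A, ψ z ≤ 0)
    (h3 : ∀ z ∈ A, k * φ z - ψ z - b z.1 ≤ 0)
    (h4 : ∀ z ∈ A, k' * ψ z - φ z - b' z.1 ≤ 0)
    (u um up : ι → Pt ι) (hu : ∀ j, u j ∈ A ∧ (u j).1 = j ∧ φ (u j) = 0 ∧ ψ (u j) = 0)
    (hum : ∀ j, um j ∈ A ∧ (um j).1 = j ∧ φ (um j) = 0 ∧ ψ (um j) = - b j)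
    (hup : ∀ j, up j ∈ A ∧ (up j).1 = j ∧ φ (up j) = - b' j ∧ ψ (up j) = 0)
    {w : Pt ι} (hkb : b w.1 = k - 1) (hkb' : b' w.1 = k' - 1) (hw1 : φ w = 1) (hw2 : ψ w = 1) :
    Good (insert w A) := by
  refine hG.place {φ, ψ} ?_ ?_
  · rintro f (rfl | rfl)
    · exact ⟨⟨α₀, P, Q, hφ⟩, hw1⟩
    · exact ⟨⟨β₀, P', Q', hψ⟩, hw2⟩
  · intro ω τ hτ hbad
    obtain ⟨a, haτ, ha0⟩ := hbad φ (by simp)
    obtain ⟨a', haτ', ha0'⟩ := hbad ψ (by simp)
    have haA := hτ haτ
    have haA' := hτ haτ'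
    refine ⟨5 * ∑ a ∈ A, |ω a|, fun g hg hgA hgτ => ?_⟩
    obtain ⟨α, β, γ, hrep⟩ := hg.repr hφ hψ hdet
    have hO : 0 ≤ ∑ a ∈ A, |ω a| := sum_nonneg (fun _ _ => abs_nonneg _)
    set O := ∑ a ∈ A, |ω a| with hOdef
    have hgO : ∀ a ∈ A, g a ≤ O := fun a ha =>
      (hgA a ha).trans ((le_abs_self _).trans (abs_le_sum ω ha))
    have hωO : ∀ a ∈ A, - O ≤ ω a := fun a ha => by
      have := abs_le_sum ω ha
      have h5 := neg_abs_le (ω a)
      linarith
    -- a point strictly below both lines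
    have both : ∀ a ∈ τ, φ a < 0 → ψ a < 0 → g w ≤ 3 * O := by
      intro a haτ q1 q2
      have haA := hτ haτ
      have hga : g a = ω a := hgτ a haτ
      have hωa := hωO a haA
      set x : ℤ := - φ a with hx
      set y : ℤ := - ψ a with hy
      have x1 : 1 ≤ x := by omega
      have y1 : 1 ≤ y := by omega
      obtain ⟨n1, n2, n3, n4⟩ := hu a.1
      obtain ⟨n1', n2', n3', n4'⟩ := hu w.1
      have k1 := hgO _ n1
      have k3 := hgO _ n1'
      rcases le_total x y with hxy | hyx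
      · have e3 : y - x ≤ b a.1 + x * b w.1 := by
          have := h3 a haA
          have h5 : k * φ a = -(k * x) := by rw [hx]; ring
          rw [h5] at this
          rw [hkb]
          nlinarith
        have hbj := hb a.1
        have hb0 := hb w.1
        have hT0 : 0 ≤ b a.1 + x * b w.1 := by positivity
        obtain ⟨s, hs0, hs1, hs⟩ : ∃ s : ℝ, 0 ≤ s ∧ s ≤ 1 ∧
            s * ((b a.1 : ℝ) + x * b w.1) = y - x := by
          rcases hT0.lt_or_eq with hT | hT
          · have hT' : (0 : ℝ) < (b a.1 : ℝ) + x * b w.1 := by exact_mod_cast hT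
            refine ⟨((y : ℝ) - x) / ((b a.1 : ℝ) + x * b w.1), ?_, ?_, ?_⟩
            · apply div_nonneg _ hT'.le
              have : (x : ℝ) ≤ y := by exact_mod_cast hxy
              linarith
            · rw [div_le_one hT']
              exact_mod_cast e3
            · field_simp
          · refine ⟨0, le_rfl, zero_le_one, ?_⟩
            have : y = x := by omega
            rw [this]; simp
        obtain ⟨m1, m2, m3, m4⟩ := hum a.1
        obtain ⟨m1', m2', m3', m4'⟩ := hum w.1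
        have k2 := hgO _ m1
        have k4 := hgO _ m1'
        have hhR : (1 : ℝ) ≤ (x : ℝ) := by exact_mod_cast x1
        have key : g a + x * g w = (1 - s) * g (u a.1) + s * g (um a.1) +
            x * ((1 - s) * g (u w.1) + s * g (um w.1)) := by
          rw [hrep a, hrep w, hrep (u a.1), hrep (um a.1), hrep (u w.1), hrep (um w.1)]
          rw [n2, n3, n4, m2, m3, m4, n2', n3', n4', m2', m3', m4', hw1, hw2]
          have c1 : (φ a : ℝ) = -(x : ℝ) := by rw [hx]; push_cast; ring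
          have c2 : (ψ a : ℝ) = -(s * ((b a.1 : ℝ) + x * b w.1) + x) := by
            rw [hs, hy]; push_cast; ring
          rw [c1, c2]
          push_cast
          ring
        apply bound_of hhR hO
        have b1 : (1 - s) * g (u a.1) + s * g (um a.1) ≤ O := by nlinarith
        have b2 : (1 - s) * g (u w.1) + s * g (um w.1) ≤ O := by nlinarith
        have b3 : (x : ℝ) * ((1 - s) * g (u w.1) + s * g (um w.1)) ≤ x * O :=
          mul_le_mul_of_nonneg_left b2 (by linarith)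
        have : (x : ℝ) * g w = (1 - s) * g (u a.1) + s * g (um a.1) +
            x * ((1 - s) * g (u w.1) + s * g (um w.1)) - ω a := by rw [← hga]; linarith
        rw [this]
        nlinarith
      · have e3 : x - y ≤ b' a.1 + y * b' w.1 := by
          have := h4 a haA
          have h5 : k' * ψ a = -(k' * y) := by rw [hy]; ring
          rw [h5] at this
          rw [hkb']
          nlinarith
        have hbj := hb' a.1
        have hb0 := hb' w.1
        have hT0 : 0 ≤ b' a.1 + y * b' w.1 := by positivity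
        obtain ⟨s, hs0, hs1, hs⟩ : ∃ s : ℝ, 0 ≤ s ∧ s ≤ 1 ∧
            s * ((b' a.1 : ℝ) + y * b' w.1) = x - y := by
          rcases hT0.lt_or_eq with hT | hT
          · have hT' : (0 : ℝ) < (b' a.1 : ℝ) + y * b' w.1 := by exact_mod_cast hT
            refine ⟨((x : ℝ) - y) / ((b' a.1 : ℝ) + y * b' w.1), ?_, ?_, ?_⟩
            · apply div_nonneg _ hT'.le
              have : (y : ℝ) ≤ x := by exact_mod_cast hyx
              linarith
            · rw [div_le_one hT']
              exact_mod_cast e3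
            · field_simp
          · refine ⟨0, le_rfl, zero_le_one, ?_⟩
            have : x = y := by omega
            rw [this]; simp
        obtain ⟨m1, m2, m3, m4⟩ := hup a.1
        obtain ⟨m1', m2', m3', m4'⟩ := hup w.1
        have k2 := hgO _ m1
        have k4 := hgO _ m1'
        have hhR : (1 : ℝ) ≤ (y : ℝ) := by exact_mod_cast y1
        have key : g a + y * g w = (1 - s) * g (u a.1) + s * g (up a.1) +
            y * ((1 - s) * g (u w.1) + s * g (up w.1)) := by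
          rw [hrep a, hrep w, hrep (u a.1), hrep (up a.1), hrep (u w.1), hrep (up w.1)]
          rw [n2, n3, n4, m2, m3, m4, n2', n3', n4', m2', m3', m4', hw1, hw2]
          have c1 : (ψ a : ℝ) = -(y : ℝ) := by rw [hy]; push_cast; ring
          have c2 : (φ a : ℝ) = -(s * ((b' a.1 : ℝ) + y * b' w.1) + y) := by
            rw [hs, hx]; push_cast; ring
          rw [c1, c2]
          push_cast
          ring
        apply bound_of hhR hO
        have b1 : (1 - s) * g (u a.1) + s * g (up a.1) ≤ O := by nlinarith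
        have b2 : (1 - s) * g (u w.1) + s * g (up w.1) ≤ O := by nlinarith
        have b3 : (y : ℝ) * ((1 - s) * g (u w.1) + s * g (up w.1)) ≤ y * O :=
          mul_le_mul_of_nonneg_left b2 (by linarith)
        have : (y : ℝ) * g w = (1 - s) * g (u a.1) + s * g (up a.1) +
            y * ((1 - s) * g (u w.1) + s * g (up w.1)) - ω a := by rw [← hga]; linarith
        rw [this]
        nlinarith
    have l1 : φ a < 0 := lt_of_le_of_ne (h1 a haA) ha0
    have l2 : ψ a' < 0 := lt_of_le_of_ne (h2 a' haA') ha0'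
    by_cases c1 : ψ a < 0
    · linarith [both a haτ l1 c1]
    by_cases c2 : φ a' < 0
    · linarith [both a' haτ' c2 l2]
    have d1 : ψ a = 0 := le_antisymm (h2 a haA) (not_lt.1 c1)
    have d2 : φ a' = 0 := le_antisymm (h1 a' haA') (not_lt.1 c2)
    set x : ℤ := - φ a with hx
    set y : ℤ := - ψ a' with hy
    have x1 : 1 ≤ x := by omega
    have y1 : 1 ≤ y := by omega
    obtain ⟨n1, n2, n3, n4⟩ := hu a.1
    obtain ⟨n1', n2', n3', n4'⟩ := hu a'.1
    obtain ⟨n1'', n2'', n3'', n4''⟩ := hu w.1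
    have k1 := hgO _ n1
    have k2 := hgO _ n1'
    have k3 := hgO _ n1''
    have key : y * g a + x * g a' + x * y * g w =
        y * g (u a.1) + x * g (u a'.1) + x * y * g (u w.1) := by
      rw [hrep a, hrep a', hrep w, hrep (u a.1), hrep (u a'.1), hrep (u w.1)]
      rw [n2, n3, n4, n2', n3', n4', n2'', n3'', n4'', hw1, hw2, d1, d2]
      have c1 : (φ a : ℝ) = -(x : ℝ) := by rw [hx]; push_cast; ring
      have c2 : (ψ a' : ℝ) = -(y : ℝ) := by rw [hy]; push_cast; ring
      rw [c1, c2]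
      push_cast
      ring
    rw [hgτ a haτ, hgτ a' haτ'] at key
    have hxR : (1 : ℝ) ≤ (x : ℝ) := by exact_mod_cast x1
    have hyR : (1 : ℝ) ≤ (y : ℝ) := by exact_mod_cast y1
    have hxyR : (0 : ℝ) < (x : ℝ) * y := by positivity
    have o1 := hωO a haA
    have o2 := hωO a' haA'
    by_contra hcon
    push Not at hcon
    have b1 : (y : ℝ) * g (u a.1) ≤ y * O := mul_le_mul_of_nonneg_left k1 (by linarith)
    have b2 : (x : ℝ) * g (u a'.1) ≤ x * O := mul_le_mul_of_nonneg_left k2 (by linarith)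
    have b3 : (x : ℝ) * y * g (u w.1) ≤ x * y * O := mul_le_mul_of_nonneg_left k3 hxyR.le
    have b4 : (y : ℝ) * (-O) ≤ y * ω a := mul_le_mul_of_nonneg_left o1 (by linarith)
    have b5 : (x : ℝ) * (-O) ≤ x * ω a' := mul_le_mul_of_nonneg_left o2 (by linarith)
    have b6 : (x : ℝ) * y * (5 * O) < x * y * g w := mul_lt_mul_of_pos_left hcon hxyR
    have b7 : (x : ℝ) * O ≤ x * y * O := by
      have : (x : ℝ) * 1 ≤ x * y := mul_le_mul_of_nonneg_left hyR (by linarith)
      rw [mul_one] at this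
      exact mul_le_mul_of_nonneg_right this hO
    have b8 : (y : ℝ) * O ≤ x * y * O := by
      have : 1 * (y : ℝ) ≤ x * y := mul_le_mul_of_nonneg_right hxR (by linarith)
      rw [one_mul] at this
      exact mul_le_mul_of_nonneg_right this hO
    nlinarith

/-- Parallel segments. -/
lemma segs [Fintype ι] : ∀ (N : ℕ) (l r Y : ι → ℤ), (∀ j, l j ≤ r j) → ∑ j, (r j - l j) = N →
    ∃ A : Finset (Pt ι), Good A ∧ (∀ z ∈ A, z.2.2 = Y z.1 ∧ l z.1 ≤ z.2.1 ∧ z.2.1 ≤ r z.1) ∧
      ∀ j, (j, l j, Y j) ∈ A ∧ (j, r j, Y j) ∈ A := by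
  intro N
  induction N with
  | zero =>
    intro l r Y hlr hN
    have hrl : ∀ j, r j = l j := by
      intro j
      have h1 : ∀ j ∈ univ, 0 ≤ r j - l j := fun j _ => by have := hlr j; omega
      have h2 := (sum_eq_zero_iff_of_nonneg h1).1 (by simpa using hN) j (mem_univ j)
      omega
    refine ⟨univ.image (fun j => (j, l j, Y j)), ⟨fun _ => 0, ?_⟩, ?_, ?_⟩
    · rintro σ ⟨hσ, -⟩ v hv
      obtain ⟨j, -, rfl⟩ := mem_image.1 (hσ hv)
      refine ⟨fun z => if z.1 = j then 1 else 0, ⟨fun i => if i = j then 1 else 0, 0, 0,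
        fun z => by simp⟩, by simp, ?_⟩
      intro w hw hwv
      obtain ⟨i, -, rfl⟩ := mem_image.1 (hσ hw)
      have : i ≠ j := fun h => hwv (by rw [h])
      simp [this]
    · intro z hz
      obtain ⟨i, -, rfl⟩ := mem_image.1 hz
      exact ⟨rfl, le_rfl, (hrl i).ge⟩
    · intro j
      rw [hrl j]
      exact ⟨mem_image_of_mem _ (mem_univ j), mem_image_of_mem (fun j => (j, l j, Y j)) (mem_univ j)⟩
  | succ N ih =>
    intro l r Y hlr hN
    obtain ⟨j0, hj0⟩ : ∃ j, l j < r j := by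
      by_contra hcon
      push Not at hcon
      have : ∑ j, (r j - l j) = 0 := sum_eq_zero (fun j _ => by
        have h1 := hlr j; have h2 := hcon j; omega)
      rw [this] at hN
      push_cast at hN
      omega
    set r' : ι → ℤ := Function.update r j0 (r j0 - 1) with hr'
    have hr'0 : r' j0 = r j0 - 1 := by rw [hr', Function.update_self]
    have hr'1 : ∀ j, j ≠ j0 → r' j = r j := fun j hj => by rw [hr', Function.update_of_ne hj]
    have hlr' : ∀ j, l j ≤ r' j := by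
      intro j
      by_cases h : j = j0
      · subst h; omega
      · rw [hr'1 j h]; exact hlr j
    have hr'r : ∀ j, r' j ≤ r j := by
      intro j
      by_cases h : j = j0
      · subst h; omega
      · rw [hr'1 j h]
    have hN' : ∑ j, (r' j - l j) = N := by
      have h1 : ∑ j, (r j - l j) - ∑ j, (r' j - l j) = 1 := by
        rw [← sum_sub_distrib, sum_eq_single j0]
        · rw [hr'0]; ring
        · intro j _ hj
          rw [hr'1 j hj]; ring
        · intro h; exact absurd (mem_univ j0) h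
      rw [hN] at h1
      push_cast at h1
      omega
    obtain ⟨A, hG, hA1, hA2⟩ := ih l r' Y hlr' hN'
    have hG' : Good (insert (j0, r j0, Y j0) A) := by
      refine hG.place {fun z => z.2.1 - r' z.1} ?_ ?_
      · rintro _ rfl
        refine ⟨⟨fun i => - r' i, 1, 0, fun z => by ring⟩, ?_⟩
        simp only; omega
      · intro ω τ hτ hbad
        obtain ⟨a, haτ, ha0⟩ := hbad _ rfl
        have haA := hτ haτ
        refine ⟨3 * ∑ a ∈ A, |ω a|, fun g hg hgA hgτ => ?_⟩
        obtain ⟨α, β, γ, hrep⟩ := hg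
        have hO : 0 ≤ ∑ a ∈ A, |ω a| := sum_nonneg (fun _ _ => abs_nonneg _)
        set O := ∑ a ∈ A, |ω a| with hOdef
        have hgO : ∀ a ∈ A, g a ≤ O := fun a ha =>
          (hgA a ha).trans ((le_abs_self _).trans (abs_le_sum ω ha))
        have hga : g a = ω a := hgτ a haτ
        have hωa : - O ≤ ω a := by
          have := abs_le_sum ω haA
          have h5 := neg_abs_le (ω a)
          linarith
        obtain ⟨q1, q2, q3⟩ := hA1 a haA
        set h : ℤ := r' a.1 - a.2.1 with hh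
        have hne : h ≠ 0 := fun h0 => ha0 (by omega)
        have h1 : 1 ≤ h := by omega
        have k1 := hgO _ (hA2 a.1).2
        have k2 := hgO _ (hA2 j0).2
        have key : g a + h * g (j0, r j0, Y j0) =
            g (a.1, r' a.1, Y a.1) + h * g (j0, r' j0, Y j0) := by
          rw [hrep a, hrep (j0, r j0, Y j0), hrep (a.1, r' a.1, Y a.1), hrep (j0, r' j0, Y j0)]
          simp only
          rw [hr'0, q1]
          have c1 : (a.2.1 : ℝ) = r' a.1 - h := by rw [hh]; push_cast; ring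
          rw [c1]
          push_cast
          ring
        have hhR : (1 : ℝ) ≤ (h : ℝ) := by exact_mod_cast h1
        apply bound_of hhR hO
        have b1 : (h : ℝ) * g (j0, r' j0, Y j0) ≤ h * O :=
          mul_le_mul_of_nonneg_left k2 (by linarith)
        rw [hga] at key
        nlinarith
    refine ⟨_, hG', ?_, ?_⟩
    · intro z hz
      rcases mem_insert.1 hz with rfl | hz
      · exact ⟨rfl, hlr j0, le_rfl⟩
      · obtain ⟨q1, q2, q3⟩ := hA1 z hz
        exact ⟨q1, q2, q3.trans (hr'r _)⟩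
    · intro j
      refine ⟨mem_insert_of_mem (hA2 j).1, ?_⟩
      by_cases h : j = j0
      · subst h; exact mem_insert_self _ _
      · rw [← hr'1 j h]
        exact mem_insert_of_mem (hA2 j).2

end Pool.Agent.Helper517.Place
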