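import Pool.Agent.Helper517.Smooth

/-!
Smooth polytopes fibred over a base: every vertex has `r` vertical edges. Sections through the
vertices.
-/

namespace Pool.Agent.Helper517.Sect

open Finset Pool.Agent.Helper517.Conv Pool.Agent.Helper517.Frame Pool.Agent.Helper517.Smooth
open Pool.Agent.Helper517

section lin

variable {d : ℕ}

/-- Integral linear functionals at real points. -/
def linR (a : Fin d → ℤ) (x : Fin d → ℝ) : ℝ := ∑ z, (a z : ℝ) * x z

lemma linR_add (a : Fin d → ℤ) (x y : Fin d → ℝ) : linR a (x + y) = linR a x + linR a y := by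
  simp only [linR, Pi.add_apply, mul_add, sum_add_distrib]

lemma linR_sub (a : Fin d → ℤ) (x y : Fin d → ℝ) : linR a (x - y) = linR a x - linR a y := by
  simp only [linR, Pi.sub_apply, mul_sub, sum_sub_distrib]

lemma linR_smul (a : Fin d → ℤ) (c : ℝ) (x : Fin d → ℝ) : linR a (c • x) = c * linR a x := by
  simp only [linR, Pi.smul_apply, smul_eq_mul, mul_sum]
  exact sum_congr rfl (fun z _ => by ring)

lemma linR_sum {ι : Type*} (a : Fin d → ℤ) (s : Finset ι) (x : ι → Fin d → ℝ) :
    linR a (∑ i ∈ s, x i) = ∑ i ∈ s, linR a (x i) := by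
  classical
  induction s using Finset.induction_on with
  | empty => simp [linR]
  | insert i s hi ih => rw [sum_insert hi, sum_insert hi, linR_add, ih]

lemma linR_toR (a x : Fin d → ℤ) : linR a (toR x) = ((a ⬝ᵥ x : ℤ) : ℝ) := by
  simp only [linR, toR, dotProduct]
  push_cast
  rfl

lemma linR_zero (a : Fin d → ℤ) : linR a 0 = 0 := by simp [linR]

/-- Expansion of real vectors in a lattice basis. -/
lemma reprR {u D : Fin d → (Fin d → ℤ)} (hD : DualBasis u D) (x : Fin d → ℝ) :
    x = ∑ i, linR (D i) x • toR (u i) := by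
  have key : ∀ z z', ∑ i, D i z * u i z' = if z = z' then 1 else 0 := by
    intro z z'
    have h := congrFun (hD.repr (Pi.single z 1)) z'
    rw [Finset.sum_apply] at h
    simp only [Pi.smul_apply, smul_eq_mul, dotProduct_single, mul_one] at h
    rw [← h, Pi.single_apply]
    simp only [eq_comm]
  funext z'
  rw [Finset.sum_apply]
  simp only [Pi.smul_apply, smul_eq_mul, linR, toR, sum_mul]
  rw [sum_comm]
  calc x z' = ∑ z, x z * (if z = z' then 1 else 0) := by simp
    _ = ∑ z, ∑ i, (D i z : ℝ) * x z * (u i z' : ℝ) := by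
      refine sum_congr rfl (fun z _ => ?_)
      have h := key z z'
      have h' : (∑ i, (D i z : ℝ) * (u i z' : ℝ)) = if z = z' then 1 else 0 := by
        exact_mod_cast h
      rw [← h', mul_sum]
      exact sum_congr rfl (fun i _ => by ring)

end lin

variable {m r : ℕ}

/-- The projection to the first `m` coordinates. -/
def base (x : Fin (m + r) → ℝ) : Fin m → ℝ := fun i => x (Fin.castAdd r i)

lemma base_add (x y : Fin (m + r) → ℝ) : base (x + y) = base x + base y := rfl

lemma base_sub (x y : Fin (m + r) → ℝ) : base (x - y) = base x - base y := rfl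

lemma base_smul (c : ℝ) (x : Fin (m + r) → ℝ) : base (c • x) = c • base x := rfl

/-- Data at a vertex with `r` vertical edges. -/
structure VD (P : Set (Fin (m + r) → ℝ)) (v : Fin (m + r) → ℤ)
    (u D : Fin (m + r) → (Fin (m + r) → ℤ)) : Prop where
  dual : DualBasis u D
  mem : toR v ∈ P
  edge : ∀ i, toR (v + u i) ∈ P
  pos : ∀ x ∈ P, ∀ i, 0 ≤ linR (D i) (x - toR v)
  vert : ∀ (i : Fin r) (z : Fin m), u (Fin.natAdd m i) (Fin.castAdd r z) = 0

namespace VD

variable {P : Set (Fin (m + r) → ℝ)} {v : Fin (m + r) → ℤ}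
  {u D : Fin (m + r) → (Fin (m + r) → ℤ)}

lemma dual_vert (h : VD P v u D) (i : Fin m) (z : Fin r) :
    D (Fin.castAdd r i) (Fin.natAdd m z) = 0 := by
  classical
  have key : ∀ z z', ∑ i, D i z * u i z' = if z = z' then 1 else 0 := by
    intro z z'
    have h := congrFun (h.dual.repr (Pi.single z 1)) z'
    rw [Finset.sum_apply] at h
    simp only [Pi.smul_apply, smul_eq_mul, dotProduct_single, mul_one] at h
    rw [← h, Pi.single_apply]
    simp only [eq_comm]
  let A : Matrix (Fin m) (Fin m) ℤ := Matrix.of fun i z => u (Fin.castAdd r i) (Fin.castAdd r z)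
  let G : Matrix (Fin m) (Fin m) ℤ := Matrix.of fun z i => D (Fin.castAdd r i) (Fin.castAdd r z)
  have hGA : G * A = 1 := by
    ext z z'
    rw [Matrix.mul_apply, Matrix.one_apply]
    have h1 := key (Fin.castAdd r z) (Fin.castAdd r z')
    rw [Fin.sum_univ_add] at h1
    simp only [h.vert, mul_zero, sum_const_zero, add_zero, Fin.castAdd_inj] at h1
    exact h1
  have hAG : A * G = 1 := mul_eq_one_comm.1 hGA
  let δ : Fin m → ℤ := fun i => D (Fin.castAdd r i) (Fin.natAdd m z)
  have hδ : Matrix.vecMul δ A = 0 := by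
    funext z'
    have h1 := key (Fin.natAdd m z) (Fin.castAdd r z')
    rw [Fin.sum_univ_add] at h1
    simp only [h.vert, mul_zero, sum_const_zero, add_zero] at h1
    rw [if_neg] at h1
    · exact h1
    · intro hc
      have := congrArg Fin.val hc
      simp at this
      have := z'.isLt
      omega
  have h2 : δ = 0 := by
    have h3 : Matrix.vecMul δ (A * G) = 0 := by
      rw [← Matrix.vecMul_vecMul, hδ, Matrix.zero_vecMul]
    rwa [hAG, Matrix.vecMul_one] at h3
  exact congrFun h2 i

lemma lin_vert (h : VD P v u D) (i : Fin m) {x : Fin (m + r) → ℝ} (hx : base x = 0) :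
    linR (D (Fin.castAdd r i)) x = 0 := by
  rw [linR, Fin.sum_univ_add]
  have h1 : ∀ z : Fin m, x (Fin.castAdd r z) = 0 := fun z => congrFun hx z
  simp only [h1, mul_zero, sum_const_zero, h.dual_vert, Int.cast_zero, zero_mul, add_zero]

/-- Vertical vectors. -/
lemma repr_vert (h : VD P v u D) {x : Fin (m + r) → ℝ} (hx : base x = 0) :
    x = ∑ l : Fin r, linR (D (Fin.natAdd m l)) x • toR (u (Fin.natAdd m l)) := by
  have h1 := reprR h.dual x
  rw [Fin.sum_univ_add] at h1
  simp only [h.lin_vert _ hx, zero_smul, sum_const_zero, zero_add] at h1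
  exact h1

lemma eq_zero_of_vert (h : VD P v u D) {x : Fin (m + r) → ℝ} (hx : base x = 0)
    (hx' : ∀ l, linR (D (Fin.natAdd m l)) x = 0) : x = 0 := by
  rw [h.repr_vert hx]
  simp [hx']

lemma base_u (h : VD P v u D) (l : Fin r) : base (toR (u (Fin.natAdd m l))) = 0 := by
  funext z
  simp only [base, toR, h.vert, Int.cast_zero, Pi.zero_apply]

/-- The face through `v` transversal to the fibres. -/
def face (P : Set (Fin (m + r) → ℝ)) (v : Fin (m + r) → ℤ)
    (D : Fin (m + r) → (Fin (m + r) → ℤ)) : Set (Fin (m + r) → ℝ) :=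
  {x | x ∈ P ∧ ∀ l : Fin r, linR (D (Fin.natAdd m l)) (x - toR v) = 0}

lemma mem_face (h : VD P v u D) : toR v ∈ face P v D :=
  ⟨h.mem, fun l => by rw [sub_self, linR_zero]⟩

lemma edge_face (h : VD P v u D) (i : Fin m) : toR (v + u (Fin.castAdd r i)) ∈ face P v D := by
  refine ⟨h.edge _, fun l => ?_⟩
  rw [toR_add, add_sub_cancel_left, linR_toR, h.dual.dual, if_neg]
  · simp
  · intro hc
    have := congrArg Fin.val hc
    simp at this
    have := i.isLt
    omega

lemma convex_face (hP : Convex ℝ P) : Convex ℝ (face P v D) := by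
  rintro x ⟨hx, hx'⟩ y ⟨hy, hy'⟩ a b ha hb hab
  refine ⟨hP hx hy ha hb hab, fun l => ?_⟩
  have e : a • x + b • y - toR v = a • (x - toR v) + b • (y - toR v) := by
    funext z
    simp only [Pi.sub_apply, Pi.add_apply, Pi.smul_apply, smul_eq_mul]
    linear_combination (toR v z) * hab
  rw [e, linR_add, linR_smul, linR_smul, hx', hy']
  ring

lemma continuous_linR {d : ℕ} (a : Fin d → ℤ) : Continuous (linR a) := by
  unfold linR
  fun_prop

lemma compact_face (hP : IsCompact P) : IsCompact (face P v D) := by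
  have : face P v D = P ∩ ⋂ l : Fin r, {x | linR (D (Fin.natAdd m l)) (x - toR v) = 0} := by
    ext x
    simp only [face, Set.mem_ofPred_eq, Set.mem_inter_iff, Set.mem_iInter]
  rw [this]
  refine hP.inter_right (isClosed_iInter fun l => ?_)
  exact isClosed_eq ((continuous_linR _).comp (continuous_id.sub continuous_const))
    continuous_const

lemma extreme_face (h : VD P v u D) : IsExtreme ℝ P (face P v D) := by
  refine ⟨fun x hx => hx.1, ?_⟩
  rintro x hx y hy z ⟨_, hz⟩ hseg
  obtain ⟨a, b, ha, hb, hab, rfl⟩ := hseg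
  refine ⟨hx, fun l => ?_⟩
  have e : a • x + b • y - toR v = a • (x - toR v) + b • (y - toR v) := by
    funext z
    simp only [Pi.sub_apply, Pi.add_apply, Pi.smul_apply, smul_eq_mul]
    linear_combination (toR v z) * hab
  have h1 := hz l
  rw [e, linR_add, linR_smul, linR_smul] at h1
  have h2 := h.pos x hx (Fin.natAdd m l)
  have h3 := h.pos y hy (Fin.natAdd m l)
  have h4 := mul_nonneg hb.le h3
  have h5 : a * linR (D (Fin.natAdd m l)) (x - toR v) ≤ 0 := by linarith
  have h6 : linR (D (Fin.natAdd m l)) (x - toR v) ≤ 0 := by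
    by_contra hcon
    push Not at hcon
    have := mul_pos ha hcon
    linarith
  linarith

lemma continuous_base : Continuous (base : (Fin (m + r) → ℝ) → (Fin m → ℝ)) := by
  unfold base
  fun_prop

lemma edge_nonneg (h : VD P v u D) {z : Fin (m + r) → ℤ} {u' D' : Fin (m + r) → (Fin (m + r) → ℤ)}
    (h' : VD P z u' D') (hz : toR z ∈ face P v D) (i : Fin (m + r)) (l : Fin r) :
    0 ≤ linR (D (Fin.natAdd m l)) (toR (u' i)) := by
  have h1 := h.pos _ (h'.edge i) (Fin.natAdd m l)
  have h2 := hz.2 l
  rw [toR_add, add_sub_right_comm, linR_add, h2, zero_add] at h1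
  exact h1

/-- The transversal edges at a vertex of the face lie in the face. -/
lemma edges_in_face (h : VD P v u D) {z : Fin (m + r) → ℤ}
    {u' D' : Fin (m + r) → (Fin (m + r) → ℤ)} (h' : VD P z u' D') (hz : toR z ∈ face P v D)
    (i0 : Fin m) (l0 : Fin r) :
    linR (D (Fin.natAdd m l0)) (toR (u' (Fin.castAdd r i0))) = 0 := by
  classical
  by_contra hne
  have hpos : 0 < linR (D (Fin.natAdd m l0)) (toR (u' (Fin.castAdd r i0))) :=
    lt_of_le_of_ne (h.edge_nonneg h' hz _ _) (Ne.symm hne)
  have key : ∀ p ∈ face P v D, linR (D' (Fin.castAdd r i0)) (p - toR z) = 0 := by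
    intro p hp
    have e1 := reprR h'.dual (p - toR z)
    have e2 : linR (D (Fin.natAdd m l0)) (p - toR z) = 0 := by
      have e3 : p - toR z = (p - toR v) - (toR z - toR v) := by abel
      rw [e3, linR_sub, hp.2 l0, hz.2 l0, sub_zero]
    rw [e1, linR_sum] at e2
    simp only [linR_smul] at e2
    have e4 : ∀ i ∈ (univ : Finset (Fin (m + r))),
        0 ≤ linR (D' i) (p - toR z) * linR (D (Fin.natAdd m l0)) (toR (u' i)) :=
      fun i _ => mul_nonneg (h'.pos p hp.1 i) (h.edge_nonneg h' hz i l0)
    have e5 := (sum_eq_zero_iff_of_nonneg e4).1 e2 (Fin.castAdd r i0) (mem_univ _)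
    exact (mul_eq_zero.1 e5).resolve_right hne
  have k1 : ∀ i : Fin m, linR (D' (Fin.castAdd r i0)) (toR (u (Fin.castAdd r i))) = 0 := by
    intro i
    have e1 := key _ (h.edge_face i)
    have e2 := key _ h.mem_face
    rw [toR_add, add_sub_right_comm, linR_add, e2, zero_add] at e1
    exact e1
  have k2 : ∀ l : Fin r, linR (D' (Fin.castAdd r i0)) (toR (u (Fin.natAdd m l))) = 0 :=
    fun l => h'.lin_vert i0 (h.base_u l)
  have k3 : linR (D' (Fin.castAdd r i0)) (toR (u' (Fin.castAdd r i0))) = 0 := by
    rw [reprR h.dual (toR (u' (Fin.castAdd r i0))), linR_sum, Fin.sum_univ_add]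
    simp only [linR_smul, k1, k2, mul_zero, sum_const_zero, add_zero]
  rw [linR_toR, h'.dual.dual, if_pos rfl] at k3
  norm_num at k3

/-- The face through a vertex transversal to the fibres maps onto the base. -/
theorem face_onto {S : Set (Fin (m + r) → ℤ)} (hS : S.Finite) (hP : P = convexHull ℝ (toR '' S))
    (hVD : ∀ v, toR v ∈ P.extremePoints ℝ → ∃ u D, VD P v u D) (h : VD P v u D) :
    ∀ x ∈ P, ∃ z ∈ face P v D, base z = base x := by
  classical
  intro x0 hx0
  by_contra hcon
  push Not at hcon
  have hcomp : IsCompact P := by rw [hP]; exact (hS.image _).isCompact_convexHull (𝕜 := ℝ)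
  have hconv : Convex ℝ P := by rw [hP]; exact convex_convexHull ℝ _
  have hFc : IsCompact (face P v D) := compact_face hcomp
  have hFconv : Convex ℝ (face P v D) := convex_face hconv
  let bl : (Fin (m + r) → ℝ) →ₗ[ℝ] (Fin m → ℝ) :=
    { toFun := base, map_add' := base_add, map_smul' := base_smul }
  have hRc : IsCompact (base '' face P v D) := hFc.image continuous_base
  have hRconv : Convex ℝ (base '' face P v D) := hFconv.linear_image bl
  have hx0R : base x0 ∉ base '' face P v D := by
    rintro ⟨z, hz, hzx⟩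
    exact hcon z hz hzx
  obtain ⟨f, c, hf1, hf2⟩ := geometric_hahn_banach_point_closed hRconv hRc.isClosed hx0R
  have hEsub : (face P v D).extremePoints ℝ ⊆ P.extremePoints ℝ :=
    h.extreme_face.extremePoints_subset_extremePoints
  have hPE : P.extremePoints ℝ ⊆ toR '' S := by
    rw [hP]
    exact extremePoints_convexHull_subset
  have hEfin : ((face P v D).extremePoints ℝ).Finite := (hS.image _).subset (hEsub.trans hPE)
  have hEne := hFc.extremePoints_nonempty ⟨_, h.mem_face⟩
  obtain ⟨z, hzE, hzmin⟩ := Set.exists_min_image _ (fun x => f (base x)) hEfin hEne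
  have hmin : ∀ p ∈ face P v D, f (base z) ≤ f (base p) := by
    intro p hp
    rw [← closure_convexHull_extremePoints hFc hFconv] at hp
    have hcl : IsClosed {p : Fin (m + r) → ℝ | f (base z) ≤ f (base p)} :=
      isClosed_le continuous_const (f.continuous.comp continuous_base)
    have hcv : Convex ℝ {p : Fin (m + r) → ℝ | f (base z) ≤ f (base p)} := by
      intro p hp q hq a b ha hb hab
      show f (base z) ≤ f (base (a • p + b • q))
      have hp' : f (base z) ≤ f (base p) := hp
      have hq' : f (base z) ≤ f (base q) := hq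
      rw [base_add, base_smul, base_smul, map_add, map_smul, map_smul, smul_eq_mul, smul_eq_mul]
      have h1 := mul_le_mul_of_nonneg_left hp' ha
      have h2 := mul_le_mul_of_nonneg_left hq' hb
      have h3 : f (base z) = a * f (base z) + b * f (base z) := by rw [← add_mul, hab, one_mul]
      linarith
    exact (closure_minimal (convexHull_min (fun q hq => hzmin q hq) hcv) hcl) hp
  obtain ⟨z', _, rfl⟩ := hPE (hEsub hzE)
  have hzF : toR z' ∈ face P v D := hzE.1
  obtain ⟨u', D', h'⟩ := hVD z' (hEsub hzE)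
  have hstep : ∀ i : Fin m, 0 ≤ f (base (toR (u' (Fin.castAdd r i)))) := by
    intro i
    have h1 : toR (z' + u' (Fin.castAdd r i)) ∈ face P v D := by
      refine ⟨h'.edge _, fun l => ?_⟩
      rw [toR_add, add_sub_right_comm, linR_add, hzF.2, h.edges_in_face h' hzF, add_zero]
    have h2 := hmin _ h1
    rw [toR_add, base_add, map_add] at h2
    linarith
  have hstep' : ∀ l : Fin r, f (base (toR (u' (Fin.natAdd m l)))) = 0 := by
    intro l
    rw [h'.base_u, map_zero]
  have e1 := reprR h'.dual (x0 - toR z')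
  have e2 : f (base x0) = f (base (toR z')) +
      ∑ i : Fin (m + r), linR (D' i) (x0 - toR z') * f (base (toR (u' i))) := by
    have e3 : x0 = toR z' + ∑ i : Fin (m + r), linR (D' i) (x0 - toR z') • toR (u' i) := by
      rw [← e1]; abel
    have e4 : base x0 = base (toR z') +
        ∑ i : Fin (m + r), linR (D' i) (x0 - toR z') • base (toR (u' i)) := by
      have := congrArg bl e3
      rw [map_add, map_sum] at this
      simp only [map_smul] at this
      exact this
    rw [e4, map_add, map_sum]
    simp only [map_smul, smul_eq_mul]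
  have e5 : 0 ≤ ∑ i : Fin (m + r), linR (D' i) (x0 - toR z') * f (base (toR (u' i))) := by
    rw [Fin.sum_univ_add]
    simp only [hstep', mul_zero, sum_const_zero, add_zero]
    exact sum_nonneg (fun i _ => mul_nonneg (h'.pos x0 hx0 _) (hstep i))
  have e6 := hf2 _ ⟨_, hzF, rfl⟩
  linarith

end VD

end Pool.Agent.Helper517.Sect
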