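import Pool.Agent.Helper517.Sect

/-!
Sections through the vertices and vertical edges over the whole base.
-/

namespace Pool.Agent.Helper517.Sect

open Finset Pool.Agent.Helper517.Conv Pool.Agent.Helper517.Frame Pool.Agent.Helper517.Smooth
open Pool.Agent.Helper517

variable {m r : ℕ}

/-- Lifting a base point. -/
def lift (y : Fin m → ℝ) : Fin (m + r) → ℝ := Fin.append y 0

lemma base_lift (y : Fin m → ℝ) : base (lift y : Fin (m + r) → ℝ) = y := by
  funext i
  simp [base, lift]

lemma lift_comb (y y' : Fin m → ℝ) (a b : ℝ) :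
    (lift (a • y + b • y') : Fin (m + r) → ℝ) = a • lift y + b • lift y' := by
  funext i
  refine Fin.addCases (fun i => ?_) (fun i => ?_) i
  · simp [lift]
  · simp [lift]

/-- The section through `v`. -/
def sect (v : Fin (m + r) → ℤ) (u D : Fin (m + r) → (Fin (m + r) → ℤ)) (y : Fin m → ℝ) :
    Fin (m + r) → ℝ :=
  lift y - ∑ l : Fin r, linR (D (Fin.natAdd m l)) (lift y - toR v) • toR (u (Fin.natAdd m l))

lemma sect_comb (v : Fin (m + r) → ℤ) (u D : Fin (m + r) → (Fin (m + r) → ℤ)) (y y' : Fin m → ℝ)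
    {a b : ℝ} (h : a + b = 1) :
    sect v u D (a • y + b • y') = a • sect v u D y + b • sect v u D y' := by
  have e : ∀ l : Fin r, linR (D (Fin.natAdd m l)) (lift (a • y + b • y') - toR v) =
      a * linR (D (Fin.natAdd m l)) (lift y - toR v) +
        b * linR (D (Fin.natAdd m l)) (lift y' - toR v) := by
    intro l
    rw [← linR_smul, ← linR_smul, ← linR_add]
    congr 1
    rw [lift_comb]
    funext z
    simp only [Pi.sub_apply, Pi.add_apply, Pi.smul_apply, smul_eq_mul]
    linear_combination (toR v z) * h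
  simp only [sect]
  simp only [e]
  rw [lift_comb]
  simp only [add_smul, sum_add_distrib, smul_sub, smul_sum, mul_smul]
  abel

lemma continuous_lift : Continuous (lift : (Fin m → ℝ) → (Fin (m + r) → ℝ)) := by
  refine continuous_pi (fun i => ?_)
  refine Fin.addCases (fun i => ?_) (fun i => ?_) i
  · simp only [lift, Fin.append_left]
    exact continuous_apply i
  · simp only [lift, Fin.append_right]
    exact continuous_const

lemma continuous_sect (v : Fin (m + r) → ℤ) (u D : Fin (m + r) → (Fin (m + r) → ℤ)) :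
    Continuous (sect v u D) := by
  unfold sect
  refine continuous_lift.sub (continuous_finsetSum _ (fun l _ => ?_))
  exact ((VD.continuous_linR _).comp (continuous_lift.sub continuous_const)).smul
    continuous_const

namespace VD

variable {P : Set (Fin (m + r) → ℝ)} {v : Fin (m + r) → ℤ}
  {u D : Fin (m + r) → (Fin (m + r) → ℤ)}

lemma base_sum (h : VD P v u D) (t : Fin r → ℝ) :
    base (∑ l : Fin r, t l • toR (u (Fin.natAdd m l))) = 0 := by
  funext z
  simp only [base, Finset.sum_apply, Pi.smul_apply, smul_eq_mul, toR, h.vert, Int.cast_zero,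
    mul_zero, sum_const_zero, Pi.zero_apply]

lemma base_sect (h : VD P v u D) (y : Fin m → ℝ) : base (sect v u D y) = y := by
  rw [sect, base_sub, h.base_sum, base_lift, sub_zero]

lemma lin_sum (h : VD P v u D) (t : Fin r → ℝ) (l : Fin r) :
    linR (D (Fin.natAdd m l)) (∑ l : Fin r, t l • toR (u (Fin.natAdd m l))) = t l := by
  rw [linR_sum]
  simp only [linR_smul, linR_toR, h.dual.dual, Fin.natAdd_inj]
  simp

lemma lin_sect (h : VD P v u D) (y : Fin m → ℝ) (l : Fin r) :
    linR (D (Fin.natAdd m l)) (sect v u D y - toR v) = 0 := by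
  rw [sect, sub_right_comm, linR_sub, h.lin_sum, sub_self]

/-- Points over `y`. -/
lemma eq_sect_add (h : VD P v u D) (x : Fin (m + r) → ℝ) :
    x = sect v u D (base x) +
      ∑ l : Fin r, linR (D (Fin.natAdd m l)) (x - toR v) • toR (u (Fin.natAdd m l)) := by
  have h1 : base (x - sect v u D (base x)) = 0 := by
    rw [base_sub, h.base_sect, sub_self]
  have h2 := h.repr_vert h1
  have h3 : ∀ l, linR (D (Fin.natAdd m l)) (x - sect v u D (base x)) =
      linR (D (Fin.natAdd m l)) (x - toR v) := by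
    intro l
    have e : x - sect v u D (base x) = (x - toR v) - (sect v u D (base x) - toR v) := by abel
    rw [e, linR_sub, h.lin_sect, sub_zero]
  simp only [h3] at h2
  rw [← h2]
  abel

lemma eq_sect (h : VD P v u D) {x : Fin (m + r) → ℝ}
    (hx : ∀ l : Fin r, linR (D (Fin.natAdd m l)) (x - toR v) = 0) : x = sect v u D (base x) := by
  have h1 := h.eq_sect_add x
  simp only [hx, zero_smul, sum_const_zero, add_zero] at h1
  exact h1

lemma sect_mem {S : Set (Fin (m + r) → ℤ)} (hS : S.Finite) (hP : P = convexHull ℝ (toR '' S))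
    (hVD : ∀ v, toR v ∈ P.extremePoints ℝ → ∃ u D, VD P v u D) (h : VD P v u D)
    {x : Fin (m + r) → ℝ} (hx : x ∈ P) : sect v u D (base x) ∈ face P v D := by
  obtain ⟨z, hz, hzx⟩ := h.face_onto hS hP hVD x hx
  have := h.eq_sect hz.2
  rw [hzx] at this
  rw [← this]
  exact hz

/-- Integral vertical vectors. -/
lemma reprZ_vert (h : VD P v u D) {x : Fin (m + r) → ℤ} (hx : ∀ z : Fin m, x (Fin.castAdd r z) = 0) :
    x = ∑ l : Fin r, (D (Fin.natAdd m l) ⬝ᵥ x) • u (Fin.natAdd m l) := by
  have h1 := h.dual.repr x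
  rw [Fin.sum_univ_add] at h1
  have h2 : ∀ i : Fin m, D (Fin.castAdd r i) ⬝ᵥ x = 0 := by
    intro i
    rw [dotProduct, Fin.sum_univ_add]
    simp only [hx, mul_zero, sum_const_zero, h.dual_vert, zero_mul, add_zero]
  simp only [h2, zero_smul, sum_const_zero, zero_add] at h1
  exact h1

end VD

/-- Two nonnegative integral matrices inverse to each other have a common permutation pattern. -/
lemma perm_of_nonneg {A B : Fin r → Fin r → ℤ} (hA : ∀ l i, 0 ≤ A l i) (hB : ∀ i l, 0 ≤ B i l)
    (hAB : ∀ l l', ∑ i, A l i * B i l' = if l = l' then 1 else 0)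
    (hBA : ∀ i i', ∑ l, B i l * A l i' = if i = i' then 1 else 0) (l : Fin r) :
    ∃ i, A l i = 1 ∧ ∀ i', i' ≠ i → A l i' = 0 := by
  classical
  have h1 := hAB l l
  rw [if_pos rfl] at h1
  obtain ⟨i, hi⟩ : ∃ i, 0 < A l i * B i l := by
    by_contra hcon
    push Not at hcon
    have : ∑ i, A l i * B i l ≤ 0 := sum_nonpos (fun i _ => hcon i)
    omega
  have ha : 0 < A l i := by
    rcases (hA l i).lt_or_eq with h | h
    · exact h
    · rw [← h, zero_mul] at hi; omega
  have hb : 0 < B i l := by
    rcases (hB i l).lt_or_eq with h | h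
    · exact h
    · rw [← h, mul_zero] at hi; omega
  have hz : ∀ i', i' ≠ i → A l i' = 0 := by
    intro i' hne
    have h2 := hBA i i'
    rw [if_neg (Ne.symm hne)] at h2
    have h3 := (sum_eq_zero_iff_of_nonneg (fun l' _ => mul_nonneg (hB i l') (hA l' i'))).1 h2 l
      (mem_univ l)
    rcases mul_eq_zero.1 h3 with h | h
    · omega
    · exact h
  refine ⟨i, ?_, hz⟩
  rw [sum_eq_single i (fun i' _ hne => by rw [hz i' hne, zero_mul])
    (fun h => absurd (mem_univ i) h)] at h1
  rcases Int.eq_one_or_neg_one_of_mul_eq_one' h1 with h | h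
  · exact h.1
  · omega

namespace VD

variable {P : Set (Fin (m + r) → ℝ)} {v : Fin (m + r) → ℤ}
  {u D : Fin (m + r) → (Fin (m + r) → ℤ)}

lemma sect_extreme {S : Set (Fin (m + r) → ℤ)} (hS : S.Finite) (hP : P = convexHull ℝ (toR '' S))
    (hVD : ∀ v, toR v ∈ P.extremePoints ℝ → ∃ u D, VD P v u D) (h : VD P v u D)
    {y : Fin m → ℝ} (hy : y ∈ (base '' P).extremePoints ℝ) :
    sect v u D y ∈ P.extremePoints ℝ := by
  rw [mem_extremePoints] at hy ⊢
  obtain ⟨⟨x, hx, rfl⟩, hext⟩ := hy
  have hF := h.sect_mem hS hP hVD hx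
  refine ⟨hF.1, ?_⟩
  intro p hp q hq hseg
  have hp' := (h.extreme_face.2 hp hq hF hseg)
  have hq' := (h.extreme_face.2 hq hp hF (by rw [openSegment_symm]; exact hseg))
  have hb : base x ∈ openSegment ℝ (base p) (base q) := by
    obtain ⟨a, b, ha, hb, hab, he⟩ := hseg
    refine ⟨a, b, ha, hb, hab, ?_⟩
    rw [← base_smul, ← base_smul, ← base_add, he, h.base_sect]
  obtain ⟨e1, e2⟩ := hext _ ⟨p, hp, rfl⟩ _ ⟨q, hq, rfl⟩ hb
  constructor
  · rw [h.eq_sect hp'.2, e1]
  · rw [h.eq_sect hq'.2, e2]

/-- The vertical edges are common to all the vertices of the section. -/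
lemma vert_edge {S : Set (Fin (m + r) → ℤ)} (hS : S.Finite) (hP : P = convexHull ℝ (toR '' S))
    (hVD : ∀ v, toR v ∈ P.extremePoints ℝ → ∃ u D, VD P v u D) (h : VD P v u D)
    {y : Fin m → ℝ} (hy : y ∈ (base '' P).extremePoints ℝ) (l : Fin r) :
    sect v u D y + toR (u (Fin.natAdd m l)) ∈ P := by
  classical
  have hz := h.sect_extreme hS hP hVD hy
  have hPE : P.extremePoints ℝ ⊆ toR '' S := by
    rw [hP]
    exact extremePoints_convexHull_subset
  obtain ⟨z, _, hzy⟩ := hPE hz
  rw [← hzy] at hz ⊢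
  obtain ⟨u', D', h'⟩ := hVD z hz
  have hzF : toR z ∈ face P v D := by
    obtain ⟨x, hx, rfl⟩ := hy.1
    rw [hzy]
    exact h.sect_mem hS hP hVD hx
  -- the section through `z` passes through `v`
  have hv' : sect z u' D' (base (toR v)) = toR v := by
    have hvP := (h'.sect_mem hS hP hVD h.mem).1
    have e1 := h'.eq_sect_add (toR v)
    set w := sect z u' D' (base (toR v)) with hw
    have e2 : ∀ l : Fin r, 0 ≤ linR (D (Fin.natAdd m l)) (w - toR v) :=
      fun l => h.pos w hvP _
    have e3 : ∀ l : Fin r, linR (D (Fin.natAdd m l)) (w - toR v) ≤ 0 := by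
      intro l
      have e4 : w - toR v = - ∑ i : Fin r, linR (D' (Fin.natAdd m i)) (toR v - toR z) •
          toR (u' (Fin.natAdd m i)) := by
        nth_rewrite 1 [e1]
        abel
      have e5 : linR (D (Fin.natAdd m l)) (w - toR v) =
          - ∑ i : Fin r, linR (D' (Fin.natAdd m i)) (toR v - toR z) *
            linR (D (Fin.natAdd m l)) (toR (u' (Fin.natAdd m i))) := by
        rw [e4]
        have : ∀ x : Fin (m + r) → ℝ, linR (D (Fin.natAdd m l)) (-x) =
            - linR (D (Fin.natAdd m l)) x := by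
          intro x
          have := linR_sub (D (Fin.natAdd m l)) 0 x
          rw [zero_sub, linR_zero, zero_sub] at this
          exact this
        rw [this, linR_sum]
        simp only [linR_smul]
      rw [e5]
      have e6 : 0 ≤ ∑ i : Fin r, linR (D' (Fin.natAdd m i)) (toR v - toR z) *
            linR (D (Fin.natAdd m l)) (toR (u' (Fin.natAdd m i))) :=
        sum_nonneg (fun i _ => mul_nonneg (h'.pos _ h.mem _) (h.edge_nonneg h' hzF _ _))
      linarith
    have e7 : base (w - toR v) = 0 := by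
      rw [base_sub, hw, h'.base_sect, sub_self]
    have e8 := h.eq_zero_of_vert e7 (fun l => le_antisymm (e3 l) (e2 l))
    exact sub_eq_zero.1 e8
  let A : Fin r → Fin r → ℤ := fun l i => D' (Fin.natAdd m i) ⬝ᵥ u (Fin.natAdd m l)
  let B : Fin r → Fin r → ℤ := fun i l => D (Fin.natAdd m l) ⬝ᵥ u' (Fin.natAdd m i)
  have hA : ∀ l i, 0 ≤ A l i := by
    intro l i
    have e1 := h'.pos _ (h.edge (Fin.natAdd m l)) (Fin.natAdd m i)
    have e2 := h'.lin_sect (base (toR v)) i
    rw [hv'] at e2
    rw [toR_add, add_sub_right_comm, linR_add, e2, zero_add, linR_toR] at e1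
    exact_mod_cast e1
  have hB : ∀ i l, 0 ≤ B i l := by
    intro i l
    have e1 := h.edge_nonneg h' hzF (Fin.natAdd m i) l
    rw [linR_toR] at e1
    exact_mod_cast e1
  have hrepr : ∀ l, u (Fin.natAdd m l) = ∑ i : Fin r, A l i • u' (Fin.natAdd m i) :=
    fun l => h'.reprZ_vert (fun z => h.vert l z)
  have hrepr' : ∀ i, u' (Fin.natAdd m i) = ∑ l : Fin r, B i l • u (Fin.natAdd m l) :=
    fun i => h.reprZ_vert (fun z => h'.vert i z)
  have hAB : ∀ l l', ∑ i, A l i * B i l' = if l = l' then 1 else 0 := by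
    intro l l'
    have e1 := congrArg (fun x => D (Fin.natAdd m l') ⬝ᵥ x) (hrepr l)
    simp only [dotProduct_sum, dotProduct_smul, smul_eq_mul, h.dual.dual, Fin.natAdd_inj] at e1
    rw [← e1]
    simp only [eq_comm]
  have hBA : ∀ i i', ∑ l, B i l * A l i' = if i = i' then 1 else 0 := by
    intro i i'
    have e1 := congrArg (fun x => D' (Fin.natAdd m i') ⬝ᵥ x) (hrepr' i)
    simp only [dotProduct_sum, dotProduct_smul, smul_eq_mul, h'.dual.dual, Fin.natAdd_inj] at e1
    rw [← e1]
    simp only [eq_comm]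
  obtain ⟨i, hi1, hi2⟩ := perm_of_nonneg hA hB hAB hBA l
  have hul : u (Fin.natAdd m l) = u' (Fin.natAdd m i) := by
    rw [hrepr l, sum_eq_single i, hi1, one_smul]
    · intro i' _ hne
      rw [hi2 i' hne, zero_smul]
    · intro hc; exact absurd (mem_univ i) hc
  rw [hul, ← toR_add]
  exact h'.edge _

/-- The vertical edges over the whole base. -/
theorem vert_edge_all {S : Set (Fin (m + r) → ℤ)} (hS : S.Finite)
    (hP : P = convexHull ℝ (toR '' S))
    (hVD : ∀ v, toR v ∈ P.extremePoints ℝ → ∃ u D, VD P v u D) (h : VD P v u D)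
    {y : Fin m → ℝ} (hy : y ∈ base '' P) (l : Fin r) :
    sect v u D y + toR (u (Fin.natAdd m l)) ∈ P := by
  have hcomp : IsCompact P := by rw [hP]; exact (hS.image _).isCompact_convexHull (𝕜 := ℝ)
  have hconv : Convex ℝ P := by rw [hP]; exact convex_convexHull ℝ _
  let bl : (Fin (m + r) → ℝ) →ₗ[ℝ] (Fin m → ℝ) :=
    { toFun := base, map_add' := base_add, map_smul' := base_smul }
  have hBc : IsCompact (base '' P) := hcomp.image continuous_base
  have hBconv : Convex ℝ (base '' P) := hconv.linear_image bl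
  have hcl : IsClosed {y : Fin m → ℝ | sect v u D y + toR (u (Fin.natAdd m l)) ∈ P} :=
    hcomp.isClosed.preimage ((continuous_sect v u D).add continuous_const)
  have hcv : Convex ℝ {y : Fin m → ℝ | sect v u D y + toR (u (Fin.natAdd m l)) ∈ P} := by
    intro y1 h1 y2 h2 a b ha hb hab
    have h3 := hconv h1 h2 ha hb hab
    show sect v u D (a • y1 + b • y2) + toR (u (Fin.natAdd m l)) ∈ P
    rw [sect_comb v u D y1 y2 hab]
    have e : a • sect v u D y1 + b • sect v u D y2 + toR (u (Fin.natAdd m l)) =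
        a • (sect v u D y1 + toR (u (Fin.natAdd m l))) +
          b • (sect v u D y2 + toR (u (Fin.natAdd m l))) := by
      funext z
      simp only [Pi.add_apply, Pi.smul_apply, smul_eq_mul]
      linear_combination (-(toR (u (Fin.natAdd m l)) z)) * hab
    rw [e]
    exact h3
  rw [← closure_convexHull_extremePoints hBc hBconv] at hy
  exact (closure_minimal (convexHull_min (fun q hq => h.vert_edge hS hP hVD hq l) hcv) hcl) hy

end VD

end Pool.Agent.Helper517.Sect
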