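import Pool.Agent.Helper517.Frame

/-!
Smooth lattice polytopes: lattice points, exposed points, bases at vertices.
-/

namespace Pool.Agent.Helper517.Smooth

open Finset Pool.Agent.Helper517.Place Pool.Agent.Helper517.Conv Pool.Agent.Helper517.Frame
open Pool.Agent.Helper517

variable {d k : ℕ}

/-- Values of an integral affine functional at real points. -/
def evR (l : (Fin d → ℤ) × ℤ) (x : Fin d → ℝ) : ℝ := ∑ i, (l.1 i : ℝ) * x i + (l.2 : ℝ)

lemma evR_toR (l : (Fin d → ℤ) × ℤ) (x : Fin d → ℤ) : evR l (toR x) = (evZ l x : ℝ) := by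
  simp only [evR, evZ, toR, dotProduct]
  push_cast
  rfl

lemma evR_comb (l : (Fin d → ℤ) × ℤ) (x y : Fin d → ℝ) {a b : ℝ} (h : a + b = 1) :
    evR l (a • x + b • y) = a * evR l x + b * evR l y := by
  simp only [evR, Pi.add_apply, Pi.smul_apply, smul_eq_mul, mul_add, sum_add_distrib]
  have e1 : ∀ (c : ℝ) (z : Fin d → ℝ), ∑ i, (l.1 i : ℝ) * (c * z i) = c * ∑ i, (l.1 i : ℝ) * z i := by
    intro c z
    rw [mul_sum]
    exact sum_congr rfl (fun i _ => by ring)
  rw [e1, e1]
  linear_combination (-(l.2 : ℝ)) * h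

lemma convex_evR_le (l : (Fin d → ℤ) × ℤ) (c : ℝ) : Convex ℝ {x | evR l x ≤ c} := by
  intro x hx y hy a b ha hb hab
  show evR l (a • x + b • y) ≤ c
  rw [evR_comb l x y hab]
  have h1 : evR l x ≤ c := hx
  have h2 : evR l y ≤ c := hy
  have h3 := mul_le_mul_of_nonneg_left h1 ha
  have h4 := mul_le_mul_of_nonneg_left h2 hb
  calc a * evR l x + b * evR l y ≤ a * c + b * c := add_le_add h3 h4
    _ = c := by rw [← add_mul, hab, one_mul]

/-- The finitely many lattice points. -/
lemma finite_lattice {S : Set (Fin d → ℤ)} (hS : S.Finite) :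
    {x : Fin d → ℤ | toR x ∈ convexHull ℝ (toR '' S)}.Finite := by
  classical
  set B : ℤ := ∑ s ∈ hS.toFinset, ∑ i, |s i| with hB
  have hb : ∀ s ∈ S, ∀ i, |s i| ≤ B := by
    intro s hs i
    have h1 : |s i| ≤ ∑ i, |s i| :=
      single_le_sum (f := fun i => |s i|) (fun _ _ => abs_nonneg _) (mem_univ i)
    have h2 : ∑ i, |s i| ≤ B :=
      single_le_sum (f := fun s : Fin d → ℤ => ∑ i, |s i|)
        (fun _ _ => sum_nonneg (fun _ _ => abs_nonneg _)) (hS.mem_toFinset.2 hs)
    exact h1.trans h2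
  have hsub : convexHull ℝ (toR '' S) ⊆ Set.Icc (fun _ : Fin d => -(B : ℝ)) (fun _ => (B : ℝ)) := by
    apply convexHull_min _ (convex_Icc _ _)
    rintro _ ⟨s, hs, rfl⟩
    constructor
    · intro i
      have := neg_le_of_abs_le (hb s hs i)
      simp only [toR]
      exact_mod_cast this
    · intro i
      have := le_of_abs_le (hb s hs i)
      simp only [toR]
      exact_mod_cast this
  refine (Set.finite_Icc (fun _ : Fin d => -B) (fun _ => B)).subset ?_
  intro x hx
  have h1 := hsub hx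
  constructor
  · intro i
    have := h1.1 i
    simp only [toR] at this
    exact_mod_cast this
  · intro i
    have := h1.2 i
    simp only [toR] at this
    exact_mod_cast this

/-- Exposed lattice points are extreme points. -/
lemma extreme_of_exposed {S L : Set (Fin d → ℤ)} {P : Set (Fin d → ℝ)}
    (hP : P = convexHull ℝ (toR '' S)) (hSL : S ⊆ L) {v : Fin d → ℤ} (hv : toR v ∈ P)
    (f : (Fin d → ℤ) × ℤ) (hf : ∀ x ∈ L, x ≠ v → evZ f v < evZ f x) :
    toR v ∈ P.extremePoints ℝ := by
  have hconv : Convex ℝ {x | x = toR v ∨ (evZ f v : ℝ) < evR f x} := by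
    intro x hx y hy a b ha hb hab
    have ev' := evR_comb f x y hab
    have hvv : evR f (toR v) = (evZ f v : ℝ) := evR_toR f v
    rcases ha.eq_or_lt with h0 | h0
    · subst h0
      have : b = 1 := by linarith
      subst this
      simpa using hy
    · rcases hb.eq_or_lt with h1 | h1
      · subst h1
        have : a = 1 := by linarith
        subst this
        simpa using hx
      · rcases hx with rfl | hx
        · rcases hy with rfl | hy
          · left
            rw [← add_smul, hab, one_smul]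
          · right
            rw [ev', hvv]
            have := mul_lt_mul_of_pos_left hy h1
            calc (evZ f v : ℝ) = a * evZ f v + b * evZ f v := by rw [← add_mul, hab, one_mul]
              _ < _ := by linarith
        · have hy' : (evZ f v : ℝ) ≤ evR f y := by
            rcases hy with rfl | hy
            · rw [hvv]
            · exact hy.le
          right
          rw [ev']
          have h2 := mul_lt_mul_of_pos_left hx h0
          have h3 := mul_le_mul_of_nonneg_left hy' h1.le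
          calc (evZ f v : ℝ) = a * evZ f v + b * evZ f v := by rw [← add_mul, hab, one_mul]
            _ < _ := by linarith
  have hsub : P ⊆ {x | x = toR v ∨ (evZ f v : ℝ) < evR f x} := by
    rw [hP]
    apply convexHull_min _ hconv
    rintro _ ⟨s, hs, rfl⟩
    by_cases h : s = v
    · left; rw [h]
    · right
      rw [evR_toR]
      exact_mod_cast hf s (hSL hs) h
  have hge : ∀ x ∈ P, (evZ f v : ℝ) ≤ evR f x := by
    intro x hx
    rcases hsub hx with rfl | h
    · rw [evR_toR]
    · exact h.le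
  rw [mem_extremePoints]
  refine ⟨hv, ?_⟩
  intro x hx y hy hseg
  obtain ⟨a, b, ha, hb, hab, hxy⟩ := hseg
  have h1 := evR_comb f x y hab
  rw [hxy, evR_toR] at h1
  have h2 := hge x hx
  have h3 := hge y hy
  have h4 : (evZ f v : ℝ) = a * evZ f v + b * evZ f v := by rw [← add_mul, hab, one_mul]
  have h5 := mul_le_mul_of_nonneg_left h2 ha.le
  have h6 := mul_le_mul_of_nonneg_left h3 hb.le
  constructor
  · rcases hsub hx with h | h
    · exact h
    · exfalso
      have := mul_lt_mul_of_pos_left h ha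
      linarith
  · rcases hsub hy with h | h
    · exact h
    · exfalso
      have := mul_lt_mul_of_pos_left h hb
      linarith

/-- Smoothness at a lattice point. -/
def SmoothAt (P : Set (Fin d → ℝ)) (v : Fin d → ℝ) : Prop :=
  ∃ u : Fin d → (Fin d → ℤ), |(Matrix.of u).det| = 1 ∧ (∀ i, v + toR (u i) ∈ P) ∧
    ∀ x ∈ P, ∃ t : Fin d → ℝ, (∀ i, 0 ≤ t i) ∧ x = v + ∑ i, t i • toR (u i)

lemma toR_add (x y : Fin d → ℤ) : toR (x + y) = toR x + toR y := by
  funext i; simp [toR]

lemma toR_sub (x y : Fin d → ℤ) : toR (x - y) = toR x - toR y := by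
  funext i; simp [toR]

lemma toR_smul (c : ℤ) (x : Fin d → ℤ) : toR (c • x) = (c : ℝ) • toR x := by
  funext i; simp [toR]

lemma coeff_eq {u D : Fin d → (Fin d → ℤ)} (hD : DualBasis u D) {x v : Fin d → ℤ}
    {t : Fin d → ℝ} (h : toR x = toR v + ∑ i, t i • toR (u i)) (i : Fin d) :
    ((D i ⬝ᵥ (x - v) : ℤ) : ℝ) = t i := by
  have h1 : ∀ z, ((x - v) z : ℝ) = ∑ l, t l * (u l z : ℝ) := by
    intro z
    have := congrFun h z
    simp only [Pi.add_apply, Finset.sum_apply, Pi.smul_apply, smul_eq_mul, toR] at this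
    push_cast [Pi.sub_apply]
    linarith
  have h2 : ∀ l, ∑ z, (D i z : ℝ) * (u l z : ℝ) = if i = l then 1 else 0 := by
    intro l
    have := hD.dual i l
    rw [dotProduct] at this
    exact_mod_cast this
  rw [dotProduct]
  push_cast
  calc ∑ z, (D i z : ℝ) * (((x - v) z : ℤ) : ℝ) = ∑ z, (D i z : ℝ) * ∑ l, t l * (u l z : ℝ) := by
        exact sum_congr rfl (fun z _ => by rw [h1])
    _ = ∑ z, ∑ l, (D i z : ℝ) * (t l * (u l z : ℝ)) := sum_congr rfl (fun z _ => mul_sum _ _ _)
    _ = ∑ l, ∑ z, (D i z : ℝ) * (t l * (u l z : ℝ)) := sum_comm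
    _ = ∑ l, t l * ∑ z, (D i z : ℝ) * (u l z : ℝ) := by
        refine sum_congr rfl (fun l _ => ?_)
        rw [mul_sum]
        exact sum_congr rfl (fun z _ => by ring)
    _ = ∑ l, t l * (if i = l then 1 else 0) := sum_congr rfl (fun l _ => by rw [h2])
    _ = t i := by simp

/-- The data at a vertex. -/
lemma basis_at {P : Set (Fin d → ℝ)} {v : Fin d → ℤ} (h : SmoothAt P (toR v)) :
    ∃ u D : Fin d → (Fin d → ℤ), DualBasis u D ∧ (∀ i, toR (v + u i) ∈ P) ∧
      (∀ x : Fin d → ℤ, toR x ∈ P → ∀ i, 0 ≤ D i ⬝ᵥ (x - v)) ∧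
      ∀ x ∈ P, ∃ t : Fin d → ℝ, (∀ i, 0 ≤ t i) ∧ x = toR v + ∑ i, t i • toR (u i) := by
  obtain ⟨u, hu, h1, h2⟩ := h
  obtain ⟨D, hD⟩ := exists_dualBasis u hu
  refine ⟨u, D, hD, fun i => by rw [toR_add]; exact h1 i, ?_, h2⟩
  intro x hx i
  obtain ⟨t, ht, hxt⟩ := h2 _ hx
  have := coeff_eq hD hxt i
  have h3 := ht i
  rw [← this] at h3
  exact_mod_cast h3

/-- Every level contains lattice points. -/
lemma level_nonempty {S : Set (Fin d → ℤ)} {P : Set (Fin d → ℝ)}
    (hP : P = convexHull ℝ (toR '' S)) {l : (Fin d → ℤ) × ℤ} (hle : ∀ x ∈ P, evR l x ≤ 1)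
    (hfib : ∃ x ∈ P, evR l x = 1) :
    ∃ s ∈ S, evZ l s = 1 := by
  by_contra hcon
  push Not at hcon
  have h0 : ∀ s ∈ S, evZ l s ≤ 0 := by
    intro s hs
    have h1 : toR s ∈ P := by rw [hP]; exact subset_convexHull ℝ _ ⟨s, hs, rfl⟩
    have h2 := hle _ h1
    rw [evR_toR] at h2
    have h3 : evZ l s ≤ 1 := by exact_mod_cast h2
    have := hcon s hs
    omega
  have h1 : P ⊆ {x | evR l x ≤ 0} := by
    rw [hP]
    apply convexHull_min _ (convex_evR_le l 0)
    rintro _ ⟨s, hs, rfl⟩
    show evR l (toR s) ≤ 0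
    rw [evR_toR]
    exact_mod_cast h0 s hs
  obtain ⟨x, hx, hx1⟩ := hfib
  have h3 : evR l x ≤ 0 := h1 hx
  linarith

end Pool.Agent.Helper517.Smooth
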