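import Pool.Agent.Helper517.Grow

/-!
The starting segment: a longest row.
-/

namespace Pool.Agent.Helper517.Start

open Finset Pool.Agent.Helper517.Place Pool.Agent.Helper517.Step
open Pool.Agent.Helper517 Pool.Agent.Helper517.Cvx Pool.Agent.Helper517.Grow

section chain

variable {P Q C k : ℕ → ℤ} {M : ℕ}

lemma Y_lt (h : Chain P Q C k M)
    (ha : ∀ i, 1 ≤ i → i < M → 1 ≤ C (i - 1) + C (i + 1) - k i * C i) (i : ℕ) (hi : i + 1 < M) :
    Chain.Y P C i < Chain.Y P C (i + 1) := by
  have h1 := ha (i + 1) (by omega) hi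
  rw [add_tsub_cancel_right] at h1
  have h2 := h.pos (i + 1) (by omega) hi
  rw [h.Y_succ i hi]
  nlinarith

lemma Y_lt' (h : Chain P Q C k M)
    (ha : ∀ i, 1 ≤ i → i < M → 1 ≤ C (i - 1) + C (i + 1) - k i * C i) {i j : ℕ} (hij : i < j)
    (hj : j < M) : Chain.Y P C i < Chain.Y P C j := by
  obtain ⟨l, rfl⟩ : ∃ l, j = l + 1 := ⟨j - 1, by omega⟩
  exact (h.Y_mono (by omega) (by omega)).trans_lt (Y_lt h ha l hj)

/-- A point of the strip of an edge which satisfies its inequality satisfies all of them. -/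
lemma slab (h : Chain P Q C k M)
    (ha : ∀ i, 1 ≤ i → i < M → 1 ≤ C (i - 1) + C (i + 1) - k i * C i) {e : ℕ} (he : 1 ≤ e)
    (heM : e < M) {x y : ℤ} (h1 : Chain.Y P C (e - 1) ≤ y) (h2 : y ≤ Chain.Y P C e)
    (hx : P e * x + Q e * y ≤ C e) (j : ℕ) (hj : j ≤ M) : P j * x + Q j * y ≤ C j := by
  have a1 := h.corner_le (e - 1) (by omega) j hj
  have a2 := h.corner_le e heM j hj
  have b1 := h.at_left e heM
  have b2 := h.at_right (e - 1) (by omega)
  have ee : e - 1 + 1 = e := by omega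
  rw [ee] at b2
  have hlt := Y_lt' h ha (show e - 1 < e by omega) heM
  have pe := h.pos e he heM
  have pj := h.nonneg j hj
  set u := Chain.X Q C (e - 1)
  set v := Chain.Y P C (e - 1)
  set u' := Chain.X Q C e
  set v' := Chain.Y P C e
  have c1 : P e * ((v' - v) * x) ≤ P e * ((v' - y) * u + (y - v) * u') := by
    have d1 := mul_le_mul_of_nonneg_left hx (sub_nonneg.2 (h1.trans h2))
    have e1 : P e * ((v' - y) * u + (y - v) * u') = (v' - v) * (C e - Q e * y) := by
      linear_combination (v' - y) * b2 + (y - v) * b1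
    rw [e1]
    linarith
  have c2 : (v' - v) * x ≤ (v' - y) * u + (y - v) * u' := le_of_mul_le_mul_left c1 pe
  have c3 := mul_le_mul_of_nonneg_left c2 pj
  have c4 := mul_le_mul_of_nonneg_left a1 (sub_nonneg.2 h2)
  have c5 := mul_le_mul_of_nonneg_left a2 (sub_nonneg.2 h1)
  have c6 : (v' - v) * (P j * x + Q j * y) ≤ (v' - v) * C j := by linarith
  exact le_of_mul_le_mul_left c6 (by linarith)

/-- The edge above a given height. -/
lemma active {y : ℤ} (h0 : Chain.Y P C 0 ≤ y) (h1 : y < Chain.Y P C (M - 1)) :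
    ∃ e, 1 ≤ e ∧ e < M ∧ Chain.Y P C (e - 1) ≤ y ∧ y < Chain.Y P C e := by
  classical
  have hex : ∃ e, y < Chain.Y P C e := ⟨M - 1, h1⟩
  set e := Nat.find hex with he
  have e1 : y < Chain.Y P C e := Nat.find_spec hex
  have e2 : e ≤ M - 1 := Nat.find_min' hex h1
  have e3 : 1 ≤ e := by
    by_contra hcon
    have : e = 0 := by omega
    rw [this] at e1
    omega
  refine ⟨e, e3, ?_, ?_, e1⟩
  · rcases Nat.eq_zero_or_pos M with h | h
    · omega
    · omega
  · have := Nat.find_min hex (m := e - 1) (by omega)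
    omega

/-- The last lattice point of a row. -/
lemma floorpt (h : Chain P Q C k M) (hM : 2 ≤ M)
    (ha : ∀ i, 1 ≤ i → i < M → 1 ≤ C (i - 1) + C (i + 1) - k i * C i) {y : ℤ}
    (h0 : Chain.Y P C 0 ≤ y) (h1 : y ≤ Chain.Y P C (M - 1)) :
    ∃ x : ℤ, (∀ j, j ≤ M → P j * x + Q j * y ≤ C j) ∧
      (∀ e, 1 ≤ e → e < M → Chain.Y P C (e - 1) ≤ y → y ≤ Chain.Y P C e →
        C e - (P e * x + Q e * y) ≤ P e - 1) ∧
      (∀ x', (∀ j, j ≤ M → P j * x' + Q j * y ≤ C j) → x' ≤ x) ∧
      ∀ i, i < M → y = Chain.Y P C i → x = Chain.X Q C i := by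
  obtain ⟨e, e1, e2, e3, e4⟩ : ∃ e, 1 ≤ e ∧ e < M ∧ Chain.Y P C (e - 1) ≤ y ∧
      y ≤ Chain.Y P C e := by
    rcases h1.lt_or_eq with h2 | h2
    · obtain ⟨e, a, b, c, d⟩ := active h0 h2
      exact ⟨e, a, b, c, d.le⟩
    · refine ⟨M - 1, by omega, by omega, ?_, h2.le⟩
      rw [h2]
      exact h.Y_mono (by omega) (by omega)
  have pe := h.pos e e1 e2
  set x := (C e - Q e * y) / P e with hx
  have x1 : P e * x ≤ C e - Q e * y := Int.mul_ediv_self_le pe.ne'
  have x2 : C e - Q e * y < P e * (x + 1) := by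
    have h2 := Int.lt_ediv_add_one_mul_self (C e - Q e * y) pe
    rw [← hx] at h2
    calc C e - Q e * y < (x + 1) * P e := h2
      _ = P e * (x + 1) := by ring
  have hall : ∀ j, j ≤ M → P j * x + Q j * y ≤ C j :=
    slab h ha e1 e2 e3 e4 (by linarith)
  have hmax : ∀ x', (∀ j, j ≤ M → P j * x' + Q j * y ≤ C j) → x' ≤ x := by
    intro x' hx'
    have h2 := hx' e e2.le
    have h3 : P e * x' < P e * (x + 1) := by linarith
    have := lt_of_mul_lt_mul_left h3 pe.le
    omega
  refine ⟨x, hall, ?_, hmax, ?_⟩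
  · intro e' f1 f2 f3 f4
    by_contra hcon
    have h2 : P e' * (x + 1) + Q e' * y ≤ C e' := by
      have : P e' * (x + 1) = P e' * x + P e' := by ring
      omega
    have := hmax (x + 1) (slab h ha f1 f2 f3 f4 h2)
    omega
  · intro i hi hy
    have h2 : Chain.X Q C i ≤ x := hmax _ (fun j hj => by rw [hy]; exact h.corner_le i hi j hj)
    refine le_antisymm ?_ h2
    -- a ray with positive first coordinate through the corner
    rcases Nat.eq_zero_or_pos i with h3 | h3
    · have h4 := hall (i + 1) (by omega)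
      have h5 := h.at_right i hi
      have h6 := h.pos (i + 1) (by omega) (by omega)
      rw [hy] at h4
      have h7 : P (i + 1) * x ≤ P (i + 1) * Chain.X Q C i := by linarith
      exact le_of_mul_le_mul_left h7 h6
    · have h4 := hall i hi.le
      have h5 := h.at_left i hi
      have h6 := h.pos i h3 hi
      rw [hy] at h4
      have h7 : P i * x ≤ P i * Chain.X Q C i := by linarith
      exact le_of_mul_le_mul_left h7 h6

end chain

/-- The support vector of a horizontal segment. -/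
def seg {n : ℕ} (F : Fan n) (xl xr y : ℤ) (m : ZMod n) : ℤ :=
  max (F.p m * xl) (F.p m * xr) + F.q m * y

lemma seg_nonneg {n : ℕ} {F : Fan n} {xl xr y : ℤ} (hx : xl ≤ xr) {m : ZMod n}
    (hm : 0 ≤ F.p m) : seg F xl xr y m = F.p m * xr + F.q m * y := by
  rw [seg, max_eq_right (mul_le_mul_of_nonneg_left hx hm)]

lemma seg_nonpos {n : ℕ} {F : Fan n} {xl xr y : ℤ} (hx : xl ≤ xr) {m : ZMod n}
    (hm : F.p m ≤ 0) : seg F xl xr y m = F.p m * xl + F.q m * y := by
  rw [seg, max_eq_left (mul_le_mul_of_nonpos_left hx hm)]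

section start

variable {n N N' : ℕ} {F : Fan n}

lemma uy_zero (h : TwoChain F N N') (c : ZMod n → ℤ) : F.uy c ((0 : ℕ) : ZMod n) = - c 0 := by
  have hp1 := h.p1
  simp only [Nat.cast_zero, Fan.uy, zero_add, h.p0, hp1]; ring

lemma uy_neg_one (h : TwoChain F N N') (c : ZMod n → ℤ) :
    F.uy c (-((0 + 1 : ℕ) : ZMod n)) = - c 0 := by
  have hpm1 := h.pm1
  simp only [zero_add, Nat.cast_one, Fan.uy, neg_add_cancel, h.p0, hpm1]; ring

lemma uy_top (h : TwoChain F N N') (c : ZMod n → ℤ) :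
    F.uy c (N : ZMod n) = c ((N + 1 : ℕ) : ZMod n) := by
  have hT1 := h.pTm1
  have e : (N : ZMod n) + 1 = ((N + 1 : ℕ) : ZMod n) := by push_cast; ring
  have e' : ((N + 1 : ℕ) : ZMod n) - 1 = (N : ZMod n) := by push_cast; ring
  rw [e'] at hT1
  simp only [Fan.uy]
  rw [e, h.pT, hT1]
  ring

lemma uy_top' (h : TwoChain F N N') (c : ZMod n → ℤ) :
    F.uy c (-((N' + 1 : ℕ) : ZMod n)) = c ((N + 1 : ℕ) : ZMod n) := by
  have hT1 := h.pTp1
  rw [h.neg_top]
  simp only [Fan.uy]
  rw [h.pT, hT1]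
  ring

/-- The starting segment. -/
lemma exists_start (h : TwoChain F N N') {a : ZMod n → ℤ} (ha : ∀ m, 1 ≤ F.len a m) :
    ∃ xl xr y : ℤ, xl ≤ xr ∧ TopOK F N N' a (seg F xl xr y) ∧ BotOK F N N' a (seg F xl xr y) ∧
      ∀ m, seg F xl xr y m ≤ a m := by
  classical
  have ha0 : ∀ m, 0 ≤ F.len a m := fun m => by have := ha m; omega
  have hR := h.chainR ha0
  have hL := h.chainL ha0
  have hcvx := h.cvx ha0
  have aR : ∀ i, 1 ≤ i → i < N + 1 → 1 ≤ (fun i : ℕ => a (i : ZMod n)) (i - 1) +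
      (fun i : ℕ => a (i : ZMod n)) (i + 1) -
      (fun i : ℕ => F.k (i : ZMod n)) i * (fun i : ℕ => a (i : ZMod n)) i := by
    intro i hi _
    have := ha (i : ZMod n)
    simp only
    rw [Nat.cast_sub hi]
    push_cast
    exact this
  have aL : ∀ i, 1 ≤ i → i < N' + 1 → 1 ≤ (fun i : ℕ => a (-(i : ZMod n))) (i - 1) +
      (fun i : ℕ => a (-(i : ZMod n))) (i + 1) -
      (fun i : ℕ => F.k (-(i : ZMod n))) i * (fun i : ℕ => a (-(i : ZMod n))) i := by
    intro i hi _
    have := ha (-(i : ZMod n))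
    have e : -((i - 1 : ℕ) : ZMod n) = -(i : ZMod n) + 1 := by
      rw [Nat.cast_sub hi]; push_cast; ring
    have e' : -((i + 1 : ℕ) : ZMod n) = -(i : ZMod n) - 1 := by push_cast; ring
    simp only
    rw [e, e']
    rw [Fan.len] at this
    linarith
  have hN := h.N_pos
  have hN' := h.N'_pos
  set T : ZMod n := ((N + 1 : ℕ) : ZMod n) with hT
  set YR : ℕ → ℤ := Cvx.Chain.Y (fun i : ℕ => F.p (i : ZMod n)) (fun i : ℕ => a (i : ZMod n))
    with hYR
  set YL : ℕ → ℤ := Cvx.Chain.Y (fun i : ℕ => -F.p (-(i : ZMod n)))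
    (fun i : ℕ => a (-(i : ZMod n))) with hYL
  set XR : ℕ → ℤ := Cvx.Chain.X (fun i : ℕ => F.q (i : ZMod n)) (fun i : ℕ => a (i : ZMod n))
    with hXR
  set XL : ℕ → ℤ := Cvx.Chain.X (fun i : ℕ => F.q (-(i : ZMod n)))
    (fun i : ℕ => a (-(i : ZMod n))) with hXL
  have YR0 : YR 0 = - a 0 := by rw [hYR, TwoChain.YR, uy_zero h]
  have YL0 : YL 0 = - a 0 := by rw [hYL, TwoChain.YL, uy_neg_one h]
  have YRT : YR (N + 1 - 1) = a T := by
    rw [add_tsub_cancel_right, hYR, TwoChain.YR, uy_top h]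
  have YLT : YL (N' + 1 - 1) = a T := by
    rw [add_tsub_cancel_right, hYL, TwoChain.YL, uy_top' h]
  have mR : ∀ i j, i < j → j < N + 1 → YR i < YR j := fun i j hij hj => Y_lt' hR aR hij hj
  have mL : ∀ i j, i < j → j < N' + 1 → YL i < YL j := fun i j hij hj => Y_lt' hL aL hij hj
  have hlt : - a 0 < a T := by
    have := mR 0 (N + 1 - 1) (by omega) (by omega)
    rw [YR0, YRT] at this
    exact this
  -- the condition
  let AR : ℕ → ℤ → Prop := fun e y => 1 ≤ e ∧ e < N + 1 ∧ YR (e - 1) ≤ y ∧ y < YR e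
  let AL : ℕ → ℤ → Prop := fun e y => 1 ≤ e ∧ e < N' + 1 ∧ YL (e - 1) ≤ y ∧ y < YL e
  have exR : ∀ y, - a 0 ≤ y → y < a T → ∃ e, AR e y := fun y h1 h2 =>
    active (P := fun i : ℕ => F.p (i : ZMod n)) (C := fun i : ℕ => a (i : ZMod n)) (M := N + 1)
      (by rw [← hYR, YR0]; exact h1) (by rw [← hYR, YRT]; exact h2)
  have exL : ∀ y, - a 0 ≤ y → y < a T → ∃ e, AL e y := fun y h1 h2 =>
    active (P := fun i : ℕ => -F.p (-(i : ZMod n))) (C := fun i : ℕ => a (-(i : ZMod n)))
      (M := N' + 1) (by rw [← hYL, YL0]; exact h1) (by rw [← hYL, YLT]; exact h2)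
  have uR : ∀ e f y, AR e y → AR f y → e = f := by
    rintro e f y ⟨e1, e2, e3, e4⟩ ⟨f1, f2, f3, f4⟩
    rcases lt_trichotomy e f with h1 | h1 | h1
    · rcases (show e ≤ f - 1 by omega).lt_or_eq with h2 | h2
      · have := mR e (f - 1) h2 (by omega); omega
      · rw [h2] at e4; omega
    · exact h1
    · rcases (show f ≤ e - 1 by omega).lt_or_eq with h2 | h2
      · have := mR f (e - 1) h2 (by omega); omega
      · rw [h2] at f4; omega
  have uL : ∀ e f y, AL e y → AL f y → e = f := by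
    rintro e f y ⟨e1, e2, e3, e4⟩ ⟨f1, f2, f3, f4⟩
    rcases lt_trichotomy e f with h1 | h1 | h1
    · rcases (show e ≤ f - 1 by omega).lt_or_eq with h2 | h2
      · have := mL e (f - 1) h2 (by omega); omega
      · rw [h2] at e4; omega
    · exact h1
    · rcases (show f ≤ e - 1 by omega).lt_or_eq with h2 | h2
      · have := mL f (e - 1) h2 (by omega); omega
      · rw [h2] at f4; omega
  let ang : ℕ → ℕ → Prop := fun e e' =>
    0 ≤ F.p (e : ZMod n) * F.q (-(e' : ZMod n)) - F.p (-(e' : ZMod n)) * F.q (e : ZMod n)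
  let good : ℕ → Prop := fun t => (- a 0 + t = a T) ∨
    ∃ e e', AR e (- a 0 + t) ∧ AL e' (- a 0 + t) ∧ ang e e'
  have hex : ∃ t, good t := ⟨(a T + a 0).toNat, Or.inl (by
    rw [Int.toNat_of_nonneg (by omega)]; ring)⟩
  set t := Nat.find hex with ht
  have tgood : good t := Nat.find_spec hex
  have tle : (t : ℤ) ≤ a T + a 0 := by
    have : t ≤ (a T + a 0).toNat := Nat.find_min' hex (Or.inl (by
      rw [Int.toNat_of_nonneg (by omega)]; ring))
    have h2 : ((a T + a 0).toNat : ℤ) = a T + a 0 := Int.toNat_of_nonneg (by omega)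
    omega
  set y : ℤ := - a 0 + t with hy
  have hy0 : - a 0 ≤ y := by omega
  have hyT : y ≤ a T := by omega
  obtain ⟨xr, r1, r2, r3, r4⟩ := floorpt hR (by omega) aR (y := y)
    (by rw [← hYR, YR0]; exact hy0) (by rw [← hYR, YRT]; exact hyT)
  obtain ⟨xl', l1, l2, l3, l4⟩ := floorpt hL (by omega) aL (y := y)
    (by rw [← hYL, YL0]; exact hy0) (by rw [← hYL, YLT]; exact hyT)
  rw [← hYR, ← hXR] at r4
  rw [← hYL, ← hXL] at l4
  rw [← hYR] at r2
  rw [← hYL] at l2
  -- the bottom pair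
  have hbot : - a 0 < y → ∃ f f', AR f (y - 1) ∧ AL f' (y - 1) ∧ ¬ ang f f' ∧
      (y = YR f ∨ y = YL f') := by
    intro hlt0
    obtain ⟨f, hf⟩ := exR (y - 1) (by omega) (by omega)
    obtain ⟨f', hf'⟩ := exL (y - 1) (by omega) (by omega)
    have hnot : ¬ good (t - 1) := Nat.find_min hex (by omega)
    have et : - a 0 + ((t - 1 : ℕ) : ℤ) = y - 1 := by
      rw [Nat.cast_sub (by omega)]; push_cast; omega
    have hang : ¬ ang f f' := by
      intro hcon
      apply hnot
      right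
      exact ⟨f, f', by rw [et]; exact hf, by rw [et]; exact hf', hcon⟩
    refine ⟨f, f', hf, hf', hang, ?_⟩
    rcases tgood with h1 | ⟨e, e', h1, h2, h3⟩
    · left
      obtain ⟨f1, f2, f3, f4⟩ := hf
      have : YR f ≤ a T := by
        rw [← YRT]
        rcases (show f ≤ N + 1 - 1 by omega).lt_or_eq with h5 | h5
        · exact (mR _ _ h5 (by omega)).le
        · rw [h5]
      omega
    · by_contra hcon
      push Not at hcon
      obtain ⟨c1, c2⟩ := hcon
      obtain ⟨f1, f2, f3, f4⟩ := hf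
      obtain ⟨g1, g2, g3, g4⟩ := hf'
      have e1 : e = f := uR e f y h1 ⟨f1, f2, by omega, by omega⟩
      have e2 : e' = f' := uL e' f' y h2 ⟨g1, g2, by omega, by omega⟩
      rw [e1, e2] at h3
      exact hang h3
  -- a vertex at one end
  have hvert : (∃ i, i < N + 1 ∧ y = YR i) ∨ (∃ i, i < N' + 1 ∧ y = YL i) := by
    rcases hy0.lt_or_eq with h1 | h1
    · obtain ⟨f, f', hf, hf', _, h2 | h2⟩ := hbot h1
      · exact Or.inl ⟨f, hf.2.1, h2⟩
      · exact Or.inr ⟨f', hf'.2.1, h2⟩
    · exact Or.inl ⟨0, by omega, by rw [YR0]; exact h1.symm⟩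
  have hxle : - xl' ≤ xr := by
    rcases hvert with ⟨i, hi, h1⟩ | ⟨i, hi, h1⟩
    · have h2 := r4 i hi h1
      have h3 : - xr ≤ xl' := by
        apply l3
        intro j hj
        have h4 := hcvx (i : ZMod n) (-(j : ZMod n))
        rw [h2, h1, hXR, hYR, TwoChain.XR, TwoChain.YR]
        linarith
      linarith
    · have h2 := l4 i hi h1
      have h3 : - xl' ≤ xr := by
        apply r3
        intro j hj
        have h4 := hcvx (-((i + 1 : ℕ) : ZMod n)) (j : ZMod n)
        rw [h2, h1, hXL, hYL, TwoChain.XL, TwoChain.YL]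
        linarith
      linarith
  -- values of the segment
  have pR : ∀ i : ℕ, i ≤ N + 1 → 0 ≤ F.p (i : ZMod n) := fun i hi => hR.nonneg i hi
  have pL : ∀ i : ℕ, i ≤ N' + 1 → F.p (-(i : ZMod n)) ≤ 0 := fun i hi => by
    have := hL.nonneg i hi
    omega
  have sR : ∀ i : ℕ, i ≤ N + 1 → seg F (-xl') xr y (i : ZMod n) =
      F.p (i : ZMod n) * xr + F.q (i : ZMod n) * y := fun i hi => seg_nonneg hxle (pR i hi)
  have sL : ∀ i : ℕ, i ≤ N' + 1 → seg F (-xl') xr y (-(i : ZMod n)) =
      F.p (-(i : ZMod n)) * (-xl') + F.q (-(i : ZMod n)) * y :=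
    fun i hi => seg_nonpos hxle (pL i hi)
  have gR : ∀ e, 1 ≤ e → e < N + 1 → YR (e - 1) ≤ y → y ≤ YR e →
      a (e : ZMod n) - seg F (-xl') xr y (e : ZMod n) ≤ F.p (e : ZMod n) - 1 := by
    intro e h1 h2 h3 h4
    rw [sR e (by omega)]
    exact r2 e h1 h2 h3 h4
  have gL : ∀ e, 1 ≤ e → e < N' + 1 → YL (e - 1) ≤ y → y ≤ YL e →
      a (-(e : ZMod n)) - seg F (-xl') xr y (-(e : ZMod n)) ≤ - F.p (-(e : ZMod n)) - 1 := by
    intro e h1 h2 h3 h4
    rw [sL e (by omega)]
    have := l2 e h1 h2 h3 h4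
    linarith
  have vR : ∀ i, i < N + 1 → y = YR i →
      a (i : ZMod n) = seg F (-xl') xr y (i : ZMod n) ∧
      a ((i + 1 : ℕ) : ZMod n) = seg F (-xl') xr y ((i + 1 : ℕ) : ZMod n) := by
    intro i hi h1
    have h2 := r4 i hi h1
    rw [sR i (by omega), sR (i + 1) (by omega), h2, h1]
    have h3 := hR.at_left i hi
    have h4 := hR.at_right i hi
    exact ⟨h3.symm, h4.symm⟩
  have vL : ∀ i, i < N' + 1 → y = YL i →
      a (-(i : ZMod n)) = seg F (-xl') xr y (-(i : ZMod n)) ∧
      a (-((i + 1 : ℕ) : ZMod n)) = seg F (-xl') xr y (-((i + 1 : ℕ) : ZMod n)) := by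
    intro i hi h1
    have h2 := l4 i hi h1
    rw [sL i (by omega), sL (i + 1) (by omega), h2, h1]
    have h3 := hL.at_left i hi
    have h4 := hL.at_right i hi
    constructor
    · rw [← h3]; ring
    · rw [← h4]; ring
  refine ⟨-xl', xr, y, hxle, ?_, ?_, ?_⟩
  · -- top
    rcases hyT.lt_or_eq with hyT' | hyT'
    · right
      rcases tgood with h1 | ⟨e, e', h1, h2, h3⟩
      · exfalso; omega
      obtain ⟨e1, e2, e3, e4⟩ := h1
      obtain ⟨f1, f2, f3, f4⟩ := h2
      have te : ((N + 1 : ℕ) : ZMod n) - ((N + 1 - e : ℕ) : ZMod n) = (e : ZMod n) := by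
        rw [Nat.cast_sub (by omega)]; ring
      have te' : ((N + 1 : ℕ) : ZMod n) + ((N' + 1 - e' : ℕ) : ZMod n) = -(e' : ZMod n) := by
        rw [← h.neg_top, Nat.cast_sub (by omega)]; ring
      have hv : y = YR (e - 1) ∨ y = YL (e' - 1) := by
        rcases hy0.lt_or_eq with h4 | h4
        · obtain ⟨f, f', hf, hf', _, h5 | h5⟩ := hbot h4
          · left
            rcases lt_trichotomy f (e - 1) with h6 | h6 | h6
            · have := mR _ _ h6 (by omega); omega
            · rw [← h6]; exact h5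
            · rcases (show e ≤ f by omega).lt_or_eq with h7 | h7
              · have := mR _ _ h7 hf.2.1; omega
              · rw [h7] at e4; omega
          · right
            rcases lt_trichotomy f' (e' - 1) with h6 | h6 | h6
            · have := mL _ _ h6 (by omega); omega
            · rw [← h6]; exact h5
            · rcases (show e' ≤ f' by omega).lt_or_eq with h7 | h7
              · have := mL _ _ h7 hf'.2.1; omega
              · rw [h7] at f4; omega
        · left
          rcases Nat.eq_zero_or_pos (e - 1) with h6 | h6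
          · rw [h6, YR0]; exact h4.symm
          · have := mR 0 (e - 1) h6 (by omega)
            rw [YR0] at this
            omega
      refine ⟨N + 1 - e, N' + 1 - e', by omega, by omega, by omega, by omega, ?_, ?_⟩
      · rw [te, te']; exact h3
      · rw [te, te']
        rcases hv with hv | hv
        · left
          refine ⟨?_, gL e' f1 f2 f3 f4.le⟩
          have := (vR (e - 1) (by omega) hv).2
          rwa [show e - 1 + 1 = e by omega] at this
        · right
          refine ⟨?_, gR e e1 e2 e3 e4.le⟩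
          have := (vL (e' - 1) (by omega) hv).2
          rwa [show e' - 1 + 1 = e' by omega] at this
    · left
      rw [sR (N + 1) le_rfl, h.pT, h.qT, ← hT]
      linarith
  · -- bottom
    rcases hy0.lt_or_eq with hy0' | hy0'
    · right
      obtain ⟨f, f', ⟨e1, e2, e3, e4⟩, ⟨f1, f2, f3, f4⟩, hang, hv⟩ := hbot hy0'
      refine ⟨f, f', e1, by omega, f1, by omega, ?_, ?_⟩
      · simp only [ang] at hang
        linarith
      · rcases hv with hv | hv
        · left
          exact ⟨(vR f e2 hv).1, gL f' f1 f2 (by omega) (by omega)⟩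
        · right
          exact ⟨(vL f' f2 hv).1, gR f e1 e2 (by omega) (by omega)⟩
    · left
      have := sR 0 (by omega)
      simp only [Nat.cast_zero] at this
      rw [this, h.p0, h.q0]
      linarith
  · intro m
    rcases h.cover_ray m with ⟨i, hi, rfl⟩ | ⟨i, hi, rfl⟩
    · rw [sR i hi]
      exact r1 i hi
    · rw [sL i hi]
      have := l1 i hi
      linarith

/-- The segment has nonnegative edge lengths. -/
lemma seg_nef (F : Fan n) {xl xr : ℤ} (y : ℤ) (hx : xl ≤ xr) (m : ZMod n) :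
    0 ≤ F.len (seg F xl xr y) m := by
  have low : ∀ (i : ZMod n) (u : ℤ), (u = xl ∨ u = xr) →
      F.p i * u + F.q i * y ≤ seg F xl xr y i := by
    intro i u hu
    simp only [seg]
    rcases hu with rfl | rfl
    · have := le_max_left (F.p i * u) (F.p i * xr); linarith
    · have := le_max_right (F.p i * xl) (F.p i * u); linarith
  have e1 := F.p_rec m
  have e2 := F.q_rec m
  simp only [Fan.len]
  rcases le_total 0 (F.p m) with h1 | h1
  · rw [seg_nonneg hx h1]
    have a1 := low (m - 1) xr (Or.inr rfl)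
    have a2 := low (m + 1) xr (Or.inr rfl)
    have : (F.p (m - 1) * xr + F.q (m - 1) * y) + (F.p (m + 1) * xr + F.q (m + 1) * y) =
        F.k m * (F.p m * xr + F.q m * y) := by
      linear_combination xr * e1 + y * e2
    linarith
  · rw [seg_nonpos hx h1]
    have a1 := low (m - 1) xl (Or.inl rfl)
    have a2 := low (m + 1) xl (Or.inl rfl)
    have : (F.p (m - 1) * xl + F.q (m - 1) * y) + (F.p (m + 1) * xl + F.q (m + 1) * y) =
        F.k m * (F.p m * xl + F.q m * y) := by
      linear_combination xl * e1 + y * e2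
    linarith

lemma seg_corner (h : TwoChain F N N') {xl xr : ℤ} (y : ℤ) (hx : xl ≤ xr) (m : ZMod n) :
    (F.ux (seg F xl xr y) m = xr ∨ F.ux (seg F xl xr y) m = xl) ∧
      F.uy (seg F xl xr y) m = y := by
  have hone : ∀ i, F.len (fun _ => (0 : ℤ)) i = 0 := fun i => by simp [Fan.len]
  have hR := h.chainR (c := fun _ => 0) (fun i => (hone i).ge)
  have hL := h.chainL (c := fun _ => 0) (fun i => (hone i).ge)
  rcases h.cover m with ⟨i, hi, rfl⟩ | ⟨i, hi, rfl⟩
  · have h1 : 0 ≤ F.p (i : ZMod n) := hR.nonneg i (by omega)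
    have h2 : 0 ≤ F.p ((i + 1 : ℕ) : ZMod n) := hR.nonneg (i + 1) (by omega)
    push_cast at h2
    have d := F.det (i : ZMod n)
    refine ⟨Or.inl ?_, ?_⟩
    · simp only [Fan.ux]
      rw [seg_nonneg hx h1, seg_nonneg hx h2]
      linear_combination xr * d
    · simp only [Fan.uy]
      rw [seg_nonneg hx h1, seg_nonneg hx h2]
      linear_combination y * d
  · have h1 : 0 ≤ -F.p (-(i : ZMod n)) := hL.nonneg i (by omega)
    have h2 : 0 ≤ -F.p (-((i + 1 : ℕ) : ZMod n)) := hL.nonneg (i + 1) (by omega)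
    have e : -((i + 1 : ℕ) : ZMod n) + 1 = -(i : ZMod n) := by push_cast; ring
    have d := F.det (-((i + 1 : ℕ) : ZMod n))
    rw [e] at d
    refine ⟨Or.inr ?_, ?_⟩
    · simp only [Fan.ux]
      rw [e, seg_nonpos hx (by omega), seg_nonpos hx (by omega)]
      linear_combination xl * d
    · simp only [Fan.uy]
      rw [e, seg_nonpos hx (by omega), seg_nonpos hx (by omega)]
      linear_combination y * d

end start

end Pool.Agent.Helper517.Start
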