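import Pool.Agent.Helper517.Place

/-!
Cyclic unimodular fans in the plane, support vectors, and the elementary growth steps.
-/

namespace Pool.Agent.Helper517.Step

open Finset Pool.Agent.Helper517.Place

/-- A cyclic sequence of vectors of the plane, consecutive ones forming oriented bases. -/
structure Fan (n : ℕ) where
  /-- first coordinates -/
  p : ZMod n → ℤ
  /-- second coordinates -/
  q : ZMod n → ℤ
  det : ∀ m, p m * q (m + 1) - q m * p (m + 1) = 1

namespace Fan

variable {n : ℕ} (F : Fan n)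

/-- The number `k m` with `ν (m - 1) + ν (m + 1) = k m • ν m`. -/
def k (m : ZMod n) : ℤ := F.p (m - 1) * F.q (m + 1) - F.q (m - 1) * F.p (m + 1)

lemma det' (m : ZMod n) : F.p (m - 1) * F.q m - F.q (m - 1) * F.p m = 1 := by
  have := F.det (m - 1)
  rwa [sub_add_cancel] at this

lemma p_rec (m : ZMod n) : F.p (m - 1) + F.p (m + 1) = F.k m * F.p m := by
  have h1 := F.det m
  have h2 := F.det' m
  simp only [k]
  linear_combination (F.p (m - 1)) * (-h1) + (F.p (m + 1)) * (-h2)

lemma q_rec (m : ZMod n) : F.q (m - 1) + F.q (m + 1) = F.k m * F.q m := by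
  have h1 := F.det m
  have h2 := F.det' m
  simp only [k]
  linear_combination (F.q (m - 1)) * (-h1) + (F.q (m + 1)) * (-h2)

/-- The edge lengths of a support vector. -/
def len (c : ZMod n → ℤ) (m : ZMod n) : ℤ := c (m - 1) + c (m + 1) - F.k m * c m

/-- The corners of a support vector. -/
def ux (c : ZMod n → ℤ) (m : ZMod n) : ℤ := c m * F.q (m + 1) - c (m + 1) * F.q m

/-- The corners of a support vector. -/
def uy (c : ZMod n → ℤ) (m : ZMod n) : ℤ := c (m + 1) * F.p m - c m * F.p (m + 1)

lemma at_left (c : ZMod n → ℤ) (m : ZMod n) : F.p m * F.ux c m + F.q m * F.uy c m = c m := by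
  simp only [ux, uy]
  linear_combination (c m) * F.det m

lemma at_right (c : ZMod n → ℤ) (m : ZMod n) :
    F.p (m + 1) * F.ux c m + F.q (m + 1) * F.uy c m = c (m + 1) := by
  simp only [ux, uy]
  linear_combination (c (m + 1)) * F.det m

lemma at_right' (c : ZMod n → ℤ) (m : ZMod n) :
    F.p m * F.ux c (m - 1) + F.q m * F.uy c (m - 1) = c m := by
  have := F.at_right c (m - 1)
  rwa [sub_add_cancel] at this

lemma ux_prev (c : ZMod n → ℤ) (m : ZMod n) :
    F.ux c (m - 1) = F.ux c m + F.len c m * F.q m := by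
  simp only [ux, len, sub_add_cancel]
  linear_combination (-c m) * F.q_rec m

lemma uy_prev (c : ZMod n → ℤ) (m : ZMod n) :
    F.uy c (m - 1) = F.uy c m - F.len c m * F.p m := by
  simp only [uy, len, sub_add_cancel]
  linear_combination (c m) * F.p_rec m

/-- Every corner satisfies every inequality. -/
def Cvx (c : ZMod n → ℤ) : Prop := ∀ m j, F.p j * F.ux c m + F.q j * F.uy c m ≤ c j

lemma Cvx.len_nonneg {c : ZMod n → ℤ} (h : F.Cvx c) (m : ZMod n) : 0 ≤ F.len c m := by
  have h1 := h m (m - 1)
  have h2 : F.p (m - 1) * F.ux c m + F.q (m - 1) * F.uy c m = c (m - 1) - F.len c m := by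
    simp only [ux, uy, len, k]
    linear_combination (-c (m + 1)) * F.det' m
  omega

variable {ι : Type*} [DecidableEq ι]

/-- The configuration `A` lies in the polygons with support vectors `c j` and contains their
corners. -/
def Conf (c : ι → ZMod n → ℤ) (A : Finset (Pt ι)) : Prop :=
  (∀ z ∈ A, ∀ m, F.p m * z.2.1 + F.q m * z.2.2 ≤ c z.1 m) ∧
    ∀ j m, (j, F.ux (c j) m, F.uy (c j) m) ∈ A

/-- Enlarging one entry of a support vector. -/
def bump (c : ZMod n → ℤ) (m : ZMod n) : ZMod n → ℤ := Function.update c m (c m + 1)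

omit F in
lemma bump_self (c : ZMod n → ℤ) (m : ZMod n) : bump c m m = c m + 1 := by
  simp [bump]

omit F in
lemma bump_ne (c : ZMod n → ℤ) {m i : ZMod n} (h : i ≠ m) : bump c m i = c i := by
  simp [bump, h]

omit F in
lemma le_bump (c : ZMod n → ℤ) (m i : ZMod n) : c i ≤ bump c m i := by
  by_cases h : i = m
  · subst h; rw [bump_self]; omega
  · rw [bump_ne c h]

/-- The single step. -/
lemma step_single (hn : 2 ≤ n) {c : ι → ZMod n → ℤ} (hc : ∀ j, F.Cvx (c j)) {A : Finset (Pt ι)}
    (hG : Good A) (hA : F.Conf c A) (j0 : ι) (m : ZMod n) (hk : F.k m ≤ F.len (c j0) m)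
    (hc' : F.Cvx (bump (c j0) m)) :
    ∃ A', Good A' ∧ F.Conf (Function.update c j0 (bump (c j0) m)) A' := by
  classical
  have : Fact (1 < n) := ⟨by omega⟩
  have hm1 : m + 1 ≠ m := by
    intro h
    have : (1 : ZMod n) = 0 := by
      have h2 : m + 1 = m + 0 := by rw [h, add_zero]
      exact add_left_cancel h2
    exact one_ne_zero this
  have hm2 : m - 1 ≠ m := by
    intro h
    have : (1 : ZMod n) = 0 := by
      have h2 : m - 1 = m - 0 := by rw [h, sub_zero]
      exact sub_right_injective h2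
    exact one_ne_zero this
  -- the functionals
  let φ : Pt ι → ℤ := fun z => - c z.1 m + F.p m * z.2.1 + F.q m * z.2.2
  let ψ : Pt ι → ℤ := fun z => - c z.1 (m + 1) + F.p (m + 1) * z.2.1 + F.q (m + 1) * z.2.2
  have hφ : ∀ z, φ z = (fun i => - c i m) z.1 + F.p m * z.2.1 + F.q m * z.2.2 := fun z => rfl
  have hψ : ∀ z, ψ z = (fun i => - c i (m + 1)) z.1 + F.p (m + 1) * z.2.1 +
    F.q (m + 1) * z.2.2 := fun z => rfl
  have hdet : F.p m * F.q (m + 1) - F.q m * F.p (m + 1) ≠ 0 := by rw [F.det]; norm_num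
  let b : ι → ℤ := fun j => F.len (c j) m
  have hb : ∀ j, 0 ≤ b j := fun j => (hc j).len_nonneg F m
  have h1 : ∀ z ∈ A, φ z ≤ 0 := fun z hz => by
    have := hA.1 z hz m
    simp only [φ]; omega
  have h2 : ∀ z ∈ A, ψ z ≤ 0 := fun z hz => by
    have := hA.1 z hz (m + 1)
    simp only [ψ]; omega
  have h3' : ∀ z : Pt ι, F.k m * φ z - ψ z - b z.1 =
      - c z.1 (m - 1) + F.p (m - 1) * z.2.1 + F.q (m - 1) * z.2.2 := by
    intro z
    have e1 := F.p_rec m
    have e2 := F.q_rec m
    simp only [φ, ψ, b, len]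
    linear_combination (-z.2.1) * e1 + (-z.2.2) * e2
  have h3 : ∀ z ∈ A, F.k m * φ z - ψ z - b z.1 ≤ 0 := fun z hz => by
    have := hA.1 z hz (m - 1)
    rw [h3']; omega
  let up : ι → Pt ι := fun j => (j, F.ux (c j) m, F.uy (c j) m)
  let um : ι → Pt ι := fun j => (j, F.ux (c j) (m - 1), F.uy (c j) (m - 1))
  have hup : ∀ j, up j ∈ A ∧ (up j).1 = j ∧ φ (up j) = 0 ∧ ψ (up j) = 0 := by
    intro j
    refine ⟨hA.2 j m, rfl, ?_, ?_⟩
    · have := F.at_left (c j) m
      simp only [φ, up]; omega
    · have := F.at_right (c j) m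
      simp only [ψ, up]; omega
  have hum : ∀ j, um j ∈ A ∧ (um j).1 = j ∧ φ (um j) = 0 ∧ ψ (um j) = - b j := by
    intro j
    have e1 := F.at_right' (c j) m
    have e2 := F.at_left (c j) (m - 1)
    have e3 : φ (um j) = 0 := by simp only [φ, um]; omega
    refine ⟨hA.2 j (m - 1), rfl, e3, ?_⟩
    have e4 := h3' (um j)
    rw [e3] at e4
    simp only [um, mul_zero] at e4 ⊢
    omega
  -- the new points
  let W : ℤ → Pt ι := fun t => (j0, (c j0 m + 1) * F.q (m + 1) - (c j0 (m + 1) - t) * F.q m,
    (c j0 (m + 1) - t) * F.p m - (c j0 m + 1) * F.p (m + 1))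
  have hW1 : ∀ t, φ (W t) = 1 := by
    intro t
    simp only [φ, W]
    linear_combination (c j0 m + 1) * F.det m
  have hW2 : ∀ t, ψ (W t) = - t := by
    intro t
    simp only [ψ, W]
    linear_combination (c j0 (m + 1) - t) * F.det m
  have hind : ∀ t : ℕ, (t : ℤ) ≤ F.len (c j0) m - F.k m →
      Good (A ∪ (range (t + 1)).image (fun i : ℕ => W i)) := by
    intro t
    induction t with
    | zero =>
      intro _
      have := hG.first (α₀ := fun i => - c i m) (β₀ := fun i => - c i (m + 1)) hφ hψ hdet hb h1 h2 h3 up um hup hum (w := W 0) hk (hW1 0)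
        (by rw [hW2]; ring)
      have e : A ∪ (range (0 + 1)).image (fun i : ℕ => W i) = insert (W 0) A := by
        ext z
        simp [or_comm]
      rwa [e]
    | succ t ih =>
      intro ht
      push_cast at ht
      have hG' := ih (by omega)
      have e : A ∪ (range (t + 1 + 1)).image (fun i : ℕ => W i) =
          insert (W ((t : ℤ) + 1)) (A ∪ (range (t + 1)).image (fun i : ℕ => W i)) := by
        rw [range_add_one, image_insert]
        ext z
        simp only [mem_union, mem_insert, mem_image, mem_range]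
        push_cast
        tauto
      rw [e]
      refine hG'.next (α₀ := fun i => - c i m) (β₀ := fun i => - c i (m + 1)) hφ hψ hdet (k := F.k m) (b := b) (t := t) ?_ um ?_ (wt := W t) ?_ rfl
        (hW1 _) (hW2 _) ?_ (hW1 _) (hW2 _)
      · intro z hz
        rcases mem_union.1 hz with hz | hz
        · exact Or.inl ⟨h1 z hz, h3 z hz⟩
        · obtain ⟨i, hi, rfl⟩ := mem_image.1 hz
          have hi' := mem_range.1 hi
          refine Or.inr ⟨rfl, hW1 _, ?_, ?_⟩
          · rw [hW2]; omega
          · rw [hW2]; omega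
      · intro j
        obtain ⟨a1, a2, a3, a4⟩ := hum j
        exact ⟨mem_union_left _ a1, a2, a3, a4⟩
      · exact mem_union_right _ (mem_image.2 ⟨t, mem_range.2 (by omega), rfl⟩)
      · show F.k m + t + 1 ≤ F.len (c j0) m
        omega
  set N : ℕ := (F.len (c j0) m - F.k m).toNat with hN
  have hNZ : (N : ℤ) = F.len (c j0) m - F.k m := Int.toNat_of_nonneg (by omega)
  refine ⟨_, hind N hNZ.le, ?_⟩
  -- the corners of the enlarged polygon
  have hcor0 : W 0 = (j0, F.ux (bump (c j0) m) m, F.uy (bump (c j0) m) m) := by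
    simp only [W, ux, uy, bump_self, bump_ne (c j0) hm1, sub_zero]
  have hcorN : W N = (j0, F.ux (bump (c j0) m) (m - 1), F.uy (bump (c j0) m) (m - 1)) := by
    have e1 := F.p_rec m
    have e2 := F.q_rec m
    simp only [W, ux, uy, sub_add_cancel, bump_self, bump_ne (c j0) hm2]
    rw [hNZ, len]
    refine Prod.ext rfl (Prod.ext ?_ ?_)
    · simp only
      linear_combination (c j0 m + 1) * e2
    · simp only
      linear_combination (-c j0 m - 1) * e1
  constructor
  · intro z hz i
    rcases mem_union.1 hz with hz | hz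
    · have h4 := hA.1 z hz i
      by_cases h : z.1 = j0
      · rw [h, Function.update_self]
        rw [h] at h4
        exact h4.trans (le_bump _ _ _)
      · rw [Function.update_of_ne h]; exact h4
    · obtain ⟨t, ht, rfl⟩ := mem_image.1 hz
      have ht' := mem_range.1 ht
      show F.p i * (W t).2.1 + F.q i * (W t).2.2 ≤ Function.update c j0 (bump (c j0) m) j0 i
      rw [Function.update_self]
      have g0 := hc' m i
      have gN := hc' (m - 1) i
      have a0 := congrArg (fun z : Pt ι => z.2.1) hcor0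
      have a1 := congrArg (fun z : Pt ι => z.2.2) hcor0
      have aN := congrArg (fun z : Pt ι => z.2.1) hcorN
      have aN' := congrArg (fun z : Pt ι => z.2.2) hcorN
      simp only at a0 a1 aN aN'
      rw [← a0, ← a1] at g0
      rw [← aN, ← aN'] at gN
      have f : ∀ s : ℤ, F.p i * (W s).2.1 + F.q i * (W s).2.2 =
          (F.p i * (W 0).2.1 + F.q i * (W 0).2.2) + s * (F.p i * F.q m - F.q i * F.p m) := by
        intro s
        simp only [W]
        ring
      rw [f] at gN ⊢
      have ht2 : (t : ℤ) ≤ N := by exact_mod_cast Nat.lt_succ_iff.1 ht'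
      have ht0 : (0 : ℤ) ≤ t := by positivity
      rcases le_total 0 (F.p i * F.q m - F.q i * F.p m) with h | h
      · have := mul_le_mul_of_nonneg_right ht2 h
        omega
      · have := mul_nonneg_of_nonpos_of_nonpos (a := -(t : ℤ))
          (b := F.p i * F.q m - F.q i * F.p m) (by omega) h
        rw [neg_mul] at this
        omega
  · intro j i
    by_cases h : j = j0
    · subst h
      rw [Function.update_self]
      by_cases hi : i = m
      · subst hi
        rw [← hcor0]
        exact mem_union_right _ (mem_image.2 ⟨0, mem_range.2 (by omega), rfl⟩)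
      · by_cases hi' : i = m - 1
        · subst hi'
          rw [← hcorN]
          exact mem_union_right _ (mem_image.2 ⟨N, mem_range.2 (by omega), rfl⟩)
        · have hi1 : i + 1 ≠ m := fun h => hi' (by rw [← h, add_sub_cancel_right])
          have := hA.2 j i
          simp only [ux, uy] at this ⊢
          rw [bump_ne _ hi, bump_ne _ hi1]
          exact mem_union_left _ this
    · rw [Function.update_of_ne h]
      exact mem_union_left _ (hA.2 j i)

omit F in
lemma two_ne (hn : 3 ≤ n) : (2 : ZMod n) ≠ 0 := by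
  intro h
  have h2 : ((2 : ℕ) : ZMod n) = 0 := by exact_mod_cast h
  rw [ZMod.natCast_eq_zero_iff] at h2
  have := Nat.le_of_dvd (by norm_num) h2
  omega

/-- The double step. -/
lemma step_pair (hn : 3 ≤ n) {c : ι → ZMod n → ℤ} (hc : ∀ j, F.Cvx (c j)) {A : Finset (Pt ι)}
    (hG : Good A) (hA : F.Conf c A) (j0 : ι) (m : ZMod n) (hk : F.len (c j0) m = F.k m - 1)
    (hk' : F.len (c j0) (m + 1) = F.k (m + 1) - 1)
    (hc' : F.Cvx (bump (bump (c j0) m) (m + 1))) :
    ∃ A', Good A' ∧ F.Conf (Function.update c j0 (bump (bump (c j0) m) (m + 1))) A' := by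
  classical
  have : Fact (1 < n) := ⟨by omega⟩
  have h10 : (1 : ZMod n) ≠ 0 := one_ne_zero
  have h20 := two_ne hn
  have hm1 : m + 1 ≠ m := fun h => h10 (by
    have h2 : m + 1 = m + 0 := by rw [h, add_zero]
    exact add_left_cancel h2)
  have hm2 : m - 1 ≠ m := fun h => h10 (by
    have h2 : m - 1 = m - 0 := by rw [h, sub_zero]
    exact sub_right_injective h2)
  have hm3 : m - 1 ≠ m + 1 := fun h => h20 (by
    have h2 : m + 1 - (m - 1) = 0 := by rw [h]; ring
    rw [← h2]; ring)
  have hm4 : m + 1 + 1 ≠ m := fun h => h20 (by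
    have h2 : m + 1 + 1 - m = 0 := by rw [h]; ring
    rw [← h2]; ring)
  have hm5 : m + 1 + 1 ≠ m + 1 := fun h => h10 (by
    have h2 : m + 1 + 1 - (m + 1) = 0 := by rw [h]; ring
    rw [← h2]; ring)
  -- the functionals
  let φ : Pt ι → ℤ := fun z => - c z.1 m + F.p m * z.2.1 + F.q m * z.2.2
  let ψ : Pt ι → ℤ := fun z => - c z.1 (m + 1) + F.p (m + 1) * z.2.1 + F.q (m + 1) * z.2.2
  have hφ : ∀ z, φ z = (fun i => - c i m) z.1 + F.p m * z.2.1 + F.q m * z.2.2 := fun z => rfl
  have hψ : ∀ z, ψ z = (fun i => - c i (m + 1)) z.1 + F.p (m + 1) * z.2.1 +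
    F.q (m + 1) * z.2.2 := fun z => rfl
  have hdet : F.p m * F.q (m + 1) - F.q m * F.p (m + 1) ≠ 0 := by rw [F.det]; norm_num
  let b : ι → ℤ := fun j => F.len (c j) m
  have hb : ∀ j, 0 ≤ b j := fun j => (hc j).len_nonneg F m
  let b' : ι → ℤ := fun j => F.len (c j) (m + 1)
  have hb' : ∀ j, 0 ≤ b' j := fun j => (hc j).len_nonneg F (m + 1)
  have h1 : ∀ z ∈ A, φ z ≤ 0 := fun z hz => by
    have := hA.1 z hz m
    simp only [φ]; omega
  have h2 : ∀ z ∈ A, ψ z ≤ 0 := fun z hz => by
    have := hA.1 z hz (m + 1)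
    simp only [ψ]; omega
  have h3' : ∀ z : Pt ι, F.k m * φ z - ψ z - b z.1 =
      - c z.1 (m - 1) + F.p (m - 1) * z.2.1 + F.q (m - 1) * z.2.2 := by
    intro z
    have e1 := F.p_rec m
    have e2 := F.q_rec m
    simp only [φ, ψ, b, len]
    linear_combination (-z.2.1) * e1 + (-z.2.2) * e2
  have h3 : ∀ z ∈ A, F.k m * φ z - ψ z - b z.1 ≤ 0 := fun z hz => by
    have := hA.1 z hz (m - 1)
    rw [h3']; omega
  have h4' : ∀ z : Pt ι, F.k (m + 1) * ψ z - φ z - b' z.1 =
      - c z.1 (m + 1 + 1) + F.p (m + 1 + 1) * z.2.1 + F.q (m + 1 + 1) * z.2.2 := by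
    intro z
    have e1 := F.p_rec (m + 1)
    have e2 := F.q_rec (m + 1)
    rw [add_sub_cancel_right] at e1 e2
    simp only [φ, ψ, b', len, add_sub_cancel_right]
    linear_combination (-z.2.1) * e1 + (-z.2.2) * e2
  have h4 : ∀ z ∈ A, F.k (m + 1) * ψ z - φ z - b' z.1 ≤ 0 := fun z hz => by
    have := hA.1 z hz (m + 1 + 1)
    rw [h4']; omega
  let u : ι → Pt ι := fun j => (j, F.ux (c j) m, F.uy (c j) m)
  let um : ι → Pt ι := fun j => (j, F.ux (c j) (m - 1), F.uy (c j) (m - 1))
  let up : ι → Pt ι := fun j => (j, F.ux (c j) (m + 1), F.uy (c j) (m + 1))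
  have hu : ∀ j, u j ∈ A ∧ (u j).1 = j ∧ φ (u j) = 0 ∧ ψ (u j) = 0 := by
    intro j
    refine ⟨hA.2 j m, rfl, ?_, ?_⟩
    · have := F.at_left (c j) m
      simp only [φ, u]; omega
    · have := F.at_right (c j) m
      simp only [ψ, u]; omega
  have hum : ∀ j, um j ∈ A ∧ (um j).1 = j ∧ φ (um j) = 0 ∧ ψ (um j) = - b j := by
    intro j
    have e1 := F.at_right' (c j) m
    have e2 := F.at_left (c j) (m - 1)
    have e3 : φ (um j) = 0 := by simp only [φ, um]; omega
    refine ⟨hA.2 j (m - 1), rfl, e3, ?_⟩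
    have e4 := h3' (um j)
    rw [e3] at e4
    simp only [um, mul_zero] at e4 ⊢
    omega
  have hup : ∀ j, up j ∈ A ∧ (up j).1 = j ∧ φ (up j) = - b' j ∧ ψ (up j) = 0 := by
    intro j
    have e1 := F.at_left (c j) (m + 1)
    have e2 := F.at_right (c j) (m + 1)
    have e3 : ψ (up j) = 0 := by simp only [ψ, up]; omega
    refine ⟨hA.2 j (m + 1), rfl, ?_, e3⟩
    have e4 := h4' (up j)
    rw [e3] at e4
    simp only [up, mul_zero] at e4 ⊢
    omega
  set c' := bump (bump (c j0) m) (m + 1) with hc'def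
  have hc1 : c' (m + 1) = c j0 (m + 1) + 1 := by
    rw [hc'def, bump_self, bump_ne _ hm1]
  have hc0 : c' m = c j0 m + 1 := by
    rw [hc'def, bump_ne _ (Ne.symm hm1), bump_self]
  have hcne : ∀ i, i ≠ m → i ≠ m + 1 → c' i = c j0 i := by
    intro i h h'
    rw [hc'def, bump_ne _ h', bump_ne _ h]
  have hlec : ∀ i, c j0 i ≤ c' i := fun i => (le_bump _ _ _).trans (le_bump _ _ _)
  let w : Pt ι := (j0, F.ux c' m, F.uy c' m)
  have hw1 : φ w = 1 := by
    have := F.at_left c' m
    simp only [φ, w]; omega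
  have hw2 : ψ w = 1 := by
    have := F.at_right c' m
    simp only [ψ, w]; omega
  refine ⟨_, hG.corner (w := w) (α₀ := fun i => - c i m) (β₀ := fun i => - c i (m + 1))
    hφ hψ hdet hb hb' h1 h2 h3 h4 u um up hu hum hup hk hk' hw1 hw2, ?_⟩
  have hlen0 : F.len c' m = 0 := by
    have : F.len (c j0) m = c j0 (m - 1) + c j0 (m + 1) - F.k m * c j0 m := rfl
    rw [len, hcne (m - 1) hm2 hm3, hc1, hc0]
    linarith
  have hlen1 : F.len c' (m + 1) = 0 := by
    have : F.len (c j0) (m + 1) = c j0 (m + 1 - 1) + c j0 (m + 1 + 1) -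
      F.k (m + 1) * c j0 (m + 1) := rfl
    rw [len, add_sub_cancel_right, hcne (m + 1 + 1) hm4 hm5, hc1, hc0]
    rw [add_sub_cancel_right] at this
    linarith
  constructor
  · intro z hz i
    rcases mem_insert.1 hz with rfl | hz
    · show F.p i * F.ux c' m + F.q i * F.uy c' m ≤ Function.update c j0 c' j0 i
      rw [Function.update_self]
      exact hc' m i
    · have h4 := hA.1 z hz i
      by_cases h : z.1 = j0
      · rw [h, Function.update_self]
        rw [h] at h4
        exact h4.trans (hlec i)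
      · rw [Function.update_of_ne h]; exact h4
  · intro j i
    by_cases h : j = j0
    · subst h
      rw [Function.update_self]
      by_cases hi : i = m
      · subst hi
        exact mem_insert_self _ _
      · by_cases hi' : i = m - 1
        · subst hi'
          rw [F.ux_prev, F.uy_prev, hlen0]
          simp only [zero_mul, add_zero, sub_zero]
          exact mem_insert_self _ _
        · by_cases hi'' : i = m + 1
          · subst hi''
            have e1 := F.ux_prev c' (m + 1)
            have e2 := F.uy_prev c' (m + 1)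
            rw [hlen1, add_sub_cancel_right] at e1 e2
            simp only [zero_mul, add_zero, sub_zero] at e1 e2
            rw [← e1, ← e2]
            exact mem_insert_self _ _
          · have hi1 : i + 1 ≠ m := fun h => hi' (by rw [← h, add_sub_cancel_right])
            have hi2 : i + 1 ≠ m + 1 := fun h => hi (add_right_cancel h)
            have := hA.2 j i
            simp only [ux, uy] at this ⊢
            rw [hcne _ hi hi'', hcne _ hi1 hi2]
            exact mem_insert_of_mem this
    · rw [Function.update_of_ne h]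
      exact mem_insert_of_mem (hA.2 j i)

end Fan

end Pool.Agent.Helper517.Step
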