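import Pool.Agent.Helper517.Bundle2

/-!
Transfer of regular unimodular triangulations: unimodular maps, faces of products.
-/

namespace Pool.Agent.Helper517.Transfer

open Finset Geometry Pool.Agent.Helper517.Conv
open Pool.Agent.Helper517.Frame
open Pool.Agent.Helper517.Smooth
open Pool.Agent.Helper517.Sect
open Pool.Agent.Helper517
open Pool.Agent.Helper489.RUT (ev)

section basic

variable {d : ℕ} {P : Set (Fin d → ℝ)} {K : SimplicialComplex ℝ (Fin d → ℝ)}
  {h : (Fin d → ℝ) → ℝ}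

lemma finite_faces (hfin : {y : Fin d → ℤ | toR y ∈ P}.Finite) (hK : RutData P K h) :
    K.faces.Finite := by
  obtain ⟨hsp, hfaces, hfacets⟩ := hK
  have h1 : (toR '' {y : Fin d → ℤ | toR y ∈ P}).Finite := hfin.image _
  refine (Set.Finite.finite_subsets h1).preimage
    (f := fun s : Finset (Fin d → ℝ) => (s : Set (Fin d → ℝ)))
    (Finset.coe_injective.injOn) |>.subset ?_
  intro s hs
  obtain ⟨_, h2, _⟩ := (hfaces s).1 hs
  show (s : Set (Fin d → ℝ)) ⊆ _
  intro v hv
  obtain ⟨h3, h4⟩ := h2 v hv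
  choose k hk using h4
  have hkv : toR k = v := funext (fun i => (hk i).symm)
  exact ⟨k, by rw [Set.mem_ofPred_eq, hkv]; exact h3, hkv⟩

lemma exists_facet (hfin : {y : Fin d → ℤ | toR y ∈ P}.Finite) (hK : RutData P K h)
    {τ : Finset (Fin d → ℝ)} (hτ : τ ∈ K.faces) : ∃ ρ ∈ K.facets, τ ⊆ ρ := by
  have hfinK := finite_faces hfin hK
  obtain ⟨ρ, ⟨hρ1, hρ2⟩, hρ3⟩ := Set.exists_max_image {s | s ∈ K.faces ∧ τ ⊆ s}
    (fun s => s.card) (hfinK.subset (fun s hs => hs.1)) ⟨τ, hτ, Finset.Subset.refl _⟩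
  refine ⟨ρ, ?_, hρ2⟩
  rw [SimplicialComplex.mem_facets]
  refine ⟨hρ1, fun s hs hρs => ?_⟩
  exact Finset.eq_of_subset_of_card_le hρs (hρ3 s ⟨hs, hρ2.trans hρs⟩)

/-- Integral functions on the vertices of a face extend to affine functionals. -/
lemma extend (hfin : {y : Fin d → ℤ | toR y ∈ P}.Finite) (hK : RutData P K h)
    {τ : Finset (Fin d → ℝ)} (hτ : τ ∈ K.faces) (α : (Fin d → ℤ) → ℤ) :
    ∃ (a : Fin d → ℤ) (c : ℤ), ∀ x : Fin d → ℤ, toR x ∈ τ → ∑ i, a i * x i + c = α x := by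
  obtain ⟨ρ, hρ, hτρ⟩ := exists_facet hfin hK hτ
  obtain ⟨hsp, hfaces, hfacets⟩ := hK
  obtain ⟨v, hv1, hv2, hv3⟩ := hfacets ρ hρ
  obtain ⟨a₀, c₀, hac⟩ := dual_of_det v hv3 (fun j => α (v j))
  refine ⟨a₀, c₀, fun x hx => ?_⟩
  obtain ⟨j, hj⟩ := (hv2 _).1 (hτρ hx)
  have hj' : x = v j := toR_injective hj
  rw [hj']
  exact hac j

/-- The lattice points affinely span the space. -/
lemma sep (hfin : {y : Fin d → ℤ | toR y ∈ P}.Finite) (hK : RutData P K h) (hne : P.Nonempty)
    {φ : (Fin d → ℝ) × ℝ} (hφ : ∀ x : Fin d → ℤ, toR x ∈ P → ev φ (toR x) = 0) : φ = 0 := by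
  obtain ⟨x, hx⟩ := hne
  have hx' := hx
  rw [← hK.1, SimplicialComplex.mem_space_iff] at hx'
  obtain ⟨τ, hτ, _⟩ := hx'
  obtain ⟨ρ, hρ, _⟩ := exists_facet hfin hK hτ
  obtain ⟨hsp, hfaces, hfacets⟩ := hK
  obtain ⟨v, hv1, hv2, hv3⟩ := hfacets ρ hρ
  have hvP : ∀ j, toR (v j) ∈ P := by
    intro j
    have h1 : toR (v j) ∈ ρ := (hv2 _).2 ⟨j, rfl⟩
    obtain ⟨_, h2, _⟩ := (hfaces ρ).1 hρ.1
    exact (h2 _ h1).1
  have h0 : ∀ j, ∑ i, φ.1 i * (v j i : ℝ) + φ.2 = 0 := fun j => hφ _ (hvP j)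
  set M : Matrix (Fin d) (Fin d) ℤ :=
    Matrix.of fun (j : Fin d) (i : Fin d) => v j.succ i - v 0 i with hM
  have hdet : (M.map (fun z : ℤ => (z : ℝ))).det ≠ 0 := by
    have h1 : (M.map (fun z : ℤ => (z : ℝ))).det = ((M.det : ℤ) : ℝ) := by
      have := RingHom.map_det (Int.castRingHom ℝ) M
      rw [eq_intCast] at this
      rw [this]
      rfl
    rw [h1]
    intro hc
    have h2 : M.det = 0 := by exact_mod_cast hc
    rw [h2] at hv3
    simp at hv3
  have h1 : φ.1 = 0 := by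
    refine Matrix.eq_zero_of_mulVec_eq_zero hdet ?_
    funext j
    rw [Matrix.mulVec, dotProduct]
    simp only [Matrix.map_apply, hM, Matrix.of_apply, Pi.zero_apply]
    have e1 := h0 j.succ
    have e2 := h0 0
    push_cast
    have e3 : ∑ i, ((v j.succ i : ℝ) - (v 0 i : ℝ)) * φ.1 i =
        ∑ i, φ.1 i * (v j.succ i : ℝ) - ∑ i, φ.1 i * (v 0 i : ℝ) := by
      rw [← sum_sub_distrib]
      exact sum_congr rfl (fun i _ => by ring)
    rw [e3]
    linarith
  have h2 : φ.2 = 0 := by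
    have e := h0 0
    rw [h1] at e
    simpa using e
  exact Prod.ext h1 h2

/-- A polytope is the convex hull of its lattice points. -/
lemma hull_lattice {S : Set (Fin d → ℤ)} (hP : P = convexHull ℝ (toR '' S)) :
    P = convexHull ℝ (toR '' {y : Fin d → ℤ | toR y ∈ P}) := by
  have hconv : Convex ℝ P := by rw [hP]; exact convex_convexHull ℝ _
  apply Set.Subset.antisymm
  · intro x hx
    rw [hP] at hx
    refine convexHull_mono ?_ hx
    rintro _ ⟨s, hs, rfl⟩
    refine ⟨s, ?_, rfl⟩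
    show toR s ∈ P
    rw [hP]; exact subset_convexHull ℝ _ ⟨s, hs, rfl⟩
  · apply convexHull_min _ hconv
    rintro _ ⟨s, hs, rfl⟩
    exact hs

/-- Invariance under unimodular affine maps. -/
theorem rut_equiv {S : Set (Fin d → ℤ)} (hS : S.Finite) (hP : P = convexHull ℝ (toR '' S))
    (hne : P.Nonempty) (hK : RutData P K h) (A : Matrix (Fin d) (Fin d) ℤ) (hA : |A.det| = 1)
    (t : Fin d → ℤ) :
    ∃ (K' : SimplicialComplex ℝ (Fin d → ℝ)) (h' : (Fin d → ℝ) → ℝ),
      RutData ((fun (x : Fin d → ℝ) (i : Fin d) => ∑ z, (A i z : ℝ) * x z + (t i : ℝ)) '' P)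
        K' h' := by
  classical
  have hfin : {y : Fin d → ℤ | toR y ∈ P}.Finite := by rw [hP]; exact finite_lattice hS
  have hunit : IsUnit A.det := Int.isUnit_iff_abs_eq.2 hA
  have hAi : A * A⁻¹ = 1 := Matrix.mul_nonsing_inv A hunit
  have hiA : A⁻¹ * A = 1 := Matrix.nonsing_inv_mul A hunit
  set f : (Fin d → ℝ) → (Fin d → ℝ) :=
    fun x i => ∑ z, (A i z : ℝ) * x z + (t i : ℝ) with hf
  let ψ : (Fin d → ℤ) → (Fin d → ℤ) := fun x => A.mulVec x + t
  have hfψ : ∀ x, toR (ψ x) = f (toR x) := by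
    intro x
    funext i
    simp only [ψ, toR, hf, Pi.add_apply, Matrix.mulVec, dotProduct]
    push_cast
    rfl
  have hψinj : Function.Injective ψ := by
    intro x y hxy
    have h1 : A.mulVec x = A.mulVec y := add_right_cancel hxy
    have h2 := congrArg (fun z => A⁻¹.mulVec z) h1
    simp only [Matrix.mulVec_mulVec, hiA, Matrix.one_mulVec] at h2
    exact h2
  have hfcomb : ∀ (x y : Fin d → ℝ) (a b : ℝ), a + b = 1 →
      f (a • x + b • y) = a • f x + b • f y := by
    intro x y a b hab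
    funext i
    simp only [hf, Pi.add_apply, Pi.smul_apply, smul_eq_mul]
    have e1 : ∑ z, (A i z : ℝ) * (a * x z + b * y z) =
        a * ∑ z, (A i z : ℝ) * x z + b * ∑ z, (A i z : ℝ) * y z := by
      rw [mul_sum, mul_sum, ← sum_add_distrib]
      exact sum_congr rfl (fun z _ => by ring)
    rw [e1]
    linear_combination (-(t i : ℝ)) * hab
  have hconv : Convex ℝ P := by rw [hP]; exact convex_convexHull ℝ _
  have hpull : ∀ φ : (Fin d → ℝ) × ℝ, ∃ φ' : (Fin d → ℝ) × ℝ,
      φ'.1 = Matrix.vecMul φ.1 (A.map (fun z : ℤ => (z : ℝ))) ∧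
      φ'.2 = ∑ i, φ.1 i * (t i : ℝ) + φ.2 ∧ ∀ x, ev φ (f x) = ev φ' x := by
    intro φ
    refine ⟨(Matrix.vecMul φ.1 (A.map (fun z : ℤ => (z : ℝ))),
      ∑ i, φ.1 i * (t i : ℝ) + φ.2), rfl, rfl, fun x => ?_⟩
    simp only [ev, hf, Matrix.vecMul, dotProduct, Matrix.map_apply]
    simp only [mul_add, sum_add_distrib, mul_sum, sum_mul]
    rw [sum_comm]
    have e : ∑ y, ∑ x_1, φ.1 x_1 * ((A x_1 y : ℝ) * x y) =
        ∑ y, ∑ i, φ.1 i * (A i y : ℝ) * x y := by
      refine sum_congr rfl (fun y _ => sum_congr rfl (fun i _ => by ring))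
    rw [e]
    ring
  refine exists_rut0 (f '' P) ψ hψinj hfin.toFinset (fun x => h (toR x)) ?_ ?_ ?_ ?_
  · rintro σ hσA hσne ⟨φ, h1, h2⟩ v hv
    obtain ⟨φ', _, _, hφ'⟩ := hpull φ
    have hface : σ.image toR ∈ K.faces := by
      rw [hK.2.1]
      refine ⟨hσne.image _, ?_, φ'.1, φ'.2, ?_, ?_⟩
      · intro w hw
        obtain ⟨x, hx, rfl⟩ := mem_image.1 hw
        exact ⟨hfin.mem_toFinset.1 (hσA hx), fun i => ⟨x i, rfl⟩⟩
      · intro w hw
        obtain ⟨x, hx, rfl⟩ := mem_image.1 hw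
        have := h1 x hx
        rw [hfψ, hφ'] at this
        exact this
      · rintro w ⟨hw1, hw2⟩ hwσ
        choose k hk using hw2
        have hkw : toR k = w := funext (fun i => (hk i).symm)
        have hkA : k ∈ hfin.toFinset := hfin.mem_toFinset.2 (by
          show toR k ∈ P
          rw [hkw]; exact hw1)
        have := h2 k hkA (fun hc => hwσ (by rw [← hkw]; exact mem_image_of_mem _ hc))
        rw [hfψ, hφ', hkw] at this
        exact this
    obtain ⟨a, c, hac⟩ := extend hfin hK hface (fun x => if x = v then 1 else 0)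
    set a' : Fin d → ℤ := Matrix.vecMul a A⁻¹ with ha'
    have key : ∀ x, ∑ i, a' i * ψ x i + (c - ∑ i, a' i * t i) = ∑ i, a i * x i + c := by
      intro x
      have e1 : ∑ i, a' i * ψ x i = a' ⬝ᵥ (A.mulVec x) + ∑ i, a' i * t i := by
        simp only [ψ, Pi.add_apply, mul_add, sum_add_distrib, dotProduct]
      have e2 : a' ⬝ᵥ (A.mulVec x) = a ⬝ᵥ x := by
        rw [Matrix.dotProduct_mulVec, ha', Matrix.vecMul_vecMul, hiA, Matrix.vecMul_one]
      rw [e1, e2]
      simp only [dotProduct]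
      ring
    refine ⟨a', c - ∑ i, a' i * t i, ?_, fun w hw hwv => ?_⟩
    · rw [key, hac v (mem_image_of_mem _ hv), if_pos rfl]
    · rw [key, hac w (mem_image_of_mem _ hw), if_neg hwv]
  · have hPeq := hull_lattice hP
    apply Set.Subset.antisymm
    · rintro _ ⟨x, hx, rfl⟩
      have hcv : Convex ℝ {x : Fin d → ℝ | f x ∈
          convexHull ℝ ((fun z => toR (ψ z)) '' (hfin.toFinset : Set (Fin d → ℤ)))} := by
        intro x hx y hy a b ha hb hab
        rw [Set.mem_ofPred_eq, hfcomb _ _ _ _ hab]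
        exact (convex_convexHull ℝ _) hx hy ha hb hab
      rw [hPeq] at hx
      refine convexHull_min ?_ hcv hx
      rintro _ ⟨s, hs, rfl⟩
      rw [Set.mem_ofPred_eq, ← hfψ]
      exact subset_convexHull ℝ _ ⟨s, by simpa using hs, rfl⟩
    · have hcv : Convex ℝ (f '' P) := by
        rintro _ ⟨x, hx, rfl⟩ _ ⟨y, hy, rfl⟩ a b ha hb hab
        exact ⟨a • x + b • y, hconv hx hy ha hb hab, hfcomb _ _ _ _ hab⟩
      apply convexHull_min _ hcv
      rintro _ ⟨s, hs, rfl⟩
      show toR (ψ s) ∈ f '' P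
      rw [hfψ]
      have hs' : s ∈ {y : Fin d → ℤ | toR y ∈ P} := by simpa using hs
      exact ⟨toR s, hs', rfl⟩
  · intro x _
    refine ⟨A⁻¹.mulVec (x - t), ?_⟩
    simp only [ψ]
    rw [Matrix.mulVec_mulVec, hAi, Matrix.one_mulVec, sub_add_cancel]
  · intro φ hφ
    obtain ⟨φ', e1, e2, hφ'⟩ := hpull φ
    have h0 : φ' = 0 := by
      refine sep hfin hK hne ?_
      intro x hx
      rw [← hφ', ← hfψ]
      exact hφ x (hfin.mem_toFinset.2 hx)
    have hdet : (A.map (fun z : ℤ => (z : ℝ))).det ≠ 0 := by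
      have h1 : (A.map (fun z : ℤ => (z : ℝ))).det = ((A.det : ℤ) : ℝ) := by
        have := RingHom.map_det (Int.castRingHom ℝ) A
        rw [eq_intCast] at this
        rw [this]
        rfl
      rw [h1]
      intro hc
      have h2 : A.det = 0 := by exact_mod_cast hc
      rw [h2] at hA
      simp at hA
    have h1 : φ.1 = 0 := by
      rw [h0] at e1
      exact Matrix.eq_zero_of_vecMul_eq_zero hdet e1.symm
    have h2 : φ.2 = 0 := by
      rw [h0, h1] at e2
      simpa using e2.symm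
    exact Prod.ext h1 h2

end basic

section face

variable {d : ℕ}

/-- The product with the unit interval. -/
def prodI (P : Set (Fin d → ℝ)) : Set (Fin (d + 1) → ℝ) :=
  {x | (fun i : Fin d => x i.castSucc) ∈ P ∧ 0 ≤ x (Fin.last d) ∧ x (Fin.last d) ≤ 1}

lemma toR_snoc (x : Fin d → ℤ) (t : ℤ) :
    toR (Fin.snoc x t : Fin (d + 1) → ℤ) = Fin.snoc (toR x) (t : ℝ) := by
  funext i
  refine Fin.lastCases ?_ (fun i => ?_) i
  · simp [toR]
  · simp [toR]

lemma snoc_mem {P : Set (Fin d → ℝ)} {x : Fin d → ℝ} {t : ℝ} :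
    (Fin.snoc x t : Fin (d + 1) → ℝ) ∈ prodI P ↔ x ∈ P ∧ 0 ≤ t ∧ t ≤ 1 := by
  simp only [prodI, Set.mem_ofPred_eq, Fin.snoc_castSucc, Fin.snoc_last]

lemma prodI_hull {P : Set (Fin d → ℝ)} {S : Set (Fin d → ℤ)} (hP : P = convexHull ℝ (toR '' S)) :
    prodI P = convexHull ℝ (toR '' ((fun p : (Fin d → ℤ) × ℤ => (Fin.snoc p.1 p.2 :
      Fin (d + 1) → ℤ)) '' (S ×ˢ ({0, 1} : Set ℤ)))) := by
  set T : Set (Fin (d + 1) → ℝ) := toR '' ((fun p : (Fin d → ℤ) × ℤ => (Fin.snoc p.1 p.2 :
      Fin (d + 1) → ℤ)) '' (S ×ˢ ({0, 1} : Set ℤ))) with hT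
  have hconv : Convex ℝ P := by rw [hP]; exact convex_convexHull ℝ _
  have hsnoc : ∀ (x y : Fin d → ℝ) (s t a b : ℝ), (Fin.snoc (a • x + b • y) (a * s + b * t) :
      Fin (d + 1) → ℝ) = a • Fin.snoc x s + b • Fin.snoc y t := by
    intro x y s t a b
    funext i
    refine Fin.lastCases ?_ (fun i => ?_) i
    · simp
    · simp
  have hlev : ∀ t : ℤ, t ∈ ({0, 1} : Set ℤ) → ∀ x ∈ P,
      (Fin.snoc x (t : ℝ) : Fin (d + 1) → ℝ) ∈ convexHull ℝ T := by
    intro t ht x hx
    have hcv : Convex ℝ {x : Fin d → ℝ |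
        (Fin.snoc x (t : ℝ) : Fin (d + 1) → ℝ) ∈ convexHull ℝ T} := by
      intro x hx y hy a b ha hb hab
      have : (t : ℝ) = a * (t : ℝ) + b * (t : ℝ) := by rw [← add_mul, hab, one_mul]
      rw [Set.mem_ofPred_eq, this, hsnoc]
      exact (convex_convexHull ℝ _) hx hy ha hb hab
    rw [hP] at hx
    refine convexHull_min ?_ hcv hx
    rintro _ ⟨s, hs, rfl⟩
    rw [Set.mem_ofPred_eq, ← toR_snoc]
    exact subset_convexHull ℝ _ ⟨_, ⟨(s, t), ⟨hs, ht⟩, rfl⟩, rfl⟩
  apply Set.Subset.antisymm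
  · rintro x ⟨hx, h0, h1⟩
    set y : Fin d → ℝ := fun i => x i.castSucc with hy
    set t : ℝ := x (Fin.last d) with ht
    have e : x = (1 - t) • (Fin.snoc y ((0 : ℤ) : ℝ) : Fin (d + 1) → ℝ) +
        t • (Fin.snoc y ((1 : ℤ) : ℝ) : Fin (d + 1) → ℝ) := by
      funext i
      refine Fin.lastCases ?_ (fun i => ?_) i
      · simp [ht]
      · simp only [Pi.add_apply, Pi.smul_apply, Fin.snoc_castSucc, smul_eq_mul]
        rw [← add_mul]
        simp [hy]
    rw [e]
    exact (convex_convexHull ℝ T) (hlev 0 (by simp) y hx) (hlev 1 (by simp) y hx)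
      (by linarith) h0 (by ring)
  · have hcv : Convex ℝ (prodI P) := by
      rintro x ⟨hx, hx0, hx1⟩ y ⟨hy, hy0, hy1⟩ a b ha hb hab
      refine ⟨hconv hx hy ha hb hab, ?_, ?_⟩
      · show 0 ≤ a * x (Fin.last d) + b * y (Fin.last d)
        have := mul_nonneg ha hx0
        have := mul_nonneg hb hy0
        linarith
      · show a * x (Fin.last d) + b * y (Fin.last d) ≤ 1
        have := mul_le_mul_of_nonneg_left hx1 ha
        have := mul_le_mul_of_nonneg_left hy1 hb
        linarith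
    apply convexHull_min _ hcv
    rintro _ ⟨_, ⟨⟨s, t⟩, ⟨hs, ht⟩, rfl⟩, rfl⟩
    simp only
    rw [toR_snoc, snoc_mem]
    refine ⟨?_, ?_⟩
    · rw [hP]; exact subset_convexHull ℝ _ ⟨s, hs, rfl⟩
    · rcases ht with rfl | ht
      · simp
      · rw [Set.mem_singleton_iff] at ht
        simp only at ht
        rw [ht]; simp

/-- Restriction to a face of a product. -/
theorem rut_face {P : Set (Fin d → ℝ)} {S : Set (Fin d → ℤ)} (hS : S.Finite)
    (hP : P = convexHull ℝ (toR '' S)) (hne : P.Nonempty)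
    {K : SimplicialComplex ℝ (Fin (d + 1) → ℝ)} {h : (Fin (d + 1) → ℝ) → ℝ}
    (hK : RutData (prodI P) K h) :
    ∃ (K' : SimplicialComplex ℝ (Fin d → ℝ)) (h' : (Fin d → ℝ) → ℝ), RutData P K' h' := by
  classical
  have hfin : {y : Fin d → ℤ | toR y ∈ P}.Finite := by rw [hP]; exact finite_lattice hS
  have hfin' : {y : Fin (d + 1) → ℤ | toR y ∈ prodI P}.Finite := by
    rw [prodI_hull hP]
    exact finite_lattice ((hS.prod (by simp)).image _)
  have hlast : ∀ k : Fin (d + 1) → ℤ, toR k ∈ prodI P →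
      ∃ x : Fin d → ℤ, toR x ∈ P ∧ (k = Fin.snoc x 0 ∨ k = Fin.snoc x 1) := by
    rintro k ⟨h1, h2, h3⟩
    have h2' : (0 : ℝ) ≤ (k (Fin.last d) : ℝ) := h2
    have h3' : (k (Fin.last d) : ℝ) ≤ 1 := h3
    have h4 : 0 ≤ k (Fin.last d) := by exact_mod_cast h2'
    have h5 : k (Fin.last d) ≤ 1 := by exact_mod_cast h3'
    refine ⟨fun i => k i.castSucc, h1, ?_⟩
    have h6 : k (Fin.last d) = 0 ∨ k (Fin.last d) = 1 := by omega
    rcases h6 with h6 | h6
    · left
      funext i
      refine Fin.lastCases ?_ (fun i => ?_) i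
      · simp [h6]
      · simp
    · right
      funext i
      refine Fin.lastCases ?_ (fun i => ?_) i
      · simp [h6]
      · simp
  have hevs : ∀ (φ : Fin d → ℝ) (c b : ℝ) (x : Fin d → ℤ) (t : ℤ),
      ev ((Fin.snoc φ b : Fin (d + 1) → ℝ), c) (toR (Fin.snoc x t : Fin (d + 1) → ℤ)) =
        ev (φ, c) (toR x) + b * t := by
    intro φ c b x t
    simp only [ev, toR]
    rw [Fin.sum_univ_castSucc]
    simp only [Fin.snoc_castSucc, Fin.snoc_last]
    ring
  refine exists_rut0 P id Function.injective_id hfin.toFinset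
    (fun x => h (toR (Fin.snoc x 0 : Fin (d + 1) → ℤ))) ?_ ?_ (fun x _ => ⟨x, rfl⟩) ?_
  · rintro σ hσA hσne ⟨φ, h1, h2⟩ v hv
    simp only [id] at h1 h2
    set Λ : ℝ := 1 + ∑ x ∈ hfin.toFinset,
      |ev φ (toR x) - h (toR (Fin.snoc x 1 : Fin (d + 1) → ℤ))| with hΛ
    have hΛ1 : ∀ x ∈ hfin.toFinset, ev φ (toR x) - Λ < h (toR (Fin.snoc x 1 : Fin (d + 1) → ℤ)) := by
      intro x hx
      have e1 := single_le_sum (f := fun x =>
        |ev φ (toR x) - h (toR (Fin.snoc x 1 : Fin (d + 1) → ℤ))|) (fun _ _ => abs_nonneg _) hx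
      have e2 := le_abs_self (ev φ (toR x) - h (toR (Fin.snoc x 1 : Fin (d + 1) → ℤ)))
      linarith
    have hface : σ.image (fun x => toR (Fin.snoc x 0 : Fin (d + 1) → ℤ)) ∈ K.faces := by
      rw [hK.2.1]
      refine ⟨hσne.image _, ?_, (Fin.snoc φ.1 (-Λ) : Fin (d + 1) → ℝ), φ.2, ?_, ?_⟩
      · intro w hw
        obtain ⟨x, hx, rfl⟩ := mem_image.1 hw
        refine ⟨?_, fun i => ⟨_, rfl⟩⟩
        rw [toR_snoc, snoc_mem]
        exact ⟨hfin.mem_toFinset.1 (hσA hx), by simp, by simp⟩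
      · intro w hw
        obtain ⟨x, hx, rfl⟩ := mem_image.1 hw
        have e1 := hevs φ.1 φ.2 (-Λ) x 0
        have e2 := h1 x hx
        rw [Int.cast_zero, mul_zero, add_zero] at e1
        exact e1.trans e2
      · rintro w ⟨hw1, hw2⟩ hwσ
        choose k hk using hw2
        have hkw : toR k = w := funext (fun i => (hk i).symm)
        rw [← hkw] at hw1
        obtain ⟨x, hx, hkx⟩ := hlast k hw1
        have hxA : x ∈ hfin.toFinset := hfin.mem_toFinset.2 hx
        rcases hkx with hkx | hkx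
        · have e1 := hevs φ.1 φ.2 (-Λ) x 0
          rw [Int.cast_zero, mul_zero, add_zero] at e1
          have e2 := h2 x hxA (fun hc => hwσ (by
            rw [← hkw, hkx]; exact mem_image_of_mem _ hc))
          rw [← hkw, hkx]
          exact lt_of_eq_of_lt e1 e2
        · have e1 := hevs φ.1 φ.2 (-Λ) x 1
          rw [Int.cast_one, mul_one] at e1
          have e2 := hΛ1 x hxA
          rw [← hkw, hkx]
          refine lt_of_eq_of_lt e1 ?_
          linarith
    obtain ⟨a, c, hac⟩ := extend hfin' hK hface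
      (fun x => if x = (Fin.snoc v 0 : Fin (d + 1) → ℤ) then 1 else 0)
    have key : ∀ x ∈ σ, ∑ i : Fin d, a i.castSucc * x i + c =
        if (Fin.snoc x 0 : Fin (d + 1) → ℤ) = Fin.snoc v 0 then 1 else 0 := by
      intro x hx
      have e1 := hac (Fin.snoc x 0) (mem_image_of_mem _ hx)
      rw [Fin.sum_univ_castSucc] at e1
      simp only [Fin.snoc_castSucc, Fin.snoc_last, mul_zero, add_zero] at e1
      exact e1
    refine ⟨fun i => a i.castSucc, c, ?_, fun w hw hwv => ?_⟩
    · have := key v hv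
      rw [if_pos rfl] at this
      exact this
    · have := key w hw
      rw [if_neg] at this
      · exact this
      · intro hc
        apply hwv
        funext i
        have e := congrFun hc i.castSucc
        simpa using e
  · have h1 := hull_lattice hP
    rw [hfin.coe_toFinset]
    exact h1
  · intro φ hφ
    have hne' : (prodI P).Nonempty := by
      obtain ⟨x, hx⟩ := hne
      exact ⟨Fin.snoc x 0, snoc_mem.2 ⟨hx, le_rfl, zero_le_one⟩⟩
    have h0 : ((Fin.snoc φ.1 0 : Fin (d + 1) → ℝ), φ.2) = 0 := by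
      refine sep hfin' hK hne' ?_
      intro k hk
      obtain ⟨x, hx, hkx⟩ := hlast k hk
      have e1 : ev φ (toR x) = 0 := hφ x (hfin.mem_toFinset.2 hx)
      rcases hkx with rfl | rfl
      · rw [hevs]
        rw [zero_mul, add_zero]
        exact e1
      · rw [hevs]
        rw [zero_mul, add_zero]
        exact e1
    have h1 := congrArg Prod.fst h0
    have h2 := congrArg Prod.snd h0
    refine Prod.ext ?_ h2
    funext i
    have := congrFun h1 i.castSucc
    simpa using this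

end face

section segment

variable {m : ℕ}

/-- Segment bundles. -/
theorem seg_bundle {P : Set (Fin (m + 1) → ℝ)} {S : Set (Fin (m + 1) → ℤ)} (hS : S.Finite)
    (hP : P = convexHull ℝ (toR '' S)) (hne : P.Nonempty)
    (hVD : ∀ v, toR v ∈ P.extremePoints ℝ → ∃ u D, VD P v u D)
    {K : SimplicialComplex ℝ (Fin m → ℝ)} {h : (Fin m → ℝ) → ℝ} (hK : RutData (base '' P) K h) :
    ∃ (K' : SimplicialComplex ℝ (Fin (m + 1) → ℝ)) (h' : (Fin (m + 1) → ℝ) → ℝ),
      RutData P K' h' := by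
  classical
  have hbase : ((base (m := m) (r := 2)) '' (prodI P : Set (Fin (m + 2) → ℝ))) = base '' P := by
    ext y
    constructor
    · rintro ⟨x, hx, rfl⟩
      exact ⟨_, hx.1, rfl⟩
    · rintro ⟨x, hx, rfl⟩
      refine ⟨(Fin.snoc x 0 : Fin (m + 2) → ℝ), snoc_mem.2 ⟨hx, le_rfl, zero_le_one⟩, ?_⟩
      funext i
      show (Fin.snoc x (0 : ℝ) : Fin (m + 2) → ℝ) (Fin.castSucc (Fin.castAdd 1 i)) = _
      rw [Fin.snoc_castSucc]
      rfl
  have hVD' : ∀ v : Fin (m + 2) → ℤ, toR v ∈ (prodI P).extremePoints ℝ →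
      ∃ u D : Fin (m + 2) → (Fin (m + 2) → ℤ), VD (r := 2) (prodI P) v u D := by
    intro k hk
    rw [mem_extremePoints] at hk
    obtain ⟨hkm, hext⟩ := hk
    -- decompose
    set v : Fin (m + 1) → ℤ := fun i => k i.castSucc with hv
    set t : ℤ := k (Fin.last (m + 1)) with ht
    have hk' : k = Fin.snoc v t := by
      funext i
      refine Fin.lastCases ?_ (fun i => ?_) i
      · simp [ht]
      · simp [hv]
    have hvP : toR v ∈ P := hkm.1
    have ht0 : 0 ≤ t := by
      have : (0 : ℝ) ≤ (t : ℝ) := hkm.2.1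
      exact_mod_cast this
    have ht1 : t ≤ 1 := by
      have : (t : ℝ) ≤ 1 := hkm.2.2
      exact_mod_cast this
    have hvE : toR v ∈ P.extremePoints ℝ := by
      rw [mem_extremePoints]
      refine ⟨hvP, ?_⟩
      intro x hx y hy hseg
      obtain ⟨a, b, ha, hb, hab, hxy⟩ := hseg
      have h1 : (Fin.snoc x (t : ℝ) : Fin (m + 2) → ℝ) ∈ prodI P :=
        snoc_mem.2 ⟨hx, by exact_mod_cast ht0, by exact_mod_cast ht1⟩
      have h2 : (Fin.snoc y (t : ℝ) : Fin (m + 2) → ℝ) ∈ prodI P :=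
        snoc_mem.2 ⟨hy, by exact_mod_cast ht0, by exact_mod_cast ht1⟩
      have h3 : toR k ∈ openSegment ℝ (Fin.snoc x (t : ℝ) : Fin (m + 2) → ℝ)
          (Fin.snoc y (t : ℝ) : Fin (m + 2) → ℝ) := by
        refine ⟨a, b, ha, hb, hab, ?_⟩
        rw [hk', toR_snoc, ← hxy]
        funext i
        refine Fin.lastCases ?_ (fun i => ?_) i
        · simp only [Pi.add_apply, Pi.smul_apply, Fin.snoc_last, smul_eq_mul]
          rw [← add_mul, hab, one_mul]
        · simp
      obtain ⟨e1, e2⟩ := hext _ h1 _ h2 h3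
      rw [hk', toR_snoc] at e1 e2
      constructor
      · funext i
        have := congrFun e1 i.castSucc
        simpa using this
      · funext i
        have := congrFun e2 i.castSucc
        simpa using this
    obtain ⟨u, D, hu⟩ := hVD v hvE
    set s : ℤ := 1 - 2 * t with hs
    have hss : s * s = 1 := by
      have : t = 0 ∨ t = 1 := by omega
      rcases this with h0 | h0 <;> rw [hs, h0] <;> norm_num
    let u' : Fin (m + 2) → (Fin (m + 2) → ℤ) :=
      Fin.snoc (fun i : Fin (m + 1) => (Fin.snoc (u i) 0 : Fin (m + 2) → ℤ))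
        (Fin.snoc (0 : Fin (m + 1) → ℤ) s : Fin (m + 2) → ℤ)
    let D' : Fin (m + 2) → (Fin (m + 2) → ℤ) :=
      Fin.snoc (fun i : Fin (m + 1) => (Fin.snoc (D i) 0 : Fin (m + 2) → ℤ))
        (Fin.snoc (0 : Fin (m + 1) → ℤ) s : Fin (m + 2) → ℤ)
    have hdot : ∀ (a b : Fin (m + 1) → ℤ) (p q : ℤ),
        (Fin.snoc a p : Fin (m + 2) → ℤ) ⬝ᵥ (Fin.snoc b q : Fin (m + 2) → ℤ) =
          a ⬝ᵥ b + p * q := by
      intro a b p q
      simp only [dotProduct]
      rw [Fin.sum_univ_castSucc]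
      simp only [Fin.snoc_castSucc, Fin.snoc_last]
    have hu'c : ∀ i : Fin (m + 1), u' i.castSucc = Fin.snoc (u i) 0 := fun i => by
      simp only [u', Fin.snoc_castSucc]
    have hu'l : u' (Fin.last (m + 1)) = Fin.snoc 0 s := by
      simp only [u', Fin.snoc_last]
    have hD'c : ∀ i : Fin (m + 1), D' i.castSucc = Fin.snoc (D i) 0 := fun i => by
      simp only [D', Fin.snoc_castSucc]
    have hD'l : D' (Fin.last (m + 1)) = Fin.snoc 0 s := by
      simp only [D', Fin.snoc_last]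
    have hlinc : ∀ (i : Fin (m + 1)) (x : Fin (m + 2) → ℝ),
        linR (D' i.castSucc) x = linR (D i) (fun z => x z.castSucc) := by
      intro i x
      rw [hD'c, linR, Fin.sum_univ_castSucc]
      simp only [Fin.snoc_castSucc, Fin.snoc_last, Int.cast_zero, zero_mul, add_zero]
      rfl
    have hlinl : ∀ x : Fin (m + 2) → ℝ, linR (D' (Fin.last (m + 1))) x =
        (s : ℝ) * x (Fin.last (m + 1)) := by
      intro x
      rw [hD'l, linR, Fin.sum_univ_castSucc]
      simp
    refine ⟨u', D', ⟨⟨?_, ?_⟩, hkm, ?_, ?_, ?_⟩⟩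
    · intro i l
      refine Fin.lastCases ?_ (fun i => ?_) i
      · refine Fin.lastCases ?_ (fun l => ?_) l
        · rw [hD'l, hu'l, hdot, if_pos rfl]
          simp [hss]
        · rw [hD'l, hu'c, hdot, if_neg (Ne.symm (Fin.castSucc_ne_last l))]
          simp
      · refine Fin.lastCases ?_ (fun l => ?_) l
        · rw [hD'c, hu'l, hdot, if_neg (Fin.castSucc_ne_last i)]
          simp
        · rw [hD'c, hu'c, hdot, hu.dual.dual]
          simp only [Fin.castSucc_inj, mul_zero, add_zero]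
    · intro x
      have hx : x = Fin.snoc (fun i : Fin (m + 1) => x i.castSucc) (x (Fin.last (m + 1))) := by
        funext i
        refine Fin.lastCases ?_ (fun i => ?_) i
        · simp
        · simp
      have hD1 : ∀ i : Fin (m + 1), D' i.castSucc ⬝ᵥ x = D i ⬝ᵥ (fun z => x z.castSucc) := by
        intro i
        conv_lhs => rw [hx]
        rw [hD'c, hdot, zero_mul, add_zero]
      have hD2 : D' (Fin.last (m + 1)) ⬝ᵥ x = s * x (Fin.last (m + 1)) := by
        conv_lhs => rw [hx]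
        rw [hD'l, hdot, zero_dotProduct, zero_add]
      rw [Fin.sum_univ_castSucc]
      simp only [hD1, hD2, hu'c, hu'l]
      have h1 := hu.dual.repr (fun z => x z.castSucc)
      funext z
      refine Fin.lastCases ?_ (fun z => ?_) z
      · simp only [Pi.add_apply, Finset.sum_apply, Pi.smul_apply, Fin.snoc_last, smul_eq_mul,
          mul_zero, sum_const_zero, zero_add]
        linear_combination (-(x (Fin.last (m + 1)))) * hss
      · have h2 := congrFun h1 z
        simp only [Finset.sum_apply, Pi.smul_apply, smul_eq_mul] at h2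
        simp only [Pi.add_apply, Finset.sum_apply, Pi.smul_apply, Fin.snoc_castSucc, smul_eq_mul,
          Pi.zero_apply, mul_zero, add_zero]
        exact h2
    · intro i
      refine Fin.lastCases ?_ (fun i => ?_) i
      · have e : k + u' (Fin.last (m + 1)) = Fin.snoc v (t + s) := by
          rw [hu'l, hk']
          funext z
          refine Fin.lastCases ?_ (fun z => ?_) z
          · simp
          · simp
        rw [e, toR_snoc, snoc_mem]
        refine ⟨hvP, ?_, ?_⟩
        · have : 0 ≤ t + s := by omega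
          exact_mod_cast this
        · have : t + s ≤ 1 := by omega
          exact_mod_cast this
      · have e : k + u' i.castSucc = Fin.snoc (v + u i) t := by
          rw [hu'c, hk']
          funext z
          refine Fin.lastCases ?_ (fun z => ?_) z
          · simp
          · simp
        rw [e, toR_snoc, snoc_mem]
        exact ⟨hu.edge i, by exact_mod_cast ht0, by exact_mod_cast ht1⟩
    · intro x hx i
      refine Fin.lastCases ?_ (fun i => ?_) i
      · rw [hlinl]
        have h1 := hx.2.1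
        have h2 := hx.2.2
        show 0 ≤ (s : ℝ) * (x (Fin.last (m + 1)) - (k (Fin.last (m + 1)) : ℝ))
        rw [← ht]
        have : t = 0 ∨ t = 1 := by omega
        rcases this with h0 | h0
        · rw [hs, h0]; push_cast; linarith
        · rw [hs, h0]; push_cast; linarith
      · rw [hlinc]
        exact hu.pos _ hx.1 i
    · intro i z
      fin_cases i
      · show u' (Fin.castSucc (Fin.natAdd m (0 : Fin 1))) (Fin.castSucc (Fin.castAdd 1 z)) = 0
        rw [hu'c, Fin.snoc_castSucc]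
        exact hu.vert 0 z
      · show u' (Fin.last (m + 1)) (Fin.castSucc (Fin.castAdd 1 z)) = 0
        rw [hu'l, Fin.snoc_castSucc]
        rfl
  have hne' : (prodI P).Nonempty := by
    obtain ⟨x, hx⟩ := hne
    exact ⟨Fin.snoc x 0, snoc_mem.2 ⟨hx, le_rfl, zero_le_one⟩⟩
  obtain ⟨K', h', hK'⟩ := Bundle.bundle (P := (prodI P : Set (Fin (m + 2) → ℝ)))
    ((hS.prod (by simp : ({0, 1} : Set ℤ).Finite)).image _) (prodI_hull hP) hne' hVD'
    (K := K) (h := h) (by rw [hbase]; exact hK)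
  exact rut_face hS hP hne hK'

end segment

end Pool.Agent.Helper517.Transfer
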