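import Pool.Agent.Helper517.Level

/-!
Walking around the common corners of a Cayley configuration of plane lattice point sets.
-/

namespace Pool.Agent.Helper517.Walk

open Finset Pool.Agent.Helper517.Place Pool.Agent.Helper517.Step
open Pool.Agent.Helper517 Pool.Agent.Helper517.Grow

/-- The determinant. -/
def dt (u v : ℤ × ℤ) : ℤ := u.1 * v.2 - u.2 * v.1

lemma dt_add_left (u v w : ℤ × ℤ) : dt (u + v) w = dt u w + dt v w := by
  simp only [dt, Prod.fst_add, Prod.snd_add]; ring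

lemma dt_add_right (u v w : ℤ × ℤ) : dt u (v + w) = dt u v + dt u w := by
  simp only [dt, Prod.fst_add, Prod.snd_add]; ring

lemma dt_sub_left (u v w : ℤ × ℤ) : dt (u - v) w = dt u w - dt v w := by
  simp only [dt, Prod.fst_sub, Prod.snd_sub]; ring

lemma dt_sub_right (u v w : ℤ × ℤ) : dt u (v - w) = dt u v - dt u w := by
  simp only [dt, Prod.fst_sub, Prod.snd_sub]; ring

lemma dt_neg_left (u v : ℤ × ℤ) : dt (-u) v = - dt u v := by
  simp only [dt, Prod.fst_neg, Prod.snd_neg]; ring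

lemma dt_neg_right (u v : ℤ × ℤ) : dt u (-v) = - dt u v := by
  simp only [dt, Prod.fst_neg, Prod.snd_neg]; ring

lemma dt_smul_left (b : ℤ) (u v : ℤ × ℤ) : dt (b • u) v = b * dt u v := by
  simp only [dt, Prod.smul_fst, Prod.smul_snd, smul_eq_mul]; ring

lemma dt_smul_right (b : ℤ) (u v : ℤ × ℤ) : dt u (b • v) = b * dt u v := by
  simp only [dt, Prod.smul_fst, Prod.smul_snd, smul_eq_mul]; ring

lemma dt_self (u : ℤ × ℤ) : dt u u = 0 := by
  simp only [dt]; ring

lemma dt_swap (u v : ℤ × ℤ) : dt u v = - dt v u := by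
  simp only [dt]; ring

/-- The Plücker relation. -/
lemma dt_plucker {w w' : ℤ × ℤ} (h : dt w w' = 1) (u v : ℤ × ℤ) :
    dt u v = dt u w' * dt w v - dt w u * dt v w' := by
  simp only [dt] at h ⊢
  linear_combination (-(u.1 * v.2 - u.2 * v.1)) * h

lemma expand {w w' : ℤ × ℤ} (h : dt w w' = 1) (u : ℤ × ℤ) :
    u = dt u w' • w + dt w u • w' := by
  simp only [dt] at h ⊢
  ext
  · simp only [Prod.fst_add, Prod.smul_fst, smul_eq_mul]
    linear_combination (-u.1) * h
  · simp only [Prod.snd_add, Prod.smul_snd, smul_eq_mul]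
    linear_combination (-u.2) * h

lemma eq_of_dt {w w' : ℤ × ℤ} (h : dt w w' = 1) {u v : ℤ × ℤ} (h1 : dt u w' = dt v w')
    (h2 : dt w u = dt w v) : u = v := by
  rw [expand h u, expand h v, h1, h2]

variable {ι : Type*}

/-- A family of corners with common cone. -/
structure Corner (A : Set (Pt ι)) (w w' : ℤ × ℤ) (c : ι → ℤ × ℤ) : Prop where
  det : dt w w' = 1
  mem : ∀ j, (j, c j) ∈ A
  mem_w : ∀ j, (j, c j + w) ∈ A
  mem_w' : ∀ j, (j, c j + w') ∈ A
  cone : ∀ j z, (j, z) ∈ A → 0 ≤ dt w (z - c j) ∧ 0 ≤ dt (z - c j) w'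

/-- Exposed points. -/
def Exp (A : Set (Pt ι)) (z : Pt ι) : Prop :=
  z ∈ A ∧ ∃ f : Pt ι → ℤ, AffZ f ∧ ∀ x ∈ A, x ≠ z → f z < f x

/-- Every exposed point is a common corner. -/
def HC (A : Set (Pt ι)) : Prop := ∀ z, Exp A z → ∃ w w' c, Corner A w w' c ∧ c z.1 = z.2

/-- Every exposed point of level `j0` is a common corner of a special kind. -/
def HCat (A : Set (Pt ι)) (R : (ι → ℤ × ℤ) → Prop) (j0 : ι) : Prop :=
  ∀ z, z.1 = j0 → Exp A z → ∃ w w' c, Corner A w w' c ∧ c z.1 = z.2 ∧ R c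

lemma hcat_of_hc {A : Set (Pt ι)} (h : HC A) (j0 : ι) : HCat A (fun _ => True) j0 := by
  intro z _ hz
  obtain ⟨w, w', c, h1, h2⟩ := h z hz
  exact ⟨w, w', c, h1, h2, trivial⟩

/-- The weak form: only the own level is smooth. -/
def HC0 (A : Set (Pt ι)) : Prop := ∀ z, Exp A z → ∃ (w w' : ℤ × ℤ) (c : ι → ℤ × ℤ),
  dt w w' = 1 ∧ c z.1 = z.2 ∧ (∀ j, (j, c j) ∈ A) ∧ (z.1, z.2 + w) ∈ A ∧ (z.1, z.2 + w') ∈ A ∧
    ∀ j x, (j, x) ∈ A → 0 ≤ dt w (x - c j) ∧ 0 ≤ dt (x - c j) w'

lemma affZ_dt_left (w : ℤ × ℤ) (c : ι → ℤ × ℤ) : AffZ (fun z : Pt ι => dt w (z.2 - c z.1)) :=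
  ⟨fun j => - dt w (c j), - w.2, w.1, fun z => by
    simp only [dt, Prod.fst_sub, Prod.snd_sub]; ring⟩

lemma affZ_dt_right (w : ℤ × ℤ) (c : ι → ℤ × ℤ) : AffZ (fun z : Pt ι => dt (z.2 - c z.1) w) :=
  ⟨fun j => - dt (c j) w, w.2, - w.1, fun z => by
    simp only [dt, Prod.fst_sub, Prod.snd_sub]; ring⟩

lemma affZ_add {f g : Pt ι → ℤ} (hf : AffZ f) (hg : AffZ g) : AffZ (fun z => f z + g z) := by
  obtain ⟨a, b, c, h⟩ := hf
  obtain ⟨a', b', c', h'⟩ := hg
  exact ⟨fun i => a i + a' i, b + b', c + c', fun z => by simp only [h, h']; ring⟩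

lemma affZ_mul (k : ℤ) {f : Pt ι → ℤ} (hf : AffZ f) : AffZ (fun z => k * f z) := by
  obtain ⟨a, b, c, h⟩ := hf
  exact ⟨fun i => k * a i, k * b, k * c, fun z => by simp only [h]; ring⟩

lemma affZ_level (a : ι → ℤ) : AffZ (fun z : Pt ι => a z.1) :=
  ⟨a, 0, 0, fun z => by ring⟩

/-- The weak form implies the strong one. -/
lemma hc_of_hc0 {A : Set (Pt ι)} (h : HC0 A) : HC A := by
  classical
  intro z hz
  obtain ⟨w, w', c, hdet, hc, hmem, hw, hw', hcone⟩ := h z hz
  have hall : ∀ l, (l, c l + w) ∈ A ∧ (l, c l + w') ∈ A := by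
    intro l
    have hexp : Exp A (l, c l) := by
      refine ⟨hmem l, fun y => (dt w (y.2 - c y.1) + dt (y.2 - c y.1) w') +
        (fun i => if i = l then (0 : ℤ) else 1) y.1,
        affZ_add (affZ_add (affZ_dt_left w c) (affZ_dt_right w' c))
          (affZ_level (fun i => if i = l then (0 : ℤ) else 1)), ?_⟩
      rintro ⟨i, x⟩ hx hne
      obtain ⟨h1, h2⟩ := hcone i x hx
      simp only [sub_self, if_true]
      have e1 : dt w (0 : ℤ × ℤ) = 0 := by simp [dt]
      have e2 : dt (0 : ℤ × ℤ) w' = 0 := by simp [dt]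
      rw [e1, e2]
      by_cases hi : i = l
      · subst hi
        rw [if_pos rfl]
        by_contra hcon
        apply hne
        have e3 : dt w (x - c i) = 0 := by omega
        have e4 : dt (x - c i) w' = 0 := by omega
        have : x = c i := by
          rw [← sub_eq_zero, expand hdet (x - c i), e3, e4]; simp
        rw [this]
      · rw [if_neg hi]; omega
    obtain ⟨w2, w2', c2, hdet2, hc2, hmem2, hw2, hw2', hcone2⟩ := h _ hexp
    simp only at hc2 hw2 hw2'
    -- the second cone lies in the first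
    obtain ⟨a1, a2⟩ := hcone l _ hw2
    obtain ⟨b1, b2⟩ := hcone l _ hw2'
    rw [add_sub_cancel_left] at a1 a2 b1 b2
    -- the own corner is the same
    have hcc : c2 z.1 = z.2 := by
      obtain ⟨d1, d2⟩ := hcone z.1 _ (hmem2 z.1)
      obtain ⟨f1, f2⟩ := hcone2 z.1 _ (hmem z.1)
      rw [hc] at d1 d2 f1 f2
      set v := c2 z.1 - z.2 with hv
      have e : z.2 - c2 z.1 = - v := by rw [hv]; ring
      rw [e] at f1 f2
      -- `-v = s w2 + t w2'` with `s, t ≥ 0`
      have hx := expand hdet2 (-v)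
      have g1 : dt w (-v) = dt (-v) w2' * dt w w2 + dt w2 (-v) * dt w w2' := by
        conv_lhs => rw [hx]
        rw [dt_add_right, dt_smul_right, dt_smul_right]
      have g2 : dt (-v) w' = dt (-v) w2' * dt w2 w' + dt w2 (-v) * dt w2' w' := by
        conv_lhs => rw [hx]
        rw [dt_add_left, dt_smul_left, dt_smul_left]
      have k1 : 0 ≤ dt w (-v) := by
        rw [g1]
        exact add_nonneg (mul_nonneg f2 a1) (mul_nonneg f1 b1)
      have k2 : 0 ≤ dt (-v) w' := by
        rw [g2]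
        exact add_nonneg (mul_nonneg f2 a2) (mul_nonneg f1 b2)
      rw [dt_neg_right] at k1
      rw [dt_neg_left] at k2
      have hv0 : v = 0 := by
        rw [expand hdet v, show dt v w' = 0 by omega, show dt w v = 0 by omega]; simp
      rw [hv] at hv0
      exact sub_eq_zero.1 hv0
    obtain ⟨p1, p2⟩ := hcone2 z.1 _ hw
    obtain ⟨q1, q2⟩ := hcone2 z.1 _ hw'
    rw [hcc, add_sub_cancel_left] at p1 p2 q1 q2
    -- both determinants
    have r1 := dt_plucker hdet w2 w2'
    have r2 := dt_plucker hdet2 w w'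
    rw [hdet2] at r1
    rw [hdet] at r2
    have s1 : dt w2 w = - dt w w2 := dt_swap _ _
    have s2 : dt w' w2' = - dt w2' w' := dt_swap _ _
    -- `w2 = w`
    have t1 : dt w w2 = 0 := by rw [s1] at p1; omega
    have t2 : dt w2' w' = 0 := by rw [s2] at q2; omega
    rw [t1, t2] at r1
    have t3 : dt w2 w' = 1 ∧ dt w w2' = 1 := by
      have : dt w2 w' * dt w w2' = 1 := by linarith
      rcases Int.eq_one_or_neg_one_of_mul_eq_one' this with h | h
      · exact h
      · exfalso; omega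
    have u1 : w2 = w := by
      rw [expand hdet w2, t3.1, t1]; simp
    have u2 : w2' = w' := by
      rw [expand hdet w2', t2, t3.2]; simp
    rw [u1] at hw2
    rw [u2] at hw2'
    exact ⟨hw2, hw2'⟩
  exact ⟨w, w', c, ⟨hdet, hmem, fun j => (hall j).1, fun j => (hall j).2, hcone⟩, hc⟩

/-- The next corner. -/
lemma next {A : Set (Pt ι)} (hfin : A.Finite) {R : (ι → ℤ × ℤ) → Prop} {j0 : ι}
    (h : HCat A R j0) {w w' : ℤ × ℤ}
    {c : ι → ℤ × ℤ} (hC : Corner A w w' c) :
    ∃ (w1 : ℤ × ℤ) (c1 : ι → ℤ × ℤ) (b : ι → ℤ), Corner A w1 (-w) c1 ∧ R c1 ∧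
      ∀ j, 1 ≤ b j ∧ c1 j = c j + b j • w := by
  classical
  have hfin2 : {z ∈ A | z.1 = j0 ∧ dt w (z.2 - c z.1) = 0}.Finite :=
    hfin.subset (Set.sep_subset _ _)
  obtain ⟨z, ⟨hzA, hz1, hz2⟩, hzmax⟩ := Set.exists_max_image _
    (fun z : Pt ι => dt (z.2 - c z.1) w') hfin2
    ⟨(j0, c j0), hC.mem j0, rfl, by simp [dt]⟩
  obtain ⟨z', hz'A, hz'max⟩ := Set.exists_max_image A
    (fun z : Pt ι => dt (z.2 - c z.1) w') hfin ⟨_, hzA⟩
  set M : ℤ := dt (z'.2 - c z'.1) w' + 1 with hM
  have hMb : ∀ x ∈ A, dt (x.2 - c x.1) w' < M := fun x hx => by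
    have := hz'max x hx; omega
  have hM0 : 0 < M := by
    have := (hC.cone z'.1 z'.2 hz'A).2
    omega
  set b0 := dt (z.2 - c z.1) w' with hb0
  have hb0' : 1 ≤ b0 := by
    have := hzmax (j0, c j0 + w) ⟨hC.mem_w j0, rfl, by simp [dt_self]⟩
    simp only [add_sub_cancel_left, hC.det] at this
    exact this
  have hexp : Exp A z := by
    refine ⟨hzA, fun y => (M * dt w (y.2 - c y.1) + (-1) * dt (y.2 - c y.1) w') +
        M * (fun i => if i = j0 then (0 : ℤ) else 1) y.1,
        affZ_add (affZ_add (affZ_mul _ (affZ_dt_left w c)) (affZ_mul _ (affZ_dt_right w' c)))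
          (affZ_mul _ (affZ_level (fun i => if i = j0 then (0 : ℤ) else 1))), ?_⟩
    intro x hx hne
    simp only [hz1, if_true]
    rw [hz1] at hz2 hb0
    rw [hz2, ← hb0]
    obtain ⟨h1, h2⟩ := hC.cone x.1 x.2 hx
    have h3 := hMb x hx
    by_cases hxj : x.1 = j0
    · rw [if_pos hxj]
      rcases h1.lt_or_eq with h4 | h4
      · have : M ≤ M * dt w (x.2 - c x.1) := le_mul_of_one_le_right hM0.le h4
        linarith
      · have h5 := hzmax x ⟨hx, hxj, h4.symm⟩
        rw [← h4]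
        have h6 : dt (x.2 - c x.1) w' ≠ b0 := by
          intro h7
          apply hne
          refine Prod.ext (hxj.trans hz1.symm) ?_
          have h8 : x.2 - c x.1 = z.2 - c z.1 := by
            refine eq_of_dt hC.det ?_ ?_
            · rw [h7, hb0, hz1]
            · rw [← h4, hz1, hz2]
          rw [hxj, hz1] at h8
          exact sub_left_injective h8
        have h9 : dt (x.2 - c x.1) w' ≤ b0 := by
          rw [hb0, ← hz1]; exact h5
        have : dt (x.2 - c x.1) w' < b0 := lt_of_le_of_ne h9 h6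
        linarith
    · rw [if_neg hxj]
      have : 0 ≤ M * dt w (x.2 - c x.1) := mul_nonneg hM0.le h1
      linarith
  obtain ⟨w1, w1', c1, hC1, hc1, hR1⟩ := h z hz1 hexp
  have hzc : z.2 - c j0 = b0 • w := by
    rw [hz1] at hz2 hb0
    rw [expand hC.det (z.2 - c j0), hz2, ← hb0]; simp
  rw [hz1] at hc1
  -- the directions
  have y1 : 0 ≤ dt w w1 := by
    have := (hC.cone j0 _ (hC1.mem_w j0)).1
    rw [hc1, add_sub_right_comm, hzc, dt_add_right, dt_smul_right, dt_self] at this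
    linarith
  have y1' : 0 ≤ dt w w1' := by
    have := (hC.cone j0 _ (hC1.mem_w' j0)).1
    rw [hc1, add_sub_right_comm, hzc, dt_add_right, dt_smul_right, dt_self] at this
    linarith
  have y2 : dt w w1' = 0 := by
    have := (hC1.cone j0 _ (hC.mem j0)).2
    have e : c j0 - c1 j0 = -(b0 • w) := by rw [hc1, ← hzc]; ring
    rw [e, dt_neg_left, dt_smul_left] at this
    nlinarith
  have hdet1 := hC1.det
  rw [dt_plucker hC.det w1 w1', y2] at hdet1
  have hy : dt w w1 = 1 ∧ dt w1' w' = -1 := by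
    have h1 : dt w w1 * (- dt w1' w') = 1 := by linarith
    rcases Int.eq_one_or_neg_one_of_mul_eq_one' h1 with h | h
    · exact ⟨h.1, by omega⟩
    · exfalso; omega
  have hw1' : w1' = -w := by
    rw [expand hC.det w1', hy.2, y2]; simp
  subst hw1'
  refine ⟨w1, c1, fun j => dt (c1 j - c j) w', hC1, hR1, ?_⟩
  intro j
  have e1 := (hC1.cone j _ (hC.mem j)).2
  have e2 := (hC.cone j _ (hC1.mem j)).1
  rw [dt_neg_right, dt_swap, neg_neg, dt_sub_right] at e1
  rw [dt_sub_right] at e2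
  have e3 : dt w (c1 j - c j) = 0 := by rw [dt_sub_right]; omega
  have e4 : c1 j - c j = dt (c1 j - c j) w' • w := by
    conv_lhs => rw [expand hC.det (c1 j - c j), e3]
    simp
  refine ⟨?_, ?_⟩
  · have e5 := (hC1.cone j _ (hC.mem_w j)).1
    have e6 : c j + w - c1 j = w - dt (c1 j - c j) w' • w := by
      rw [← e4]; ring
    rw [e6, dt_sub_right, dt_smul_right, dt_swap w1 w, hy.1] at e5
    linarith
  · rw [← e4]; ring

/-- The walk around the corners. -/
lemma walk {A : Set (Pt ι)} (hfin : A.Finite) {R : (ι → ℤ × ℤ) → Prop} {j0 : ι}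
    (h : HCat A R j0) {w w' : ℤ × ℤ}
    {c : ι → ℤ × ℤ} (hC : Corner A w w' c) (hR : R c) :
    ∃ (g : ℕ → ℤ × ℤ) (C : ℕ → ι → ℤ × ℤ) (b : ℕ → ι → ℤ), g 0 = w ∧ C 0 = c ∧
      (∀ i, Corner A (g (i + 1)) (-g i) (C (i + 1))) ∧ (∀ i, R (C i)) ∧
      ∀ i j, 1 ≤ b i j ∧ C (i + 1) j = C i j + b i j • g i := by
  classical
  let St := {s : (ℤ × ℤ) × (ℤ × ℤ) × (ι → ℤ × ℤ) // Corner A s.1 s.2.1 s.2.2 ∧ R s.2.2}
  have hn : ∀ s : St, ∃ (t : St) (b : ι → ℤ), t.1.2.1 = - s.1.1 ∧
      ∀ j, 1 ≤ b j ∧ t.1.2.2 j = s.1.2.2 j + b j • s.1.1 := by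
    intro s
    obtain ⟨w1, c1, b, h1, h3, h2⟩ := next hfin h s.2.1
    exact ⟨⟨(w1, -s.1.1, c1), h1, h3⟩, b, rfl, h2⟩
  choose nx bb hnx1 hnx2 using hn
  let S : ℕ → St := fun i => nx^[i] ⟨(w, w', c), hC, hR⟩
  have hS : ∀ i, S (i + 1) = nx (S i) := fun i => Function.iterate_succ_apply' _ _ _
  refine ⟨fun i => (S i).1.1, fun i => (S i).1.2.2, fun i => bb (S i), rfl, rfl, ?_,
    fun i => (S i).2.2, ?_⟩
  · intro i
    have h1 := (S (i + 1)).2.1
    have h2 : (S (i + 1)).1.2.1 = -(S i).1.1 := by rw [hS]; exact hnx1 _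
    rw [h2] at h1
    exact h1
  · intro i j
    have := hnx2 (S i) j
    refine ⟨this.1, ?_⟩
    simp only
    rw [hS]
    exact this.2

/-- Bounded functionals. -/
lemma dt_bdd {A : Set (Pt ι)} (hfin : A.Finite) (w : ℤ × ℤ) :
    ∃ B : ℤ, ∀ z ∈ A, |dt w z.2| ≤ B := by
  classical
  rcases A.eq_empty_or_nonempty with rfl | hne
  · exact ⟨0, fun z hz => absurd hz (Set.notMem_empty z)⟩
  · obtain ⟨z, _, hz⟩ := Set.exists_max_image A (fun z => |dt w z.2|) hfin hne
    exact ⟨_, hz⟩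

/-- Along the walk the height cannot increase forever. -/
lemma exists_nonpos {A : Set (Pt ι)} (hfin : A.Finite) (j : ι) (w : ℤ × ℤ)
    {g : ℕ → ℤ × ℤ} {C : ℕ → ι → ℤ × ℤ} {b : ℕ → ι → ℤ}
    (hmem : ∀ i j, (j, C (i + 1) j) ∈ A)
    (hb : ∀ i j, 1 ≤ b i j ∧ C (i + 1) j = C i j + b i j • g i) (i0 : ℕ) :
    ∃ i, i0 ≤ i ∧ dt w (g i) ≤ 0 := by
  by_contra hcon
  push Not at hcon
  obtain ⟨B, hB⟩ := dt_bdd hfin w
  have hgrow : ∀ t : ℕ, dt w (C (i0 + 1) j) + t ≤ dt w (C (i0 + 1 + t) j) := by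
    intro t
    induction t with
    | zero => simp
    | succ t ih =>
      obtain ⟨h1, h2⟩ := hb (i0 + 1 + t) j
      rw [show i0 + 1 + (t + 1) = i0 + 1 + t + 1 by ring, h2, dt_add_right, dt_smul_right]
      have h3 := hcon (i0 + 1 + t) (by omega)
      have h4 : 1 ≤ b (i0 + 1 + t) j * dt w (g (i0 + 1 + t)) := by nlinarith
      push_cast
      linarith
  have h1 := hB _ (hmem i0 j)
  have h2 := hgrow (2 * B + 1).toNat
  have h3 := hB _ (hmem (i0 + (2 * B + 1).toNat) j)
  rw [show i0 + (2 * B + 1).toNat + 1 = i0 + 1 + (2 * B + 1).toNat by ring] at h3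
  have h4 : 0 ≤ B := (abs_nonneg _).trans h1
  rw [Int.toNat_of_nonneg (by omega)] at h2
  have h5 := neg_le_of_abs_le h1
  have h6 := le_of_abs_le h3
  simp only at h5 h6
  linarith

/-- In the cone of a corner. -/
lemma Corner.coeff {A : Set (Pt ι)} {w w' : ℤ × ℤ} {c : ι → ℤ × ℤ} (hC : Corner A w w' c)
    (u : ℤ × ℤ) {j : ι} {z : ℤ × ℤ} (hz : (j, z) ∈ A) :
    ∃ α β : ℤ, 0 ≤ α ∧ 0 ≤ β ∧ z = c j + α • w + β • w' ∧
      dt u z = dt u (c j) + α * dt u w + β * dt u w' ∧
      dt z u = dt (c j) u + α * dt w u + β * dt w' u := by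
  obtain ⟨h1, h2⟩ := hC.cone j z hz
  have h3 : z = c j + dt (z - c j) w' • w + dt w (z - c j) • w' := by
    have := expand hC.det (z - c j)
    rw [add_assoc, ← this]; ring
  refine ⟨dt (z - c j) w', dt w (z - c j), h2, h1, h3, ?_, ?_⟩
  · conv_lhs => rw [h3]
    rw [dt_add_right, dt_add_right, dt_smul_right, dt_smul_right]
  · conv_lhs => rw [h3]
    rw [dt_add_left, dt_add_left, dt_smul_left, dt_smul_left]

lemma periodic {α : Type*} {n : ℕ} [NeZero n] {G : ℕ → α} (hG : G n = G 0) (m : ZMod n) :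
    G (m + 1).val = G (m.val + 1) := by
  have e : m + 1 = ((m.val + 1 : ℕ) : ZMod n) := by
    rw [Nat.cast_add, Nat.cast_one, ZMod.natCast_zmod_val]
  rcases (Nat.succ_le_of_lt (ZMod.val_lt m)).lt_or_eq with h | h
  · rw [e, ZMod.val_cast_of_lt h]
  · have h' : m.val + 1 = n := h
    rw [e, h', ZMod.natCast_self, ZMod.val_zero, hG]

/-- The fan of a closed walk. -/
def walkFan (n : ℕ) [NeZero n] (w w' : ℤ × ℤ) (hw : dt w w' = 1) (g : ℕ → ℤ × ℤ)
    (hg : ∀ i, dt (g i) (g (i + 1)) = 1) (hgn : g n = g 0) : Fan n where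
  p m := dt w (g m.val)
  q m := - dt (g m.val) w'
  det m := by
    have e : g (m + 1).val = g (m.val + 1) := periodic hgn m
    rw [e]
    have h1 := hg m.val
    rw [dt_plucker hw] at h1
    linarith

/-- The data extracted from a configuration. -/
def Extracted (A : Set (Pt ι)) (w w' : ℤ × ℤ) {n : ℕ} (F : Fan n) (a : ι → ZMod n → ℤ) : Prop :=
  (∀ j z, (j, z) ∈ A → ∀ m, F.p m * dt z w' + F.q m * dt w z ≤ a j m) ∧
    ∀ j m, (j, F.ux (a j) m • w + F.uy (a j) m • w') ∈ A

/-- A configuration with a common pair of parallel edges. -/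
theorem par_extract {A : Set (Pt ι)} (hfin : A.Finite) {R : (ι → ℤ × ℤ) → Prop} {j0 : ι}
    (h : HCat A R j0) {w w' : ℤ × ℤ}
    {c : ι → ℤ × ℤ} (hC : Corner A w w' c) (hR : R c) {j1 : ι} {z1 z2 : ℤ × ℤ}
    (h1 : (j1, z1) ∈ A) (h2 : (j1, z2) ∈ A) (hne : z1 ≠ z2)
    (hmax : ∀ z, (j1, z) ∈ A → dt w z ≤ dt w z1 ∧ dt w z ≤ dt w z2) :
    ∃ (n : ℕ) (_ : NeZero n) (F : Fan n) (N N' : ℕ) (a : ι → ZMod n → ℤ), TwoChain F N N' ∧
      (∀ j m, 1 ≤ F.len (a j) m) ∧ Extracted A w w' F a ∧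
      ∀ m, R (fun j => F.ux (a j) m • w + F.uy (a j) m • w') := by
  classical
  obtain ⟨g, C, b, g0, C0, hcor, hRC, hb⟩ := walk hfin h hC hR
  have hdet : ∀ i, dt (g i) (g (i + 1)) = 1 := by
    intro i
    have := (hcor i).det
    rw [dt_neg_right, dt_swap, neg_neg] at this
    exact this
  have hpl : ∀ i, dt (g i) w' * dt w (g (i + 1)) - dt w (g i) * dt (g (i + 1)) w' = 1 := by
    intro i
    rw [← dt_plucker hC.det, hdet]
  have y0 : dt w (g 0) = 0 := by rw [g0, dt_self]
  have x0 : dt (g 0) w' = 1 := by rw [g0, hC.det]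
  have y1 : dt w (g 1) = 1 := by
    have := hpl 0
    rw [y0, x0] at this
    simp only [zero_add] at this
    linarith
  have hCmem : ∀ i j, (j, C (i + 1) j) ∈ A := fun i j => (hcor i).mem j
  -- the top
  have hexM : ∃ i, 1 ≤ i ∧ dt w (g i) ≤ 0 := exists_nonpos hfin j0 w hCmem hb 1
  set M := Nat.find hexM with hMdef
  obtain ⟨hM1, hMy⟩ : 1 ≤ M ∧ dt w (g M) ≤ 0 := Nat.find_spec hexM
  have hMmin : ∀ i, 1 ≤ i → i < M → 0 < dt w (g i) := by
    intro i hi hiM
    have := Nat.find_min hexM hiM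
    push Not at this
    exact this hi
  have hM2 : 2 ≤ M := by
    by_contra hcon
    have : M = 1 := by omega
    rw [this, y1] at hMy
    omega
  have hcM : Corner A (g M) (-g (M - 1)) (C M) := by
    have := hcor (M - 1)
    rwa [show M - 1 + 1 = M by omega] at this
  have yM1 := hMmin (M - 1) (by omega) (by omega)
  have yM : dt w (g M) = 0 := by
    by_contra hcon
    have hneg : dt w (g M) < 0 := lt_of_le_of_ne hMy hcon
    have key : ∀ z, (j1, z) ∈ A → dt w (C M j1) ≤ dt w z → z = C M j1 := by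
      intro z hz hle
      obtain ⟨α, β, ha, hb', e1, e2, _⟩ := hcM.coeff w hz
      rw [dt_neg_right] at e2
      have h3 : α * dt w (g M) ≤ 0 := mul_nonpos_of_nonneg_of_nonpos ha hneg.le
      have h4 : 0 ≤ β * dt w (g (M - 1)) := mul_nonneg hb' yM1.le
      have h5 : α * dt w (g M) = 0 := by linarith
      have h6 : β * dt w (g (M - 1)) = 0 := by linarith
      have h7 : α = 0 := by
        rcases mul_eq_zero.1 h5 with h | h
        · exact h
        · omega
      have h8 : β = 0 := by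
        rcases mul_eq_zero.1 h6 with h | h
        · exact h
        · omega
      rw [h7, h8] at e1
      simpa using e1
    have k1 := key z1 h1 (hmax _ (hcM.mem j1)).1
    have k2 := key z2 h2 (hmax _ (hcM.mem j1)).2
    exact hne (k1.trans k2.symm)
  have xM : dt (g M) w' = -1 := by
    have := hpl (M - 1)
    rw [show M - 1 + 1 = M by omega, yM] at this
    have h3 : dt w (g (M - 1)) * (- dt (g M) w') = 1 := by linarith
    rcases Int.eq_one_or_neg_one_of_mul_eq_one' h3 with h | h <;> omega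
  have yM2 : dt w (g (M + 1)) = -1 := by
    have := hpl M
    rw [yM, xM] at this
    linarith
  -- the bottom
  have hexn : ∃ i, M + 1 ≤ i ∧ 0 ≤ dt w (g i) := by
    obtain ⟨i, hi1, hi2⟩ := exists_nonpos hfin j0 (-w) hCmem hb (M + 1)
    rw [dt_neg_left] at hi2
    exact ⟨i, hi1, by omega⟩
  set n := Nat.find hexn with hndef
  obtain ⟨hn1, hny⟩ : M + 1 ≤ n ∧ 0 ≤ dt w (g n) := Nat.find_spec hexn
  have hnmin : ∀ i, M + 1 ≤ i → i < n → dt w (g i) < 0 := by
    intro i hi hin
    have := Nat.find_min hexn hin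
    push Not at this
    exact this hi
  have hn2 : M + 2 ≤ n := by
    by_contra hcon
    have : n = M + 1 := by omega
    rw [this, yM2] at hny
    omega
  have hcn : Corner A (g n) (-g (n - 1)) (C n) := by
    have := hcor (n - 1)
    rwa [show n - 1 + 1 = n by omega] at this
  have yn1 := hnmin (n - 1) (by omega) (by omega)
  have keyn : ∀ j z, (j, z) ∈ A → dt w z = dt w (c j) →
      ∃ α : ℤ, 0 ≤ α ∧ z = C n j + α • g n ∧ α * dt w (g n) = 0 := by
    intro j z hz hle
    obtain ⟨α, β, ha, hb', e1, e2, _⟩ := hcn.coeff w hz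
    have h3 := (hC.cone j _ (hcn.mem j)).1
    rw [dt_sub_right] at h3
    rw [dt_neg_right] at e2
    have h4 : 0 ≤ α * dt w (g n) := mul_nonneg ha hny
    have h5 : β * dt w (g (n - 1)) ≤ 0 := mul_nonpos_of_nonneg_of_nonpos hb' yn1.le
    have h6 : α * dt w (g n) = 0 := by linarith
    have h7 : β * dt w (g (n - 1)) = 0 := by linarith
    have h8 : β = 0 := by
      rcases mul_eq_zero.1 h7 with h | h
      · exact h
      · omega
    refine ⟨α, ha, ?_, h6⟩
    rw [h8] at e1
    simpa using e1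
  have yn : dt w (g n) = 0 := by
    by_contra hcon
    obtain ⟨α, _, e1, e2⟩ := keyn j0 _ (hC.mem j0) rfl
    obtain ⟨α', _, e1', e2'⟩ := keyn j0 _ (hC.mem_w j0) (by rw [dt_add_right, dt_self, add_zero])
    have a1 : α = 0 := (mul_eq_zero.1 e2).resolve_right hcon
    have a2 : α' = 0 := (mul_eq_zero.1 e2').resolve_right hcon
    rw [a1] at e1
    rw [a2] at e1'
    rw [← e1'] at e1
    have : w = 0 := by
      have : c j0 + w = c j0 := by simpa using e1.symm
      simpa using this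
    have hd := hC.det
    rw [this] at hd
    simp [dt] at hd
  have xn : dt (g n) w' = 1 := by
    have := hpl (n - 1)
    rw [show n - 1 + 1 = n by omega, yn] at this
    have h3 : dt w (g (n - 1)) * (- dt (g n) w') = 1 := by linarith
    rcases Int.eq_one_or_neg_one_of_mul_eq_one' h3 with h | h <;> omega
  have gn : g n = g 0 := by
    refine eq_of_dt hC.det ?_ ?_
    · rw [xn, x0]
    · rw [yn, y0]
  have Cn : ∀ j, C n j = C 0 j := by
    intro j
    obtain ⟨α, ha, e1, _⟩ := keyn j _ (hC.mem j) rfl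
    have h3 := (hC.cone j _ (hcn.mem j)).2
    have e2 : C n j - c j = -(α • w) := by
      rw [e1, gn, g0]; ring
    rw [e2, dt_neg_left, dt_smul_left, hC.det] at h3
    have : α = 0 := by omega
    rw [C0, e1, this]; simp
  have hnz : NeZero n := ⟨by omega⟩
  -- the fan
  set F : Fan n := walkFan n w w' hC.det g hdet gn with hF
  have hp : ∀ m : ZMod n, F.p m = dt w (g m.val) := fun m => rfl
  have hq : ∀ m : ZMod n, F.q m = - dt (g m.val) w' := fun m => rfl
  let a : ι → ZMod n → ℤ := fun j m => - dt (g m.val) (C m.val j)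
  have ha1 : ∀ j (m : ZMod n), a j (m + 1) = - dt (g (m.val + 1)) (C (m.val + 1) j) := by
    intro j m
    exact periodic (G := fun i => - dt (g i) (C i j)) (by rw [gn, Cn]) m
  have hCs : ∀ i j, C (i + 1) j = C i j + b i j • g i := fun i j => (hb i j).2
  have ha0 : ∀ j (m : ZMod n), a j m = - dt (g m.val) (C (m.val + 1) j) := by
    intro j m
    simp only [a]
    rw [hCs, dt_add_right, dt_smul_right, dt_self]
    ring
  have hux : ∀ j (m : ZMod n), F.ux (a j) m = dt (C (m.val + 1) j) w' := by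
    intro j m
    have q1 : F.q (m + 1) = - dt (g (m.val + 1)) w' :=
      periodic (G := fun i => - dt (g i) w') (by rw [gn]) m
    rw [Fan.ux, q1, ha1, ha0, hq, dt_plucker hC.det (g m.val) (C (m.val + 1) j),
      dt_plucker hC.det (g (m.val + 1)) (C (m.val + 1) j)]
    have := hpl m.val
    linear_combination (dt (C (m.val + 1) j) w') * this
  have huy : ∀ j (m : ZMod n), F.uy (a j) m = dt w (C (m.val + 1) j) := by
    intro j m
    have q1 : F.p (m + 1) = dt w (g (m.val + 1)) :=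
      periodic (G := fun i => dt w (g i)) (by rw [gn]) m
    rw [Fan.uy, q1, ha1, ha0, hp, dt_plucker hC.det (g m.val) (C (m.val + 1) j),
      dt_plucker hC.det (g (m.val + 1)) (C (m.val + 1) j)]
    have := hpl m.val
    linear_combination (dt w (C (m.val + 1) j)) * this
  have hCper : ∀ j (m : ZMod n), C ((m - 1).val + 1) j = C m.val j := by
    intro j m
    have := periodic (G := fun i => C i j) (Cn j) (m - 1)
    rw [sub_add_cancel] at this
    exact this.symm
  have hcorall : ∀ i, ∃ v, Corner A (g i) v (C i) := by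
    intro i
    rcases Nat.eq_zero_or_pos i with h | h
    · subst h; rw [g0, C0]; exact ⟨w', hC⟩
    · have := hcor (i - 1)
      rw [show i - 1 + 1 = i by omega] at this
      exact ⟨_, this⟩
  refine ⟨n, hnz, F, M - 1, n - M - 1, a, ⟨by omega, ?_, ?_, ?_, ?_, ?_, ?_⟩, ?_, ⟨?_, ?_⟩, ?_⟩
  · rw [hp, ZMod.val_zero]; exact y0
  · rw [hq, ZMod.val_zero, x0]
  · rw [hp, ZMod.val_cast_of_lt (by omega), show M - 1 + 1 = M by omega]; exact yM
  · rw [hq, ZMod.val_cast_of_lt (by omega), show M - 1 + 1 = M by omega, xM]; rfl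
  · intro i hi1 hi2
    rw [hp, ZMod.val_cast_of_lt (by omega)]
    exact hMmin i hi1 (by omega)
  · intro i hi1 hi2
    have e : -(i : ZMod n) = ((n - i : ℕ) : ZMod n) := by
      rw [Nat.cast_sub (by omega), ZMod.natCast_self]; ring
    rw [e, hp, ZMod.val_cast_of_lt (by omega)]
    exact hnmin _ (by omega) (by omega)
  · intro j m
    have e1 := F.ux_prev (a j) m
    have e2 := F.uy_prev (a j) m
    rw [hux, hux, hCper, hCs, hq, dt_add_left, dt_smul_left] at e1
    rw [huy, huy, hCper, hCs, hp, dt_add_right, dt_smul_right] at e2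
    have e3 := hpl m.val
    have e4 : b m.val j - F.len (a j) m = 0 := by
      linear_combination (-(b m.val j - F.len (a j) m)) * e3 - dt w (g (m.val + 1)) * e1 +
        dt (g (m.val + 1)) w' * e2
    have := (hb m.val j).1
    omega
  · intro j z hz m
    obtain ⟨v, hv⟩ := hcorall m.val
    have h3 := (hv.cone j z hz).1
    rw [dt_sub_right] at h3
    have e := dt_plucker hC.det (g m.val) z
    simp only [a]
    rw [hp, hq]
    linarith
  · intro j m
    rw [hux, huy, ← expand hC.det]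
    exact hCmem _ _
  · intro m
    have e : (fun j => F.ux (a j) m • w + F.uy (a j) m • w') = C (m.val + 1) := by
      funext j
      rw [hux, huy, ← expand hC.det]
    rw [e]
    exact hRC _

lemma pos_of_mul_pos_of_pos_left' {a b : ℤ} (h : 0 < a * b) (ha : 0 < a) : 0 < b := by
  by_contra hcon
  push Not at hcon
  have := mul_nonpos_of_nonneg_of_nonpos ha.le hcon
  linarith

/-- Either some edge has a parallel opposite edge, or we have triangles. -/
theorem dichotomy {A : Set (Pt ι)} (hfin : A.Finite) {R : (ι → ℤ × ℤ) → Prop} {j0 : ι}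
    (h : HCat A R j0) (hex : ∃ w w' c, Corner A w w' c ∧ R c) :
    ∃ w w' c, Corner A w w' c ∧ R c ∧
      ((∃ (j1 : ι) (z1 z2 : ℤ × ℤ), (j1, z1) ∈ A ∧ (j1, z2) ∈ A ∧ z1 ≠ z2 ∧
        ∀ z, (j1, z) ∈ A → dt w z ≤ dt w z1 ∧ dt w z ≤ dt w z2) ∨
      ∃ (C1 C2 : ι → ℤ × ℤ) (b b1 : ι → ℤ), Corner A (w' - w) (-w) C1 ∧ R C1 ∧
        (∀ j, 1 ≤ b j ∧ C1 j = c j + b j • w) ∧ Corner A (-w') (w - w') C2 ∧ R C2 ∧
        ∀ j, C2 j = C1 j + b1 j • (w' - w)) := by
  classical
  let T : Set ((ℤ × ℤ) × (ℤ × ℤ)) := {p | ∃ c, Corner A p.1 p.2 c ∧ R c}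
  have hTfin : T.Finite := by
    have hD : ((fun q : Pt ι × Pt ι => q.1.2 - q.2.2) '' (A ×ˢ A)).Finite :=
      (hfin.prod hfin).image _
    refine (hD.prod hD).subset ?_
    rintro ⟨w, w'⟩ ⟨c, hC, _⟩
    refine ⟨⟨((j0, c j0 + w), (j0, c j0)), ⟨hC.mem_w j0, hC.mem j0⟩, ?_⟩,
      ⟨((j0, c j0 + w'), (j0, c j0)), ⟨hC.mem_w' j0, hC.mem j0⟩, ?_⟩⟩
    · simp
    · simp
  obtain ⟨w₀, w₀', c₀, hC₀, hR₀⟩ := hex
  obtain ⟨⟨w, w'⟩, ⟨c, hC, hR⟩, hmaxdot⟩ := Set.exists_max_image T
    (fun p => p.1.1 * p.2.1 + p.1.2 * p.2.2) hTfin ⟨(w₀, w₀'), c₀, hC₀, hR₀⟩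
  simp only at hC
  have hw0 : w ≠ 0 := by
    rintro rfl
    have := hC.det
    simp [dt] at this
  have hw0' : w' ≠ 0 := by
    rintro rfl
    have := hC.det
    simp [dt] at this
  obtain ⟨g, C, b, g0, C0, hcor, hRC, hb⟩ := walk hfin h hC hR
  have hdet : ∀ i, dt (g i) (g (i + 1)) = 1 := by
    intro i
    have := (hcor i).det
    rw [dt_neg_right, dt_swap, neg_neg] at this
    exact this
  have hpl : ∀ i, dt (g i) w' * dt w (g (i + 1)) - dt w (g i) * dt (g (i + 1)) w' = 1 := by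
    intro i
    rw [← dt_plucker hC.det, hdet]
  have y0 : dt w (g 0) = 0 := by rw [g0, dt_self]
  have x0 : dt (g 0) w' = 1 := by rw [g0, hC.det]
  have y1 : dt w (g 1) = 1 := by
    have := hpl 0
    rw [y0, x0] at this
    simp only [zero_add] at this
    linarith
  have hCmem : ∀ i j, (j, C (i + 1) j) ∈ A := fun i j => (hcor i).mem j
  have hexM : ∃ i, 1 ≤ i ∧ dt w (g i) ≤ 0 := exists_nonpos hfin j0 w hCmem hb 1
  set M := Nat.find hexM with hMdef
  obtain ⟨hM1, hMy⟩ : 1 ≤ M ∧ dt w (g M) ≤ 0 := Nat.find_spec hexM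
  have hMmin : ∀ i, 1 ≤ i → i < M → 0 < dt w (g i) := by
    intro i hi hiM
    have := Nat.find_min hexM hiM
    push Not at this
    exact this hi
  have hM2 : 2 ≤ M := by
    by_contra hcon
    have : M = 1 := by omega
    rw [this, y1] at hMy
    omega
  have hcM : Corner A (g M) (-g (M - 1)) (C M) := by
    have := hcor (M - 1)
    rwa [show M - 1 + 1 = M by omega] at this
  have yM1 := hMmin (M - 1) (by omega) (by omega)
  have hplM := hpl (M - 1)
  rw [show M - 1 + 1 = M by omega] at hplM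
  have gne : ∀ i, g i ≠ 0 := by
    intro i hi
    have := hdet i
    rw [hi] at this
    simp [dt] at this
  rcases hMy.lt_or_eq with yM | yM
  swap
  · -- parallel to the base edge
    refine ⟨w, w', c, hC, hR, Or.inl ⟨j0, C M j0, C M j0 + g M, hcM.mem j0, hcM.mem_w j0, ?_, ?_⟩⟩
    · intro hcon
      apply gne M
      have : C M j0 + g M = C M j0 := hcon.symm
      simpa using this
    · intro z hz
      obtain ⟨α, β, ha, hb', e1, e2, _⟩ := hcM.coeff w hz
      rw [dt_neg_right, yM] at e2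
      have h4 : 0 ≤ β * dt w (g (M - 1)) := mul_nonneg hb' yM1.le
      rw [dt_add_right, yM]
      constructor <;> linarith
  by_cases hx0 : ∃ i, 1 ≤ i ∧ i < M ∧ dt (g i) w' = 0
  · -- parallel to the other edge
    obtain ⟨i, hi1, hiM, hxi⟩ := hx0
    have hyi := hMmin i hi1 hiM
    have h3 := hpl (i - 1)
    rw [show i - 1 + 1 = i by omega, hxi] at h3
    have h4 : dt w (g i) = 1 := by
      have h5 : dt (g (i - 1)) w' * dt w (g i) = 1 := by linarith
      rcases Int.eq_one_or_neg_one_of_mul_eq_one' h5 with h | h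
      · exact h.2
      · omega
    have hgi : g i = w' := by
      refine eq_of_dt hC.det ?_ ?_
      · rw [hxi, dt_self]
      · rw [h4, hC.det]
    have hci : Corner A (g i) (-g (i - 1)) (C i) := by
      have := hcor (i - 1)
      rwa [show i - 1 + 1 = i by omega] at this
    rw [hgi] at hci
    refine ⟨w', -g (i - 1), C i, hci, hRC i,
      Or.inl ⟨j0, c j0, c j0 + w', hC.mem j0, hC.mem_w' j0, ?_, ?_⟩⟩
    · intro hcon
      apply hw0'
      have : c j0 + w' = c j0 := hcon.symm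
      simpa using this
    · intro z hz
      have := (hC.cone j0 z hz).2
      rw [dt_sub_left] at this
      rw [dt_add_right, dt_self, dt_swap w' z, dt_swap w' (c j0)]
      constructor <;> linarith
  push Not at hx0
  have hxM1 := hx0 (M - 1) (by omega) (by omega)
  rcases lt_or_gt_of_ne hxM1 with hneg | hpos
  swap
  · -- excluded by the choice of the base corner
    exfalso
    have xM : dt (g M) w' < 0 := by
      by_contra hcon
      push Not at hcon
      have h3 : 0 ≤ dt w (g (M - 1)) * dt (g M) w' := mul_nonneg yM1.le hcon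
      have h4 : dt (g (M - 1)) w' * dt w (g M) < 0 := mul_neg_of_pos_of_neg hpos yM
      linarith
    have hle := hmaxdot (g M, -g (M - 1)) ⟨C M, hcM, hRC M⟩
    simp only [Prod.fst_neg, Prod.snd_neg] at hle
    have eM := expand hC.det (g M)
    have eM1 := expand hC.det (g (M - 1))
    set xm := dt (g M) w'
    set ym := dt w (g M)
    set x := dt (g (M - 1)) w'
    set y := dt w (g (M - 1))
    have c1 : (g M).1 = xm * w.1 + ym * w'.1 := by rw [eM]; simp
    have c2 : (g M).2 = xm * w.2 + ym * w'.2 := by rw [eM]; simp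
    have c3 : (g (M - 1)).1 = x * w.1 + y * w'.1 := by rw [eM1]; simp
    have c4 : (g (M - 1)).2 = x * w.2 + y * w'.2 := by rw [eM1]; simp
    rw [c1, c2, c3, c4] at hle
    have hwpos : 0 < w.1 ^ 2 + w.2 ^ 2 := by
      rcases eq_or_ne w.1 0 with h5 | h5
      · have h6 : w.2 ≠ 0 := fun h => hw0 (Prod.ext h5 h)
        have := sq_nonneg w.1
        have := pow_pos (abs_pos.2 h6) 2
        rw [sq_abs] at this
        linarith
      · have := sq_nonneg w.2
        have := pow_pos (abs_pos.2 h5) 2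
        rw [sq_abs] at this
        linarith
    have key : y * (((xm * w.1 + ym * w'.1) * -(x * w.1 + y * w'.1) +
        (xm * w.2 + ym * w'.2) * -(x * w.2 + y * w'.2)) - (w.1 * w'.1 + w.2 * w'.2)) =
        (-ym) * ((x * w.1 + y * w'.1) ^ 2 + (x * w.2 + y * w'.2) ^ 2) +
          x * (w.1 ^ 2 + w.2 ^ 2) := by
      linear_combination (x * (w.1 ^ 2 + w.2 ^ 2) + y * (w.1 * w'.1 + w.2 * w'.2)) * hplM
    have p1 : 0 ≤ (-ym) * ((x * w.1 + y * w'.1) ^ 2 + (x * w.2 + y * w'.2) ^ 2) := by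
      apply mul_nonneg (by linarith)
      positivity
    have p2 : 0 < x * (w.1 ^ 2 + w.2 ^ 2) := mul_pos hpos hwpos
    have p3 : y * (((xm * w.1 + ym * w'.1) * -(x * w.1 + y * w'.1) +
        (xm * w.2 + ym * w'.2) * -(x * w.2 + y * w'.2)) - (w.1 * w'.1 + w.2 * w'.2)) ≤ 0 :=
      mul_nonpos_of_nonneg_of_nonpos yM1.le (by linarith)
    linarith
  -- the triangle
  have hexK : ∃ i, 1 ≤ i ∧ dt (g i) w' ≤ 0 := ⟨M - 1, by omega, hneg.le⟩
  set K := Nat.find hexK with hKdef
  obtain ⟨hK1, hKx⟩ : 1 ≤ K ∧ dt (g K) w' ≤ 0 := Nat.find_spec hexK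
  have hKM : K ≤ M - 1 := Nat.find_min' hexK ⟨by omega, hneg.le⟩
  have hKx' : dt (g K) w' < 0 := lt_of_le_of_ne hKx (hx0 K hK1 (by omega))
  have hK : K = 1 := by
    by_contra hcon
    have h3 : 0 < dt (g (K - 1)) w' := by
      have := Nat.find_min hexK (m := K - 1) (by omega)
      push Not at this
      exact this (by omega)
    have h4 := hMmin (K - 1) (by omega) (by omega)
    have h5 := hMmin K hK1 (by omega)
    have h6 := hpl (K - 1)
    rw [show K - 1 + 1 = K by omega] at h6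
    nlinarith
  rw [hK] at hKx'
  have xM0 : 0 ≤ dt (g M) w' := by
    by_contra hcon
    push Not at hcon
    nlinarith
  have xM : dt (g M) w' = 0 := by
    by_contra hcon
    have hpos : 0 < dt (g M) w' := lt_of_le_of_ne xM0 (Ne.symm hcon)
    have key : ∀ z, (j0, z) ∈ A → dt z w' = dt (c j0) w' → z = C M j0 := by
      intro z hz hle
      obtain ⟨α, β, ha, hb', e1, _, e2⟩ := hcM.coeff w' hz
      have h3 := (hC.cone j0 _ (hcM.mem j0)).2
      rw [dt_sub_left] at h3
      rw [dt_neg_left] at e2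
      have h4 : 0 ≤ α * dt (g M) w' := mul_nonneg ha hpos.le
      have h5 : β * dt (g (M - 1)) w' ≤ 0 := mul_nonpos_of_nonneg_of_nonpos hb' hneg.le
      have h6 : α * dt (g M) w' = 0 := by linarith
      have h7 : β * dt (g (M - 1)) w' = 0 := by linarith
      have h8 : α = 0 := by
        rcases mul_eq_zero.1 h6 with h | h
        · exact h
        · omega
      have h9 : β = 0 := by
        rcases mul_eq_zero.1 h7 with h | h
        · exact h
        · omega
      rw [h8, h9] at e1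
      simpa using e1
    have k1 := key _ (hC.mem j0) rfl
    have k2 := key _ (hC.mem_w' j0) (by rw [dt_add_left, dt_self, add_zero])
    rw [← k1] at k2
    exact hw0' (by simpa using k2)
  rw [xM] at hplM
  have hM1' : dt (g (M - 1)) w' = -1 ∧ dt w (g M) = -1 := by
    have h5 : dt (g (M - 1)) w' * dt w (g M) = 1 := by linarith
    rcases Int.eq_one_or_neg_one_of_mul_eq_one' h5 with h | h
    · omega
    · exact h
  have hchain : ∀ i, 2 ≤ i → i < M → 0 < dt (g 1) (g i) := by
    intro i hi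
    induction i, hi using Nat.le_induction with
    | base => intro _; rw [hdet 1]; norm_num
    | succ i hi ih =>
      intro hiM
      have h3 := ih (by omega)
      have h4 := hMmin i (by omega) (by omega)
      have h5 := hMmin (i + 1) (by omega) hiM
      have h6 : dt w (g i) * dt (g 1) (g (i + 1)) = dt w (g (i + 1)) * dt (g 1) (g i) +
          dt w (g 1) * dt (g i) (g (i + 1)) := by
        rw [dt_plucker hC.det (g 1) (g (i + 1)), dt_plucker hC.det (g 1) (g i),
          dt_plucker hC.det (g i) (g (i + 1))]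
        ring
      rw [hdet, y1] at h6
      have h7 : 0 < dt w (g i) * dt (g 1) (g (i + 1)) := by
        rw [h6]
        have := mul_pos h5 h3
        linarith
      exact pos_of_mul_pos_of_pos_left' h7 h4
  have hM2' : M = 2 := by
    by_contra hcon
    have h3 := hchain (M - 1) (by omega) (by omega)
    rw [dt_plucker hC.det, hM1'.1, y1] at h3
    nlinarith
  rw [hM2'] at hM1' hcM xM
  simp only [Nat.add_one_sub_one] at hM1' hcM
  have hg1 : g 1 = w' - w := by
    refine eq_of_dt hC.det ?_ ?_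
    · rw [dt_sub_left, dt_self, hC.det]; exact hM1'.1
    · rw [dt_sub_right, dt_self, hC.det]; exact y1
  have hg2 : g 2 = - w' := by
    refine eq_of_dt hC.det ?_ ?_
    · rw [dt_neg_left, dt_self, xM]; rfl
    · rw [dt_neg_right, hC.det]; exact hM1'.2
  refine ⟨w, w', c, hC, hR, Or.inr ⟨C 1, C 2, b 0, b 1, ?_, hRC 1, ?_, ?_, hRC 2, ?_⟩⟩
  · have := hcor 0
    rw [g0] at this
    simp only [zero_add] at this
    rwa [hg1] at this
  · intro j
    have := hb 0 j
    rw [g0, C0] at this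
    exact this
  · rw [hg2, hg1, neg_sub] at hcM
    exact hcM
  · intro j
    have := (hb 1 j).2
    rw [hg1] at this
    exact this

end Pool.Agent.Helper517.Walk
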